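import Mathlib

/-!
PROJECT DP (MP_6f57c3_an, Donaldson's perturbed geodesic equation, circle invariant case).
Definitions used everywhere.  A grid function is `f : ZMod N → ℝ`; the mesh is `1/N`.
-/

namespace Pool.Agent.H37.DP

open Set Filter Topology

/-- mean value of a grid function -/
noncomputable def avg {N : ℕ} [NeZero N] (f : ZMod N → ℝ) : ℝ := (∑ i, f i) / N

/-- mean of the square -/
noncomputable def sq {N : ℕ} [NeZero N] (f : ZMod N → ℝ) : ℝ := avg (fun i => (f i) ^ 2)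

/-- forward difference quotient with step `1/N` -/
def D {N : ℕ} (f : ZMod N → ℝ) : ZMod N → ℝ := fun i => N * (f (i + 1) - f i)

/-- centred second difference quotient -/
def L {N : ℕ} (f : ZMod N → ℝ) : ZMod N → ℝ :=
  fun i => (N : ℝ) ^ 2 * (f (i + 1) + f (i - 1) - 2 * f i)

/-- the discrete density `w = 1 + L V` -/
def W {N : ℕ} (V : ZMod N → ℝ) : ZMod N → ℝ := fun i => 1 + L V i

/-- pointwise inverse, `G = 1 / w` -/
noncomputable def ginv {N : ℕ} (w : ZMod N → ℝ) : ZMod N → ℝ := fun i => (w i)⁻¹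

/-- `K2 w = ‖L (1/w)‖²` (the discrete `∫ R²`) -/
noncomputable def K2 {N : ℕ} [NeZero N] (w : ZMod N → ℝ) : ℝ := sq (L (ginv w))

/-- `Y w = avg ((D w)² / (w + w₊))` (the discrete Fisher information) -/
noncomputable def Yq {N : ℕ} [NeZero N] (w : ZMod N → ℝ) : ℝ :=
  avg (fun i => (D w i) ^ 2 / (w i + w (i + 1)))

/-- `S w = avg (w² (L (1/w))²)` -/
noncomputable def Sq {N : ℕ} [NeZero N] (w : ZMod N → ℝ) : ℝ :=
  avg (fun i => (w i * L (ginv w) i) ^ 2)

/-- `Pq w i = (D w i)² / (w i * w (i+1))` -/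
noncomputable def Pq {N : ℕ} (w : ZMod N → ℝ) : ZMod N → ℝ :=
  fun i => (D w i) ^ 2 / (w i * w (i + 1))

/-- `Q w = avg (Pq w)²` -/
noncomputable def Qv {N : ℕ} [NeZero N] (w : ZMod N → ℝ) : ℝ := sq (Pq w)

/-- `X = ‖n_yy / w‖² + lam * K2 w`, where `n` is the time derivative of `V` and `w = W V`. -/
noncomputable def Xq {N : ℕ} [NeZero N] (lam : ℝ) (V n : ZMod N → ℝ) : ℝ :=
  sq (fun i => L n i / W V i) + lam * K2 (W V)

/-- `Pp = - avg (n * L (1/w))`, the time derivative of the entropy `M`. -/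
noncomputable def Pp {N : ℕ} [NeZero N] (V n : ZMod N → ℝ) : ℝ :=
  - avg (fun i => n i * L (ginv (W V)) i)

/-- the entropy `M = - avg log w` -/
noncomputable def Mq {N : ℕ} [NeZero N] (V : ZMod N → ℝ) : ℝ :=
  - avg (fun i => Real.log (W V i))

/-- `V` (with time derivative `V1`) is a solution on `[0,1]` of the semi-discrete equation
`V_tt = - lam * L (1 / (1 + L V))`. -/
structure IsSol (N : ℕ) [NeZero N] (lam : ℝ) (V V1 : ℝ → ZMod N → ℝ) : Prop where
  dV : ∀ t ∈ Icc (0 : ℝ) 1, ∀ i, HasDerivAt (fun s => V s i) (V1 t i) t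
  pos : ∀ t ∈ Icc (0 : ℝ) 1, ∀ i, 0 < W (V t) i
  dV1 : ∀ t ∈ Icc (0 : ℝ) 1, ∀ i,
    HasDerivAt (fun s => V1 s i) (-lam * L (ginv (W (V t))) i) t

/-- bounds for boundary data: `c ≤ 1 + L f` and `|D^k f| ≤ B k` for all `k`. -/
structure Data {N : ℕ} (c : ℝ) (B : ℕ → ℝ) (f : ZMod N → ℝ) : Prop where
  pos : ∀ i, c ≤ W f i
  bd : ∀ k i, |(D^[k] f) i| ≤ B k

/-- the class of solutions with boundary data bounded by `c, B`. -/
structure Cls (N : ℕ) [NeZero N] (lam c : ℝ) (B : ℕ → ℝ) (V V1 : ℝ → ZMod N → ℝ) : Prop where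
  hN : 3 ≤ N
  sol : IsSol N lam V V1
  d0 : Data c B (V 0)
  d1 : Data c B (V 1)

end Pool.Agent.H37.DP
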