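import Mathlib

/-!
MODULE EA: a two point boundary value problem `V'' = F V`, `V 0 = a`, `V 1 = b` by the Banach
fixed point theorem.  `E` is a Banach space, `F : E → E` with
`‖F x - F y - κ (x - y)‖ ≤ κ ‖x - y‖`, `κ > 0`.

PROOF.  `μ = √κ`.  For a continuous `g : ℝ → E` define for all real `t`
`S g t = (sinh(μ(1-t)) a + sinh(μ t) b)/sinh μ - (1/(μ sinh μ)) (sinh(μ(1-t)) ∫_0^t sinh(μ s) g s
 + sinh(μ t) ∫_t^1 sinh(μ(1-s)) g s)`.
Then `S g` is `C²` on the line with `(S g)'' = κ S g + g` everywhere (differentiate with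
`intervalIntegral.integral_hasDerivAt_right/left`; the first derivative is
`μ(-cosh(μ(1-t)) a + cosh(μ t) b)/sinh μ - (1/sinh μ)(- cosh(μ(1-t)) ∫_0^t sinh(μ s) g
 + cosh(μ t) ∫_t^1 sinh(μ(1-s)) g)`), `S g 0 = a`, `S g 1 = b`, and for `t ∈ [0,1]`
`‖S g t - S g' t‖ ≤ (1/(μ sinh μ)) (sinh(μ(1-t)) ∫_0^t sinh(μ s) + sinh(μ t) ∫_t^1 sinh(μ(1-s)))
 sup ‖g - g'‖ = (1/κ)(1 - cosh(μ(t-1/2))/cosh(μ/2)) sup ‖g - g'‖ ≤ (q/κ) sup ‖g-g'‖`,
`q = 1 - 1/cosh(μ/2) < 1`.
On the complete space `C([0,1], E)` (`ContinuousMap` on `Icc 0 1`) the map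
`u ↦ S (F ∘ u ∘ proj - κ u ∘ proj)|_[0,1]` (`proj = projIcc 0 1`) is Lipschitz with constant
`q < 1` (`F` is continuous, even Lipschitz with constant `2κ`).  Let `u` be its fixed point and
`V = S (F ∘ u ∘ proj - κ u ∘ proj)` on the whole line, `V1 = V'`.  On `[0,1]` `V = u`, so
`V'' = κ V + F V - κ V = F V` (two sided derivatives, also at `0` and `1`).
-/

namespace Pool.Agent.H37.DP

open Set Filter Topology

section ea

variable {E : Type*} [NormedAddCommGroup E] [NormedSpace ℝ E]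

private noncomputable def ea_P (μ : ℝ) (g : ℝ → E) (t : ℝ) : E :=
  ∫ s in (0 : ℝ)..t, Real.sinh (μ * s) • g s

private noncomputable def ea_Q (μ : ℝ) (g : ℝ → E) (t : ℝ) : E :=
  ∫ s in (1 : ℝ)..t, Real.sinh (μ * (1 - s)) • g s

private noncomputable def ea_S (μ : ℝ) (a b : E) (g : ℝ → E) (t : ℝ) : E :=
  (Real.sinh (μ * (1 - t)) / Real.sinh μ) • a + (Real.sinh (μ * t) / Real.sinh μ) • b -
    (μ * Real.sinh μ)⁻¹ • (Real.sinh (μ * (1 - t)) • ea_P μ g t - Real.sinh (μ * t) • ea_Q μ g t)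

private noncomputable def ea_S1 (μ : ℝ) (a b : E) (g : ℝ → E) (t : ℝ) : E :=
  (-μ * Real.cosh (μ * (1 - t)) / Real.sinh μ) • a +
    (μ * Real.cosh (μ * t) / Real.sinh μ) • b -
    (Real.sinh μ)⁻¹ • (-(Real.cosh (μ * (1 - t)) • ea_P μ g t) -
      Real.cosh (μ * t) • ea_Q μ g t)

private lemma ea_dsinh (μ t : ℝ) :
    HasDerivAt (fun t => Real.sinh (μ * t)) (μ * Real.cosh (μ * t)) t := by
  have h : HasDerivAt (fun t : ℝ => μ * t) μ t := by
    simpa using (hasDerivAt_id t).const_mul μ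
  refine ((Real.hasDerivAt_sinh (μ * t)).comp t h).congr_deriv ?_
  ring

private lemma ea_dcosh (μ t : ℝ) :
    HasDerivAt (fun t => Real.cosh (μ * t)) (μ * Real.sinh (μ * t)) t := by
  have h : HasDerivAt (fun t : ℝ => μ * t) μ t := by
    simpa using (hasDerivAt_id t).const_mul μ
  refine ((Real.hasDerivAt_cosh (μ * t)).comp t h).congr_deriv ?_
  ring

private lemma ea_dsinh' (μ t : ℝ) :
    HasDerivAt (fun t => Real.sinh (μ * (1 - t))) (-(μ * Real.cosh (μ * (1 - t)))) t := by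
  have h : HasDerivAt (fun t : ℝ => μ * (1 - t)) (-μ) t := by
    simpa using ((hasDerivAt_id t).const_sub 1).const_mul μ
  have := (Real.hasDerivAt_sinh (μ * (1 - t))).comp t h
  refine this.congr_deriv ?_
  ring

private lemma ea_dcosh' (μ t : ℝ) :
    HasDerivAt (fun t => Real.cosh (μ * (1 - t))) (-(μ * Real.sinh (μ * (1 - t)))) t := by
  have h : HasDerivAt (fun t : ℝ => μ * (1 - t)) (-μ) t := by
    simpa using ((hasDerivAt_id t).const_sub 1).const_mul μ
  have := (Real.hasDerivAt_cosh (μ * (1 - t))).comp t h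
  refine this.congr_deriv ?_
  ring

private lemma ea_cont (μ : ℝ) {g : ℝ → E} (hg : Continuous g) :
    Continuous fun s => Real.sinh (μ * s) • g s :=
  (Real.continuous_sinh.comp (continuous_const.mul continuous_id)).smul hg

private lemma ea_cont' (μ : ℝ) {g : ℝ → E} (hg : Continuous g) :
    Continuous fun s => Real.sinh (μ * (1 - s)) • g s :=
  (Real.continuous_sinh.comp (continuous_const.mul (continuous_const.sub continuous_id))).smul hg

variable [CompleteSpace E]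

private lemma ea_dP (μ : ℝ) {g : ℝ → E} (hg : Continuous g) (t : ℝ) :
    HasDerivAt (ea_P μ g) (Real.sinh (μ * t) • g t) t :=
  ((ea_cont μ hg).integral_hasStrictDerivAt 0 t).hasDerivAt

private lemma ea_dQ (μ : ℝ) {g : ℝ → E} (hg : Continuous g) (t : ℝ) :
    HasDerivAt (ea_Q μ g) (Real.sinh (μ * (1 - t)) • g t) t :=
  ((ea_cont' μ hg).integral_hasStrictDerivAt 1 t).hasDerivAt

private lemma ea_dS {μ : ℝ} (hμ : 0 < μ) (a b : E) {g : ℝ → E} (hg : Continuous g) (t : ℝ) :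
    HasDerivAt (ea_S μ a b g) (ea_S1 μ a b g t) t := by
  have hs : Real.sinh μ ≠ 0 := (Real.sinh_pos_iff.2 hμ).ne'
  have hμ0 : μ ≠ 0 := hμ.ne'
  have h1 := ((ea_dsinh' μ t).div_const (Real.sinh μ)).smul_const a
  have h2 := ((ea_dsinh μ t).div_const (Real.sinh μ)).smul_const b
  have h3 := ((ea_dsinh' μ t).smul (ea_dP μ hg t)).sub ((ea_dsinh μ t).smul (ea_dQ μ hg t))
  have h4 := (h1.add h2).sub (h3.const_smul (μ * Real.sinh μ)⁻¹)
  refine h4.congr_deriv ?_
  unfold ea_S1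
  match_scalars <;> field_simp <;> ring

private lemma ea_dS1 {μ : ℝ} (hμ : 0 < μ) (a b : E) {g : ℝ → E} (hg : Continuous g) (t : ℝ) :
    HasDerivAt (ea_S1 μ a b g) ((μ ^ 2) • ea_S μ a b g t + g t) t := by
  have hs : Real.sinh μ ≠ 0 := (Real.sinh_pos_iff.2 hμ).ne'
  have hμ0 : μ ≠ 0 := hμ.ne'
  have hadd : Real.sinh μ = Real.sinh (μ * (1 - t)) * Real.cosh (μ * t) +
      Real.cosh (μ * (1 - t)) * Real.sinh (μ * t) := by
    rw [← Real.sinh_add]
    congr 1
    ring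
  have h1 := (((ea_dcosh' μ t).const_mul (-μ)).div_const (Real.sinh μ)).smul_const a
  have h2 := (((ea_dcosh μ t).const_mul μ).div_const (Real.sinh μ)).smul_const b
  have h3 := ((ea_dcosh' μ t).smul (ea_dP μ hg t)).neg.sub
    ((ea_dcosh μ t).smul (ea_dQ μ hg t))
  have h4 := (h1.add h2).sub (h3.const_smul (Real.sinh μ)⁻¹)
  refine h4.congr_deriv ?_
  unfold ea_S
  match_scalars
  · field_simp
  · field_simp
  · field_simp
    linear_combination -hadd
  · field_simp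
  · field_simp

omit [CompleteSpace E] in
private lemma ea_S_zero {μ : ℝ} (hμ : 0 < μ) (a b : E) (g : ℝ → E) : ea_S μ a b g 0 = a := by
  have hs : Real.sinh μ ≠ 0 := (Real.sinh_pos_iff.2 hμ).ne'
  simp [ea_S, ea_P, hs]

omit [CompleteSpace E] in
private lemma ea_S_one {μ : ℝ} (hμ : 0 < μ) (a b : E) (g : ℝ → E) : ea_S μ a b g 1 = b := by
  have hs : Real.sinh μ ≠ 0 := (Real.sinh_pos_iff.2 hμ).ne'
  simp [ea_S, ea_Q, hs]

omit [CompleteSpace E] in
private lemma ea_P_sub {μ : ℝ} (hμ : 0 < μ) {g g' : ℝ → E} (hg : Continuous g)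
    (hg' : Continuous g') {δ : ℝ} (hδ : ∀ s, ‖g s - g' s‖ ≤ δ) {t : ℝ} (ht : 0 ≤ t) :
    ‖ea_P μ g t - ea_P μ g' t‖ ≤ δ * ((Real.cosh (μ * t) - 1) / μ) := by
  have h0 : ea_P μ g t - ea_P μ g' t = ∫ s in (0 : ℝ)..t, Real.sinh (μ * s) • (g s - g' s) := by
    unfold ea_P
    rw [← intervalIntegral.integral_sub ((ea_cont μ hg).intervalIntegrable _ _)
      ((ea_cont μ hg').intervalIntegrable _ _)]
    refine intervalIntegral.integral_congr fun s _ => ?_
    simp only [smul_sub]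
  have hI : ∫ s in (0 : ℝ)..t, δ * Real.sinh (μ * s) = δ * ((Real.cosh (μ * t) - 1) / μ) := by
    rw [intervalIntegral.integral_const_mul]
    congr 1
    have hd : ∀ s ∈ uIcc 0 t, HasDerivAt (fun s => Real.cosh (μ * s) / μ)
        (Real.sinh (μ * s)) s := by
      intro s _
      refine ((ea_dcosh μ s).div_const μ).congr_deriv ?_
      field_simp
    rw [intervalIntegral.integral_eq_sub_of_hasDerivAt hd]
    · simp [sub_div]
    · exact (Real.continuous_sinh.comp (continuous_const.mul continuous_id)).intervalIntegrable _ _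
  rw [h0, ← hI]
  refine intervalIntegral.norm_integral_le_of_norm_le ht ?_ ?_
  · refine Filter.Eventually.of_forall fun s hs => ?_
    have hs0 : 0 ≤ Real.sinh (μ * s) := Real.sinh_nonneg_iff.2 (mul_nonneg hμ.le hs.1.le)
    rw [norm_smul, Real.norm_of_nonneg hs0, mul_comm]
    exact mul_le_mul_of_nonneg_right (hδ s) hs0
  · exact (continuous_const.mul
      (Real.continuous_sinh.comp (continuous_const.mul continuous_id))).intervalIntegrable _ _

omit [CompleteSpace E] in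
private lemma ea_Q_sub {μ : ℝ} (hμ : 0 < μ) {g g' : ℝ → E} (hg : Continuous g)
    (hg' : Continuous g') {δ : ℝ} (hδ : ∀ s, ‖g s - g' s‖ ≤ δ) {t : ℝ} (ht : t ≤ 1) :
    ‖ea_Q μ g t - ea_Q μ g' t‖ ≤ δ * ((Real.cosh (μ * (1 - t)) - 1) / μ) := by
  have h0 : ea_Q μ g t - ea_Q μ g' t =
      ∫ s in (1 : ℝ)..t, Real.sinh (μ * (1 - s)) • (g s - g' s) := by
    unfold ea_Q
    rw [← intervalIntegral.integral_sub ((ea_cont' μ hg).intervalIntegrable _ _)
      ((ea_cont' μ hg').intervalIntegrable _ _)]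
    refine intervalIntegral.integral_congr fun s _ => ?_
    simp only [smul_sub]
  have hI : ∫ s in t..1, δ * Real.sinh (μ * (1 - s)) =
      δ * ((Real.cosh (μ * (1 - t)) - 1) / μ) := by
    rw [intervalIntegral.integral_const_mul]
    congr 1
    have hd : ∀ s ∈ uIcc t 1, HasDerivAt (fun s => -(Real.cosh (μ * (1 - s)) / μ))
        (Real.sinh (μ * (1 - s))) s := by
      intro s _
      refine ((ea_dcosh' μ s).div_const μ).neg.congr_deriv ?_
      field_simp
    rw [intervalIntegral.integral_eq_sub_of_hasDerivAt hd]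
    · simp [sub_div]
      ring
    · exact (Real.continuous_sinh.comp
        (continuous_const.mul (continuous_const.sub continuous_id))).intervalIntegrable _ _
  rw [h0, intervalIntegral.integral_symm, norm_neg, ← hI]
  refine intervalIntegral.norm_integral_le_of_norm_le ht ?_ ?_
  · refine Filter.Eventually.of_forall fun s hs => ?_
    have hs0 : 0 ≤ Real.sinh (μ * (1 - s)) :=
      Real.sinh_nonneg_iff.2 (mul_nonneg hμ.le (by linarith [hs.2]))
    rw [norm_smul, Real.norm_of_nonneg hs0, mul_comm]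
    exact mul_le_mul_of_nonneg_right (hδ s) hs0
  · exact (continuous_const.mul
      (Real.continuous_sinh.comp
        (continuous_const.mul (continuous_const.sub continuous_id)))).intervalIntegrable _ _

omit [CompleteSpace E] in
private lemma ea_S_sub {μ : ℝ} (hμ : 0 < μ) (a b : E) {g g' : ℝ → E} (hg : Continuous g)
    (hg' : Continuous g') {δ : ℝ} (hδ : ∀ s, ‖g s - g' s‖ ≤ δ) {t : ℝ} (ht : t ∈ Icc (0 : ℝ) 1) :
    ‖ea_S μ a b g t - ea_S μ a b g' t‖ ≤ (1 - 1 / Real.cosh (μ / 2)) / μ ^ 2 * δ := by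
  have hs : 0 < Real.sinh μ := Real.sinh_pos_iff.2 hμ
  have hδ0 : 0 ≤ δ := (norm_nonneg _).trans (hδ 0)
  have hP := ea_P_sub hμ hg hg' hδ ht.1
  have hQ := ea_Q_sub hμ hg hg' hδ ht.2
  have hA : 0 ≤ Real.sinh (μ * (1 - t)) :=
    Real.sinh_nonneg_iff.2 (mul_nonneg hμ.le (by linarith [ht.2]))
  have hB : 0 ≤ Real.sinh (μ * t) := Real.sinh_nonneg_iff.2 (mul_nonneg hμ.le ht.1)
  have h0 : ea_S μ a b g t - ea_S μ a b g' t =
      -((μ * Real.sinh μ)⁻¹ • (Real.sinh (μ * (1 - t)) • (ea_P μ g t - ea_P μ g' t) -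
        Real.sinh (μ * t) • (ea_Q μ g t - ea_Q μ g' t))) := by
    unfold ea_S
    module
  rw [h0, norm_neg, norm_smul, Real.norm_of_nonneg (inv_nonneg.2 (mul_pos hμ hs).le)]
  have h1 : ‖Real.sinh (μ * (1 - t)) • (ea_P μ g t - ea_P μ g' t) -
        Real.sinh (μ * t) • (ea_Q μ g t - ea_Q μ g' t)‖ ≤
      Real.sinh (μ * (1 - t)) * (δ * ((Real.cosh (μ * t) - 1) / μ)) +
      Real.sinh (μ * t) * (δ * ((Real.cosh (μ * (1 - t)) - 1) / μ)) := by
    refine (norm_sub_le _ _).trans (add_le_add ?_ ?_)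
    · rw [norm_smul, Real.norm_of_nonneg hA]
      exact mul_le_mul_of_nonneg_left hP hA
    · rw [norm_smul, Real.norm_of_nonneg hB]
      exact mul_le_mul_of_nonneg_left hQ hB
  have hadd : Real.sinh μ = Real.sinh (μ * (1 - t)) * Real.cosh (μ * t) +
      Real.cosh (μ * (1 - t)) * Real.sinh (μ * t) := by
    rw [← Real.sinh_add]
    congr 1
    ring
  have hsum : 2 * Real.sinh (μ / 2) ≤ Real.sinh (μ * (1 - t)) + Real.sinh (μ * t) := by
    have e1 : Real.sinh (μ * (1 - t)) = Real.sinh (μ / 2) * Real.cosh (μ * (1 / 2 - t)) +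
        Real.cosh (μ / 2) * Real.sinh (μ * (1 / 2 - t)) := by
      rw [← Real.sinh_add]; congr 1; ring
    have e2 : Real.sinh (μ * t) = Real.sinh (μ / 2) * Real.cosh (μ * (1 / 2 - t)) -
        Real.cosh (μ / 2) * Real.sinh (μ * (1 / 2 - t)) := by
      rw [← Real.sinh_sub]; congr 1; ring
    have h2 : 0 ≤ Real.sinh (μ / 2) := Real.sinh_nonneg_iff.2 (by positivity)
    have h3 := Real.one_le_cosh (μ * (1 / 2 - t))
    nlinarith [mul_nonneg h2 (sub_nonneg.2 h3)]
  have hdbl : Real.sinh μ = 2 * Real.sinh (μ / 2) * Real.cosh (μ / 2) := by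
    rw [← Real.sinh_two_mul]; congr 1; ring
  have hch : 0 < Real.cosh (μ / 2) := Real.cosh_pos _
  have h4 : Real.sinh μ / Real.cosh (μ / 2) ≤ Real.sinh (μ * (1 - t)) + Real.sinh (μ * t) := by
    rw [hdbl, mul_div_assoc, div_self hch.ne', mul_one]
    exact hsum
  calc (μ * Real.sinh μ)⁻¹ * ‖Real.sinh (μ * (1 - t)) • (ea_P μ g t - ea_P μ g' t) -
        Real.sinh (μ * t) • (ea_Q μ g t - ea_Q μ g' t)‖
      ≤ (μ * Real.sinh μ)⁻¹ * (Real.sinh (μ * (1 - t)) * (δ * ((Real.cosh (μ * t) - 1) / μ)) +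
      Real.sinh (μ * t) * (δ * ((Real.cosh (μ * (1 - t)) - 1) / μ))) :=
        mul_le_mul_of_nonneg_left h1 (inv_nonneg.2 (mul_pos hμ hs).le)
    _ = (Real.sinh μ - (Real.sinh (μ * (1 - t)) + Real.sinh (μ * t))) /
          (μ ^ 2 * Real.sinh μ) * δ := by
        field_simp
        linear_combination (-δ) * hadd
    _ ≤ (Real.sinh μ - Real.sinh μ / Real.cosh (μ / 2)) / (μ ^ 2 * Real.sinh μ) * δ := by
        refine mul_le_mul_of_nonneg_right (div_le_div_of_nonneg_right ?_ (by positivity)) hδ0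
        linarith
    _ = (1 - 1 / Real.cosh (μ / 2)) / μ ^ 2 * δ := by
        congr 1
        field_simp

end ea

theorem bvp {E : Type*} [NormedAddCommGroup E] [NormedSpace ℝ E] [CompleteSpace E]
    (F : E → E) {κ : ℝ} (hκ : 0 < κ)
    (hF : ∀ x y, ‖F x - F y - κ • (x - y)‖ ≤ κ * ‖x - y‖) (a b : E) :
    ∃ V V1 : ℝ → E, V 0 = a ∧ V 1 = b ∧
      (∀ t ∈ Icc (0 : ℝ) 1, HasDerivAt V (V1 t) t) ∧
      (∀ t ∈ Icc (0 : ℝ) 1, HasDerivAt V1 (F (V t)) t) := by
  have hμ : 0 < √κ := Real.sqrt_pos.2 hκ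
  have hμ2 : √κ ^ 2 = κ := Real.sq_sqrt hκ.le
  set μ := √κ with hμdef
  -- continuity of the right hand side
  have hG : ∀ x y, ‖(F x - κ • x) - (F y - κ • y)‖ ≤ κ * ‖x - y‖ := by
    intro x y
    have : (F x - κ • x) - (F y - κ • y) = F x - F y - κ • (x - y) := by module
    rw [this]
    exact hF x y
  have hGc : Continuous fun x : E => F x - κ • x := by
    have : LipschitzWith (Real.toNNReal κ) fun x : E => F x - κ • x := by
      refine LipschitzWith.of_dist_le_mul fun x y => ?_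
      rw [dist_eq_norm, dist_eq_norm, Real.coe_toNNReal _ hκ.le]
      exact hG x y
    exact this.continuous
  have h01 : (0 : ℝ) ≤ 1 := zero_le_one
  let gg : C(Icc (0 : ℝ) 1, E) → ℝ → E := fun u s =>
    F (u (projIcc 0 1 h01 s)) - κ • u (projIcc 0 1 h01 s)
  have hgg : ∀ u, Continuous (gg u) := fun u =>
    hGc.comp (u.continuous.comp continuous_projIcc)
  have hSc : ∀ g : ℝ → E, Continuous g → Continuous (ea_S μ a b g) := fun g hg =>
    continuous_iff_continuousAt.2 fun t => (ea_dS hμ a b hg t).continuousAt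
  let T : C(Icc (0 : ℝ) 1, E) → C(Icc (0 : ℝ) 1, E) := fun u =>
    ⟨fun t => ea_S μ a b (gg u) t, (hSc _ (hgg u)).comp continuous_subtype_val⟩
  have hch1 : 1 ≤ Real.cosh (μ / 2) := Real.one_le_cosh _
  have hch : 0 < Real.cosh (μ / 2) := Real.cosh_pos _
  have hq0 : 0 ≤ 1 - 1 / Real.cosh (μ / 2) := by
    have : 1 / Real.cosh (μ / 2) ≤ 1 := by
      rw [div_le_one hch]; exact hch1
    linarith
  have hq1 : 1 - 1 / Real.cosh (μ / 2) < 1 := by
    have : 0 < 1 / Real.cosh (μ / 2) := by positivity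
    linarith
  have hT : ContractingWith (Real.toNNReal (1 - 1 / Real.cosh (μ / 2))) T := by
    refine ⟨by simpa using hq1, LipschitzWith.of_dist_le_mul fun u v => ?_⟩
    rw [Real.coe_toNNReal _ hq0]
    rw [ContinuousMap.dist_le (mul_nonneg hq0 dist_nonneg)]
    intro t
    have hδ : ∀ s, ‖gg u s - gg v s‖ ≤ κ * dist u v := by
      intro s
      refine (hG _ _).trans ?_
      rw [← dist_eq_norm]
      exact mul_le_mul_of_nonneg_left (ContinuousMap.dist_apply_le_dist _) hκ.le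
    have := ea_S_sub hμ a b (hgg u) (hgg v) hδ t.2
    rw [dist_eq_norm]
    refine this.trans (le_of_eq ?_)
    rw [hμ2]
    field_simp
  obtain ⟨u, hu⟩ : ∃ u, T u = u := ⟨ContractingWith.fixedPoint T hT,
    ContractingWith.fixedPoint_isFixedPt hT⟩
  refine ⟨ea_S μ a b (gg u), ea_S1 μ a b (gg u), ea_S_zero hμ a b _, ea_S_one hμ a b _,
    fun t _ => ea_dS hμ a b (hgg u) t, fun t ht => ?_⟩
  refine (ea_dS1 hμ a b (hgg u) t).congr_deriv ?_
  have hut : ea_S μ a b (gg u) t = u ⟨t, ht⟩ := by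
    have := congrArg (fun w : C(Icc (0 : ℝ) 1, E) => w ⟨t, ht⟩) hu
    exact this
  have hg : gg u t = F (u ⟨t, ht⟩) - κ • u ⟨t, ht⟩ := by
    simp only [gg, projIcc_of_mem h01 ht]
  rw [hμ2, hut, hg]
  module

end Pool.Agent.H37.DP
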