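import Pool.Agent.H37.DP.Grid
import Pool.Agent.H37.DP.EA

/-!
MODULE EB: the truncated semi-discrete problem.

`phi δ s = - 1/s` for `s ≥ δ`, `- 1/δ + (s - δ)/δ²` for `s < δ`; it is nondecreasing and
`0 ≤ phi s - phi s' ≤ (s - s')/δ²` for `s' ≤ s`.

PROOF of `trunc_bvp`.  On grid functions let `F x = lam L (phi (W x))`.  With `u = x - y`,
`θ j = (phi (W x j) - phi (W y j))/(L u j)` (`0` if `L u j = 0`), `0 ≤ θ ≤ δ⁻²`,
`F x - F y = lam L (θ L u) =: A u`.  `avg (A u * u) = lam avg (θ (L u)²)`, and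
`sq (A u) ≤ lam² 16 N⁴ sq (θ L u) ≤ lam² 16 N⁴ δ⁻² avg (θ (L u)²) = Λ avg (A u * u)`,
`Λ = 16 lam N⁴/δ²`, because `sq (L g) ≤ 16 N⁴ sq g`.  With `κ = Λ/2`:
`sq (A u - κ u) = sq (A u) - 2 κ avg (A u * u) + κ² sq u ≤ κ² sq u`.
Apply `bvp` on `EuclideanSpace ℝ (ZMod N)` (its norm squared is `∑ x i² = N sq x`).
-/

namespace Pool.Agent.H37.DP

open Set Filter Topology

/-- truncated `-1/s` -/
noncomputable def phi (δ s : ℝ) : ℝ := if δ ≤ s then -s⁻¹ else -δ⁻¹ + (s - δ) / δ ^ 2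

theorem phi_mono {δ : ℝ} (hδ : 0 < δ) {s s' : ℝ} (h : s' ≤ s) : phi δ s' ≤ phi δ s := by
  unfold phi
  split_ifs with h1 h2 h2
  · have := inv_anti₀ (lt_of_lt_of_le hδ h1) h
    linarith
  · exact absurd (h1.trans h) h2
  · have e1 : (s' - δ) / δ ^ 2 ≤ 0 := by
      apply div_nonpos_of_nonpos_of_nonneg
      · push Not at h1
        linarith
      · positivity
    have e2 := inv_anti₀ hδ h2
    linarith
  · have : (s' - δ) / δ ^ 2 ≤ (s - δ) / δ ^ 2 := by
      apply div_le_div_of_nonneg_right _ (by positivity)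
      linarith
    linarith

theorem phi_lip {δ : ℝ} (hδ : 0 < δ) {s s' : ℝ} (h : s' ≤ s) :
    phi δ s - phi δ s' ≤ (s - s') / δ ^ 2 := by
  have key : ∀ a b : ℝ, δ ≤ a → a ≤ b → a⁻¹ - b⁻¹ ≤ (b - a) / δ ^ 2 := by
    intro a b ha hab
    have hap : 0 < a := lt_of_lt_of_le hδ ha
    have hbp : 0 < b := lt_of_lt_of_le hap hab
    have e : a⁻¹ - b⁻¹ = (b - a) / (a * b) := by
      field_simp
    rw [e]
    apply div_le_div_of_nonneg_left (by linarith) (by positivity)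
    nlinarith
  unfold phi
  split_ifs with h1 h2 h2
  · have := key s' s h2 h
    linarith
  · push Not at h2
    have := key δ s le_rfl h1
    have e : (s - s') / δ ^ 2 = (s - δ) / δ ^ 2 - (s' - δ) / δ ^ 2 := by ring
    rw [e]
    linarith
  · exact absurd (h2.trans h) h1
  · have e : (s - s') / δ ^ 2 = (s - δ) / δ ^ 2 - (s' - δ) / δ ^ 2 := by ring
    rw [e]
    linarith

private theorem eb_sq_L {N : ℕ} [NeZero N] (g : ZMod N → ℝ) :
    sq (L g) ≤ 16 * (N : ℝ) ^ 4 * sq g := by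
  have hb : ∀ i, (L g i) ^ 2 ≤ 4 * (N : ℝ) ^ 4 * ((g (i + 1)) ^ 2 + ((g (i - 1)) ^ 2 +
      2 * (g i) ^ 2)) := by
    intro i
    unfold L
    generalize g (i + 1) = a
    generalize g (i - 1) = b
    generalize g i = c
    have h5 : (a + b - 2 * c) ^ 2 ≤ 4 * (a ^ 2 + (b ^ 2 + 2 * c ^ 2)) := by
      nlinarith [sq_nonneg (a - b), sq_nonneg (a + c), sq_nonneg (b + c)]
    calc ((N : ℝ) ^ 2 * (a + b - 2 * c)) ^ 2 = (N : ℝ) ^ 4 * (a + b - 2 * c) ^ 2 := by ring
      _ ≤ (N : ℝ) ^ 4 * (4 * (a ^ 2 + (b ^ 2 + 2 * c ^ 2))) :=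
          mul_le_mul_of_nonneg_left h5 (by positivity)
      _ = _ := by ring
  calc sq (L g) ≤ avg (fun i => 4 * (N : ℝ) ^ 4 * ((g (i + 1)) ^ 2 + ((g (i - 1)) ^ 2 +
        2 * (g i) ^ 2))) := avg_mono hb
    _ = 16 * (N : ℝ) ^ 4 * sq g := by
        rw [avg_mul_left, avg_add, avg_add, avg_mul_left]
        have h1 : avg (fun i => (g (i + 1)) ^ 2) = sq g := avg_shift_one (fun i => (g i) ^ 2)
        have h2 : avg (fun i => (g (i - 1)) ^ 2) = sq g := avg_shift_neg (fun i => (g i) ^ 2)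
        have h3 : avg (fun i => (g i) ^ 2) = sq g := rfl
        rw [h1, h2, h3]
        ring

private theorem eb_d {δ : ℝ} (hδ : 0 < δ) (x y : ℝ) :
    (phi δ x - phi δ y) ^ 2 ≤ (1 / δ ^ 2) * ((phi δ x - phi δ y) * (x - y)) := by
  rcases le_total y x with h | h
  · have h1 := phi_mono hδ h
    have h2 := phi_lip hδ h
    have h3 : 0 ≤ phi δ x - phi δ y := by linarith
    have h4 := mul_le_mul_of_nonneg_left h2 h3
    calc (phi δ x - phi δ y) ^ 2 = (phi δ x - phi δ y) * (phi δ x - phi δ y) := by ring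
      _ ≤ (phi δ x - phi δ y) * ((x - y) / δ ^ 2) := h4
      _ = _ := by ring
  · have h1 := phi_mono hδ h
    have h2 := phi_lip hδ h
    have h3 : 0 ≤ phi δ y - phi δ x := by linarith
    have h4 := mul_le_mul_of_nonneg_left h2 h3
    calc (phi δ x - phi δ y) ^ 2 = (phi δ y - phi δ x) * (phi δ y - phi δ x) := by ring
      _ ≤ (phi δ y - phi δ x) * ((y - x) / δ ^ 2) := h4
      _ = _ := by ring

private theorem eb_mono {N : ℕ} [NeZero N] {lam δ : ℝ} (hlam : 0 < lam) (hδ : 0 < δ)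
    (x y : ZMod N → ℝ) :
    sq (fun i => lam * L (fun j => phi δ (W x j)) i - lam * L (fun j => phi δ (W y j)) i
        - (8 * lam * (N : ℝ) ^ 4 / δ ^ 2) * (x i - y i)) ≤
      (8 * lam * (N : ℝ) ^ 4 / δ ^ 2) ^ 2 * sq (fun i => x i - y i) := by
  set κ : ℝ := 8 * lam * (N : ℝ) ^ 4 / δ ^ 2 with hκ
  set d : ZMod N → ℝ := fun j => phi δ (W x j) - phi δ (W y j) with hd
  set u : ZMod N → ℝ := fun j => x j - y j with hu
  have hLd : ∀ i, lam * L (fun j => phi δ (W x j)) i - lam * L (fun j => phi δ (W y j)) i =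
      lam * L d i := by
    intro i
    have := congrFun (L_sub (fun j => phi δ (W x j)) (fun j => phi δ (W y j))) i
    simp only [hd]
    rw [this]
    ring
  have hLu : ∀ i, L u i = W x i - W y i := by
    intro i
    have := congrFun (L_sub x y) i
    simp only [hu]
    rw [this]
    unfold W
    ring
  have h1 : sq d ≤ (1 / δ ^ 2) * avg (fun i => d i * L u i) := by
    unfold sq
    rw [← avg_mul_left]
    apply avg_mono
    intro i
    rw [hLu i]
    exact eb_d hδ _ _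
  have h2 : avg (fun i => d i * L u i) = avg (fun i => L d i * u i) := sbp_L d u
  have h3 : sq (L d) ≤ 16 * (N : ℝ) ^ 4 * ((1 / δ ^ 2) * avg (fun i => L d i * u i)) := by
    rw [← h2]
    exact (eb_sq_L d).trans (mul_le_mul_of_nonneg_left h1 (by positivity))
  have h4 : sq (fun i => lam * L (fun j => phi δ (W x j)) i - lam * L (fun j => phi δ (W y j)) i
        - κ * (x i - y i)) =
      lam ^ 2 * sq (L d) - 2 * κ * lam * avg (fun i => L d i * u i) + κ ^ 2 * sq u := by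
    have e : ∀ i, (lam * L (fun j => phi δ (W x j)) i - lam * L (fun j => phi δ (W y j)) i
        - κ * (x i - y i)) ^ 2 =
        (lam ^ 2 * (L d i) ^ 2 - (2 * κ * lam) * (L d i * u i)) + κ ^ 2 * (u i) ^ 2 := by
      intro i
      rw [hLd i]
      simp only [hu]
      ring
    unfold sq
    simp only [e]
    rw [avg_add, avg_sub, avg_mul_left, avg_mul_left, avg_mul_left]
  rw [h4]
  have h5 : lam ^ 2 * sq (L d) ≤ 2 * κ * lam * avg (fun i => L d i * u i) := by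
    calc lam ^ 2 * sq (L d)
        ≤ lam ^ 2 * (16 * (N : ℝ) ^ 4 * ((1 / δ ^ 2) * avg (fun i => L d i * u i))) :=
          mul_le_mul_of_nonneg_left h3 (by positivity)
      _ = 2 * κ * lam * avg (fun i => L d i * u i) := by
          rw [hκ]
          ring
  linarith

theorem trunc_bvp (N : ℕ) [NeZero N] {lam δ : ℝ} (hlam : 0 < lam) (hδ : 0 < δ)
    (a b : ZMod N → ℝ) :
    ∃ V V1 : ℝ → ZMod N → ℝ, V 0 = a ∧ V 1 = b ∧
      (∀ t ∈ Icc (0 : ℝ) 1, ∀ i, HasDerivAt (fun s => V s i) (V1 t i) t) ∧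
      (∀ t ∈ Icc (0 : ℝ) 1, ∀ i,
        HasDerivAt (fun s => V1 s i) (lam * L (fun j => phi δ (W (V t) j)) i) t) := by
  have hNp : (0 : ℝ) < N := by
    have : 0 < N := Nat.pos_of_ne_zero (NeZero.ne N)
    exact_mod_cast this
  set κ : ℝ := 8 * lam * (N : ℝ) ^ 4 / δ ^ 2 with hκ
  have hκp : 0 < κ := by positivity
  let F : EuclideanSpace ℝ (ZMod N) → EuclideanSpace ℝ (ZMod N) := fun x =>
    WithLp.toLp 2 (fun i => lam * L (fun j => phi δ (W x.ofLp j)) i)
  have hF : ∀ x y, ‖F x - F y - κ • (x - y)‖ ≤ κ * ‖x - y‖ := by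
    intro x y
    apply le_of_sq_le_sq _ (by positivity)
    rw [mul_pow, EuclideanSpace.norm_sq_eq, EuclideanSpace.norm_sq_eq]
    have h := eb_mono (N := N) hlam hδ x.ofLp y.ofLp
    rw [← hκ] at h
    unfold sq avg at h
    rw [mul_div_assoc', div_le_div_iff_of_pos_right hNp] at h
    have e1 : ∀ i, ‖(F x - F y - κ • (x - y)).ofLp i‖ ^ 2 =
        (lam * L (fun j => phi δ (W x.ofLp j)) i - lam * L (fun j => phi δ (W y.ofLp j)) i
        - κ * (x.ofLp i - y.ofLp i)) ^ 2 := by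
      intro i
      rw [Real.norm_eq_abs, sq_abs]
      rfl
    have e2 : ∀ i, ‖(x - y).ofLp i‖ ^ 2 = (x.ofLp i - y.ofLp i) ^ 2 := by
      intro i
      rw [Real.norm_eq_abs, sq_abs]
      rfl
    simp only [e1, e2]
    exact h
  obtain ⟨V, V1, h0, h1, h2, h3⟩ := bvp F hκp hF (WithLp.toLp 2 a) (WithLp.toLp 2 b)
  refine ⟨fun t => (V t).ofLp, fun t => (V1 t).ofLp, ?_, ?_, ?_, ?_⟩
  · simp only [h0]
  · simp only [h1]
  · intro t ht i
    have := (EuclideanSpace.proj (𝕜 := ℝ) i).hasFDerivAt.comp_hasDerivAt t (h2 t ht)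
    exact this
  · intro t ht i
    have := (EuclideanSpace.proj (𝕜 := ℝ) i).hasFDerivAt.comp_hasDerivAt t (h3 t ht)
    exact this

end Pool.Agent.H37.DP
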