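import Pool.Agent.H37.DP.EB

/-!
MODULE EC: existence for the semi-discrete problem.

PROOF.  `c ≤ 1` because `avg (W a) = 1`.  Let `m0 = - log c ≥ 0` and choose `δ > 0` with `δ ≤ c`,
`δ < 1` and `- log δ - 1 ≥ N m0`.  Take `V, V1` from `trunc_bvp`.
`Ψ s = - log s` for `s ≥ δ`, `- log δ - (s-δ)/δ + (s-δ)²/(2δ²)` for `s < δ`; `Ψ' = phi δ`,
`phi` is differentiable with derivative `phi' s = 1/s²` (`s ≥ δ`), `1/δ²` (`s < δ`), `phi' ≥ 0`.
`m t = avg Ψ(W (V t))`: `m' = avg (phi(W) L V1)`,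
`m'' = avg (phi'(W) (L V1)²) + avg (phi(W) L (lam L (phi W)))
 = avg (phi'(W)(L V1)²) + lam sq (L (phi W)) ≥ 0`, so `m` is convex on `[0,1]` and
`m t ≤ max (m 0) (m 1) ≤ m0` (`W a, W b ≥ c ≥ δ`).
Claim `W (V t) i ≥ δ`.  Otherwise put `s = W (V t) i < δ`.  `Ψ x ≥ 1 - x` for all `x`
(convexity, tangent at `1`; or case by case), and `∑ W = N`, so
`N m0 ≥ ∑ Ψ(W_j) ≥ Ψ s + ∑_{j ≠ i} (1 - W_j) = Ψ s + s - 1 ≥ - log δ + (δ - s)/δ + s - 1
 ≥ - log δ - 1 + δ`, (`(δ-s)/δ + s = 1 - s (1/δ - 1) ≥ 1 - δ(1/δ - 1) = δ`), contradiction.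
So `phi (W) = - 1/W` along the solution and `V, V1` solve `V'' = - lam L (1/W)`.
-/

namespace Pool.Agent.H37.DP

open Set Filter Topology

private theorem ec_glue {f g f' g' : ℝ → ℝ} {δ : ℝ}
    (hf : ∀ s, δ ≤ s → HasDerivAt f (f' s) s) (hg : ∀ s, s ≤ δ → HasDerivAt g (g' s) s)
    (h0 : f δ = g δ) (h1 : f' δ = g' δ) (s : ℝ) :
    HasDerivAt (fun s => if δ ≤ s then f s else g s) (if δ ≤ s then f' s else g' s) s := by
  rcases lt_trichotomy s δ with h | h | h
  · rw [if_neg (not_le.2 h)]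
    refine (hg s h.le).congr_of_eventuallyEq ?_
    filter_upwards [Iio_mem_nhds h] with x hx
    rw [if_neg (not_le.2 hx)]
  · subst h
    rw [if_pos le_rfl]
    rw [← hasDerivWithinAt_univ, ← Iic_union_Ici (a := s)]
    refine HasDerivWithinAt.union ?_ ?_
    · rw [h1]
      refine (hg s le_rfl).hasDerivWithinAt.congr ?_ ?_
      · intro x hx
        rcases eq_or_lt_of_le (show x ≤ s from hx) with h2 | h2
        · rw [h2, if_pos le_rfl, h0]
        · rw [if_neg (not_le.2 h2)]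
      · rw [if_pos le_rfl, h0]
    · refine (hf s le_rfl).hasDerivWithinAt.congr ?_ ?_
      · intro x hx
        rw [if_pos (show s ≤ x from hx)]
      · rw [if_pos le_rfl]
  · rw [if_pos h.le]
    refine (hf s h.le).congr_of_eventuallyEq ?_
    filter_upwards [Ioi_mem_nhds h] with x hx
    rw [if_pos (le_of_lt hx)]

private noncomputable def ec_Psi (δ s : ℝ) : ℝ :=
  if δ ≤ s then -Real.log s else -Real.log δ - (s - δ) / δ + (s - δ) ^ 2 / (2 * δ ^ 2)

private noncomputable def ec_dphi (δ s : ℝ) : ℝ := if δ ≤ s then (s ^ 2)⁻¹ else (δ ^ 2)⁻¹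

private theorem ec_dPsi {δ : ℝ} (hδ : 0 < δ) (s : ℝ) : HasDerivAt (ec_Psi δ) (phi δ s) s := by
  have h := ec_glue (f := fun s => -Real.log s)
    (g := fun s => -Real.log δ - (s - δ) / δ + (s - δ) ^ 2 / (2 * δ ^ 2))
    (f' := fun s => -s⁻¹) (g' := fun s => -δ⁻¹ + (s - δ) / δ ^ 2) (δ := δ) ?_ ?_ ?_ ?_ s
  · exact h
  · intro s hs
    exact (Real.hasDerivAt_log (by linarith)).neg
  · intro s _
    have h1 : HasDerivAt (fun s : ℝ => s - δ) 1 s := (hasDerivAt_id s).sub_const δ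
    have h2 := ((h1.div_const δ).const_sub (-Real.log δ)).add ((h1.pow 2).div_const (2 * δ ^ 2))
    refine h2.congr_deriv ?_
    field_simp
    push_cast
    ring
  · simp
  · simp

private theorem ec_dphi_spec {δ : ℝ} (hδ : 0 < δ) (s : ℝ) :
    HasDerivAt (phi δ) (ec_dphi δ s) s := by
  have h := ec_glue (f := fun s => -s⁻¹) (g := fun s => -δ⁻¹ + (s - δ) / δ ^ 2)
    (f' := fun s => (s ^ 2)⁻¹) (g' := fun _ => (δ ^ 2)⁻¹) (δ := δ) ?_ ?_ ?_ ?_ s
  · exact h
  · intro s hs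
    have h1 := (hasDerivAt_inv (x := s) (by linarith)).neg
    refine h1.congr_deriv ?_
    ring
  · intro s _
    have h1 : HasDerivAt (fun s : ℝ => s - δ) 1 s := (hasDerivAt_id s).sub_const δ
    have h2 := (h1.div_const (δ ^ 2)).const_add (-δ⁻¹)
    refine h2.congr_deriv ?_
    ring
  · simp
  · rfl

private theorem ec_dphi_nonneg {δ : ℝ} (s : ℝ) : 0 ≤ ec_dphi δ s := by
  unfold ec_dphi
  split_ifs <;> positivity

private theorem ec_Psi_ge {δ : ℝ} (hδ : 0 < δ) (hδ1 : δ ≤ 1) (x : ℝ) : 1 - x ≤ ec_Psi δ x := by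
  unfold ec_Psi
  split_ifs with h
  · have := Real.log_le_sub_one_of_pos (show 0 < x by linarith)
    linarith
  · push Not at h
    have h1 := Real.log_le_sub_one_of_pos hδ
    have h2 : 0 ≤ (x - δ) ^ 2 / (2 * δ ^ 2) := by positivity
    have h3 : (δ - x) ≤ (δ - x) / δ := by
      rw [le_div_iff₀ hδ]
      nlinarith
    have h4 : (x - δ) / δ = - ((δ - x) / δ) := by ring
    rw [h4]
    linarith

private theorem ec_Psi_low {δ : ℝ} (hδ : 0 < δ) (hδ1 : δ ≤ 1) {x : ℝ} (h : x < δ) :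
    -Real.log δ + (δ - x) ≤ ec_Psi δ x := by
  unfold ec_Psi
  rw [if_neg (not_le.2 h)]
  have h2 : 0 ≤ (x - δ) ^ 2 / (2 * δ ^ 2) := by positivity
  have h3 : (δ - x) ≤ (δ - x) / δ := by
    rw [le_div_iff₀ hδ]
    nlinarith
  have h4 : (x - δ) / δ = - ((δ - x) / δ) := by ring
  rw [h4]
  linarith

private theorem ec_avg_hasDerivAt {N : ℕ} [NeZero N] {f : ℝ → ZMod N → ℝ} {f' : ZMod N → ℝ}
    {t : ℝ} (h : ∀ i, HasDerivAt (fun s => f s i) (f' i) t) :
    HasDerivAt (fun s => avg (f s)) (avg f') t := by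
  unfold avg
  exact (HasDerivAt.fun_sum fun i _ => h i).div_const _

private theorem ec_L_hasDerivAt {N : ℕ} {f : ℝ → ZMod N → ℝ} {f' : ZMod N → ℝ}
    {t : ℝ} (h : ∀ i, HasDerivAt (fun s => f s i) (f' i) t) (i : ZMod N) :
    HasDerivAt (fun s => L (f s) i) (L f' i) t := by
  unfold L
  exact ((((h (i + 1)).add (h (i - 1))).sub ((h i).const_mul 2)).const_mul _)

private theorem ec_W_hasDerivAt {N : ℕ} {f : ℝ → ZMod N → ℝ} {f' : ZMod N → ℝ}
    {t : ℝ} (h : ∀ i, HasDerivAt (fun s => f s i) (f' i) t) (i : ZMod N) :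
    HasDerivAt (fun s => W (f s) i) (L f' i) t := by
  unfold W
  exact (ec_L_hasDerivAt h i).const_add 1

private theorem ec_low (N : ℕ) [NeZero N] {lam c : ℝ} (hlam : 0 < lam) (hc : 0 < c)
    (a b : ZMod N → ℝ) (ha : ∀ i, c ≤ W a i) (hb : ∀ i, c ≤ W b i) {δ : ℝ} (hδ : 0 < δ)
    (hδc : δ ≤ c) (hδ1 : δ ≤ 1) (hδN : (N : ℝ) * (-Real.log c) ≤ -Real.log δ - 1)
    {V V1 : ℝ → ZMod N → ℝ} (h0 : V 0 = a) (h1 : V 1 = b)
    (hV : ∀ t ∈ Icc (0 : ℝ) 1, ∀ i, HasDerivAt (fun s => V s i) (V1 t i) t)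
    (hV1 : ∀ t ∈ Icc (0 : ℝ) 1, ∀ i,
        HasDerivAt (fun s => V1 s i) (lam * L (fun j => phi δ (W (V t) j)) i) t)
    {t : ℝ} (ht : t ∈ Icc (0 : ℝ) 1) (i : ZMod N) : δ ≤ W (V t) i := by
  have hN : (0 : ℝ) < N := by
    have := NeZero.pos N
    exact_mod_cast this
  -- the convex function
  set m : ℝ → ℝ := fun t => avg (fun i => ec_Psi δ (W (V t) i)) with hm
  have hd1 : ∀ t ∈ Icc (0 : ℝ) 1, HasDerivAt m
      (avg (fun i => phi δ (W (V t) i) * L (V1 t) i)) t := by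
    intro t ht
    exact ec_avg_hasDerivAt fun i => (ec_dPsi hδ _).comp t (ec_W_hasDerivAt (hV t ht) i)
  have hd2 : ∀ t ∈ Icc (0 : ℝ) 1, HasDerivAt
      (fun t => avg (fun i => phi δ (W (V t) i) * L (V1 t) i))
      (avg (fun i => ec_dphi δ (W (V t) i) * L (V1 t) i * L (V1 t) i +
        phi δ (W (V t) i) * L (fun k => lam * L (fun j => phi δ (W (V t) j)) k) i)) t := by
    intro t ht
    refine ec_avg_hasDerivAt fun i => ?_
    exact ((ec_dphi_spec hδ _).comp t (ec_W_hasDerivAt (hV t ht) i)).mul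
      (ec_L_hasDerivAt (hV1 t ht) i)
  have hpos : ∀ t : ℝ, 0 ≤
      avg (fun i => ec_dphi δ (W (V t) i) * L (V1 t) i * L (V1 t) i +
        phi δ (W (V t) i) * L (fun k => lam * L (fun j => phi δ (W (V t) j)) k) i) := by
    intro t
    rw [avg_add, L_mul_left]
    refine add_nonneg (avg_nonneg fun i => ?_) ?_
    · rw [mul_assoc]
      exact mul_nonneg (ec_dphi_nonneg _) (mul_self_nonneg _)
    · set g : ZMod N → ℝ := fun i => phi δ (W (V t) i) with hg
      have e1 : (fun i => g i * (lam * L (L g) i)) = fun i => lam * (g i * L (L g) i) := by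
        funext i
        ring
      rw [e1, avg_mul_left, sbp_L]
      refine mul_nonneg hlam.le (avg_nonneg fun i => mul_self_nonneg _)
  have hconv : ConvexOn ℝ (Icc (0 : ℝ) 1) m := by
    refine convexOn_of_hasDerivWithinAt2_nonneg (convex_Icc 0 1) (f' := fun t =>
      avg (fun i => phi δ (W (V t) i) * L (V1 t) i)) (f'' := fun t =>
      avg (fun i => ec_dphi δ (W (V t) i) * L (V1 t) i * L (V1 t) i +
        phi δ (W (V t) i) * L (fun k => lam * L (fun j => phi δ (W (V t) j)) k) i)) ?_ ?_ ?_ ?_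
    · exact fun t ht => (hd1 t ht).continuousAt.continuousWithinAt
    · exact fun t ht => (hd1 t (interior_subset ht)).hasDerivWithinAt
    · exact fun t ht => (hd2 t (interior_subset ht)).hasDerivWithinAt
    · exact fun t _ => hpos t
  have hend : ∀ a : ZMod N → ℝ, (∀ i, c ≤ W a i) →
      avg (fun i => ec_Psi δ (W a i)) ≤ -Real.log c := by
    intro a ha
    rw [← avg_const (N := N) (-Real.log c)]
    refine avg_mono fun i => ?_
    unfold ec_Psi
    rw [if_pos (hδc.trans (ha i))]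
    exact neg_le_neg (Real.log_le_log hc (ha i))
  have hmt : m t ≤ -Real.log c := by
    have h2 := hconv.le_max_of_mem_Icc (left_mem_Icc.2 zero_le_one) (right_mem_Icc.2 zero_le_one) ht
    refine h2.trans (max_le ?_ ?_)
    · have := hend a ha
      rw [← h0] at this
      exact this
    · have := hend b hb
      rw [← h1] at this
      exact this
  by_contra hcon
  push Not at hcon
  have hsum : ∑ j, ec_Psi δ (W (V t) j) ≤ N * (-Real.log c) := by
    have h2 : (∑ j, ec_Psi δ (W (V t) j)) / N ≤ -Real.log c := hmt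
    rw [div_le_iff₀ hN] at h2
    linarith
  have hW : ∑ j, W (V t) j = N := by
    have h2 := avg_W (V t)
    unfold avg at h2
    rwa [div_eq_one_iff_eq hN.ne'] at h2
  have hcard : ∑ _j : ZMod N, (1 : ℝ) = N := by
    rw [Finset.sum_const, Finset.card_univ, ZMod.card]
    simp
  have h3 : ec_Psi δ (W (V t) i) - (1 - W (V t) i) ≤
      ∑ j, (ec_Psi δ (W (V t) j) - (1 - W (V t) j)) :=
    Finset.single_le_sum (f := fun j => ec_Psi δ (W (V t) j) - (1 - W (V t) j))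
      (fun j _ => sub_nonneg.2 (ec_Psi_ge hδ hδ1 _)) (Finset.mem_univ i)
  rw [Finset.sum_sub_distrib, Finset.sum_sub_distrib, hW, hcard] at h3
  have h4 := ec_Psi_low hδ hδ1 hcon
  linarith

theorem exists_sol (N : ℕ) [NeZero N] {lam c : ℝ} (hlam : 0 < lam) (hc : 0 < c)
    (a b : ZMod N → ℝ) (ha : ∀ i, c ≤ W a i) (hb : ∀ i, c ≤ W b i) :
    ∃ V V1 : ℝ → ZMod N → ℝ, V 0 = a ∧ V 1 = b ∧ IsSol N lam V V1 := by
  have hN : (0 : ℝ) < N := by
    have := NeZero.pos N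
    exact_mod_cast this
  have hc1 : c ≤ 1 := by
    have h1 := avg_mono ha
    rwa [avg_const, avg_W] at h1
  have hlog : 0 ≤ -Real.log c := by
    have := Real.log_nonpos hc.le hc1
    linarith
  set δ : ℝ := min c (Real.exp (-(N * (-Real.log c) + 1))) with hδdef
  have hδ : 0 < δ := lt_min hc (Real.exp_pos _)
  have hδc : δ ≤ c := min_le_left _ _
  have hδ1 : δ ≤ 1 := hδc.trans hc1
  have hδN : (N : ℝ) * (-Real.log c) ≤ -Real.log δ - 1 := by
    have h1 : Real.log δ ≤ -(N * (-Real.log c) + 1) := by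
      rw [← Real.log_exp (-(N * (-Real.log c) + 1))]
      exact Real.log_le_log hδ (min_le_right _ _)
    linarith
  obtain ⟨V, V1, h0, h1, hV, hV1⟩ := trunc_bvp N hlam hδ a b
  have hlow : ∀ t ∈ Icc (0 : ℝ) 1, ∀ i, δ ≤ W (V t) i := fun t ht i =>
    ec_low N hlam hc a b ha hb hδ hδc hδ1 hδN h0 h1 hV hV1 ht i
  refine ⟨V, V1, h0, h1, hV, fun t ht i => hδ.trans_le (hlow t ht i), fun t ht i => ?_⟩
  have h2 : (fun j => phi δ (W (V t) j)) = fun j => (-1) * ginv (W (V t)) j := by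
    funext j
    unfold phi ginv
    rw [if_pos (hlow t ht j)]
    ring
  have h3 := hV1 t ht i
  rw [h2, L_mul_left] at h3
  refine h3.congr_deriv ?_
  ring

end Pool.Agent.H37.DP
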