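import Pool.Agent.H37.DP.Grid

/-!
Families of grid functions depending on time: index `n`, mesh `1/(n+3)`.
-/

namespace Pool.Agent.H37.DP

open Set Filter Topology

/-- a family of time dependent grid functions, one for each mesh `1/(n+3)` -/
abbrev Fam := ∀ n : ℕ, ℝ → ZMod (n + 3) → ℝ

/-- continuous in time on `[0,1]` -/
def CF (f : Fam) : Prop := ∀ n i, ContinuousOn (fun t => f n t i) (Icc 0 1)

/-- uniformly bounded -/
def BI (f : Fam) : Prop := ∃ C : ℝ, ∀ n, ∀ t ∈ Icc (0 : ℝ) 1, ∀ i, |f n t i| ≤ C

/-- uniformly bounded in `L²` for each time -/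
def B2 (f : Fam) : Prop := ∃ C : ℝ, ∀ n, ∀ t ∈ Icc (0 : ℝ) 1, sq (f n t) ≤ C

/-- uniformly bounded in `L²` of space-time -/
def BL (f : Fam) : Prop := ∃ C : ℝ, ∀ n, (∫ t in (0 : ℝ)..1, sq (f n t)) ≤ C

/-- difference quotient of a family -/
def DF (f : Fam) : Fam := fun n t => D (f n t)

/-- iterated difference quotient of a family -/
def DkF (k : ℕ) (f : Fam) : Fam := fun n t => D^[k] (f n t)

/-- shift of a family by the integer `a` -/
def shF (a : ℤ) (f : Fam) : Fam := fun n t i => f n t (i + (a : ZMod (n + 3)))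

/-- product of families -/
def mulF (f g : Fam) : Fam := fun n t i => f n t i * g n t i

/-- sum of families -/
def addF (f g : Fam) : Fam := fun n t i => f n t i + g n t i

/-- multiple of a family -/
def smulF (c : ℝ) (f : Fam) : Fam := fun n t i => c * f n t i

/-- the density of a family -/
def wF (V : Fam) : Fam := fun n t => W (V n t)

/-- the inverse density of a family -/
noncomputable def gF (V : Fam) : Fam := fun n t => ginv (W (V n t))

/-- `TT m f`: `D^j f` is uniformly bounded for `j ≤ m - 1`, and `D^m f`, `D^(m+1) f` are bounded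
in `L²` of space-time; `f` is continuous in time. -/
def TT (m : ℕ) (f : Fam) : Prop :=
  CF f ∧ (∀ j, j + 1 ≤ m → BI (DkF j f)) ∧ BL (DkF m f) ∧ BL (DkF (m + 1) f)

end Pool.Agent.H37.DP
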