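import Pool.Agent.H37.DP.EC
import Pool.Agent.H37.DP.HDefs

/-!
MODULE ED: sampling smooth periodic functions, and the family of solutions.

PROOF.  `smpl N v i = v (i.val / N)`; by periodicity `smpl N v (i + 1) = v (i.val/N + 1/N)`
(distinguish `i.val + 1 < N` and `= N`).  So `D (smpl N v) = smpl N (Δ v)`,
`Δ v x = N (v (x + 1/N) - v x)`, which is again smooth and periodic, with
`|(Δ v)^(j)| ≤ sup |v^(j+1)|` (mean value theorem for `v^(j)`).  By induction
`D^[k] (smpl N v) = smpl N (Δ^k v)` and `|Δ^k v| ≤ sup |v^(k)| =: B k` (finite by periodicity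
and continuity).  `L (smpl N v) i = N² (v(x+h) + v(x-h) - 2 v x)`, `h = 1/N`, equals `v'' ξ` for
some `ξ` (or: `v + x²/2 - c x²/2` is convex), hence `W (smpl N v) ≥ c` if `1 + v'' ≥ c`.
`family`: `c > 0` lower bound of `1 + v0''`, `1 + v1''` by periodicity and compactness;
`B = max (B0) (B1)`; `exists_sol` for each `N = n + 3`.
-/

namespace Pool.Agent.H37.DP

open Set Filter Topology
open scoped ContDiff

/-- sampling at the grid points `i/N` -/
noncomputable def smpl (N : ℕ) (v : ℝ → ℝ) : ZMod N → ℝ := fun i => v ((i.val : ℝ) / N)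

private theorem ed_int (N : ℕ) [NeZero N] (u : ℝ → ℝ) (hu : ∀ x, u (x + 1) = u x) (m : ℤ) :
    smpl N u (m : ZMod N) = u ((m : ℝ) / N) := by
  unfold smpl
  have hper : Function.Periodic u 1 := hu
  have hN : (N : ℝ) ≠ 0 := Nat.cast_ne_zero.2 (NeZero.ne N)
  have h1 : (((m : ZMod N).val : ℕ) : ℤ) = m % N := ZMod.val_intCast m
  have h2 : (((m : ZMod N).val : ℕ) : ℝ) = ((m % N : ℤ) : ℝ) := by
    rw [← h1, Int.cast_natCast]
  have h3 : ((m % N : ℤ) : ℝ) = (m : ℝ) - N * ((m / N : ℤ) : ℝ) := by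
    have := Int.emod_add_mul_ediv m N
    have h4 : ((m % N + N * (m / N) : ℤ) : ℝ) = (m : ℝ) := by rw [this]
    push_cast at h4
    push_cast
    linarith
  rw [h2, h3]
  have h4 : ((m : ℝ) - N * ((m / N : ℤ) : ℝ)) / N = (m : ℝ) / N - ((m / N : ℤ) : ℝ) * 1 := by
    field_simp
  rw [h4, hper.sub_int_mul_eq]

private theorem ed_add (N : ℕ) [NeZero N] (u : ℝ → ℝ) (hu : ∀ x, u (x + 1) = u x) (i : ZMod N) :
    smpl N u (i + 1) = u ((i.val : ℝ) / N + 1 / N) := by
  have h := ed_int N u hu ((i.val : ℤ) + 1)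
  have h1 : (((i.val : ℤ) + 1 : ℤ) : ZMod N) = i + 1 := by
    push_cast
    rw [ZMod.natCast_zmod_val]
  rw [h1] at h
  rw [h]
  congr 1
  push_cast
  ring

private theorem ed_sub (N : ℕ) [NeZero N] (u : ℝ → ℝ) (hu : ∀ x, u (x + 1) = u x) (i : ZMod N) :
    smpl N u (i - 1) = u ((i.val : ℝ) / N - 1 / N) := by
  have h := ed_int N u hu ((i.val : ℤ) - 1)
  have h1 : (((i.val : ℤ) - 1 : ℤ) : ZMod N) = i - 1 := by
    push_cast
    rw [ZMod.natCast_zmod_val]
  rw [h1] at h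
  rw [h]
  congr 1
  push_cast
  ring

/-- the difference quotient of a function on the line -/
private noncomputable def ed_dq (N : ℕ) (u : ℝ → ℝ) : ℝ → ℝ :=
  fun x => N * (u (x + 1 / N) - u x)

private theorem ed_D (N : ℕ) [NeZero N] (u : ℝ → ℝ) (hu : ∀ x, u (x + 1) = u x) :
    D (smpl N u) = smpl N (ed_dq N u) := by
  funext i
  unfold D
  rw [ed_add N u hu i]
  rfl

private theorem ed_bound (N : ℕ) [NeZero N] {M : ℝ} (k : ℕ) :
    ∀ u : ℕ → ℝ → ℝ, (∀ j x, HasDerivAt (u j) (u (j + 1) x) x) → (∀ x, u 0 (x + 1) = u 0 x) →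
      (∀ x, |u k x| ≤ M) → ∀ i, |(D^[k] (smpl N (u 0))) i| ≤ M := by
  have hN : (0 : ℝ) < N := Nat.cast_pos.2 (Nat.pos_of_ne_zero (NeZero.ne N))
  induction k with
  | zero =>
    intro u _ _ hb i
    exact hb _
  | succ k ih =>
    intro u hd hp hb i
    rw [Function.iterate_succ_apply, ed_D N (u 0) hp]
    refine ih (fun j => ed_dq N (u j)) ?_ ?_ ?_ i
    · intro j x
      have h1 : HasDerivAt (fun y => u j (y + 1 / N)) (u (j + 1) (x + 1 / N)) x :=
        (hd j (x + 1 / N)).comp_add_const x (1 / N)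
      exact (h1.sub (hd j x)).const_mul (N : ℝ)
    · intro x
      unfold ed_dq
      rw [hp x, show x + 1 + 1 / (N : ℝ) = x + 1 / N + 1 by ring, hp]
    · intro x
      have h1 : ‖u k (x + 1 / N) - u k x‖ ≤ M * ‖x + 1 / N - x‖ :=
        Convex.norm_image_sub_le_of_norm_hasDerivWithin_le (s := Set.univ)
          (fun y _ => (hd k y).hasDerivWithinAt) (fun y _ => hb y) convex_univ
          (mem_univ x) (mem_univ (x + 1 / N))
      have h2 : (0 : ℝ) < 1 / N := by positivity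
      rw [Real.norm_eq_abs, Real.norm_eq_abs, add_sub_cancel_left, abs_of_pos h2] at h1
      unfold ed_dq
      rw [abs_mul, abs_of_pos hN]
      calc (N : ℝ) * |u k (x + 1 / N) - u k x| ≤ N * (M * (1 / N)) :=
            mul_le_mul_of_nonneg_left h1 hN.le
        _ = M := by field_simp

private theorem ed_tower (v : ℝ → ℝ) (hv : ContDiff ℝ ∞ v) (j : ℕ) (x : ℝ) :
    HasDerivAt (iteratedDeriv j v) (iteratedDeriv (j + 1) v x) x := by
  rw [iteratedDeriv_succ]
  exact ((hv.differentiable_iteratedDeriv j (by exact_mod_cast WithTop.coe_lt_top _)) x).hasDerivAt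

private theorem ed_cont (v : ℝ → ℝ) (hv : ContDiff ℝ ∞ v) (k : ℕ) :
    Continuous (iteratedDeriv k v) :=
  hv.continuous_iteratedDeriv k (by exact_mod_cast le_top)

private theorem ed_per (v : ℝ → ℝ) (hv : ContDiff ℝ ∞ v) (hper : ∀ x, v (x + 1) = v x) (j : ℕ)
    (x : ℝ) : iteratedDeriv j v (x + 1) = iteratedDeriv j v x := by
  induction j generalizing x with
  | zero => simpa using hper x
  | succ j ih =>
    have h1 := (ed_tower v hv j (x + 1)).comp_add_const x 1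
    have h2 : (fun y => iteratedDeriv j v (y + 1)) = iteratedDeriv j v := funext ih
    rw [h2] at h1
    exact h1.unique (ed_tower v hv j x)

private theorem ed_bdd {u : ℝ → ℝ} (hc : Continuous u) (hp : ∀ x, u (x + 1) = u x) :
    ∃ M, ∀ x, |u x| ≤ M := by
  have hper : Function.Periodic u 1 := hp
  obtain ⟨M, hM⟩ := isCompact_Icc.exists_bound_of_continuousOn (s := Icc (0 : ℝ) 1)
    (hc.continuousOn)
  refine ⟨M, fun x => ?_⟩
  obtain ⟨y, hy, hxy⟩ := hper.exists_mem_Ico₀ one_pos x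
  rw [hxy]
  exact hM y ⟨hy.1, hy.2.le⟩

private theorem ed_second {v : ℝ → ℝ} (hv : ContDiff ℝ ∞ v) {c : ℝ}
    (hc : ∀ x, c ≤ 1 + deriv (deriv v) x) (x h : ℝ) :
    (c - 1) * h ^ 2 ≤ v (x + h) + v (x - h) - 2 * v x := by
  have hd : Differentiable ℝ v := hv.differentiable (by simp)
  have hd1 : ContDiff ℝ ∞ (deriv v) := by
    have := contDiff_infty_iff_deriv.1 hv
    exact this.2
  have hd2 : Differentiable ℝ (deriv v) := hd1.differentiable (by simp)
  have e1 : deriv (fun y => v y - (c - 1) / 2 * y ^ 2) = fun y => deriv v y - (c - 1) * y := by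
    funext y
    have h1 : HasDerivAt (fun y => v y - (c - 1) / 2 * y ^ 2)
        (deriv v y - (c - 1) / 2 * (2 * y ^ (2 - 1))) y :=
      (hd y).hasDerivAt.sub ((hasDerivAt_pow 2 y).const_mul _)
    rw [h1.deriv]
    ring
  have e2 : deriv (fun y => deriv v y - (c - 1) * y) = fun y => deriv (deriv v) y - (c - 1) := by
    funext y
    have h1 : HasDerivAt (fun y => deriv v y - (c - 1) * y)
        (deriv (deriv v) y - (c - 1) * 1) y :=
      (hd2 y).hasDerivAt.sub ((hasDerivAt_id y).const_mul _)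
    rw [h1.deriv]
    ring
  have hconv : ConvexOn ℝ univ (fun y => v y - (c - 1) / 2 * y ^ 2) := by
    refine convexOn_univ_of_deriv2_nonneg (by fun_prop) ?_ ?_
    · rw [e1]
      fun_prop
    · intro y
      rw [Function.iterate_succ_apply, Function.iterate_one, e1, e2]
      have := hc y
      linarith
  have h1 := hconv.2 (mem_univ (x + h)) (mem_univ (x - h)) (by norm_num : (0 : ℝ) ≤ 1 / 2)
    (by norm_num : (0 : ℝ) ≤ 1 / 2) (by norm_num)
  simp only [smul_eq_mul] at h1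
  rw [show 1 / 2 * (x + h) + 1 / 2 * (x - h) = x by ring] at h1
  nlinarith

theorem sample_data (v : ℝ → ℝ) (hv : ContDiff ℝ ∞ v) (hper : ∀ x, v (x + 1) = v x) {c : ℝ}
    (hc : ∀ x, c ≤ 1 + deriv (deriv v) x) :
    ∃ B : ℕ → ℝ, ∀ (N : ℕ) [NeZero N], Data c B (smpl N v) := by
  have key : ∀ k : ℕ, ∃ M, ∀ x, |iteratedDeriv k v x| ≤ M := fun k =>
    ed_bdd (hv.continuous_iteratedDeriv k (by exact_mod_cast le_top)) (ed_per v hv hper k)
  choose B hB using key
  refine ⟨B, ?_⟩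
  intro N _
  have hN : (0 : ℝ) < N := Nat.cast_pos.2 (Nat.pos_of_ne_zero (NeZero.ne N))
  refine ⟨?_, ?_⟩
  · intro i
    unfold W L
    rw [ed_add N v hper, ed_sub N v hper]
    have h1 := ed_second hv hc ((i.val : ℝ) / N) (1 / N)
    have h2 : smpl N v i = v ((i.val : ℝ) / N) := rfl
    rw [h2]
    have h3 := mul_le_mul_of_nonneg_left h1 (sq_nonneg (N : ℝ))
    have h4 : (N : ℝ) ^ 2 * ((c - 1) * (1 / N) ^ 2) = c - 1 := by
      field_simp
    linarith
  · intro k i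
    have h1 := ed_bound N (M := B k) k (fun j => iteratedDeriv j v) (ed_tower v hv)
      (ed_per v hv hper 0) (hB k) i
    simpa using h1

private theorem ed_low {u : ℝ → ℝ} (hc : Continuous u) (hp : ∀ x, u (x + 1) = u x)
    (h0 : ∀ x, 0 < u x) : ∃ c : ℝ, 0 < c ∧ ∀ x, c ≤ u x := by
  have hper : Function.Periodic u 1 := hp
  obtain ⟨z, -, hz⟩ := isCompact_Icc.exists_isMinOn (s := Icc (0 : ℝ) 1) ⟨0, by simp⟩
    (hc.continuousOn)
  refine ⟨u z, h0 z, fun x => ?_⟩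
  obtain ⟨y, hy, hxy⟩ := hper.exists_mem_Ico₀ one_pos x
  rw [hxy]
  exact hz ⟨hy.1, hy.2.le⟩

private theorem ed_low2 {v : ℝ → ℝ} (hv : ContDiff ℝ ∞ v) (hp : ∀ x, v (x + 1) = v x)
    (h0 : ∀ x, 0 < 1 + deriv (deriv v) x) : ∃ c : ℝ, 0 < c ∧ ∀ x, c ≤ 1 + deriv (deriv v) x := by
  have e : iteratedDeriv 2 v = deriv (deriv v) := by
    rw [iteratedDeriv_succ, iteratedDeriv_one]
  refine ed_low (u := fun x => 1 + deriv (deriv v) x) ?_ ?_ h0
  · rw [← e]
    exact continuous_const.add (ed_cont v hv 2)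
  · intro x
    have := ed_per v hv hp 2 x
    rw [e] at this
    simp only [this]

private theorem ed_data_mono {N : ℕ} {c c' : ℝ} {B B' : ℕ → ℝ} {f : ZMod N → ℝ}
    (h : Data c B f) (hc : c' ≤ c) (hB : ∀ k, B k ≤ B' k) : Data c' B' f :=
  ⟨fun i => hc.trans (h.pos i), fun k i => (h.bd k i).trans (hB k)⟩

theorem family {lam : ℝ} (hlam : 0 < lam) (v0 v1 : ℝ → ℝ) (h0 : ContDiff ℝ ∞ v0)
    (h1 : ContDiff ℝ ∞ v1) (p0 : ∀ x, v0 (x + 1) = v0 x) (p1 : ∀ x, v1 (x + 1) = v1 x)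
    (c0 : ∀ x, 0 < 1 + deriv (deriv v0) x) (c1 : ∀ x, 0 < 1 + deriv (deriv v1) x) :
    ∃ (c : ℝ) (B : ℕ → ℝ) (V V1 : Fam), 0 < c ∧
      (∀ n, Cls (n + 3) lam c B (V n) (V1 n)) ∧
      (∀ n, V n 0 = smpl (n + 3) v0) ∧ (∀ n, V n 1 = smpl (n + 3) v1) := by
  obtain ⟨a0, ha0, hb0⟩ := ed_low2 h0 p0 c0
  obtain ⟨a1, ha1, hb1⟩ := ed_low2 h1 p1 c1
  obtain ⟨B0, hB0⟩ := sample_data v0 h0 p0 hb0
  obtain ⟨B1, hB1⟩ := sample_data v1 h1 p1 hb1
  set c := min a0 a1 with hc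
  set B : ℕ → ℝ := fun k => max (B0 k) (B1 k) with hB
  have hcpos : 0 < c := lt_min ha0 ha1
  have d0 : ∀ n : ℕ, Data c B (smpl (n + 3) v0) := fun n =>
    ed_data_mono (hB0 (n + 3)) (min_le_left _ _) (fun k => le_max_left _ _)
  have d1 : ∀ n : ℕ, Data c B (smpl (n + 3) v1) := fun n =>
    ed_data_mono (hB1 (n + 3)) (min_le_right _ _) (fun k => le_max_right _ _)
  have key := fun n : ℕ => exists_sol (n + 3) hlam hcpos (smpl (n + 3) v0) (smpl (n + 3) v1)
    (d0 n).pos (d1 n).pos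
  choose V V1 hV0 hV1 hsol using key
  refine ⟨c, B, V, V1, hcpos, fun n => ⟨by omega, hsol n, ?_, ?_⟩, hV0, hV1⟩
  · rw [hV0 n]
    exact d0 n
  · rw [hV1 n]
    exact d1 n

end Pool.Agent.H37.DP
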