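import Pool.Agent.H37.DP.Defs

/-!
MODULE GA: elementary calculus of means of grid functions `ZMod N → ℝ`: all proofs are finite sums.
* shift invariance: `∑ i, f (i + a) = ∑ i, f i` is `Equiv.sum_comp (Equiv.addRight a)`.
* `cs`: `Finset.sum_mul_sq_le_sq_mul_sq` (Cauchy-Schwarz).
-/

namespace Pool.Agent.H37.DP

open Set Filter Topology

variable {N : ℕ} [NeZero N]

theorem avg_add (f g : ZMod N → ℝ) : avg (fun i => f i + g i) = avg f + avg g := by
  simp only [avg, Finset.sum_add_distrib, add_div]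

theorem avg_sub (f g : ZMod N → ℝ) : avg (fun i => f i - g i) = avg f - avg g := by
  simp only [avg, Finset.sum_sub_distrib, sub_div]

theorem avg_neg (f : ZMod N → ℝ) : avg (fun i => - f i) = - avg f := by
  simp only [avg, Finset.sum_neg_distrib, neg_div]

theorem avg_mul_left (c : ℝ) (f : ZMod N → ℝ) : avg (fun i => c * f i) = c * avg f := by
  simp only [avg, ← Finset.mul_sum, mul_div_assoc]

theorem avg_const (c : ℝ) : avg (fun _ : ZMod N => c) = c := by
  have hN : (N : ℝ) ≠ 0 := Nat.cast_ne_zero.mpr (NeZero.ne N)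
  simp only [avg, Finset.sum_const, Finset.card_univ, ZMod.card, nsmul_eq_mul]
  field_simp

theorem avg_nonneg {f : ZMod N → ℝ} (h : ∀ i, 0 ≤ f i) : 0 ≤ avg f := by
  exact div_nonneg (Finset.sum_nonneg (fun i _ => h i)) (Nat.cast_nonneg N)

theorem avg_mono {f g : ZMod N → ℝ} (h : ∀ i, f i ≤ g i) : avg f ≤ avg g := by
  exact div_le_div_of_nonneg_right (Finset.sum_le_sum (fun i _ => h i)) (Nat.cast_nonneg N)

theorem abs_avg_le (f : ZMod N → ℝ) : |avg f| ≤ avg (fun i => |f i|) := by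
  unfold avg
  rw [abs_div, abs_of_nonneg (Nat.cast_nonneg N : (0 : ℝ) ≤ N)]
  exact div_le_div_of_nonneg_right (Finset.abs_sum_le_sum_abs _ _) (Nat.cast_nonneg N)

theorem avg_shift (f : ZMod N → ℝ) (a : ZMod N) : avg (fun i => f (i + a)) = avg f := by
  unfold avg
  have h := Equiv.sum_comp (Equiv.addRight a) f
  simp only [Equiv.coe_addRight] at h
  rw [h]

theorem avg_shift_one (f : ZMod N → ℝ) : avg (fun i => f (i + 1)) = avg f := by
  exact avg_shift f 1

theorem avg_shift_neg (f : ZMod N → ℝ) : avg (fun i => f (i - 1)) = avg f := by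
  have h := avg_shift f (-1)
  simpa only [sub_eq_add_neg] using h

theorem sq_nonneg' (f : ZMod N → ℝ) : 0 ≤ sq f := by
  exact avg_nonneg (fun i => _root_.sq_nonneg (f i))

theorem sq_shift (f : ZMod N → ℝ) (a : ZMod N) : sq (fun i => f (i + a)) = sq f := by
  exact avg_shift (fun i => (f i) ^ 2) a

theorem sq_shift_neg (f : ZMod N → ℝ) : sq (fun i => f (i - 1)) = sq f := by
  exact avg_shift_neg (fun i => (f i) ^ 2)

theorem sq_mul_left (c : ℝ) (f : ZMod N → ℝ) : sq (fun i => c * f i) = c ^ 2 * sq f := by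
  unfold sq
  rw [← avg_mul_left]
  simp only [mul_pow]

theorem sq_le_of_abs_le {f : ZMod N → ℝ} {B : ℝ} (h : ∀ i, |f i| ≤ B) : sq f ≤ B ^ 2 := by
  unfold sq
  calc avg (fun i => (f i) ^ 2) ≤ avg (fun _ : ZMod N => B ^ 2) :=
        avg_mono (fun i => sq_le_sq' (by linarith [neg_abs_le (f i), h i]) ((le_abs_self _).trans (h i)))
    _ = B ^ 2 := avg_const _

theorem sq_mono {f g : ZMod N → ℝ} (h : ∀ i, |f i| ≤ |g i|) : sq f ≤ sq g := by
  exact avg_mono (fun i => sq_le_sq.mpr (h i))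

theorem sq_add_le (f g : ZMod N → ℝ) :
    sq (fun i => f i + g i) ≤ 2 * sq f + 2 * sq g := by
  unfold sq
  rw [← avg_mul_left, ← avg_mul_left, ← avg_add]
  exact avg_mono (fun i => by nlinarith [_root_.sq_nonneg (f i - g i)])

theorem sq_sub_le (f g : ZMod N → ℝ) :
    sq (fun i => f i - g i) ≤ 2 * sq f + 2 * sq g := by
  unfold sq
  rw [← avg_mul_left, ← avg_mul_left, ← avg_add]
  exact avg_mono (fun i => by nlinarith [_root_.sq_nonneg (f i + g i)])

/-- Cauchy-Schwarz -/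
theorem cs (f g : ZMod N → ℝ) : (avg (fun i => f i * g i)) ^ 2 ≤ sq f * sq g := by
  unfold sq avg
  have h := Finset.sum_mul_sq_le_sq_mul_sq Finset.univ f g
  have hN : (0 : ℝ) ≤ (N : ℝ) ^ 2 := by positivity
  calc ((∑ i, f i * g i) / (N : ℝ)) ^ 2 = (∑ i, f i * g i) ^ 2 / (N : ℝ) ^ 2 := by rw [div_pow]
    _ ≤ ((∑ i, (f i) ^ 2) * ∑ i, (g i) ^ 2) / (N : ℝ) ^ 2 := div_le_div_of_nonneg_right h hN
    _ = (∑ i, (f i) ^ 2) / N * ((∑ i, (g i) ^ 2) / N) := by rw [div_mul_div_comm, ← pow_two]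

theorem cs' (f g : ZMod N → ℝ) :
    |avg (fun i => f i * g i)| ≤ Real.sqrt (sq f) * Real.sqrt (sq g) := by
  rw [← Real.sqrt_mul (sq_nonneg' f)]
  exact Real.abs_le_sqrt (cs f g)

/-- Minkowski -/
theorem sqrt_sq_add_le (f g : ZMod N → ℝ) :
    Real.sqrt (sq (fun i => f i + g i)) ≤ Real.sqrt (sq f) + Real.sqrt (sq g) := by
  have h0 : sq (fun i => f i + g i) = sq f + 2 * avg (fun i => f i * g i) + sq g := by
    unfold sq
    rw [← avg_mul_left, ← avg_add, ← avg_add]
    refine congrArg avg (funext (fun i => ?_))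
    ring
  have hf := sq_nonneg' f
  have hg := sq_nonneg' g
  apply Real.sqrt_le_iff.mpr
  refine ⟨by positivity, ?_⟩
  have h1 : avg (fun i => f i * g i) ≤ Real.sqrt (sq f) * Real.sqrt (sq g) :=
    (le_abs_self _).trans (cs' f g)
  rw [h0, add_sq, Real.sq_sqrt hf, Real.sq_sqrt hg]
  nlinarith [h1]

theorem avg_abs_le (f : ZMod N → ℝ) : avg (fun i => |f i|) ≤ Real.sqrt (sq f) := by
  have h := cs' (fun i => |f i|) (fun _ => (1 : ℝ))
  have h1 : sq (fun _ : ZMod N => (1 : ℝ)) = 1 := by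
    unfold sq
    rw [avg_const]
    norm_num
  have h2 : sq (fun i => |f i|) = sq f := by
    unfold sq
    simp only [sq_abs]
  rw [h1, h2, Real.sqrt_one, mul_one] at h
  simp only [mul_one] at h
  exact (le_abs_self _).trans h

end Pool.Agent.H37.DP
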