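import Pool.Agent.H37.DP.Defs

/-!
MODULE GB: algebraic identities for the difference quotients `D`, `L` (unfold, `ring`, `field_simp`).
Note `i - 1 + 1 = i` and `i + 1 - 1 = i` in `ZMod N` (`sub_add_cancel`, `add_sub_cancel_right`).
-/

namespace Pool.Agent.H37.DP

open Set Filter Topology

variable {N : ℕ}

theorem L_eq (f : ZMod N → ℝ) (i : ZMod N) : L f i = D (D f) (i - 1) := by
  simp only [L, D, sub_add_cancel]
  ring

theorem D_mul (f g : ZMod N → ℝ) (i : ZMod N) :
    D (fun j => f j * g j) i = D f i * g (i + 1) + f i * D g i := by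
  simp only [D]
  ring

theorem D_add (f g : ZMod N → ℝ) : D (fun j => f j + g j) = fun i => D f i + D g i := by
  funext i
  simp only [D]
  ring

theorem D_sub (f g : ZMod N → ℝ) : D (fun j => f j - g j) = fun i => D f i - D g i := by
  funext i
  simp only [D]
  ring

theorem D_mul_left (c : ℝ) (f : ZMod N → ℝ) : D (fun j => c * f j) = fun i => c * D f i := by
  funext i
  simp only [D]
  ring

theorem L_add (f g : ZMod N → ℝ) : L (fun j => f j + g j) = fun i => L f i + L g i := by
  funext i
  simp only [L]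
  ring

theorem L_sub (f g : ZMod N → ℝ) : L (fun j => f j - g j) = fun i => L f i - L g i := by
  funext i
  simp only [L]
  ring

theorem L_mul_left (c : ℝ) (f : ZMod N → ℝ) : L (fun j => c * f j) = fun i => c * L f i := by
  funext i
  simp only [L]
  ring

theorem D_L (f : ZMod N → ℝ) : D (L f) = L (D f) := by
  funext i
  simp only [L, D, sub_add_cancel, add_sub_cancel_right]
  ring

theorem D_shift (f : ZMod N → ℝ) (a : ZMod N) :
    D (fun j => f (j + a)) = fun i => D f (i + a) := by
  funext i
  simp only [D]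
  rw [add_right_comm]

theorem L_shift (f : ZMod N → ℝ) (a : ZMod N) :
    L (fun j => f (j + a)) = fun i => L f (i + a) := by
  funext i
  simp only [L]
  rw [add_right_comm i 1 a, sub_add_eq_add_sub i 1 a]

theorem D_ginv (w : ZMod N → ℝ) (hw : ∀ i, 0 < w i) (i : ZMod N) :
    D (ginv w) i = - (D w i * ginv w i * ginv w (i + 1)) := by
  have h0 := hw i
  have h1 := hw (i + 1)
  simp only [D, ginv]
  field_simp
  ring

/-- `L (1/w) = - w⁻² L w + w⁻² ((D w i)² / w(i+1) + (D w (i-1))² / w (i-1))` -/
theorem L_ginv (w : ZMod N → ℝ) (hw : ∀ i, 0 < w i) (i : ZMod N) :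
    L (ginv w) i = (ginv w i) ^ 2 *
      (- L w i + ((D w i) ^ 2 / w (i + 1) + (D w (i - 1)) ^ 2 / w (i - 1))) := by
  have h0 := hw i
  have h1 := hw (i + 1)
  have h2 := hw (i - 1)
  simp only [D, L, ginv, sub_add_cancel]
  field_simp
  ring

end Pool.Agent.H37.DP
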