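import Pool.Agent.H37.DP.GA
import Pool.Agent.H37.DP.GB

/-!
MODULE GC: summation by parts, oscillation and path bounds.
* `sbp_D`, `sbp_L`: expand `L`, `D` and use shift invariance.
* `path_sum` by induction on `m`; `path`: by `path_sum` and Cauchy-Schwarz on the sum over
  `Finset.range m`; for `m ≤ N` the points `i + l`, `l < m`, are distinct in `ZMod N`, hence
  `∑ l in range m, (D f (i+l))² ≤ ∑ i, (D f i)²`.
* `osc`: every `j` is `i + m` with `m < N` (`m = (j - i).val`), then `path_sum` and distinctness.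
* `sup_sq_le`: for every `j`, `(f i)² - (f j)² ≤ avg |D (f²)| ≤ 2 √(sq f) √(sq (D f))` by `osc`
  for `f²` and `D_mul`; average over `j`.
* `sup_le_of_avg_zero`: `|f i| ≤ avg_j |f i - f j| ≤ avg |D f| ≤ √(sq (D f))`.
-/

namespace Pool.Agent.H37.DP

open Set Filter Topology

variable {N : ℕ} [NeZero N]

theorem avg_D (f : ZMod N → ℝ) : avg (D f) = 0 := by
  have h : avg (fun i => (N : ℝ) * (f (i + 1) - f i)) = 0 := by
    rw [avg_mul_left, avg_sub, avg_shift_one]
    ring
  exact h

theorem avg_L (f : ZMod N → ℝ) : avg (L f) = 0 := by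
  have h : (L f) = fun i => D (D f) (i - 1) := by
    funext i
    exact L_eq f i
  rw [h, avg_shift_neg (D (D f)), avg_D]

theorem avg_W (V : ZMod N → ℝ) : avg (W V) = 1 := by
  have h : avg (fun i => 1 + L V i) = 1 := by
    rw [avg_add, avg_const, avg_L V]
    ring
  exact h

/-- summation by parts -/
theorem sbp_L (f g : ZMod N → ℝ) :
    avg (fun i => f i * L g i) = avg (fun i => L f i * g i) := by
  have h1 := avg_shift_one (fun i => f (i - 1) * g i)
  have h2 := avg_shift_neg (fun i => f (i + 1) * g i)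
  simp only [add_sub_cancel_right, sub_add_cancel] at h1 h2
  have e1 : (fun i => f i * L g i)
      = fun i => ((N : ℝ) ^ 2 * (f i * g (i + 1)) + (N : ℝ) ^ 2 * (f i * g (i - 1)))
        - (2 * (N : ℝ) ^ 2) * (f i * g i) := by
    funext i
    simp only [L]
    ring
  have e2 : (fun i => L f i * g i)
      = fun i => ((N : ℝ) ^ 2 * (f (i + 1) * g i) + (N : ℝ) ^ 2 * (f (i - 1) * g i))
        - (2 * (N : ℝ) ^ 2) * (f i * g i) := by
    funext i
    simp only [L]
    ring
  rw [e1, e2, avg_sub, avg_sub, avg_add, avg_add, avg_mul_left, avg_mul_left, avg_mul_left,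
    avg_mul_left, avg_mul_left, h1, h2]
  ring

/-- summation by parts with `D`: `avg (f * D g) = - avg (D f * g(·+1))` -/
private theorem gc_sbp_D' (f g : ZMod N → ℝ) :
    avg (fun i => f i * D g i) = - avg (fun i => D f i * g (i + 1)) := by
  have h := avg_D (fun j => f j * g j)
  have e : D (fun j => f j * g j) = fun i => D f i * g (i + 1) + f i * D g i := by
    funext i
    exact D_mul f g i
  rw [e, avg_add] at h
  linarith

/-- summation by parts -/
theorem sbp_D (f g : ZMod N → ℝ) :
    avg (fun i => f i * L g i) = - avg (fun i => D f i * D g i) := by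
  have h1 := avg_shift_one (fun i => f i * L g i)
  have e1 : (fun i => f (i + 1) * L g (i + 1)) = fun i => f (i + 1) * D (D g) i := by
    funext i
    rw [L_eq, add_sub_cancel_right]
  rw [← h1, e1]
  have h2 := avg_D (fun j => f j * D g j)
  have e : D (fun j => f j * D g j) = fun i => D f i * D g i + f (i + 1) * D (D g) i := by
    funext i
    simp only [D]
    ring
  rw [e, avg_add] at h2
  linarith

/-- summation by parts with `D`: `avg (f * D g) = - avg (D f * g(·+1))` -/
theorem sbp_D' (f g : ZMod N → ℝ) :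
    avg (fun i => f i * D g i) = - avg (fun i => D f i * g (i + 1)) := gc_sbp_D' f g

theorem sq_L (f : ZMod N → ℝ) : sq (L f) = sq (D (D f)) := by
  have h : (L f) = fun i => D (D f) (i - 1) := by
    funext i
    exact L_eq f i
  rw [h, sq_shift_neg (D (D f))]

private theorem gc_path_sum (f : ZMod N → ℝ) (i : ZMod N) (m : ℕ) :
    f (i + (m : ZMod N)) = f i + (∑ l ∈ Finset.range m, D f (i + (l : ZMod N))) / N := by
  have hN : (N : ℝ) ≠ 0 := by exact_mod_cast NeZero.ne N
  induction m with
  | zero => simp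
  | succ m ih =>
    rw [Finset.sum_range_succ, add_div, ← add_assoc, ← ih]
    simp only [D]
    rw [mul_div_cancel_left₀ _ hN]
    push_cast
    rw [← add_assoc]
    ring

private theorem gc_range_le {h : ZMod N → ℝ} (hh : ∀ i, 0 ≤ h i) (i : ZMod N) {m : ℕ}
    (hm : m ≤ N) : ∑ l ∈ Finset.range m, h (i + (l : ZMod N)) ≤ ∑ l, h l := by
  classical
  have hinj : Set.InjOn (fun l : ℕ => i + (l : ZMod N)) (Finset.range m : Set ℕ) := by
    intro a ha b hb hab
    simp only [Finset.coe_range, Set.mem_Iio] at ha hb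
    have h1 : (a : ZMod N) = (b : ZMod N) := add_left_cancel hab
    have h2 := (ZMod.natCast_eq_natCast_iff' a b N).mp h1
    rwa [Nat.mod_eq_of_lt (by omega), Nat.mod_eq_of_lt (by omega)] at h2
  have e : ∑ l ∈ Finset.range m, h (i + (l : ZMod N))
      = ∑ x ∈ (Finset.range m).image (fun l : ℕ => i + (l : ZMod N)), h x := by
    rw [Finset.sum_image hinj]
  rw [e]
  exact Finset.sum_le_sum_of_subset_of_nonneg (Finset.subset_univ _) (fun x _ _ => hh x)

/-- oscillation bound -/
theorem osc (f : ZMod N → ℝ) (i j : ZMod N) : |f i - f j| ≤ avg (fun l => |D f l|) := by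
  have hN : (0 : ℝ) < N := by exact_mod_cast Nat.pos_of_ne_zero (NeZero.ne N)
  have h1 := gc_path_sum f j (i - j).val
  have h2 : j + (((i - j).val : ℕ) : ZMod N) = i := by
    rw [ZMod.natCast_zmod_val]
    ring
  rw [h2] at h1
  rw [h1, add_sub_cancel_left, abs_div, abs_of_pos hN]
  unfold avg
  refine div_le_div_of_nonneg_right ?_ hN.le
  refine (Finset.abs_sum_le_sum_abs _ _).trans ?_
  exact gc_range_le (h := fun l => |D f l|) (fun _ => abs_nonneg _) j (ZMod.val_lt _).le

theorem path_sum (f : ZMod N → ℝ) (i : ZMod N) (m : ℕ) :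
    f (i + (m : ZMod N)) = f i + (∑ l ∈ Finset.range m, D f (i + (l : ZMod N))) / N :=
  gc_path_sum f i m

/-- a grid function moves by at most `√(m/N) * ‖D f‖` in `m ≤ N` steps -/
theorem path (f : ZMod N → ℝ) (i : ZMod N) {m : ℕ} (hm : m ≤ N) :
    |f (i + (m : ZMod N)) - f i| ≤ Real.sqrt ((m : ℝ) / N) * Real.sqrt (sq (D f)) := by
  have hN : (0 : ℝ) < N := by exact_mod_cast Nat.pos_of_ne_zero (NeZero.ne N)
  rw [path_sum f i m, add_sub_cancel_left, ← Real.sqrt_mul (by positivity)]
  refine Real.abs_le_sqrt ?_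
  have h1 : (∑ l ∈ Finset.range m, D f (i + (l : ZMod N))) ^ 2
      ≤ (m : ℝ) * ∑ l ∈ Finset.range m, (D f (i + (l : ZMod N))) ^ 2 := by
    have := sq_sum_le_card_mul_sum_sq (s := Finset.range m)
      (f := fun l : ℕ => D f (i + (l : ZMod N)))
    simpa using this
  have h2 : ∑ l ∈ Finset.range m, (D f (i + (l : ZMod N))) ^ 2 ≤ ∑ l, (D f l) ^ 2 :=
    gc_range_le (h := fun l => (D f l) ^ 2) (fun _ => sq_nonneg _) i hm
  have h3 : sq (D f) = (∑ l, (D f l) ^ 2) / N := rfl
  rw [h3, div_pow]
  have h4 : (m : ℝ) / N * ((∑ l, (D f l) ^ 2) / N) = (m * ∑ l, (D f l) ^ 2) / (N : ℝ) ^ 2 := by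
    field_simp
  rw [h4]
  refine div_le_div_of_nonneg_right ?_ (by positivity)
  exact h1.trans (mul_le_mul_of_nonneg_left h2 (by positivity))

theorem sup_sq_le (f : ZMod N → ℝ) (i : ZMod N) :
    (f i) ^ 2 ≤ sq f + 2 * Real.sqrt (sq f) * Real.sqrt (sq (D f)) := by
  have h1 : avg (fun l => |D (fun j => f j * f j) l|)
      ≤ 2 * Real.sqrt (sq f) * Real.sqrt (sq (D f)) := by
    have e : ∀ l, |D (fun j => f j * f j) l|
        ≤ |f (l + 1)| * |D f l| + |f l| * |D f l| := by
      intro l
      rw [D_mul]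
      refine (abs_add_le _ _).trans (le_of_eq ?_)
      rw [abs_mul, abs_mul]
      ring
    refine (avg_mono e).trans ?_
    rw [avg_add]
    have c1 := cs' (fun l => |f (l + 1)|) (fun l => |D f l|)
    have c2 := cs' (fun l => |f l|) (fun l => |D f l|)
    have e1 : sq (fun l => |f (l + 1)|) = sq f := by
      have : sq (fun l => |f (l + 1)|) = sq (fun l => f (l + 1)) := by
        unfold sq
        simp only [sq_abs]
      rw [this]
      exact sq_shift f 1
    have e2 : sq (fun l => |f l|) = sq f := by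
      unfold sq
      simp only [sq_abs]
    have e3 : sq (fun l => |D f l|) = sq (D f) := by
      unfold sq
      simp only [sq_abs]
    rw [e1, e3] at c1
    rw [e2, e3] at c2
    have d1 := (abs_le.mp c1).2
    have d2 := (abs_le.mp c2).2
    linarith
  have h2 : ∀ j, (f i) ^ 2 ≤ (f j) ^ 2 + 2 * Real.sqrt (sq f) * Real.sqrt (sq (D f)) := by
    intro j
    have := osc (fun j => f j * f j) i j
    have h3 := (abs_le.mp (this.trans h1)).2
    nlinarith
  have h3 := avg_mono h2
  rw [avg_const, avg_add, avg_const] at h3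
  exact h3

/-- a grid function with mean zero is bounded by the norm of its difference quotient -/
theorem sup_le_of_avg_zero (f : ZMod N → ℝ) (hf : avg f = 0) (i : ZMod N) :
    (f i) ^ 2 ≤ sq (D f) := by
  have h1 : |f i| ≤ Real.sqrt (sq (D f)) := by
    have h2 : ∀ j, |f i - f j| ≤ Real.sqrt (sq (D f)) := fun j =>
      (osc f i j).trans (avg_abs_le _)
    have h3 : |avg (fun j => f i - f j)| ≤ Real.sqrt (sq (D f)) := by
      refine (abs_avg_le _).trans ?_
      have := avg_mono h2
      rwa [avg_const] at this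
    rw [avg_sub, avg_const, hf, sub_zero] at h3
    exact h3
  have h4 : 0 ≤ sq (D f) := sq_nonneg' _
  calc (f i) ^ 2 = |f i| ^ 2 := (sq_abs _).symm
    _ ≤ (Real.sqrt (sq (D f))) ^ 2 := by
        exact pow_le_pow_left₀ (abs_nonneg _) h1 2
    _ = sq (D f) := Real.sq_sqrt h4

theorem sq_le_sq_D (f : ZMod N → ℝ) (hf : avg f = 0) : sq f ≤ sq (D f) := by
  have h := avg_mono (fun i => sup_le_of_avg_zero f hf i)
  rwa [avg_const] at h

end Pool.Agent.H37.DP
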