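import Pool.Agent.H37.DP.HDefs

/-!
MODULE HA: closure properties of the notions `CF, BI, B2, BL` for families.

All are immediate from the definitions, shift invariance of `sq` (`sq_shift`), the product rule
`D_mul`, and for integrals: monotonicity of the integral, with `CF` giving integrability of
`t ↦ sq (f n t)` on `[0,1]`.
-/

namespace Pool.Agent.H37.DP

open Set Filter Topology

private theorem ha_sq_sh (f : Fam) (a : ℤ) (n : ℕ) (t : ℝ) :
    Pool.Agent.H37.DP.sq (shF a f n t) = Pool.Agent.H37.DP.sq (f n t) :=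
  sq_shift (f n t) ((a : ZMod (n + 3)))

theorem CF.D {f : Fam} (h : CF f) : CF (DF f) := fun n i =>
  continuousOn_const.mul ((h n (i + 1)).sub (h n i))
theorem CF.Dk {f : Fam} (h : CF f) (k : ℕ) : CF (DkF k f) := by
  induction k with
  | zero => exact h
  | succ k ih =>
    have : DkF (k + 1) f = DF (DkF k f) := by
      funext n t
      simp only [DkF, DF, Function.iterate_succ']
      rfl
    rw [this]
    exact ih.D
theorem CF.sh {f : Fam} (h : CF f) (a : ℤ) : CF (shF a f) := fun n i => h n (i + a)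
theorem CF.mul {f g : Fam} (hf : CF f) (hg : CF g) : CF (mulF f g) := fun n i =>
  (hf n i).mul (hg n i)
theorem CF.add {f g : Fam} (hf : CF f) (hg : CF g) : CF (addF f g) := fun n i =>
  (hf n i).add (hg n i)
theorem CF.smul {f : Fam} (hf : CF f) (c : ℝ) : CF (smulF c f) := fun n i =>
  continuousOn_const.mul (hf n i)
theorem CF.sq {f : Fam} (hf : CF f) (n : ℕ) :
    ContinuousOn (fun t => Pool.Agent.H37.DP.sq (f n t)) (Icc 0 1) := by
  have := continuousOn_finsetSum (Finset.univ : Finset (ZMod (n + 3))) fun i _ => (hf n i).pow 2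
  exact this.div_const _

private theorem ha_int {f : Fam} (hf : CF f) (n : ℕ) :
    IntervalIntegrable (fun t => Pool.Agent.H37.DP.sq (f n t)) MeasureTheory.volume 0 1 :=
  ContinuousOn.intervalIntegrable (by rw [uIcc_of_le zero_le_one]; exact hf.sq n)

theorem BI.sh {f : Fam} (h : BI f) (a : ℤ) : BI (shF a f) := by
  obtain ⟨C, hC⟩ := h
  exact ⟨C, fun n t ht i => hC n t ht _⟩
theorem BI.mul {f g : Fam} (hf : BI f) (hg : BI g) : BI (mulF f g) := by
  obtain ⟨C, hC⟩ := hf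
  obtain ⟨C', hC'⟩ := hg
  refine ⟨C * C', fun n t ht i => ?_⟩
  have h1 := hC n t ht i
  simp only [mulF, abs_mul]
  exact mul_le_mul h1 (hC' n t ht i) (abs_nonneg _) ((abs_nonneg _).trans h1)
theorem BI.add {f g : Fam} (hf : BI f) (hg : BI g) : BI (addF f g) := by
  obtain ⟨C, hC⟩ := hf
  obtain ⟨C', hC'⟩ := hg
  exact ⟨C + C', fun n t ht i => (abs_add_le _ _).trans (add_le_add (hC n t ht i) (hC' n t ht i))⟩
theorem BI.smul {f : Fam} (hf : BI f) (c : ℝ) : BI (smulF c f) := by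
  obtain ⟨C, hC⟩ := hf
  refine ⟨|c| * C, fun n t ht i => ?_⟩
  simp only [smulF, abs_mul]
  exact mul_le_mul_of_nonneg_left (hC n t ht i) (abs_nonneg _)
theorem BI.b2 {f : Fam} (hf : BI f) : B2 f := by
  obtain ⟨C, hC⟩ := hf
  exact ⟨C ^ 2, fun n t ht => sq_le_of_abs_le (hC n t ht)⟩

theorem B2.sh {f : Fam} (h : B2 f) (a : ℤ) : B2 (shF a f) := by
  obtain ⟨C, hC⟩ := h
  exact ⟨C, fun n t ht => (ha_sq_sh f a n t).le.trans (hC n t ht)⟩

private theorem ha_sq_mulI {f g : Fam} {C : ℝ} {n : ℕ} {t : ℝ} (hC : ∀ i, |g n t i| ≤ C) :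
    Pool.Agent.H37.DP.sq (mulF f g n t) ≤ C ^ 2 * Pool.Agent.H37.DP.sq (f n t) := by
  have h0 : 0 ≤ C := (abs_nonneg _).trans (hC 0)
  rw [← sq_mul_left]
  refine sq_mono fun i => ?_
  simp only [mulF, abs_mul, abs_of_nonneg h0]
  rw [mul_comm C]
  exact mul_le_mul_of_nonneg_left (hC i) (abs_nonneg _)

private theorem ha_mul_comm (f g : Fam) : mulF f g = mulF g f := by
  funext n t i
  exact mul_comm _ _

theorem B2.mulI {f g : Fam} (hf : B2 f) (hg : BI g) : B2 (mulF f g) := by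
  obtain ⟨C, hC⟩ := hf
  obtain ⟨C', hC'⟩ := hg
  exact ⟨C' ^ 2 * C, fun n t ht => (ha_sq_mulI (hC' n t ht)).trans
    (mul_le_mul_of_nonneg_left (hC n t ht) (sq_nonneg C'))⟩
theorem B2.Imul {f g : Fam} (hf : BI f) (hg : B2 g) : B2 (mulF f g) := by
  rw [ha_mul_comm]
  exact hg.mulI hf
theorem B2.add {f g : Fam} (hf : B2 f) (hg : B2 g) : B2 (addF f g) := by
  obtain ⟨C, hC⟩ := hf
  obtain ⟨C', hC'⟩ := hg
  refine ⟨2 * C + 2 * C', fun n t ht => (sq_add_le _ _).trans ?_⟩
  linarith [hC n t ht, hC' n t ht]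
theorem B2.smul {f : Fam} (hf : B2 f) (c : ℝ) : B2 (smulF c f) := by
  obtain ⟨C, hC⟩ := hf
  exact ⟨c ^ 2 * C, fun n t ht => (sq_mul_left c _).le.trans
    (mul_le_mul_of_nonneg_left (hC n t ht) (sq_nonneg c))⟩
theorem B2.bl {f : Fam} (hf : B2 f) (hc : CF f) : BL f := by
  obtain ⟨C, hC⟩ := hf
  refine ⟨C, fun n => ?_⟩
  have := intervalIntegral.integral_mono_on (zero_le_one' ℝ) (ha_int hc n)
    (intervalIntegrable_const (c := C)) (fun t ht => hC n t ht)
  simpa using this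

theorem BL.sh {f : Fam} (h : BL f) (a : ℤ) : BL (shF a f) := by
  obtain ⟨C, hC⟩ := h
  refine ⟨C, fun n => ?_⟩
  simp only [ha_sq_sh]
  exact hC n
theorem BL.mulI {f g : Fam} (hf : BL f) (hg : BI g) (cf : CF f) (cg : CF g) :
    BL (mulF f g) := by
  obtain ⟨C, hC⟩ := hf
  obtain ⟨C', hC'⟩ := hg
  refine ⟨C' ^ 2 * C, fun n => ?_⟩
  have := intervalIntegral.integral_mono_on (zero_le_one' ℝ) (ha_int (cf.mul cg) n)
    ((ha_int cf n).const_mul (C' ^ 2)) (fun t ht => ha_sq_mulI (hC' n t ht))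
  rw [intervalIntegral.integral_const_mul] at this
  exact this.trans (mul_le_mul_of_nonneg_left (hC n) (sq_nonneg C'))
theorem BL.Imul {f g : Fam} (hf : BI f) (hg : BL g) (cf : CF f) (cg : CF g) :
    BL (mulF f g) := by
  rw [ha_mul_comm]
  exact hg.mulI hf cg cf
theorem BL.add {f g : Fam} (hf : BL f) (hg : BL g) (cf : CF f) (cg : CF g) :
    BL (addF f g) := by
  obtain ⟨C, hC⟩ := hf
  obtain ⟨C', hC'⟩ := hg
  refine ⟨2 * C + 2 * C', fun n => ?_⟩
  have := intervalIntegral.integral_mono_on (zero_le_one' ℝ) (ha_int (cf.add cg) n)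
    (((ha_int cf n).const_mul 2).add ((ha_int cg n).const_mul 2))
    (fun t ht => sq_add_le (f n t) (g n t))
  rw [intervalIntegral.integral_add ((ha_int cf n).const_mul 2) ((ha_int cg n).const_mul 2),
    intervalIntegral.integral_const_mul, intervalIntegral.integral_const_mul] at this
  linarith [hC n, hC' n]
theorem BL.smul {f : Fam} (hf : BL f) (c : ℝ) : BL (smulF c f) := by
  obtain ⟨C, hC⟩ := hf
  refine ⟨c ^ 2 * C, fun n => ?_⟩
  have : ∀ t, Pool.Agent.H37.DP.sq (smulF c f n t) = c ^ 2 * Pool.Agent.H37.DP.sq (f n t) :=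
    fun t => sq_mul_left c _
  simp only [this]
  rw [intervalIntegral.integral_const_mul]
  exact mul_le_mul_of_nonneg_left (hC n) (sq_nonneg c)
theorem BL.mono {f g : Fam} (hg : BL g) (cf : CF f) (cg : CF g)
    (h : ∀ n, ∀ t ∈ Icc (0 : ℝ) 1, ∀ i, |f n t i| ≤ |g n t i|) : BL f := by
  obtain ⟨C, hC⟩ := hg
  refine ⟨C, fun n => ?_⟩
  have := intervalIntegral.integral_mono_on (zero_le_one' ℝ) (ha_int cf n) (ha_int cg n)
    (fun t ht => sq_mono (h n t ht))
  exact this.trans (hC n)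

theorem DkF_succ (k : ℕ) (f : Fam) : DkF (k + 1) f = DkF k (DF f) := by
  funext n t
  simp only [DkF, DF, Function.iterate_succ]
  rfl
theorem DkF_succ' (k : ℕ) (f : Fam) : DkF (k + 1) f = DF (DkF k f) := by
  funext n t
  simp only [DkF, DF, Function.iterate_succ']
  rfl

/-- `avg (D^k f) = 0` for `k ≥ 1`, so `|D^k f| ≤ ‖D^(k+1) f‖`. -/
theorem BI_of_B2_succ {f : Fam} {k : ℕ} (hk : 1 ≤ k) (h : B2 (DkF (k + 1) f)) :
    BI (DkF k f) := by
  obtain ⟨C, hC⟩ := h
  refine ⟨Real.sqrt C, fun n t ht i => ?_⟩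
  obtain ⟨j, rfl⟩ : ∃ j, k = j + 1 := ⟨k - 1, by omega⟩
  have h0 : avg (DkF (j + 1) f n t) = 0 := by
    rw [DkF_succ']
    exact avg_D _
  have h1 := sup_le_of_avg_zero _ h0 i
  have h2 := hC n t ht
  rw [DkF_succ'] at h2
  exact Real.abs_le_sqrt (h1.trans h2)

theorem DkF_zero (f : Fam) : DkF 0 f = f := rfl
theorem DkF_add (j k : ℕ) (f : Fam) : DkF (j + k) f = DkF j (DkF k f) := by
  funext n t
  simp only [DkF, Function.iterate_add]
  rfl
theorem DF_mul (f g : Fam) : DF (mulF f g) = addF (mulF (DF f) (shF 1 g)) (mulF f (DF g)) := by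
  funext n t i
  have := D_mul (f n t) (g n t) i
  simp only [addF, mulF, DF, shF, Int.cast_one]
  exact this
theorem DF_add (f g : Fam) : DF (addF f g) = addF (DF f) (DF g) := by
  funext n t
  exact D_add (f n t) (g n t)
theorem DkF_add' (k : ℕ) (f g : Fam) : DkF k (addF f g) = addF (DkF k f) (DkF k g) := by
  induction k with
  | zero => rfl
  | succ k ih => rw [DkF_succ', ih, DF_add, ← DkF_succ', ← DkF_succ']
private theorem ha_DF_smul (c : ℝ) (f : Fam) : DF (smulF c f) = smulF c (DF f) := by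
  funext n t
  exact D_mul_left c (f n t)
theorem DkF_smul (k : ℕ) (c : ℝ) (f : Fam) : DkF k (smulF c f) = smulF c (DkF k f) := by
  induction k with
  | zero => rfl
  | succ k ih => rw [DkF_succ', ih, ha_DF_smul, ← DkF_succ']
private theorem ha_DF_sh (a : ℤ) (f : Fam) : DF (shF a f) = shF a (DF f) := by
  funext n t
  exact D_shift (f n t) ((a : ZMod (n + 3)))
theorem DkF_sh (k : ℕ) (a : ℤ) (f : Fam) : DkF k (shF a f) = shF a (DkF k f) := by
  induction k with
  | zero => rfl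
  | succ k ih => rw [DkF_succ', ih, ha_DF_sh, ← DkF_succ']
theorem shF_sh (a b : ℤ) (f : Fam) : shF a (shF b f) = shF (a + b) f := by
  funext n t i
  simp only [shF, Int.cast_add]
  rw [add_assoc]
theorem shF_mul (a : ℤ) (f g : Fam) : shF a (mulF f g) = mulF (shF a f) (shF a g) := rfl
theorem shF_zero (f : Fam) : shF 0 f = f := by
  funext n t i
  simp only [shF, Int.cast_zero, add_zero]
/-- `D (1/w) = - D w * (1/w) * (1/w)(·+1)` -/
theorem DF_g (V : Fam) (h : ∀ n, ∀ t ∈ Icc (0 : ℝ) 1, ∀ i, 0 < wF V n t i) :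
    ∀ n, ∀ t ∈ Icc (0 : ℝ) 1, ∀ i, DF (gF V) n t i =
      smulF (-1) (mulF (DF (wF V)) (mulF (gF V) (shF 1 (gF V)))) n t i := by
  intro n t ht i
  have := D_ginv (W (V n t)) (h n t ht) i
  simp only [smulF, mulF, DF, shF, gF, wF, Int.cast_one]
  rw [this]
  ring

end Pool.Agent.H37.DP
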