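import Pool.Agent.H37.DP.HA

/-!
MODULE HB: congruence on `[0,1]`, products of `B2` with `B2`, and the class `AllB`.

PROOFS.  `EqI`: everything only depends on `t ∈ [0,1]` (for integrals use
`intervalIntegral.integral_congr` on `[0,1]`).
`BL_mul_B2`: `sq (f g) ≤ (sup |f|)² sq g`, `(sup |f|)² ≤ sq f + 2 √(sq f) √(sq (D f))`
(`sup_sq_le`) `≤ C (1 + √(sq (D f))) ≤ C (2 + sq (D f))`, integrate.
`AllB`: induction on the order with `DF_mul`; `AllB_g`: by induction on `k`, all
`BI (DkF j (gF V))`, `j ≤ k`, using `DF_g` (on `[0,1]`) and the product rule.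
-/

namespace Pool.Agent.H37.DP

open Set Filter Topology

/-- equality of families on `[0,1]` -/
def EqI (f g : Fam) : Prop := ∀ n, ∀ t ∈ Icc (0 : ℝ) 1, ∀ i, f n t i = g n t i

private theorem hb_eq {f g : Fam} (h : EqI f g) (n : ℕ) {t : ℝ} (ht : t ∈ Icc (0 : ℝ) 1) :
    f n t = g n t := funext (fun i => h n t ht i)

theorem EqI.symm {f g : Fam} (h : EqI f g) : EqI g f := by
  intro n t ht i
  exact (h n t ht i).symm
theorem EqI.trans {f g k : Fam} (h : EqI f g) (h' : EqI g k) : EqI f k := by
  intro n t ht i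
  exact (h n t ht i).trans (h' n t ht i)
theorem EqI.Dk {f g : Fam} (h : EqI f g) (k : ℕ) : EqI (DkF k f) (DkF k g) := by
  intro n t ht i
  unfold DkF
  rw [hb_eq h n ht]
theorem EqI.sh {f g : Fam} (h : EqI f g) (a : ℤ) : EqI (shF a f) (shF a g) := by
  intro n t ht i
  exact h n t ht _
theorem EqI.mul {f f' g g' : Fam} (h : EqI f f') (h' : EqI g g') :
    EqI (mulF f g) (mulF f' g') := by
  intro n t ht i
  unfold mulF
  rw [h n t ht i, h' n t ht i]
theorem EqI.add {f f' g g' : Fam} (h : EqI f f') (h' : EqI g g') :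
    EqI (addF f g) (addF f' g') := by
  intro n t ht i
  unfold addF
  rw [h n t ht i, h' n t ht i]
theorem EqI.smul {f f' : Fam} (h : EqI f f') (c : ℝ) : EqI (smulF c f) (smulF c f') := by
  intro n t ht i
  unfold smulF
  rw [h n t ht i]
theorem CF.congr {f g : Fam} (hf : CF f) (h : EqI f g) : CF g := by
  intro n i
  exact (hf n i).congr (fun t ht => (h n t ht i).symm)
theorem BI.congr {f g : Fam} (hf : BI f) (h : EqI f g) : BI g := by
  obtain ⟨C, hC⟩ := hf
  refine ⟨C, fun n t ht i => ?_⟩
  rw [← h n t ht i]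
  exact hC n t ht i
theorem B2.congr {f g : Fam} (hf : B2 f) (h : EqI f g) : B2 g := by
  obtain ⟨C, hC⟩ := hf
  refine ⟨C, fun n t ht => ?_⟩
  rw [← hb_eq h n ht]
  exact hC n t ht
theorem BL.congr {f g : Fam} (hf : BL f) (h : EqI f g) : BL g := by
  obtain ⟨C, hC⟩ := hf
  refine ⟨C, fun n => ?_⟩
  have e : (∫ t in (0 : ℝ)..1, sq (g n t)) = ∫ t in (0 : ℝ)..1, sq (f n t) := by
    refine intervalIntegral.integral_congr (fun t ht => ?_)
    rw [uIcc_of_le zero_le_one] at ht
    rw [hb_eq h n ht]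
  rw [e]
  exact hC n

theorem BL_mul_B2 {f g : Fam} (hf : B2 f) (hdf : BL (DF f)) (hg : B2 g) (cf : CF f)
    (cg : CF g) : BL (mulF f g) := by
  obtain ⟨A, hA⟩ := hf
  obtain ⟨B, hB⟩ := hdf
  obtain ⟨C, hC⟩ := hg
  have hC0 : 0 ≤ C := (sq_nonneg' (g 0 0)).trans (hC 0 0 ⟨le_rfl, zero_le_one⟩)
  refine ⟨C * (2 * A + B), fun n => ?_⟩
  have hpt : ∀ t ∈ Icc (0 : ℝ) 1, sq (mulF f g n t) ≤ C * (2 * A + sq (DF f n t)) := by
    intro t ht
    have hsup : ∀ i, (f n t i) ^ 2 ≤ 2 * A + sq (DF f n t) := by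
      intro i
      have h1 := sup_sq_le (f n t) i
      have h2 := hA n t ht
      have h3 := sq_nonneg' (f n t)
      have h4 := sq_nonneg' (D (f n t))
      have h5 := Real.sq_sqrt h3
      have h6 := Real.sq_sqrt h4
      have h7 := sq_nonneg (Real.sqrt (sq (f n t)) - Real.sqrt (sq (D (f n t))))
      have h8 : sq (DF f n t) = sq (D (f n t)) := rfl
      rw [h8]
      nlinarith
    have h9 : 0 ≤ 2 * A + sq (DF f n t) := (sq_nonneg (f n t 0)).trans (hsup 0)
    have h10 : sq (mulF f g n t) ≤ (2 * A + sq (DF f n t)) * sq (g n t) := by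
      have e : (2 * A + sq (DF f n t)) * sq (g n t) =
          avg (fun i => (2 * A + sq (DF f n t)) * (g n t i) ^ 2) := by
        rw [avg_mul_left]
        rfl
      rw [e]
      refine avg_mono (fun i => ?_)
      have e2 : mulF f g n t i = f n t i * g n t i := rfl
      rw [e2, mul_pow]
      exact mul_le_mul_of_nonneg_right (hsup i) (sq_nonneg _)
    refine h10.trans ?_
    rw [mul_comm]
    exact mul_le_mul_of_nonneg_right (hC n t ht) h9
  have hc1 : ContinuousOn (fun t => sq (mulF f g n t)) (Icc 0 1) := (cf.mul cg).sq n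
  have hc2 : ContinuousOn (fun t => sq (DF f n t)) (Icc 0 1) := cf.D.sq n
  have hu : uIcc (0 : ℝ) 1 = Icc 0 1 := uIcc_of_le zero_le_one
  have hi2 : IntervalIntegrable (fun t => sq (DF f n t)) MeasureTheory.volume 0 1 :=
    ContinuousOn.intervalIntegrable (by rw [hu]; exact hc2)
  have h1 : (∫ t in (0 : ℝ)..1, sq (mulF f g n t)) ≤
      ∫ t in (0 : ℝ)..1, C * (2 * A + sq (DF f n t)) := by
    refine intervalIntegral.integral_mono_on zero_le_one ?_ ?_ hpt
    · exact ContinuousOn.intervalIntegrable (by rw [hu]; exact hc1)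
    · exact ContinuousOn.intervalIntegrable
        (by rw [hu]; exact continuousOn_const.mul (continuousOn_const.add hc2))
  refine h1.trans ?_
  rw [intervalIntegral.integral_const_mul, intervalIntegral.integral_add
    intervalIntegrable_const hi2, intervalIntegral.integral_const, sub_zero, one_smul]
  exact mul_le_mul_of_nonneg_left (by linarith [hB n]) hC0

/-- all difference quotients are uniformly bounded -/
def AllB (f : Fam) : Prop := ∀ k, BI (DkF k f)

private theorem hb_mul (m : ℕ) : ∀ f g : Fam, (∀ j, j ≤ m → BI (DkF j f)) →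
    (∀ j, j ≤ m → BI (DkF j g)) → ∀ j, j ≤ m → BI (DkF j (mulF f g)) := by
  induction m with
  | zero =>
    intro f g hf hg j hj
    have hj0 : j = 0 := by omega
    subst hj0
    rw [DkF_zero]
    have h1 := hf 0 le_rfl
    have h2 := hg 0 le_rfl
    rw [DkF_zero] at h1 h2
    exact h1.mul h2
  | succ m ih =>
    intro f g hf hg j hj
    rcases j with _ | j
    · rw [DkF_zero]
      have h1 := hf 0 (by omega)
      have h2 := hg 0 (by omega)
      rw [DkF_zero] at h1 h2
      exact h1.mul h2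
    · rw [DkF_succ, DF_mul, DkF_add']
      refine BI.add ?_ ?_
      · refine ih _ _ (fun l hl => ?_) (fun l hl => ?_) j (by omega)
        · rw [← DkF_succ]
          exact hf (l + 1) (by omega)
        · rw [DkF_sh]
          exact (hg l (by omega)).sh 1
      · refine ih _ _ (fun l hl => hf l (by omega)) (fun l hl => ?_) j (by omega)
        rw [← DkF_succ]
        exact hg (l + 1) (by omega)

theorem AllB.mul {f g : Fam} (hf : AllB f) (hg : AllB g) : AllB (mulF f g) := by
  intro k
  exact hb_mul k f g (fun j _ => hf j) (fun j _ => hg j) k le_rfl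
theorem AllB.add {f g : Fam} (hf : AllB f) (hg : AllB g) : AllB (addF f g) := by
  intro k
  rw [DkF_add']
  exact (hf k).add (hg k)
theorem AllB.smul {f : Fam} (hf : AllB f) (c : ℝ) : AllB (smulF c f) := by
  intro k
  rw [DkF_smul]
  exact (hf k).smul c
theorem AllB.sh {f : Fam} (hf : AllB f) (a : ℤ) : AllB (shF a f) := by
  intro k
  rw [DkF_sh]
  exact (hf k).sh a
theorem AllB.DF {f : Fam} (hf : AllB f) : AllB (Pool.Agent.H37.DP.DF f) := by
  intro k
  rw [← DkF_succ]
  exact hf (k + 1)
theorem AllB.congr {f g : Fam} (hf : AllB f) (h : EqI f g) : AllB g := by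
  intro k
  exact (hf k).congr (h.Dk k)

theorem AllB_g {V : Fam} (hpos : ∀ n, ∀ t ∈ Icc (0 : ℝ) 1, ∀ i, 0 < wF V n t i)
    (hw : AllB (wF V)) (hg : BI (gF V)) : AllB (gF V) := by
  have key : ∀ m : ℕ, ∀ j, j ≤ m → BI (DkF j (gF V)) := by
    intro m
    induction m with
    | zero =>
      intro j hj
      have hj0 : j = 0 := by omega
      subst hj0
      rw [DkF_zero]
      exact hg
    | succ m ih =>
      intro j hj
      rcases j with _ | j
      · rw [DkF_zero]
        exact hg
      · rw [DkF_succ]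
        have h1 : EqI (smulF (-1) (mulF (DF (wF V)) (mulF (gF V) (shF 1 (gF V)))))
            (DF (gF V)) := fun n t ht i => (DF_g V hpos n t ht i).symm
        refine BI.congr ?_ (h1.Dk j)
        rw [DkF_smul]
        refine BI.smul ?_ (-1)
        refine hb_mul m _ _ (fun l _ => ?_) (fun l hl => ?_) j (by omega)
        · rw [← DkF_succ]
          exact hw (l + 1)
        · refine hb_mul m _ _ ih (fun l' hl' => ?_) l hl
          rw [DkF_sh]
          exact (ih l' hl').sh 1
  intro k
  exact key k k le_rfl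

end Pool.Agent.H37.DP
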