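import Pool.Agent.H37.DP.Grid

/-!
MODULE SI: lower bound for `w`.  `w > 0`, `Yq w ≤ A`, `0 < A`, `avg (1/w) ≤ C`.  Then
`w i ≥ A / (exp (2 A C) - 1)`.

PROOF.  Let `w p = μ` be the minimum.  `|√(w (i+1)) - √(w i)| * N =: |E i|`,
`E i ² = (D w i)²/(√(w i) + √(w(i+1)))² ≤ (D w i)²/(w i + w (i+1))`, so `sq E ≤ Yq w ≤ A`
(here `E = D (√w)`).  By `path` applied to `√w`, for `j ≤ N`:
`√(w (p+j)) ≤ √μ + √(j/N) √A`, so `w (p+j) ≤ 2 μ + 2 A j/N`.
Hence `C ≥ avg (1/w) ≥ (1/N) ∑_{j<N} 1/(2μ + 2A j/N) ≥ ∫_0^1 dx/(2μ+2Ax)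
= (1/(2A)) log (1 + A/μ)` (the summand is decreasing in `j`; alternatively each term satisfies
`(1/N)/(2μ+2Aj/N) ≥ (1/(2A)) (log (μ + A(j+1)/N) - log (μ + Aj/N))` by `log (1+x) ≤ x`, and
telescope).  So `1 + A/μ ≤ exp (2AC)` and `μ ≥ A/(exp (2AC) - 1)`.
-/

namespace Pool.Agent.H37.DP

open Set Filter Topology

private theorem si_sum_ge {N : ℕ} [NeZero N] (f : ZMod N → ℝ) (hf : ∀ i, 0 ≤ f i) (i : ZMod N) :
    ∑ m ∈ Finset.range N, f (i + (m : ZMod N)) ≤ ∑ j, f j := by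
  have hinj : Set.InjOn (fun m : ℕ => i + (m : ZMod N)) (Finset.range N : Set ℕ) := by
    intro a ha b hb hab
    have ha' : a < N := Finset.mem_range.mp ha
    have hb' : b < N := Finset.mem_range.mp hb
    have h1 : (a : ZMod N) = (b : ZMod N) := add_left_cancel hab
    have h2 := (ZMod.natCast_eq_natCast_iff' a b N).mp h1
    rwa [Nat.mod_eq_of_lt ha', Nat.mod_eq_of_lt hb'] at h2
  have h3 : ∑ j ∈ (Finset.range N).image (fun m : ℕ => i + (m : ZMod N)), f j
      = ∑ m ∈ Finset.range N, f (i + (m : ZMod N)) := Finset.sum_image hinj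
  rw [← h3]
  exact Finset.sum_le_sum_of_subset_of_nonneg (Finset.subset_univ _) (fun j _ _ => hf j)

private theorem si_sq_sqrt {N : ℕ} [NeZero N] (w : ZMod N → ℝ) (hw : ∀ i, 0 < w i) :
    sq (D (fun i => Real.sqrt (w i))) ≤ Yq w := by
  unfold sq Yq
  refine avg_mono (fun i => ?_)
  have ha := hw i
  have hb := hw (i + 1)
  rw [le_div_iff₀ (by linarith)]
  simp only [D]
  have h1 := Real.sq_sqrt ha.le
  have h2 := Real.sq_sqrt hb.le
  have h3 := Real.sqrt_nonneg (w i)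
  have h4 := Real.sqrt_nonneg (w (i + 1))
  generalize Real.sqrt (w i) = a at h1 h3 ⊢
  generalize Real.sqrt (w (i + 1)) = b at h2 h4 ⊢
  rw [← h1, ← h2]
  have h5 : ((N : ℝ) * (b ^ 2 - a ^ 2)) ^ 2 - ((N : ℝ) * (b - a)) ^ 2 * (a ^ 2 + b ^ 2)
      = ((N : ℝ) * (b - a)) ^ 2 * (2 * (a * b)) := by ring
  have h6 : 0 ≤ ((N : ℝ) * (b - a)) ^ 2 * (2 * (a * b)) := by positivity
  linarith

private theorem si_step {μ A N : ℝ} (hμ : 0 < μ) (hA : 0 < A) (hN : 0 < N) {x m : ℝ} (hm : 0 ≤ m)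
    (hx : 0 < x) (hx' : x ≤ 2 * μ + 2 * (A * (m / N))) :
    (1 / (2 * A)) * (Real.log (μ + A * ((m + 1) / N)) - Real.log (μ + A * (m / N)))
      ≤ x⁻¹ / N := by
  have hmN : 0 ≤ m / N := div_nonneg hm hN.le
  have hz : 0 < μ + A * (m / N) := by positivity
  have hz' : 0 < μ + A * ((m + 1) / N) := by positivity
  rw [← Real.log_div hz'.ne' hz.ne']
  have h1 : (μ + A * ((m + 1) / N)) / (μ + A * (m / N)) = 1 + (A / N) / (μ + A * (m / N)) := by
    rw [eq_comm, ← sub_eq_zero]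
    field_simp
    ring
  have h2 : Real.log ((μ + A * ((m + 1) / N)) / (μ + A * (m / N)))
      ≤ (A / N) / (μ + A * (m / N)) := by
    have h := Real.log_le_sub_one_of_pos (div_pos hz' hz)
    rw [h1] at h ⊢
    linarith
  have h3 : (1 / (2 * A)) * ((A / N) / (μ + A * (m / N))) = (2 * μ + 2 * (A * (m / N)))⁻¹ / N := by
    have h4 : 2 * μ + 2 * (A * (m / N)) = 2 * (μ + A * (m / N)) := by ring
    rw [h4]
    field_simp
  calc (1 / (2 * A)) * Real.log ((μ + A * ((m + 1) / N)) / (μ + A * (m / N)))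
      ≤ (1 / (2 * A)) * ((A / N) / (μ + A * (m / N))) :=
        mul_le_mul_of_nonneg_left h2 (by positivity)
    _ = (2 * μ + 2 * (A * (m / N)))⁻¹ / N := h3
    _ ≤ x⁻¹ / N := by
        apply div_le_div_of_nonneg_right _ hN.le
        exact inv_anti₀ hx hx'

theorem w_ge {N : ℕ} [NeZero N] (w : ZMod N → ℝ) (hw : ∀ i, 0 < w i) {A C : ℝ} (hA : 0 < A)
    (hY : Yq w ≤ A) (hC : avg (ginv w) ≤ C) (i : ZMod N) :
    A / (Real.exp (2 * A * C) - 1) ≤ w i := by
  have hN0 : N ≠ 0 := NeZero.ne N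
  have hN : (0 : ℝ) < N := Nat.cast_pos.mpr (Nat.pos_of_ne_zero hN0)
  have hμ := hw i
  have hE : sq (D (fun i => Real.sqrt (w i))) ≤ A := (si_sq_sqrt w hw).trans hY
  have hbound : ∀ m : ℕ, m < N → w (i + (m : ZMod N)) ≤ 2 * w i + 2 * (A * ((m : ℝ) / N)) := by
    intro m hm
    have h1 := path (fun i => Real.sqrt (w i)) i hm.le
    have h2 : Real.sqrt (w (i + (m : ZMod N))) - Real.sqrt (w i)
        ≤ Real.sqrt ((m : ℝ) / N) * Real.sqrt A :=
      (le_abs_self _).trans (h1.trans (mul_le_mul_of_nonneg_left (Real.sqrt_le_sqrt hE)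
        (Real.sqrt_nonneg _)))
    have hmN : (0 : ℝ) ≤ (m : ℝ) / N := by positivity
    have h3 : Real.sqrt (w (i + (m : ZMod N))) ≤ Real.sqrt (w i)
        + Real.sqrt ((m : ℝ) / N) * Real.sqrt A := by linarith
    have h4 := Real.sq_sqrt (hw (i + (m : ZMod N))).le
    have h5 := Real.sq_sqrt hμ.le
    have h6 : (Real.sqrt ((m : ℝ) / N) * Real.sqrt A) ^ 2 = A * ((m : ℝ) / N) := by
      rw [mul_pow, Real.sq_sqrt hmN, Real.sq_sqrt hA.le]
      ring
    have h7 := Real.sqrt_nonneg (w (i + (m : ZMod N)))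
    have h8 : (Real.sqrt (w (i + (m : ZMod N)))) ^ 2 ≤ (Real.sqrt (w i)
        + Real.sqrt ((m : ℝ) / N) * Real.sqrt A) ^ 2 := pow_le_pow_left₀ h7 h3 2
    rw [← h4, ← h6]
    have h9 := _root_.sq_nonneg (Real.sqrt (w i) - Real.sqrt ((m : ℝ) / N) * Real.sqrt A)
    nlinarith [h8, h9, h5]
  have hginv : ∀ j, 0 ≤ ginv w j := fun j => inv_nonneg.mpr (hw j).le
  have hsum := si_sum_ge (ginv w) hginv i
  have htel : ∑ m ∈ Finset.range N, (1 / (2 * A)) *
      (Real.log (w i + A * (((m : ℝ) + 1) / N)) - Real.log (w i + A * ((m : ℝ) / N)))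
      = (1 / (2 * A)) * (Real.log (w i + A) - Real.log (w i)) := by
    rw [← Finset.mul_sum]
    have h1 := Finset.sum_range_sub (fun m : ℕ => Real.log (w i + A * ((m : ℝ) / N))) N
    simp only [Nat.cast_add, Nat.cast_one, Nat.cast_zero, zero_div, mul_zero, add_zero,
      div_self hN.ne', mul_one] at h1
    rw [h1]
  have hle : (1 / (2 * A)) * (Real.log (w i + A) - Real.log (w i)) ≤ C := by
    rw [← htel]
    calc _ ≤ ∑ m ∈ Finset.range N, ginv w (i + (m : ZMod N)) / N := by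
          apply Finset.sum_le_sum
          intro m hm
          have hm' : m < N := Finset.mem_range.mp hm
          exact si_step hμ hA hN (Nat.cast_nonneg m) (hw _) (hbound m hm')
      _ = (∑ m ∈ Finset.range N, ginv w (i + (m : ZMod N))) / N := by rw [Finset.sum_div]
      _ ≤ avg (ginv w) := by
          unfold avg
          exact div_le_div_of_nonneg_right hsum hN.le
      _ ≤ C := hC
  have h10 : Real.log ((w i + A) / w i) ≤ 2 * A * C := by
    rw [Real.log_div (by positivity) hμ.ne']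
    have h11 : (2 * A) * ((1 / (2 * A)) * (Real.log (w i + A) - Real.log (w i)))
        ≤ (2 * A) * C := mul_le_mul_of_nonneg_left hle (by positivity)
    have h12 : (2 * A) * ((1 / (2 * A)) * (Real.log (w i + A) - Real.log (w i)))
        = Real.log (w i + A) - Real.log (w i) := by
      field_simp
    linarith
  have h13 : (w i + A) / w i ≤ Real.exp (2 * A * C) := by
    have hpos : 0 < (w i + A) / w i := by positivity
    calc (w i + A) / w i = Real.exp (Real.log ((w i + A) / w i)) := (Real.exp_log hpos).symm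
      _ ≤ _ := Real.exp_le_exp.mpr h10
  have h14 : (w i + A) / w i = 1 + A / w i := by
    field_simp
  have h15 : A / w i ≤ Real.exp (2 * A * C) - 1 := by linarith
  have h16 : 0 < A / w i := div_pos hA hμ
  have h17 : 0 < Real.exp (2 * A * C) - 1 := lt_of_lt_of_le h16 h15
  rw [div_le_iff₀ h17]
  rw [div_le_iff₀ hμ] at h15
  linarith

end Pool.Agent.H37.DP
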