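import Pool.Agent.H37.DP.TK
import Pool.Agent.H37.DP.SI

/-!
MODULE TL: basic uniform bounds over the class.

PROOF.  `Y ≤ C` from `Y_global`.  `w ≤ 1 + √(2C) =: W0` (`w_le`, `avg_W`), and
`w ≥ C/(exp (2 C/c) - 1) =: c0` (`w_ge` with `A = C`, `avg (ginv w) ≤ 1/c` from `total_X`).
`∫_0^1 K2 ≤ C1/lam` and `∫_0^1 sq (L V1/w) ≤ C1` (`int_X`, `total_X`), so
`∫_0^1 sq (L V1) ≤ W0² C1`.
`sq (D w) = avg (D w)² ≤ 2 W0 Y`.
`sq (L w)`: `abs_L_w_le`: `|L w| ≤ w (|w L G| + P i + P (i-1))`, so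
`sq (L w) ≤ W0² * 3 (W0² K2 + 2 Q)`, and `Q ≤ K2 (4 + 24 C)`; integrate.
-/

namespace Pool.Agent.H37.DP

open Set Filter Topology

/-- the bound of `L w` in terms of `K2`. -/
private theorem tl_Lw {N : ℕ} [NeZero N] (w : ZMod N → ℝ) (hw : ∀ i, 0 < w i)
    (havg : avg w = 1) {W0 C : ℝ} (hW : ∀ i, w i ≤ W0) (hY : Yq w ≤ C) :
    sq (L w) ≤ 3 * W0 ^ 2 * (W0 ^ 2 + 2 * (4 + 24 * C)) * K2 w := by
  have hW0 : 0 ≤ W0 := (hw 0).le.trans (hW 0)
  have hP : ∀ i, 0 ≤ Pq w i := fun i => by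
    unfold Pq
    exact div_nonneg (sq_nonneg _) (mul_pos (hw _) (hw _)).le
  have hK : 0 ≤ K2 w := sq_nonneg' _
  have hb : ∀ i, (L w i) ^ 2 ≤ 3 * W0 ^ 2 * (W0 ^ 2 * (L (ginv w) i) ^ 2 +
      ((Pq w i) ^ 2 + (Pq w (i - 1)) ^ 2)) := by
    intro i
    have h1 := abs_L_w_le w hw i
    have h2 : |w i * L (ginv w) i| ≤ W0 * |L (ginv w) i| := by
      rw [abs_mul, abs_of_pos (hw i)]
      exact mul_le_mul_of_nonneg_right (hW i) (abs_nonneg _)
    have h3 : |L w i| ≤ W0 * (W0 * |L (ginv w) i| + Pq w i + Pq w (i - 1)) := by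
      refine h1.trans ?_
      apply mul_le_mul (hW i) _ _ hW0
      · linarith
      · have := abs_nonneg (w i * L (ginv w) i)
        have := hP i
        have := hP (i - 1)
        linarith
    have h4 : (L w i) ^ 2 ≤ (W0 * (W0 * |L (ginv w) i| + Pq w i + Pq w (i - 1))) ^ 2 := by
      rw [← sq_abs]
      exact pow_le_pow_left₀ (abs_nonneg _) h3 2
    refine h4.trans ?_
    rw [← sq_abs (L (ginv w) i)]
    generalize |L (ginv w) i| = a
    generalize Pq w i = b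
    generalize Pq w (i - 1) = e
    have h5 : (W0 * a + b + e) ^ 2 ≤ 3 * ((W0 * a) ^ 2 + b ^ 2 + e ^ 2) := by
      nlinarith [sq_nonneg (W0 * a - b), sq_nonneg (W0 * a - e), sq_nonneg (b - e)]
    calc (W0 * (W0 * a + b + e)) ^ 2 = W0 ^ 2 * (W0 * a + b + e) ^ 2 := by ring
      _ ≤ W0 ^ 2 * (3 * ((W0 * a) ^ 2 + b ^ 2 + e ^ 2)) :=
          mul_le_mul_of_nonneg_left h5 (sq_nonneg _)
      _ = _ := by ring
  have h6 : sq (L w) ≤ 3 * W0 ^ 2 * (W0 ^ 2 * K2 w + (Qv w + Qv w)) := by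
    calc sq (L w) ≤ avg (fun i => 3 * W0 ^ 2 * (W0 ^ 2 * (L (ginv w) i) ^ 2 +
          ((Pq w i) ^ 2 + (Pq w (i - 1)) ^ 2))) := avg_mono hb
      _ = 3 * W0 ^ 2 * (W0 ^ 2 * K2 w + (Qv w + Qv w)) := by
          rw [avg_mul_left, avg_add, avg_mul_left, avg_add]
          have h7 : avg (fun i => (Pq w (i - 1)) ^ 2) = Qv w :=
            avg_shift_neg (fun i => (Pq w i) ^ 2)
          rw [h7]
          rfl
  have h8 := Q_le w hw havg
  have h9 : Qv w ≤ K2 w * (4 + 24 * C) := by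
    refine h8.trans ?_
    apply mul_le_mul_of_nonneg_left _ hK
    linarith
  calc sq (L w) ≤ 3 * W0 ^ 2 * (W0 ^ 2 * K2 w + (Qv w + Qv w)) := h6
    _ ≤ 3 * W0 ^ 2 * (W0 ^ 2 * K2 w + (K2 w * (4 + 24 * C) + K2 w * (4 + 24 * C))) := by
        apply mul_le_mul_of_nonneg_left _ (by positivity)
        linarith
    _ = _ := by ring

theorem basic_bounds (lam c : ℝ) (B : ℕ → ℝ) (hlam : 0 < lam) (hc : 0 < c) :
    ∃ c0 W0 C : ℝ, 0 < c0 ∧ 1 ≤ W0 ∧ ∀ (N : ℕ) [NeZero N] (V V1 : ℝ → ZMod N → ℝ),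
      Cls N lam c B V V1 →
        (∀ t ∈ Icc (0 : ℝ) 1, ∀ i, c0 ≤ W (V t) i ∧ W (V t) i ≤ W0) ∧
        (∀ t ∈ Icc (0 : ℝ) 1, sq (D (W (V t))) ≤ C) ∧
        (∫ t in (0 : ℝ)..1, sq (L (W (V t)))) ≤ C ∧
        (∫ t in (0 : ℝ)..1, sq (L (V1 t))) ≤ C := by
  obtain ⟨C1, Ks, hC1, -, hX⟩ := total_X lam c B hlam hc
  obtain ⟨CY, hCY, hY⟩ := Y_global lam c B hlam hc
  set W0 : ℝ := 1 + Real.sqrt (2 * CY) with hW0
  have hW01 : 1 ≤ W0 := by
    have := Real.sqrt_nonneg (2 * CY)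
    linarith
  have hW0p : 0 < W0 := by linarith
  set c0 : ℝ := CY / (Real.exp (2 * CY * (1 / c)) - 1) with hc0
  have hexp : 0 < Real.exp (2 * CY * (1 / c)) - 1 := by
    have : (1 : ℝ) < Real.exp (2 * CY * (1 / c)) := by
      rw [Real.one_lt_exp_iff]
      positivity
    linarith
  have hc0p : 0 < c0 := div_pos hCY hexp
  set C5 : ℝ := 3 * W0 ^ 2 * (W0 ^ 2 + 2 * (4 + 24 * CY)) with hC5
  have hC5p : 0 < C5 := by positivity
  refine ⟨c0, W0, 2 * W0 * CY + C5 * (C1 / lam) + W0 ^ 2 * C1, hc0p, hW01, ?_⟩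
  intro N _ V V1 h
  obtain ⟨x1, x2, x3, x4, x5⟩ := hX N V V1 h
  have hYt := hY N V V1 h
  have hs := h.sol
  have n1 : 0 ≤ 2 * W0 * CY := by positivity
  have n2 : 0 ≤ C5 * (C1 / lam) := by positivity
  have n3 : 0 ≤ W0 ^ 2 * C1 := by positivity
  have hwp : ∀ t ∈ Icc (0 : ℝ) 1, ∀ i, 0 < W (V t) i := hs.pos
  have hwW : ∀ t ∈ Icc (0 : ℝ) 1, ∀ i, W (V t) i ≤ W0 := by
    intro t ht i
    refine (w_le (W (V t)) (hwp t ht) (avg_W _) i).trans ?_
    have : Real.sqrt (2 * Yq (W (V t))) ≤ Real.sqrt (2 * CY) :=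
      Real.sqrt_le_sqrt (by linarith [hYt t ht])
    linarith
  have hwc : ∀ t ∈ Icc (0 : ℝ) 1, ∀ i, c0 ≤ W (V t) i := fun t ht i =>
    w_ge (W (V t)) (hwp t ht) hCY (hYt t ht) (x4 t ht) i
  -- continuity
  have cLV1 : ∀ i, ContinuousOn (fun t => L (V1 t) i) (Icc 0 1) := fun i =>
    continuousOn_L (f := fun t => V1 t) (fun j => hs.cV1 j) i
  have cq : ∀ i, ContinuousOn (fun t => L (V1 t) i / W (V t) i) (Icc 0 1) := fun i =>
    (cLV1 i).div (hs.cW i) fun t ht => (hs.pos t ht i).ne'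
  have cA : ContinuousOn (fun t => sq (fun i => L (V1 t) i / W (V t) i)) (Icc 0 1) :=
    continuousOn_sq (f := fun t i => L (V1 t) i / W (V t) i) cq
  have cLw : ContinuousOn (fun t => sq (L (W (V t)))) (Icc 0 1) :=
    continuousOn_sq (f := fun t i => L (W (V t)) i)
      fun i => continuousOn_L (f := fun t => W (V t)) (fun j => hs.cW j) i
  have hu : uIcc (0 : ℝ) 1 = Icc 0 1 := uIcc_of_le (by norm_num)
  have iA : IntervalIntegrable (fun t => sq (fun i => L (V1 t) i / W (V t) i))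
      MeasureTheory.volume 0 1 := by
    apply ContinuousOn.intervalIntegrable
    rwa [hu]
  have iK : IntervalIntegrable (fun t => K2 (W (V t))) MeasureTheory.volume 0 1 := by
    apply ContinuousOn.intervalIntegrable
    rw [hu]
    exact hs.cK2
  have iLw : IntervalIntegrable (fun t => sq (L (W (V t)))) MeasureTheory.volume 0 1 := by
    apply ContinuousOn.intervalIntegrable
    rwa [hu]
  have iV1 : IntervalIntegrable (fun t => sq (L (V1 t))) MeasureTheory.volume 0 1 := by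
    apply ContinuousOn.intervalIntegrable
    rw [hu]
    exact hs.cWt
  have hsum : (∫ t in (0 : ℝ)..1, sq (fun i => L (V1 t) i / W (V t) i)) +
      lam * ∫ t in (0 : ℝ)..1, K2 (W (V t)) ≤ C1 := by
    have e := hs.int_X (le_refl (0 : ℝ)) zero_le_one (le_refl (1 : ℝ))
    unfold Xq at e
    rw [intervalIntegral.integral_add iA (iK.const_mul lam), intervalIntegral.integral_const_mul]
      at e
    rw [e]
    exact x1
  have p1 : 0 ≤ ∫ t in (0 : ℝ)..1, sq (fun i => L (V1 t) i / W (V t) i) :=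
    intervalIntegral.integral_nonneg zero_le_one fun t _ => sq_nonneg' _
  have p2 : 0 ≤ ∫ t in (0 : ℝ)..1, K2 (W (V t)) :=
    intervalIntegral.integral_nonneg zero_le_one fun t _ => sq_nonneg' _
  have b1 : (∫ t in (0 : ℝ)..1, K2 (W (V t))) ≤ C1 / lam := by
    rw [le_div_iff₀ hlam]
    linarith
  have b2 : (∫ t in (0 : ℝ)..1, sq (fun i => L (V1 t) i / W (V t) i)) ≤ C1 := by
    have := mul_nonneg hlam.le p2
    linarith
  refine ⟨fun t ht i => ⟨hwc t ht i, hwW t ht i⟩, ?_, ?_, ?_⟩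
  · intro t ht
    have hb : ∀ i, (D (W (V t)) i) ^ 2 ≤
        2 * W0 * ((D (W (V t)) i) ^ 2 / (W (V t) i + W (V t) (i + 1))) := by
      intro i
      have hpos : 0 < W (V t) i + W (V t) (i + 1) := add_pos (hwp t ht _) (hwp t ht _)
      have hle : W (V t) i + W (V t) (i + 1) ≤ 2 * W0 := by
        linarith [hwW t ht i, hwW t ht (i + 1)]
      rw [mul_div_assoc', le_div_iff₀ hpos, mul_comm (2 * W0)]
      exact mul_le_mul_of_nonneg_left hle (sq_nonneg _)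
    have hb2 : sq (D (W (V t))) ≤ 2 * W0 * Yq (W (V t)) := by
      unfold Yq
      rw [← avg_mul_left]
      exact avg_mono hb
    have : 2 * W0 * Yq (W (V t)) ≤ 2 * W0 * CY :=
      mul_le_mul_of_nonneg_left (hYt t ht) (by positivity)
    linarith
  · have : (∫ t in (0 : ℝ)..1, sq (L (W (V t)))) ≤ ∫ t in (0 : ℝ)..1, C5 * K2 (W (V t)) := by
      apply intervalIntegral.integral_mono_on zero_le_one iLw (iK.const_mul C5)
      intro t ht
      exact tl_Lw (W (V t)) (hwp t ht) (avg_W _) (hwW t ht) (hYt t ht)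
    rw [intervalIntegral.integral_const_mul] at this
    have h2 := mul_le_mul_of_nonneg_left b1 hC5p.le
    linarith
  · have : (∫ t in (0 : ℝ)..1, sq (L (V1 t))) ≤
        ∫ t in (0 : ℝ)..1, W0 ^ 2 * sq (fun i => L (V1 t) i / W (V t) i) := by
      apply intervalIntegral.integral_mono_on zero_le_one iV1 (iA.const_mul _)
      intro t ht
      have e : W0 ^ 2 * sq (fun i => L (V1 t) i / W (V t) i) =
          avg (fun i => W0 ^ 2 * (L (V1 t) i / W (V t) i) ^ 2) := by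
        rw [avg_mul_left]
        rfl
      rw [e]
      apply avg_mono
      intro i
      have hp := hwp t ht i
      have hle := hwW t ht i
      rw [div_pow, mul_div_assoc', le_div_iff₀ (by positivity), mul_comm (W0 ^ 2)]
      apply mul_le_mul_of_nonneg_left _ (sq_nonneg _)
      exact pow_le_pow_left₀ hp.le hle 2
    rw [intervalIntegral.integral_const_mul] at this
    have h2 := mul_le_mul_of_nonneg_left b2 (sq_nonneg W0)
    linarith

end Pool.Agent.H37.DP
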