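import Pool.Agent.H37.DP.HB
import Pool.Agent.H37.DP.TL

/-!
MODULE HC: energy step from order `k` to order `k+1`, `k ≥ 1`.

PROOF.  `basic_bounds` gives `c0 ≤ w ≤ W0`.  Fix `n`, `w t = W (V n t)`, `G = ginv w`,
`E = EF k V n t`, i.e. `D^(k+2) G = E - a D^(k+2) w`, `a i = G (i+k+1) G (i+k+2)`,
`W0⁻² ≤ a ≤ c0⁻²`.  Let `wl t = (1-t) w 0 + t w 1`, `z = D^k (w - wl)`,
`z' = D^k (L V1) - D^k (w 1 - w 0)`.  `Φ = avg (z z')` vanishes at `0` and `1`;
`Φ' = sq z' + avg (z * D^k (- lam L (L G))) = sq z' - lam avg (L z * D^k (L G))`.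
Since `L f i = D (D f) (i-1)`: `avg (L (D^k w) * D^k (L G)) = avg (D^(k+2) w * D^(k+2) G)
 ≤ - W0⁻² sq (D^(k+2) w) + √(sq (D^(k+2) w)) √(sq E)`, and
`|avg (L (D^k wl) * D^k (L G))| ≤ √(sq (D^(k+2) wl)) (√(sq E) + c0⁻² √(sq (D^(k+2) w)))`.
`D^j w 0 = D^(j+2) (V 0) (·-1)` for `j ≥ 1` is bounded by `B (j+2)` (same at `1`), so
`√(sq (D^(k+2) wl)) ≤ B (k+4) =: b`.
With `A = ∫ sq (D^(k+2) w)`, `e = ∫ sq E`, `Z = ∫ sq z'`:
`Z + lam W0⁻² A ≤ lam (√A √e + b √e + b c0⁻² √A)`; Young: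
`Z/lam + (W0⁻²/2) A ≤ (W0² + 1/2) e + const`.  Choose `δ` with `(W0² + 1/2) δ ≤ W0⁻²/4` and
insert `e ≤ δ A + C`: `A` and `Z` are bounded.  `∫ sq (D^k L V1) ≤ 2 Z + 2 (2 B (k+2))²`.
Finally `d/dt sq (D^(k+1) w) = 2 avg (D^(k+1) w * D (D^k L V1))
 = - 2 avg (D^(k+2) w * (D^k L V1)(·+1)) ≤ sq (D^(k+2) w) + sq (D^k L V1)` (`sbp_D'`), integrate
from `0` to `t`; `sq (D^(k+1) w 0) ≤ B (k+3)²`.
-/

namespace Pool.Agent.H37.DP

open Set Filter Topology

/-- the lower order part: `D^(k+2) G + D^(k+2) w * (G * G₊)(· + k + 1)` -/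
noncomputable def EF (k : ℕ) (V : Fam) : Fam :=
  addF (DkF (k + 2) (gF V))
    (mulF (DkF (k + 2) (wF V)) (shF ((k : ℤ) + 1) (mulF (gF V) (shF 1 (gF V)))))

private theorem hc_smul {N : ℕ} (k : ℕ) (α : ℝ) (f : ZMod N → ℝ) :
    D^[k] (fun i => α * f i) = fun i => α * D^[k] f i := by
  induction k generalizing f with
  | zero => rfl
  | succ k ih =>
    rw [Function.iterate_succ_apply, Function.iterate_succ_apply, D_mul_left, ih]

private theorem hc_add {N : ℕ} (k : ℕ) (f g : ZMod N → ℝ) :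
    D^[k] (fun i => f i + g i) = fun i => D^[k] f i + D^[k] g i := by
  induction k generalizing f g with
  | zero => rfl
  | succ k ih =>
    rw [Function.iterate_succ_apply, Function.iterate_succ_apply, Function.iterate_succ_apply,
      D_add, ih]

private theorem hc_sub {N : ℕ} (k : ℕ) (f g : ZMod N → ℝ) :
    D^[k] (fun i => f i - g i) = fun i => D^[k] f i - D^[k] g i := by
  induction k generalizing f g with
  | zero => rfl
  | succ k ih =>
    rw [Function.iterate_succ_apply, Function.iterate_succ_apply, Function.iterate_succ_apply,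
      D_sub, ih]

private theorem hc_L {N : ℕ} (k : ℕ) (f : ZMod N → ℝ) : D^[k] (L f) = L (D^[k] f) := by
  induction k generalizing f with
  | zero => rfl
  | succ k ih =>
    rw [Function.iterate_succ_apply, Function.iterate_succ_apply, D_L, ih]

private theorem hc_DD {N : ℕ} (k : ℕ) (f : ZMod N → ℝ) (i : ZMod N) :
    L (D^[k] f) i = D^[k + 2] f (i - 1) := by
  rw [L_eq, ← Function.iterate_succ_apply' D k f, ← Function.iterate_succ_apply' D (k + 1) f]

private theorem hc_DkW {N : ℕ} (k : ℕ) (hk : 1 ≤ k) (V : ZMod N → ℝ) (i : ZMod N) :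
    D^[k] (W V) i = D^[k + 2] V (i - 1) := by
  obtain ⟨j, rfl⟩ : ∃ j, k = j + 1 := ⟨k - 1, by omega⟩
  have h1 : D (W V) = D (L V) := by
    funext i
    simp only [D, W]
    ring
  rw [Function.iterate_succ_apply, h1, ← Function.iterate_succ_apply D j, hc_L, hc_DD]

private theorem hc_bdW {N : ℕ} {c : ℝ} {B : ℕ → ℝ} {f : ZMod N → ℝ} (h : Data c B f) (k : ℕ)
    (hk : 1 ≤ k) (i : ZMod N) : |D^[k] (W f) i| ≤ B (k + 2) := by
  rw [hc_DkW k hk]
  exact h.bd _ _

/-- the pointwise inequality -/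
private theorem hc_young {m M b P Q E a : ℝ} (hm : 0 < m) (h1 : m ≤ a) (h2 : a ≤ M)
    (hQ : |Q| ≤ b) :
    (P - Q) * (E - a * P) ≤ -(m / 2) * P ^ 2 + (1 / m + 1 / 2) * E ^ 2 +
      (1 / 2 + M ^ 2 / m) * b ^ 2 := by
  have hQ2 : Q ^ 2 ≤ b ^ 2 := by
    rw [← sq_abs Q]
    exact pow_le_pow_left₀ (abs_nonneg _) hQ 2
  have e1 : P * E ≤ m / 4 * P ^ 2 + 1 / m * E ^ 2 := by
    have : m / 4 * P ^ 2 + 1 / m * E ^ 2 - P * E = (m * P - 2 * E) ^ 2 / (4 * m) := by
      field_simp; ring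
    have h3 : 0 ≤ (m * P - 2 * E) ^ 2 / (4 * m) := by positivity
    linarith
  have e2 : -(Q * E) ≤ 1 / 2 * Q ^ 2 + 1 / 2 * E ^ 2 := by nlinarith [pow_two_nonneg (Q + E)]
  have e3 : a * P * Q ≤ m / 4 * P ^ 2 + M ^ 2 / m * Q ^ 2 := by
    have h4 : a * P * Q ≤ m / 4 * P ^ 2 + a ^ 2 / m * Q ^ 2 := by
      have : m / 4 * P ^ 2 + a ^ 2 / m * Q ^ 2 - a * P * Q = (m * P - 2 * a * Q) ^ 2 / (4 * m) := by
        field_simp; ring
      have h3 : 0 ≤ (m * P - 2 * a * Q) ^ 2 / (4 * m) := by positivity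
      linarith
    have h5 : a ^ 2 / m * Q ^ 2 ≤ M ^ 2 / m * Q ^ 2 := by
      refine mul_le_mul_of_nonneg_right ?_ (pow_two_nonneg _)
      exact div_le_div_of_nonneg_right (pow_le_pow_left₀ (by linarith) h2 2) hm.le
    linarith
  have e4 : m * P ^ 2 ≤ a * P ^ 2 := mul_le_mul_of_nonneg_right h1 (pow_two_nonneg _)
  have e5 : (1 / 2 + M ^ 2 / m) * Q ^ 2 ≤ (1 / 2 + M ^ 2 / m) * b ^ 2 :=
    mul_le_mul_of_nonneg_left hQ2 (by positivity)
  have e6 : (P - Q) * (E - a * P) = P * E - a * P ^ 2 + -(Q * E) + a * P * Q := by ring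
  rw [e6]
  linarith

/-- the energy inequality at one time -/
private theorem hc_point {N : ℕ} [NeZero N] {lam : ℝ} (hlam : 0 < lam) (k : ℕ) {m M b : ℝ}
    (hm : 0 < m) (w wl G : ZMod N → ℝ) (a E : ZMod N → ℝ)
    (hE : ∀ i, D^[k + 2] G i = E i - a i * D^[k + 2] w i)
    (ha : ∀ i, m ≤ a i ∧ a i ≤ M) (hb : ∀ i, |D^[k + 2] wl i| ≤ b) :
    lam * (m / 2) * sq (D^[k + 2] w) ≤
      avg (fun i => D^[k] (fun j => w j - wl j) i * D^[k] (fun j => -lam * L (L G) j) i) +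
      lam * (1 / m + 1 / 2) * sq E + lam * (1 / 2 + M ^ 2 / m) * b ^ 2 := by
  have h1 : (fun i => D^[k] (fun j => w j - wl j) i * D^[k] (fun j => -lam * L (L G) j) i) =
      fun i => (-lam) * (D^[k] (fun j => w j - wl j) i * L (L (D^[k] G)) i) := by
    funext i
    rw [hc_smul, hc_L, hc_L]
    ring
  rw [h1, avg_mul_left, sbp_L]
  have h2 : (fun i => L (D^[k] (fun j => w j - wl j)) i * L (D^[k] G) i) =
      fun i => (fun l => (D^[k + 2] w l - D^[k + 2] wl l) * (E l - a l * D^[k + 2] w l)) (i - 1) := by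
    funext i
    rw [hc_DD, hc_DD, hE, hc_sub]
  rw [h2, avg_shift_neg (fun l => (D^[k + 2] w l - D^[k + 2] wl l) * (E l - a l * D^[k + 2] w l))]
  have h3 : avg (fun l => (D^[k + 2] w l - D^[k + 2] wl l) * (E l - a l * D^[k + 2] w l)) ≤
      avg (fun l => (-(m / 2) * (D^[k + 2] w l) ^ 2 + (1 / m + 1 / 2) * (E l) ^ 2) +
        (1 / 2 + M ^ 2 / m) * b ^ 2) :=
    avg_mono fun l => hc_young hm (ha l).1 (ha l).2 (hb l)
  rw [avg_add, avg_add, avg_mul_left, avg_mul_left, avg_const] at h3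
  have h4 : avg (fun l => (D^[k + 2] w l) ^ 2) = sq (D^[k + 2] w) := rfl
  have h5 : avg (fun l => (E l) ^ 2) = sq E := rfl
  rw [h4, h5] at h3
  have h6 := mul_le_mul_of_nonneg_left h3 hlam.le
  linarith

/-- the integrated energy inequality -/
private theorem hc_main {N : ℕ} [NeZero N] {lam : ℝ} (hlam : 0 < lam) {V V1 : ℝ → ZMod N → ℝ}
    (h : IsSol N lam V V1) (k : ℕ) {m M b : ℝ} (hm : 0 < m) (a E : ℝ → ZMod N → ℝ)
    (hE : ∀ t ∈ Icc (0 : ℝ) 1, ∀ i,
      D^[k + 2] (ginv (W (V t))) i = E t i - a t i * D^[k + 2] (W (V t)) i)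
    (ha : ∀ t ∈ Icc (0 : ℝ) 1, ∀ i, m ≤ a t i ∧ a t i ≤ M)
    (hb0 : ∀ i, |D^[k + 2] (W (V 0)) i| ≤ b) (hb1 : ∀ i, |D^[k + 2] (W (V 1)) i| ≤ b)
    (hEc : ContinuousOn (fun t => sq (E t)) (Icc 0 1)) :
    (∫ t in (0 : ℝ)..1, sq (D^[k] (fun j => L (V1 t) j - (W (V 1) j - W (V 0) j)))) +
      lam * (m / 2) * (∫ t in (0 : ℝ)..1, sq (D^[k + 2] (W (V t)))) ≤
      lam * (1 / m + 1 / 2) * (∫ t in (0 : ℝ)..1, sq (E t)) +
        lam * (1 / 2 + M ^ 2 / m) * b ^ 2 := by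
  have h01 : (0 : ℝ) ≤ 1 := zero_le_one
  have hu : uIcc (0 : ℝ) 1 = Icc 0 1 := uIcc_of_le h01
  -- continuity
  have cw : ∀ i, ContinuousOn (fun t => W (V t) i) (Icc 0 1) := h.cW
  have cz : ∀ i, ContinuousOn (fun t => D^[k]
      (fun j => W (V t) j - ((1 - t) * W (V 0) j + t * W (V 1) j)) i) (Icc 0 1) := by
    intro i
    refine continuousOn_Dk k (fun i => ?_) i
    refine (cw i).sub ?_
    fun_prop
  have cz' : ∀ i, ContinuousOn (fun t => D^[k]
      (fun j => L (V1 t) j - (W (V 1) j - W (V 0) j)) i) (Icc 0 1) := by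
    intro i
    refine continuousOn_Dk k (fun i => ?_) i
    exact (continuousOn_L (fun j => h.cV1 j) i).sub continuousOn_const
  have cy : ∀ i, ContinuousOn (fun t => D^[k]
      (fun j => -lam * L (L (ginv (W (V t)))) j) i) (Icc 0 1) := by
    intro i
    refine continuousOn_Dk k (fun i => ?_) i
    exact continuousOn_const.mul
      (continuousOn_L (fun j => continuousOn_L (fun l => h.cG l) j) i)
  -- derivatives
  have dz : ∀ t ∈ Icc (0 : ℝ) 1, ∀ i, HasDerivAt (fun s => D^[k]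
      (fun j => W (V s) j - ((1 - s) * W (V 0) j + s * W (V 1) j)) i)
      (D^[k] (fun j => L (V1 t) j - (W (V 1) j - W (V 0) j)) i) t := by
    intro t ht i
    refine hasDerivAt_Dk k (fun j => ?_) i
    have e1 := h.dW ht j
    have e2 : HasDerivAt (fun s : ℝ => (1 - s) * W (V 0) j + s * W (V 1) j)
        (W (V 1) j - W (V 0) j) t := by
      have e3 : HasDerivAt (fun s : ℝ => 1 - s) (-1) t := by
        simpa using (hasDerivAt_id t).const_sub 1
      have e4 := (e3.mul_const (W (V 0) j)).add ((hasDerivAt_id t).mul_const (W (V 1) j))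
      refine e4.congr_deriv ?_
      ring
    exact e1.sub e2
  have dz' : ∀ t ∈ Icc (0 : ℝ) 1, ∀ i, HasDerivAt (fun s => D^[k]
      (fun j => L (V1 s) j - (W (V 1) j - W (V 0) j)) i)
      (D^[k] (fun j => -lam * L (L (ginv (W (V t)))) j) i) t := by
    intro t ht i
    refine hasDerivAt_Dk k (fun j => ?_) i
    exact (h.dLV1 ht j).sub_const _
  -- the functional
  have dΦ : ∀ t ∈ uIcc (0 : ℝ) 1, HasDerivAt (fun s => avg (fun i =>
      D^[k] (fun j => W (V s) j - ((1 - s) * W (V 0) j + s * W (V 1) j)) i *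
      D^[k] (fun j => L (V1 s) j - (W (V 1) j - W (V 0) j)) i))
      (avg (fun i => D^[k] (fun j => L (V1 t) j - (W (V 1) j - W (V 0) j)) i *
        D^[k] (fun j => L (V1 t) j - (W (V 1) j - W (V 0) j)) i +
        D^[k] (fun j => W (V t) j - ((1 - t) * W (V 0) j + t * W (V 1) j)) i *
        D^[k] (fun j => -lam * L (L (ginv (W (V t)))) j) i)) t := by
    intro t ht
    rw [hu] at ht
    exact hasDerivAt_avg fun i => (dz t ht i).mul (dz' t ht i)
  have cΦ' : ContinuousOn (fun t => avg (fun i =>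
        D^[k] (fun j => L (V1 t) j - (W (V 1) j - W (V 0) j)) i *
        D^[k] (fun j => L (V1 t) j - (W (V 1) j - W (V 0) j)) i +
        D^[k] (fun j => W (V t) j - ((1 - t) * W (V 0) j + t * W (V 1) j)) i *
        D^[k] (fun j => -lam * L (L (ginv (W (V t)))) j) i)) (Icc 0 1) :=
    continuousOn_avg fun i => ((cz' i).mul (cz' i)).add ((cz i).mul (cy i))
  have hint := intervalIntegral.integral_eq_sub_of_hasDerivAt dΦ
    (cΦ'.intervalIntegrable_of_Icc h01)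
  have hΦ1 : avg (fun i =>
      D^[k] (fun j => W (V 1) j - ((1 - 1) * W (V 0) j + 1 * W (V 1) j)) i *
      D^[k] (fun j => L (V1 1) j - (W (V 1) j - W (V 0) j)) i) = 0 := by
    have e1 : (fun j => W (V 1) j - ((1 - 1) * W (V 0) j + 1 * W (V 1) j)) =
        fun j => 0 * W (V 1) j := by funext j; ring
    rw [e1, hc_smul]
    have e2 : (fun i => 0 * D^[k] (W (V 1)) i *
      D^[k] (fun j => L (V1 1) j - (W (V 1) j - W (V 0) j)) i) = fun _ => 0 := by
      funext i; ring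
    rw [e2, avg_const]
  have hΦ0 : avg (fun i =>
      D^[k] (fun j => W (V 0) j - ((1 - 0) * W (V 0) j + 0 * W (V 1) j)) i *
      D^[k] (fun j => L (V1 0) j - (W (V 1) j - W (V 0) j)) i) = 0 := by
    have e1 : (fun j => W (V 0) j - ((1 - 0) * W (V 0) j + 0 * W (V 1) j)) =
        fun j => 0 * W (V 0) j := by funext j; ring
    rw [e1, hc_smul]
    have e2 : (fun i => 0 * D^[k] (W (V 0)) i *
      D^[k] (fun j => L (V1 0) j - (W (V 1) j - W (V 0) j)) i) = fun _ => 0 := by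
      funext i; ring
    rw [e2, avg_const]
  rw [hΦ1, hΦ0, sub_zero] at hint
  -- the integrands
  have cZ : ContinuousOn (fun t => sq (D^[k] (fun j => L (V1 t) j - (W (V 1) j - W (V 0) j))))
      (Icc 0 1) := continuousOn_sq cz'
  have cP : ContinuousOn (fun t => sq (D^[k + 2] (W (V t)))) (Icc 0 1) :=
    continuousOn_sq (continuousOn_Dk (k + 2) cw)
  have iZ := cZ.intervalIntegrable_of_Icc (μ := MeasureTheory.volume) h01
  have iP := cP.intervalIntegrable_of_Icc (μ := MeasureTheory.volume) h01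
  have iE := hEc.intervalIntegrable_of_Icc (μ := MeasureTheory.volume) h01
  have iΦ := cΦ'.intervalIntegrable_of_Icc (μ := MeasureTheory.volume) h01
  have hmono : (∫ t in (0 : ℝ)..1,
      (sq (D^[k] (fun j => L (V1 t) j - (W (V 1) j - W (V 0) j))) +
        lam * (m / 2) * sq (D^[k + 2] (W (V t))))) ≤
      ∫ t in (0 : ℝ)..1, (avg (fun i =>
        D^[k] (fun j => L (V1 t) j - (W (V 1) j - W (V 0) j)) i *
        D^[k] (fun j => L (V1 t) j - (W (V 1) j - W (V 0) j)) i +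
        D^[k] (fun j => W (V t) j - ((1 - t) * W (V 0) j + t * W (V 1) j)) i *
        D^[k] (fun j => -lam * L (L (ginv (W (V t)))) j) i) +
        (lam * (1 / m + 1 / 2) * sq (E t) + lam * (1 / 2 + M ^ 2 / m) * b ^ 2)) := by
    refine intervalIntegral.integral_mono_on h01 (iZ.add (iP.const_mul _))
      (iΦ.add ((iE.const_mul _).add intervalIntegrable_const)) ?_
    intro t ht
    have hb : ∀ i, |D^[k + 2] (fun j => (1 - t) * W (V 0) j + t * W (V 1) j) i| ≤ b := by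
      intro i
      rw [hc_add, hc_smul, hc_smul]
      refine (abs_add_le _ _).trans ?_
      rw [abs_mul, abs_mul, abs_of_nonneg (by linarith [ht.2] : (0 : ℝ) ≤ 1 - t),
        abs_of_nonneg ht.1]
      have e1 := mul_le_mul_of_nonneg_left (hb0 i) (by linarith [ht.2] : (0 : ℝ) ≤ 1 - t)
      have e2 := mul_le_mul_of_nonneg_left (hb1 i) ht.1
      linarith
    have hp := hc_point hlam k hm (W (V t)) (fun j => (1 - t) * W (V 0) j + t * W (V 1) j)
      (ginv (W (V t))) (a t) (E t) (hE t ht) (ha t ht) hb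
    rw [avg_add]
    have e1 : avg (fun i => D^[k] (fun j => L (V1 t) j - (W (V 1) j - W (V 0) j)) i *
        D^[k] (fun j => L (V1 t) j - (W (V 1) j - W (V 0) j)) i) =
        sq (D^[k] (fun j => L (V1 t) j - (W (V 1) j - W (V 0) j))) := by
      unfold sq
      congr 1
      funext i
      ring
    rw [e1]
    linarith
  rw [intervalIntegral.integral_add iZ (iP.const_mul _),
    intervalIntegral.integral_add iΦ ((iE.const_mul _).add intervalIntegrable_const),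
    intervalIntegral.integral_add (iE.const_mul _) intervalIntegrable_const,
    intervalIntegral.integral_const_mul, intervalIntegral.integral_const_mul,
    intervalIntegral.integral_const, hint] at hmono
  simp only [sub_zero, smul_eq_mul, one_mul] at hmono
  linarith

/-- growth of the norm of `D^(k+1) w` -/
private theorem hc_grow {N : ℕ} [NeZero N] {lam : ℝ} {V V1 : ℝ → ZMod N → ℝ}
    (h : IsSol N lam V V1) (k : ℕ) {b : ℝ}
    (hb : ∀ i, |D^[k] (fun j => W (V 1) j - W (V 0) j) i| ≤ b) {t : ℝ} (ht : t ∈ Icc (0 : ℝ) 1) :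
    sq (D^[k + 1] (W (V t))) ≤ sq (D^[k + 1] (W (V 0))) +
      (∫ t in (0 : ℝ)..1, sq (D^[k + 2] (W (V t)))) +
      2 * (∫ t in (0 : ℝ)..1, sq (D^[k] (fun j => L (V1 t) j - (W (V 1) j - W (V 0) j)))) +
      2 * b ^ 2 := by
  have h01 : (0 : ℝ) ≤ 1 := zero_le_one
  have cw : ∀ i, ContinuousOn (fun t => W (V t) i) (Icc 0 1) := h.cW
  have cLV1 : ∀ i, ContinuousOn (fun t => L (V1 t) i) (Icc 0 1) :=
    fun i => continuousOn_L (fun j => h.cV1 j) i
  have hsub : Icc 0 t ⊆ Icc (0 : ℝ) 1 := Icc_subset_Icc le_rfl ht.2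
  have dΨ : ∀ s ∈ uIcc 0 t, HasDerivAt (fun s => sq (D^[k + 1] (W (V s))))
      (avg (fun i => 2 * D^[k + 1] (W (V s)) i * D^[k + 1] (L (V1 s)) i)) s := by
    intro s hs
    rw [uIcc_of_le ht.1] at hs
    have hs' := hsub hs
    refine hasDerivAt_avg fun i => ?_
    have e1 := hasDerivAt_Dk (k + 1) (fun j => h.dW hs' j) i
    refine (e1.pow 2).congr_deriv ?_
    ring
  have cΨ' : ContinuousOn (fun s => avg (fun i => 2 * D^[k + 1] (W (V s)) i *
      D^[k + 1] (L (V1 s)) i)) (Icc 0 t) := by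
    refine (continuousOn_avg fun i => ?_).mono hsub
    exact (continuousOn_const.mul (continuousOn_Dk (k + 1) cw i)).mul
      (continuousOn_Dk (k + 1) cLV1 i)
  have hint := intervalIntegral.integral_eq_sub_of_hasDerivAt dΨ
    (cΨ'.intervalIntegrable_of_Icc ht.1)
  have cP : ContinuousOn (fun t => sq (D^[k + 2] (W (V t)))) (Icc 0 1) :=
    continuousOn_sq (continuousOn_Dk (k + 2) cw)
  have cZ : ContinuousOn (fun t => sq (D^[k] (fun j => L (V1 t) j - (W (V 1) j - W (V 0) j))))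
      (Icc 0 1) := by
    refine continuousOn_sq (continuousOn_Dk k fun i => ?_)
    exact (cLV1 i).sub continuousOn_const
  have cR : ContinuousOn (fun t => sq (D^[k + 2] (W (V t))) +
      (2 * sq (D^[k] (fun j => L (V1 t) j - (W (V 1) j - W (V 0) j))) + 2 * b ^ 2))
      (Icc 0 1) := cP.add ((continuousOn_const.mul cZ).add continuousOn_const)
  have hpt : ∀ s ∈ Icc (0 : ℝ) 1, avg (fun i => 2 * D^[k + 1] (W (V s)) i *
      D^[k + 1] (L (V1 s)) i) ≤ sq (D^[k + 2] (W (V s))) +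
      (2 * sq (D^[k] (fun j => L (V1 s) j - (W (V 1) j - W (V 0) j))) + 2 * b ^ 2) := by
    intro s _
    have e1 : (fun i => 2 * D^[k + 1] (W (V s)) i * D^[k + 1] (L (V1 s)) i) =
        fun i => 2 * (D^[k + 1] (W (V s)) i * D (D^[k] (L (V1 s))) i) := by
      funext i
      rw [← Function.iterate_succ_apply' D k (L (V1 s))]
      ring
    rw [e1, avg_mul_left, sbp_D', ← Function.iterate_succ_apply' D (k + 1) (W (V s))]
    have e2 : -(2 * avg (fun i => D^[k + 2] (W (V s)) i * D^[k] (L (V1 s)) (i + 1))) ≤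
        sq (D^[k + 2] (W (V s))) + sq (D^[k] (L (V1 s))) := by
      rw [← sq_shift (D^[k] (L (V1 s))) 1]
      unfold sq
      rw [← avg_add, ← avg_mul_left, ← avg_neg]
      refine avg_mono fun i => ?_
      nlinarith [pow_two_nonneg (D^[k + 2] (W (V s)) i + D^[k] (L (V1 s)) (i + 1))]
    have e3 : sq (D^[k] (L (V1 s))) ≤
        2 * sq (D^[k] (fun j => L (V1 s) j - (W (V 1) j - W (V 0) j))) + 2 * b ^ 2 := by
      have e4 : D^[k] (L (V1 s)) =
          fun i => D^[k] (fun j => L (V1 s) j - (W (V 1) j - W (V 0) j)) i +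
            D^[k] (fun j => W (V 1) j - W (V 0) j) i := by
        rw [← hc_add]
        congr 1
        funext j
        ring
      rw [e4]
      refine (sq_add_le _ _).trans ?_
      have e5 := sq_le_of_abs_le hb
      linarith
    have e6 : (2 : ℝ) * -avg (fun i => D^[k + 2] (W (V s)) i * D^[k] (L (V1 s)) (i + 1)) =
        -(2 * avg (fun i => D^[k + 2] (W (V s)) i * D^[k] (L (V1 s)) (i + 1))) := by ring
    rw [show k + 1 + 1 = k + 2 from rfl, e6]
    linarith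
  have hstep1 : (∫ s in (0 : ℝ)..t, avg (fun i => 2 * D^[k + 1] (W (V s)) i *
      D^[k + 1] (L (V1 s)) i)) ≤ ∫ s in (0 : ℝ)..t, (sq (D^[k + 2] (W (V s))) +
      (2 * sq (D^[k] (fun j => L (V1 s) j - (W (V 1) j - W (V 0) j))) + 2 * b ^ 2)) :=
    intervalIntegral.integral_mono_on ht.1 (cΨ'.intervalIntegrable_of_Icc ht.1)
      ((cR.mono hsub).intervalIntegrable_of_Icc ht.1) fun s hs => hpt s (hsub hs)
  have iR := cR.intervalIntegrable_of_Icc (μ := MeasureTheory.volume) h01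
  have hstep2 : (∫ s in (0 : ℝ)..t, (sq (D^[k + 2] (W (V s))) +
      (2 * sq (D^[k] (fun j => L (V1 s) j - (W (V 1) j - W (V 0) j))) + 2 * b ^ 2))) ≤
      ∫ s in (0 : ℝ)..1, (sq (D^[k + 2] (W (V s))) +
      (2 * sq (D^[k] (fun j => L (V1 s) j - (W (V 1) j - W (V 0) j))) + 2 * b ^ 2)) := by
    refine intervalIntegral.integral_mono_interval le_rfl ht.1 ht.2 ?_ iR
    refine Filter.Eventually.of_forall fun s => ?_
    have e1 := sq_nonneg' (D^[k + 2] (W (V s)))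
    have e2 := sq_nonneg' (D^[k] (fun j => L (V1 s) j - (W (V 1) j - W (V 0) j)))
    have e3 := pow_two_nonneg b
    simp only [Pi.zero_apply]
    linarith
  have iP := cP.intervalIntegrable_of_Icc (μ := MeasureTheory.volume) h01
  have iZ := cZ.intervalIntegrable_of_Icc (μ := MeasureTheory.volume) h01
  rw [intervalIntegral.integral_add iP ((iZ.const_mul _).add intervalIntegrable_const),
    intervalIntegral.integral_add (iZ.const_mul _) intervalIntegrable_const,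
    intervalIntegral.integral_const_mul, intervalIntegral.integral_const] at hstep2
  simp only [sub_zero, smul_eq_mul, one_mul] at hstep2
  rw [hint] at hstep1
  linarith

theorem energy_step {lam c : ℝ} {B : ℕ → ℝ} (hlam : 0 < lam) (hc : 0 < c) {V V1 : Fam}
    (h : ∀ n, Cls (n + 3) lam c B (V n) (V1 n)) {k : ℕ} (hk : 1 ≤ k)
    (hE : ∀ δ : ℝ, 0 < δ → ∃ C : ℝ, ∀ n,
      (∫ t in (0 : ℝ)..1, sq (EF k V n t)) ≤
        δ * (∫ t in (0 : ℝ)..1, sq (DkF (k + 2) (wF V) n t)) + C) :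
    BL (DkF (k + 2) (wF V)) ∧ B2 (DkF (k + 1) (wF V)) := by
  obtain ⟨c0, W0, C0, hc0, hW0, hbb⟩ := basic_bounds lam c B hlam hc
  have hw : ∀ n, ∀ t ∈ Icc (0 : ℝ) 1, ∀ i, c0 ≤ W (V n t) i ∧ W (V n t) i ≤ W0 :=
    fun n => (hbb (n + 3) (V n) (V1 n) (h n)).1
  have hW00 : 0 < W0 := by linarith
  obtain ⟨m, hm⟩ : ∃ m : ℝ, m = (W0⁻¹) ^ 2 := ⟨_, rfl⟩
  obtain ⟨M, hM⟩ : ∃ M : ℝ, M = (c0⁻¹) ^ 2 := ⟨_, rfl⟩
  have hm0 : 0 < m := by rw [hm]; positivity
  have hκ : 0 < 1 / m + 1 / 2 := by positivity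
  obtain ⟨δ, hδ⟩ : ∃ δ : ℝ, δ = m / 4 / (1 / m + 1 / 2) := ⟨_, rfl⟩
  have hδ0 : 0 < δ := by rw [hδ]; positivity
  have hδκ : (1 / m + 1 / 2) * δ = m / 4 := by rw [hδ]; field_simp
  obtain ⟨C1, hC1⟩ := hE δ hδ0
  have cwF : CF (wF V) := fun n i => (h n).sol.cW i
  have cgF : CF (gF V) := fun n i => (h n).sol.cG i
  have cEF : CF (EF k V) := (cgF.Dk (k + 2)).add ((cwF.Dk (k + 2)).mul ((cgF.mul (cgF.sh 1)).sh _))
  obtain ⟨R, hR⟩ : ∃ R : ℝ, R = lam * (1 / m + 1 / 2) * C1 +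
    lam * (1 / 2 + M ^ 2 / m) * (B (k + 2 + 2)) ^ 2 := ⟨_, rfl⟩
  have hmain : ∀ n, (∫ t in (0 : ℝ)..1, sq (D^[k] (fun j => L (V1 n t) j -
      (W (V n 1) j - W (V n 0) j)))) +
      lam * (m / 4) * (∫ t in (0 : ℝ)..1, sq (D^[k + 2] (W (V n t)))) ≤ R := by
    intro n
    have e1 := hc_main hlam (h n).sol k hm0
      (fun t i => gF V n t (i + (((k : ℤ) + 1 : ℤ) : ZMod (n + 3))) *
        shF 1 (gF V) n t (i + (((k : ℤ) + 1 : ℤ) : ZMod (n + 3))))
      (EF k V n) (M := M) (b := B (k + 2 + 2))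
      (by
        intro t _ i
        have : EF k V n t i = D^[k + 2] (ginv (W (V n t))) i + D^[k + 2] (W (V n t)) i *
          (gF V n t (i + (((k : ℤ) + 1 : ℤ) : ZMod (n + 3))) *
          shF 1 (gF V) n t (i + (((k : ℤ) + 1 : ℤ) : ZMod (n + 3)))) := rfl
        rw [this]
        ring)
      (by
        intro t ht i
        have hg : ∀ j, W0⁻¹ ≤ gF V n t j ∧ gF V n t j ≤ c0⁻¹ := by
          intro j
          have e2 := hw n t ht j
          exact ⟨inv_anti₀ (lt_of_lt_of_le hc0 e2.1) e2.2, inv_anti₀ hc0 e2.1⟩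
        have hW0i : 0 < W0⁻¹ := by positivity
        have hc0i : 0 < c0⁻¹ := by positivity
        have g1 := hg (i + (((k : ℤ) + 1 : ℤ) : ZMod (n + 3)))
        have g2 := hg (i + (((k : ℤ) + 1 : ℤ) : ZMod (n + 3)) + ((1 : ℤ) : ZMod (n + 3)))
        rw [hm, hM, pow_two, pow_two]
        exact ⟨mul_le_mul g1.1 g2.1 hW0i.le (hW0i.le.trans g1.1),
          mul_le_mul g1.2 g2.2 (hW0i.le.trans g2.1) hc0i.le⟩)
      (fun i => hc_bdW (h n).d0 (k + 2) (by omega) i)
      (fun i => hc_bdW (h n).d1 (k + 2) (by omega) i)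
      (cEF.sq n)
    have e2 := hC1 n
    have e3 : (∫ t in (0 : ℝ)..1, sq (DkF (k + 2) (wF V) n t)) =
      ∫ t in (0 : ℝ)..1, sq (D^[k + 2] (W (V n t))) := rfl
    rw [e3] at e2
    have e4 := mul_le_mul_of_nonneg_left e2 (mul_pos hlam hκ).le
    have e5 : lam * (1 / m + 1 / 2) *
        (δ * (∫ t in (0 : ℝ)..1, sq (D^[k + 2] (W (V n t)))) + C1) =
        lam * ((1 / m + 1 / 2) * δ) * (∫ t in (0 : ℝ)..1, sq (D^[k + 2] (W (V n t)))) +
          lam * (1 / m + 1 / 2) * C1 := by ring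
    rw [e5, hδκ] at e4
    rw [hR]
    linarith
  have hZ0 : ∀ n, 0 ≤ ∫ t in (0 : ℝ)..1, sq (D^[k] (fun j => L (V1 n t) j -
      (W (V n 1) j - W (V n 0) j))) := fun n =>
    intervalIntegral.integral_nonneg zero_le_one fun t _ => sq_nonneg' _
  have hA0 : ∀ n, 0 ≤ ∫ t in (0 : ℝ)..1, sq (D^[k + 2] (W (V n t))) := fun n =>
    intervalIntegral.integral_nonneg zero_le_one fun t _ => sq_nonneg' _
  have hlm : 0 < lam * (m / 4) := by positivity
  have hA : ∀ n, (∫ t in (0 : ℝ)..1, sq (D^[k + 2] (W (V n t)))) ≤ R / (lam * (m / 4)) := by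
    intro n
    rw [le_div_iff₀ hlm]
    have e1 := hmain n
    have e2 := hZ0 n
    linarith
  have hZ : ∀ n, (∫ t in (0 : ℝ)..1, sq (D^[k] (fun j => L (V1 n t) j -
      (W (V n 1) j - W (V n 0) j)))) ≤ R := by
    intro n
    have e1 := hmain n
    have e2 := mul_nonneg hlm.le (hA0 n)
    linarith
  refine ⟨⟨R / (lam * (m / 4)), hA⟩,
    ⟨(B (k + 1 + 2)) ^ 2 + R / (lam * (m / 4)) + 2 * R + 2 * (2 * B (k + 2)) ^ 2, ?_⟩⟩
  intro n t ht
  have hb : ∀ i, |D^[k] (fun j => W (V n 1) j - W (V n 0) j) i| ≤ 2 * B (k + 2) := by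
    intro i
    rw [hc_sub]
    refine (abs_sub _ _).trans ?_
    have e1 := hc_bdW (h n).d0 k hk i
    have e2 := hc_bdW (h n).d1 k hk i
    linarith
  have e1 := hc_grow (h n).sol k hb ht
  have e2 : sq (D^[k + 1] (W (V n 0))) ≤ (B (k + 1 + 2)) ^ 2 :=
    sq_le_of_abs_le fun i => hc_bdW (h n).d0 (k + 1) (by omega) i
  have e3 := hA n
  have e4 := hZ n
  have e5 : sq (DkF (k + 1) (wF V) n t) = sq (D^[k + 1] (W (V n t))) := rfl
  rw [e5]
  linarith

end Pool.Agent.H37.DP
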