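import Pool.Agent.H37.DP.HC

/-!
MODULE HD: the lower order part for `k = 1`.

PROOF.  Put `g = gF V`, `q = g * g(·+1)`, `u = D w`.  On `[0,1]`: `D g = - u q` (`DF_g`), so
`D³ g = - D² (u q) = - (D² u * q(·+2) + 2 D u * D q (·+1) + u * D² q)` (product rule), i.e.
`EF 1 V = - (2 D u * D q(·+1) + u * D² q)`.
`D q = D g * g(·+2) + g * D g (·+1)` so `|D q| ≤ C (|u| + |u(·+1)|)`, and
`D² g = - (D u * q(·+1) + u * D q)`, so
`|D² q| ≤ C ∑ over finitely many shifts (|D u| + |u|²)` (use also `D g = - u q`; shifts `0,1,2`).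
So `|EF 1 V| ≤ C ∑ (|D u (·+a)| |u (·+b)| + |u (·+a)|³)`-type terms (finitely many shifts).
`sq (D u(·+a) u(·+b)) ≤ (sup |D u|)² sq u ≤ C (sq (D u) + 2 √(sq (D u)) √(sq (D² u)))`
(`sup_sq_le`), whose integral is `≤ δ ∫ sq (D² u) + C_δ ∫ sq (D u) ≤ δ ∫ sq (D³ w) + C`.
`sq (u³-terms) ≤ (sup |u|)⁴ sq u ≤ C (1 + sq (D u))`, integral `≤ C`.
-/

namespace Pool.Agent.H37.DP

open Set Filter Topology

private theorem hd_D2 {N : ℕ} (u q : ZMod N → ℝ) (i : ZMod N) :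
    D (D (fun j => -(u j * q j))) i =
      -(D (D u) i * q (i + 1 + 1) + 2 * D u i * D q (i + 1) + u i * D (D q) i) := by
  unfold D
  ring

private theorem hd_D1 {N : ℕ} (u q : ZMod N → ℝ) (i : ZMod N) :
    D (fun j => -(u j * q j)) i = -(D u i * q (i + 1) + u i * D q i) := by
  unfold D
  ring

private theorem hd_Dq {N : ℕ} (g : ZMod N → ℝ) (i : ZMod N) :
    D (fun j => g j * g (j + 1)) i = D g i * g (i + 1 + 1) + g i * D g (i + 1) := by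
  unfold D
  ring

private theorem hd_D2q {N : ℕ} (g : ZMod N → ℝ) (i : ZMod N) :
    D (D (fun j => g j * g (j + 1))) i = D (D g) i * g (i + 1 + 1 + 1)
      + 2 * D g i * D g (i + 1 + 1) + g i * D (D g) (i + 1) := by
  unfold D
  ring

private theorem hd_point {N : ℕ} [NeZero N] (w g : ZMod N → ℝ) {Cg : ℝ} (hCg : 0 ≤ Cg)
    (hg : ∀ i, |g i| ≤ Cg) (hD : D g = fun i => -(D w i * (g i * g (i + 1))))
    {Us Ds : ℝ} (hUs : 0 ≤ Us) (hDs : 0 ≤ Ds) (hU : ∀ i, |D w i| ≤ Us)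
    (hDD : ∀ i, |D (D w) i| ≤ Ds) :
    sq (fun i => D (D (D g)) i + D (D (D w)) i * (g (i + 1 + 1) * g (i + 1 + 1 + 1))) ≤
      9 * (2 * Cg ^ 3 * Ds + 6 * Cg ^ 4 * Us ^ 2) ^ 2 * sq (D w) := by
  set u : ZMod N → ℝ := D w with hu
  set q : ZMod N → ℝ := fun j => g j * g (j + 1) with hq
  have hD' : D g = fun j => -(u j * q j) := hD
  have hqb : ∀ i, |q i| ≤ Cg ^ 2 := by
    intro i
    rw [hq]
    simp only [abs_mul]
    calc |g i| * |g (i + 1)| ≤ Cg * Cg :=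
          mul_le_mul (hg _) (hg _) (abs_nonneg _) hCg
      _ = Cg ^ 2 := by ring
  have hDg : ∀ i, |D g i| ≤ Cg ^ 2 * |u i| := by
    intro i
    rw [hD']
    simp only [abs_neg, abs_mul]
    have := mul_le_mul_of_nonneg_left (hqb i) (abs_nonneg (u i))
    rw [hq] at this
    simp only [abs_mul] at this
    calc |u i| * |q i| ≤ |u i| * Cg ^ 2 := mul_le_mul_of_nonneg_left (hqb i) (abs_nonneg _)
      _ = Cg ^ 2 * |u i| := by ring
  have hDgU : ∀ i, |D g i| ≤ Cg ^ 2 * Us := fun i =>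
    (hDg i).trans (mul_le_mul_of_nonneg_left (hU i) (by positivity))
  have hDq : ∀ i, |D q i| ≤ Cg ^ 3 * (|u i| + |u (i + 1)|) := by
    intro i
    rw [hq, hd_Dq]
    refine (abs_add_le _ _).trans ?_
    rw [abs_mul, abs_mul]
    have h1 : |D g i| * |g (i + 1 + 1)| ≤ Cg ^ 2 * |u i| * Cg :=
      mul_le_mul (hDg i) (hg _) (abs_nonneg _) (by positivity)
    have h2 : |g i| * |D g (i + 1)| ≤ Cg * (Cg ^ 2 * |u (i + 1)|) :=
      mul_le_mul (hg _) (hDg _) (abs_nonneg _) hCg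
    nlinarith
  have hDqU : ∀ i, |D q i| ≤ 2 * Cg ^ 3 * Us := by
    intro i
    refine (hDq i).trans ?_
    have h1 := hU i
    have h2 := hU (i + 1)
    have h3 : 0 ≤ Cg ^ 3 := by positivity
    nlinarith
  have hDDg : ∀ i, |D (D g) i| ≤ Cg ^ 2 * Ds + 2 * Cg ^ 3 * Us ^ 2 := by
    intro i
    rw [hD', hd_D1, abs_neg]
    refine (abs_add_le _ _).trans ?_
    rw [abs_mul (D u i), abs_mul (u i)]
    have h1 : |D u i| * |q (i + 1)| ≤ Ds * Cg ^ 2 :=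
      mul_le_mul (hDD i) (hqb _) (abs_nonneg _) hDs
    have h2 : |u i| * |D q i| ≤ Us * (2 * Cg ^ 3 * Us) :=
      mul_le_mul (hU i) (hDqU i) (abs_nonneg _) hUs
    nlinarith
  have hD2q : ∀ i, |D (D q) i| ≤ 2 * Cg ^ 3 * Ds + 6 * Cg ^ 4 * Us ^ 2 := by
    intro i
    rw [hq, hd_D2q]
    refine (abs_add_le _ _).trans ?_
    have h0 : |D (D g) i * g (i + 1 + 1 + 1) + 2 * D g i * D g (i + 1 + 1)|
        ≤ |D (D g) i| * |g (i + 1 + 1 + 1)| + 2 * |D g i| * |D g (i + 1 + 1)| := by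
      refine (abs_add_le _ _).trans ?_
      rw [abs_mul, abs_mul, abs_mul, abs_two]
    have h1 : |D (D g) i| * |g (i + 1 + 1 + 1)| ≤ (Cg ^ 2 * Ds + 2 * Cg ^ 3 * Us ^ 2) * Cg :=
      mul_le_mul (hDDg i) (hg _) (abs_nonneg _) (by positivity)
    have h2 : |D g i| * |D g (i + 1 + 1)| ≤ (Cg ^ 2 * Us) * (Cg ^ 2 * Us) :=
      mul_le_mul (hDgU i) (hDgU _) (abs_nonneg _) (by positivity)
    have h3 : |g i * D (D g) (i + 1)| ≤ Cg * (Cg ^ 2 * Ds + 2 * Cg ^ 3 * Us ^ 2) := by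
      rw [abs_mul]
      exact mul_le_mul (hg i) (hDDg _) (abs_nonneg _) hCg
    have e : (Cg ^ 2 * Ds + 2 * Cg ^ 3 * Us ^ 2) * Cg + 2 * ((Cg ^ 2 * Us) * (Cg ^ 2 * Us))
        + Cg * (Cg ^ 2 * Ds + 2 * Cg ^ 3 * Us ^ 2)
        = 2 * Cg ^ 3 * Ds + 6 * Cg ^ 4 * Us ^ 2 := by ring
    have h4 : 2 * |D g i| * |D g (i + 1 + 1)| = 2 * (|D g i| * |D g (i + 1 + 1)|) := by ring
    rw [h4] at h0
    linarith
  set M : ℝ := 2 * Cg ^ 3 * Ds + 6 * Cg ^ 4 * Us ^ 2 with hM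
  have hM0 : 0 ≤ M := by positivity
  have hM2 : 2 * Cg ^ 3 * Ds ≤ M := by
    rw [hM]
    have : 0 ≤ 6 * Cg ^ 4 * Us ^ 2 := by positivity
    linarith
  set E : ZMod N → ℝ :=
    fun i => D (D (D g)) i + D (D (D w)) i * (g (i + 1 + 1) * g (i + 1 + 1 + 1)) with hE
  have hEi : ∀ i, E i = -(2 * D u i * D q (i + 1) + u i * D (D q) i) := by
    intro i
    have h1 : D (D (D g)) i = -(D (D u) i * q (i + 1 + 1) + 2 * D u i * D q (i + 1)
        + u i * D (D q) i) := by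
      rw [hD']
      exact hd_D2 u q i
    have h2 : q (i + 1 + 1) = g (i + 1 + 1) * g (i + 1 + 1 + 1) := rfl
    rw [hE]
    simp only []
    rw [h1, h2]
    ring
  have hEb : ∀ i, |E i| ≤ M * (|u i| + |u (i + 1)| + |u (i + 1 + 1)|) := by
    intro i
    rw [hEi, abs_neg]
    refine (abs_add_le _ _).trans ?_
    have h1 : |2 * D u i * D q (i + 1)| = 2 * |D u i| * |D q (i + 1)| := by
      rw [abs_mul, abs_mul, abs_two]
    have h2 : |D u i| * |D q (i + 1)| ≤ Ds * (Cg ^ 3 * (|u (i + 1)| + |u (i + 1 + 1)|)) :=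
      mul_le_mul (hDD i) (hDq _) (abs_nonneg _) hDs
    have h3 : |u i * D (D q) i| ≤ |u i| * M := by
      rw [abs_mul]
      exact mul_le_mul_of_nonneg_left (hD2q i) (abs_nonneg _)
    have h4 : (2 * Cg ^ 3 * Ds) * (|u (i + 1)| + |u (i + 1 + 1)|)
        ≤ M * (|u (i + 1)| + |u (i + 1 + 1)|) :=
      mul_le_mul_of_nonneg_right hM2 (by positivity)
    rw [h1]
    have h5 : 2 * |D u i| * |D q (i + 1)| = 2 * (|D u i| * |D q (i + 1)|) := by ring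
    rw [h5]
    nlinarith
  have hE2 : ∀ i, (E i) ^ 2 ≤ 3 * M ^ 2 * ((u i) ^ 2 + (u (i + 1)) ^ 2 + (u (i + 1 + 1)) ^ 2) := by
    intro i
    have h1 : (E i) ^ 2 ≤ (M * (|u i| + |u (i + 1)| + |u (i + 1 + 1)|)) ^ 2 := by
      rw [← sq_abs (E i)]
      exact pow_le_pow_left₀ (abs_nonneg _) (hEb i) 2
    refine h1.trans ?_
    rw [← sq_abs (u i), ← sq_abs (u (i + 1)), ← sq_abs (u (i + 1 + 1))]
    set x := |u i|
    set y := |u (i + 1)|
    set z := |u (i + 1 + 1)|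
    have h2 : (x + y + z) ^ 2 ≤ 3 * (x ^ 2 + y ^ 2 + z ^ 2) := by
      nlinarith [sq_nonneg (x - y), sq_nonneg (y - z), sq_nonneg (x - z)]
    have h3 : 0 ≤ M ^ 2 := by positivity
    calc (M * (x + y + z)) ^ 2 = M ^ 2 * (x + y + z) ^ 2 := by ring
      _ ≤ M ^ 2 * (3 * (x ^ 2 + y ^ 2 + z ^ 2)) := mul_le_mul_of_nonneg_left h2 h3
      _ = 3 * M ^ 2 * (x ^ 2 + y ^ 2 + z ^ 2) := by ring
  have h1 : sq E ≤ avg (fun i => 3 * M ^ 2 *
      ((u i) ^ 2 + (u (i + 1)) ^ 2 + (u (i + 1 + 1)) ^ 2)) := avg_mono hE2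
  refine h1.trans (le_of_eq ?_)
  rw [avg_mul_left, avg_add, avg_add]
  have h2 : avg (fun i => (u (i + 1)) ^ 2) = sq u := avg_shift_one (fun i => (u i) ^ 2)
  have h3 : avg (fun i => (u (i + 1 + 1)) ^ 2) = sq u := by
    rw [avg_shift_one (fun i => (u (i + 1)) ^ 2)]
    exact h2
  have h4 : avg (fun i => (u i) ^ 2) = sq u := rfl
  rw [h2, h3, h4]
  ring

private theorem hd_num {Cg Cu su s1 s2 ε : ℝ} (hCg : 0 ≤ Cg) (hsu : 0 ≤ su)
    (hs1 : 0 ≤ s1) (hs2 : 0 ≤ s2) (hCu : su ≤ Cu) (hε : 0 < ε) :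
    9 * (2 * Cg ^ 3 * Real.sqrt (s1 + 2 * Real.sqrt s1 * Real.sqrt s2)
      + 6 * Cg ^ 4 * (Real.sqrt (su + 2 * Real.sqrt su * Real.sqrt s1)) ^ 2) ^ 2 * su ≤
      (72 * Cg ^ 6 * Cu) * (ε * s2) + (72 * Cg ^ 6 * Cu * (1 + 1 / ε) + 5184 * Cg ^ 8 * Cu ^ 2)
        * s1 + 1296 * Cg ^ 8 * Cu ^ 3 := by
  have hCu0 : 0 ≤ Cu := hsu.trans hCu
  set a := Real.sqrt s1 with ha
  set b := Real.sqrt s2 with hb
  set d := Real.sqrt su with hd
  have ha0 : 0 ≤ a := Real.sqrt_nonneg _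
  have hb0 : 0 ≤ b := Real.sqrt_nonneg _
  have hd0 : 0 ≤ d := Real.sqrt_nonneg _
  have ha2 : a ^ 2 = s1 := Real.sq_sqrt hs1
  have hb2 : b ^ 2 = s2 := Real.sq_sqrt hs2
  have hd2 : d ^ 2 = su := Real.sq_sqrt hsu
  have hDs : (Real.sqrt (s1 + 2 * a * b)) ^ 2 = s1 + 2 * a * b := Real.sq_sqrt (by positivity)
  have hUs : (Real.sqrt (su + 2 * d * a)) ^ 2 = su + 2 * d * a := Real.sq_sqrt (by positivity)
  rw [hUs]
  set Ds := Real.sqrt (s1 + 2 * a * b) with hDs'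
  have hM : (2 * Cg ^ 3 * Ds + 6 * Cg ^ 4 * (su + 2 * d * a)) ^ 2
      ≤ 8 * Cg ^ 6 * (s1 + 2 * a * b) + 72 * Cg ^ 8 * (su + 2 * d * a) ^ 2 := by
    have h := sq_nonneg (2 * Cg ^ 3 * Ds - 6 * Cg ^ 4 * (su + 2 * d * a))
    have e1 : (2 * Cg ^ 3 * Ds) ^ 2 = 4 * Cg ^ 6 * (s1 + 2 * a * b) := by
      rw [mul_pow, hDs]
      ring
    have e2 : (6 * Cg ^ 4 * (su + 2 * d * a)) ^ 2 = 36 * Cg ^ 8 * (su + 2 * d * a) ^ 2 := by ring
    nlinarith
  have hU4 : (su + 2 * d * a) ^ 2 ≤ 2 * su ^ 2 + 8 * su * s1 := by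
    have h := sq_nonneg (su - 2 * d * a)
    have e : (2 * d * a) ^ 2 = 4 * su * s1 := by
      rw [← hd2, ← ha2]
      ring
    nlinarith
  have hY : 2 * a * b ≤ ε * s2 + s1 / ε := by
    have h := sq_nonneg (ε * b - a)
    have h1 : 2 * ε * (a * b) ≤ ε ^ 2 * s2 + s1 := by
      rw [← ha2, ← hb2]
      nlinarith
    have h2 : 2 * a * b = (2 * ε * (a * b)) / ε := by field_simp
    rw [h2, div_le_iff₀ hε]
    have h3 : (ε * s2 + s1 / ε) * ε = ε ^ 2 * s2 + s1 := by field_simp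
    rw [h3]
    exact h1
  have hC6 : 0 ≤ Cg ^ 6 := by positivity
  have hC8 : 0 ≤ Cg ^ 8 := by positivity
  have hX : (2 * Cg ^ 3 * Ds + 6 * Cg ^ 4 * (su + 2 * d * a)) ^ 2
      ≤ 8 * Cg ^ 6 * (s1 + (ε * s2 + s1 / ε)) + 72 * Cg ^ 8 * (2 * su ^ 2 + 8 * su * s1) := by
    refine hM.trans ?_
    have h1 : 8 * Cg ^ 6 * (s1 + 2 * a * b) ≤ 8 * Cg ^ 6 * (s1 + (ε * s2 + s1 / ε)) :=
      mul_le_mul_of_nonneg_left (by linarith) (by positivity)
    have h2 : 72 * Cg ^ 8 * (su + 2 * d * a) ^ 2 ≤ 72 * Cg ^ 8 * (2 * su ^ 2 + 8 * su * s1) :=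
      mul_le_mul_of_nonneg_left hU4 (by positivity)
    linarith
  have hX0 : 0 ≤ 8 * Cg ^ 6 * (s1 + (ε * s2 + s1 / ε)) + 72 * Cg ^ 8 * (2 * su ^ 2 + 8 * su * s1) := by
    positivity
  have step1 : 9 * (2 * Cg ^ 3 * Ds + 6 * Cg ^ 4 * (su + 2 * d * a)) ^ 2 * su
      ≤ 9 * (8 * Cg ^ 6 * (s1 + (ε * s2 + s1 / ε)) + 72 * Cg ^ 8 * (2 * su ^ 2 + 8 * su * s1)) * Cu := by
    apply mul_le_mul _ hCu hsu (by positivity)
    exact mul_le_mul_of_nonneg_left hX (by norm_num)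
  have hsu2 : su ^ 2 ≤ Cu ^ 2 := pow_le_pow_left₀ hsu hCu 2
  have step2 : 9 * (8 * Cg ^ 6 * (s1 + (ε * s2 + s1 / ε)) + 72 * Cg ^ 8 * (2 * su ^ 2 + 8 * su * s1)) * Cu
      ≤ 9 * (8 * Cg ^ 6 * (s1 + (ε * s2 + s1 / ε)) + 72 * Cg ^ 8 * (2 * Cu ^ 2 + 8 * Cu * s1)) * Cu := by
    apply mul_le_mul_of_nonneg_right _ hCu0
    apply mul_le_mul_of_nonneg_left _ (by norm_num)
    have h1 : su * s1 ≤ Cu * s1 := mul_le_mul_of_nonneg_right hCu hs1
    have h2 : 72 * Cg ^ 8 * (2 * su ^ 2 + 8 * su * s1) ≤ 72 * Cg ^ 8 * (2 * Cu ^ 2 + 8 * Cu * s1) := by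
      apply mul_le_mul_of_nonneg_left _ (by positivity)
      nlinarith
    linarith
  refine (step1.trans step2).trans (le_of_eq ?_)
  have e : s1 / ε = (1 / ε) * s1 := by ring
  rw [e]
  ring

theorem E_one {V : Fam} (hpos : ∀ n, ∀ t ∈ Icc (0 : ℝ) 1, ∀ i, 0 < wF V n t i)
    (cw : CF (wF V)) (cg : CF (gF V)) (hw : BI (wF V)) (hg : BI (gF V))
    (h1 : B2 (DkF 1 (wF V))) (h2 : BL (DkF 2 (wF V))) :
    ∀ δ : ℝ, 0 < δ → ∃ C : ℝ, ∀ n,
      (∫ t in (0 : ℝ)..1, sq (EF 1 V n t)) ≤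
        δ * (∫ t in (0 : ℝ)..1, sq (DkF 3 (wF V) n t)) + C := by
  obtain ⟨Cg, hCg⟩ := hg
  obtain ⟨Cu, hCu⟩ := h1
  obtain ⟨C2, hC2⟩ := h2
  have hCg0 : 0 ≤ Cg := (abs_nonneg _).trans (hCg 0 0 (by simp) 0)
  have hCu0 : 0 ≤ Cu := (sq_nonneg' _).trans (hCu 0 0 (by simp))
  intro δ hδ
  set K : ℝ := 72 * Cg ^ 6 * Cu with hK
  have hK0 : 0 ≤ K := by positivity
  set ε : ℝ := δ / (K + 1) with hε
  have hε0 : 0 < ε := by positivity
  set K1 : ℝ := K * (1 + 1 / ε) + 5184 * Cg ^ 8 * Cu ^ 2 with hK1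
  have hK10 : 0 ≤ K1 := by positivity
  set K2 : ℝ := 1296 * Cg ^ 8 * Cu ^ 3 with hK2
  refine ⟨K1 * C2 + K2, fun n => ?_⟩
  have cE : CF (EF 1 V) :=
    CF.add (cg.Dk _) (CF.mul (cw.Dk _) ((CF.mul cg (cg.sh 1)).sh _))
  have i0 := (cE.sq n).intervalIntegrable_of_Icc (μ := MeasureTheory.volume) zero_le_one
  have i3 := ((cw.Dk 3).sq n).intervalIntegrable_of_Icc (μ := MeasureTheory.volume) zero_le_one
  have i2 := ((cw.Dk 2).sq n).intervalIntegrable_of_Icc (μ := MeasureTheory.volume) zero_le_one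
  have hpt : ∀ t ∈ Icc (0 : ℝ) 1, sq (EF 1 V n t) ≤
      δ * sq (DkF 3 (wF V) n t) + (K1 * sq (DkF 2 (wF V) n t) + K2) := by
    intro t ht
    set w := wF V n t with hwd
    set g := gF V n t with hgd
    have hD : D g = fun i => -(D w i * (g i * g (i + 1))) := by
      funext i
      have h := DF_g V hpos n t ht i
      simp only [DF, smulF, mulF, shF, Int.cast_one] at h
      rw [hgd, h]
      ring
    have hEq : EF 1 V n t = fun i => D (D (D g)) i + D (D (D w)) i *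
        (g (i + 1 + 1) * g (i + 1 + 1 + 1)) := by
      funext i
      have e : (((((1 : ℕ) : ℤ) + 1 : ℤ)) : ZMod (n + 3)) = 1 + 1 := by push_cast; ring
      simp only [EF, addF, mulF, shF, DkF]
      rw [e]
      simp only [Int.cast_one, ← add_assoc]
      rfl
    have hsu : sq (D w) ≤ Cu := hCu n t ht
    have e2 : sq (DkF 2 (wF V) n t) = sq (D (D w)) := rfl
    have e3 : sq (DkF 3 (wF V) n t) = sq (D (D (D w))) := rfl
    rw [hEq, e2, e3]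
    set su := sq (D w) with hsud
    set s1 := sq (D (D w)) with hs1d
    set s2 := sq (D (D (D w))) with hs2d
    have su0 : 0 ≤ su := sq_nonneg' _
    have s10 : 0 ≤ s1 := sq_nonneg' _
    have s20 : 0 ≤ s2 := sq_nonneg' _
    have hU : ∀ i, |D w i| ≤ Real.sqrt (su + 2 * Real.sqrt su * Real.sqrt s1) := by
      intro i
      apply Real.abs_le_sqrt
      exact sup_sq_le (D w) i
    have hDD : ∀ i, |D (D w) i| ≤ Real.sqrt (s1 + 2 * Real.sqrt s1 * Real.sqrt s2) := by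
      intro i
      apply Real.abs_le_sqrt
      exact sup_sq_le (D (D w)) i
    have hP := hd_point w g hCg0 (fun i => hCg n t ht i) hD (Real.sqrt_nonneg _)
      (Real.sqrt_nonneg _) hU hDD
    refine hP.trans ?_
    have hN := hd_num (Cg := Cg) (Cu := Cu) hCg0 su0 s10 s20 hsu hε0
    refine hN.trans ?_
    have hKε : K * (ε * s2) ≤ δ * s2 := by
      have h1 : K * ε ≤ δ := by
        rw [hε, mul_div_assoc', div_le_iff₀ (by positivity)]
        nlinarith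
      calc K * (ε * s2) = (K * ε) * s2 := by ring
        _ ≤ δ * s2 := mul_le_mul_of_nonneg_right h1 s20
    linarith
  have hmono : (∫ t in (0 : ℝ)..1, sq (EF 1 V n t)) ≤
      ∫ t in (0 : ℝ)..1, (δ * sq (DkF 3 (wF V) n t) + (K1 * sq (DkF 2 (wF V) n t) + K2)) :=
    intervalIntegral.integral_mono_on zero_le_one i0
      ((i3.const_mul δ).add ((i2.const_mul K1).add intervalIntegrable_const)) hpt
  refine hmono.trans ?_
  rw [intervalIntegral.integral_add (i3.const_mul δ)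
      ((i2.const_mul K1).add intervalIntegrable_const),
    intervalIntegral.integral_add (i2.const_mul K1) intervalIntegrable_const,
    intervalIntegral.integral_const_mul, intervalIntegral.integral_const_mul,
    intervalIntegral.integral_const]
  simp only [sub_zero, one_smul]
  have := mul_le_mul_of_nonneg_left (hC2 n) hK10
  linarith

end Pool.Agent.H37.DP
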