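import Pool.Agent.H37.DP.HC

/-!
MODULE HE: the lower order part for `k = 2`.

PROOF.  Put `g = gF V`, `q = g * g(·+1)`, `u = D w`.  `BI u` (`BI_of_B2_succ`, as `B2 (D² w)`).
On `[0,1]`: `D g = - u q`, so
`D⁴ g = - D³ (u q) = - (D³ u * q(·+3) + 3 D² u * D q(·+2) + 3 D u * D² q(·+1) + u * D³ q)`, i.e.
`EF 2 V = - (3 D² u * D q(·+2) + 3 D u * D² q(·+1) + u * D³ q)`.
`BI (D g)`, `BI (D q)`.  `D² g = - (D u * q(·+1) + u * D q)`: `B2`, so `B2 (D² q)`.
`D³ g = - (D² u * q(·+2) + 2 D u * D q(·+1) + u * D² q)`: `BL`, so `BL (D³ q)`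
(`D³ q` = sum of `D³ g * g`, `D² g * D g`, ... with shifts: `BL * BI`, `B2 * BI`).
`D² u * D q`: `BL * BI`; `D u * D² q`: `BL_mul_B2` (`B2 (D u)`, `BL (D² u)`, `B2 (D² q)`);
`u * D³ q`: `BI * BL`.
-/

namespace Pool.Agent.H37.DP

open Set Filter Topology

private theorem he_D2_mul (f h : Fam) : DkF 2 (mulF f h) =
    addF (mulF (DkF 2 f) (shF 2 h)) (addF (smulF 2 (mulF (DF f) (shF 1 (DF h))))
      (mulF f (DkF 2 h))) := by
  funext n t i
  have e2 : i + 1 + 1 = i + 2 := by ring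
  simp only [DkF, mulF, addF, smulF, shF, DF, D, Function.iterate_succ, Function.iterate_zero,
    Function.comp, id, Int.cast_ofNat, Int.cast_one, e2]
  ring

/-- the lower order part of the third difference quotient of a product -/
private def he_rest (f h : Fam) : Fam :=
  addF (smulF 3 (mulF (DkF 2 f) (shF 2 (DF h))))
    (addF (smulF 3 (mulF (DF f) (shF 1 (DkF 2 h)))) (mulF f (DkF 3 h)))

private theorem he_D3_mul (f h : Fam) : DkF 3 (mulF f h) =
    addF (mulF (DkF 3 f) (shF 3 h)) (he_rest f h) := by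
  funext n t i
  have e2 : i + 1 + 1 = i + 2 := by ring
  have e3 : i + 2 + 1 = i + 3 := by ring
  simp only [he_rest, DkF, mulF, addF, smulF, shF, DF, D, Function.iterate_succ,
    Function.iterate_zero, Function.comp, id, Int.cast_ofNat, Int.cast_one, e2, e3]
  ring

private theorem he_one (f : Fam) : DkF 1 f = DF f := rfl

private theorem he_DF_sh (a : ℤ) (f : Fam) : DF (shF a f) = shF a (DF f) := DkF_sh 1 a f

theorem E_two {V : Fam} (hpos : ∀ n, ∀ t ∈ Icc (0 : ℝ) 1, ∀ i, 0 < wF V n t i)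
    (cw : CF (wF V)) (cg : CF (gF V)) (hw : BI (wF V)) (hg : BI (gF V))
    (h2 : B2 (DkF 2 (wF V))) (h3 : BL (DkF 3 (wF V))) : BL (EF 2 V) := by
  set w := wF V with hwdef
  set g := gF V with hgdef
  set q := mulF g (shF 1 g) with hq
  set u := DF w with hu
  have hDg : EqI (smulF (-1) (mulF u q)) (DF g) := fun n t ht i => (DF_g V hpos n t ht i).symm
  -- continuity
  have cu : CF u := cw.D
  have cg1 : CF (shF 1 g) := cg.sh 1
  have cq : CF q := cg.mul cg1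
  have cDg : CF (DF g) := cg.D
  -- `u` is bounded
  have bu : BI u := BI_of_B2_succ (k := 1) le_rfl h2
  have bg1 : BI (shF 1 g) := hg.sh 1
  have bq : BI q := hg.mul bg1
  have bDg : BI (DF g) := ((bu.mul bq).smul (-1)).congr hDg
  have bDg1 : BI (DF (shF 1 g)) := by
    rw [he_DF_sh]
    exact bDg.sh 1
  have bDq : BI (DF q) := by
    rw [hq, DF_mul]
    exact (bDg.mul (bg1.sh 1)).add (hg.mul bDg1)
  have eDu : DkF 2 w = DF u := rfl
  have eD2u : DkF 3 w = DkF 2 u := rfl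
  have b2Du : B2 (DF u) := h2
  have blD2u : BL (DkF 2 u) := h3
  -- second difference quotient of `g`
  have b2D2g : B2 (DkF 2 g) := by
    have e : EqI (DkF 1 (smulF (-1) (mulF u q))) (DkF 2 g) := hDg.Dk 1
    refine B2.congr ?_ e
    rw [DkF_smul, he_one, DF_mul]
    exact ((b2Du.mulI (bq.sh 1)).add (bu.mul bDq).b2).smul (-1)
  have b2D2g1 : B2 (DkF 2 (shF 1 g)) := by
    rw [DkF_sh]
    exact b2D2g.sh 1
  have b2D2q : B2 (DkF 2 q) := by
    rw [hq, he_D2_mul]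
    exact (b2D2g.mulI (bg1.sh 2)).add
      (((bDg.mul (bDg1.sh 1)).b2.smul 2).add (B2.Imul hg b2D2g1))
  -- third difference quotient of `g`
  have blD3g : BL (DkF 3 g) := by
    have e : EqI (DkF 2 (smulF (-1) (mulF u q))) (DkF 3 g) := hDg.Dk 2
    refine BL.congr ?_ e
    rw [DkF_smul, he_D2_mul]
    have c1 : CF (mulF (DkF 2 u) (shF 2 q)) := (cu.Dk 2).mul (cq.sh 2)
    have c2 : CF (smulF 2 (mulF (DF u) (shF 1 (DF q)))) := (cu.D.mul (cq.D.sh 1)).smul 2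
    have c3 : CF (mulF u (DkF 2 q)) := cu.mul (cq.Dk 2)
    exact ((blD2u.mulI (bq.sh 2) (cu.Dk 2) (cq.sh 2)).add
      ((((b2Du.mulI (bDq.sh 1)).smul 2).bl c2).add ((B2.Imul bu b2D2q).bl c3) c2 c3)
      c1 (c2.add c3)).smul (-1)
  have blD3g1 : BL (DkF 3 (shF 1 g)) := by
    rw [DkF_sh]
    exact blD3g.sh 1
  have blD3q : BL (DkF 3 q) := by
    rw [hq, he_D3_mul]
    unfold he_rest
    have c1 : CF (mulF (DkF 3 g) (shF 3 (shF 1 g))) := (cg.Dk 3).mul (cg1.sh 3)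
    have c2 : CF (smulF 3 (mulF (DkF 2 g) (shF 2 (DF (shF 1 g))))) :=
      ((cg.Dk 2).mul (cg1.D.sh 2)).smul 3
    have c3 : CF (smulF 3 (mulF (DF g) (shF 1 (DkF 2 (shF 1 g))))) :=
      (cg.D.mul ((cg1.Dk 2).sh 1)).smul 3
    have c4 : CF (mulF g (DkF 3 (shF 1 g))) := cg.mul (cg1.Dk 3)
    exact (blD3g.mulI (bg1.sh 3) (cg.Dk 3) (cg1.sh 3)).add
      (((((b2D2g.mulI (bDg1.sh 2)).smul 3).bl c2)).add
        ((((B2.Imul bDg (b2D2g1.sh 1)).smul 3).bl c3).add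
          (BL.Imul hg blD3g1 cg (cg1.Dk 3)) c3 c4) c2 (c3.add c4))
      c1 (c2.add (c3.add c4))
  -- the lower order part
  have hrest : BL (he_rest u q) := by
    unfold he_rest
    have c2 : CF (smulF 3 (mulF (DkF 2 u) (shF 2 (DF q)))) := ((cu.Dk 2).mul (cq.D.sh 2)).smul 3
    have c3 : CF (smulF 3 (mulF (DF u) (shF 1 (DkF 2 q)))) := (cu.D.mul ((cq.Dk 2).sh 1)).smul 3
    have c4 : CF (mulF u (DkF 3 q)) := cu.mul (cq.Dk 3)
    exact ((blD2u.mulI (bDq.sh 2) (cu.Dk 2) (cq.D.sh 2)).smul 3).add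
      (((BL_mul_B2 b2Du blD2u (b2D2q.sh 1) cu.D ((cq.Dk 2).sh 1)).smul 3).add
        (BL.Imul bu blD3q cu (cq.Dk 3)) c3 c4) c2 (c3.add c4)
  have hEq : EqI (smulF (-1) (he_rest u q)) (EF 2 V) := by
    have e : EqI (DkF 3 (smulF (-1) (mulF u q))) (DkF 4 g) := hDg.Dk 3
    intro n t ht i
    have e1 := e n t ht i
    rw [DkF_smul, he_D3_mul] at e1
    have e2 : EF 2 V n t i = DkF 4 g n t i + DkF 3 u n t i * shF 3 q n t i := rfl
    rw [e2, ← e1]
    have e3 : smulF (-1) (addF (mulF (DkF 3 u) (shF 3 q)) (he_rest u q)) n t i =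
      -1 * (DkF 3 u n t i * shF 3 q n t i + he_rest u q n t i) := rfl
    have e4 : smulF (-1) (he_rest u q) n t i = -1 * he_rest u q n t i := rfl
    rw [e3, e4]
    ring
  exact (hrest.smul (-1)).congr hEq

end Pool.Agent.H37.DP
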