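import Pool.Agent.H37.DP.HB

/-!
MODULE HF: calculus of the classes `TT m`.
`TT m f`: `CF f`, `BI (D^j f)` for `j ≤ m - 1`, `BL (D^m f)`, `BL (D^(m+1) f)`.

PROOFS.
`TT.pred`: `BL (D^m f)` from `BI (D^m f)` (`BI.b2`, `B2.bl`).  `TT.D`, `TT.sh`: `DkF_succ`,
`DkF_sh`.  `TT.of_D`: unfold.
`TT.mul` by induction on `m ≥ 2`.  Base `m = 2`: Leibniz for `D²`, `D³` (apply `DF_mul`
repeatedly; shifts do not matter): every term of `D² (f g)`, `D³ (f g)` has at most one factor of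
order `≥ 2`, so is `BI * BI`, `BL * BI` or `BI * BL`.  Step: `TT (m+1) (f g)` iff `CF`, `BI (f g)`
and `TT m (D (f g))`, `D (f g) = D f * g(·+1) + f * D g`, and `D f, g(·+1), f, D g` are all in
`TT m` (`TT.D`, `TT.sh`, `TT.pred`).
`PP` by induction on `m ≥ 2`.  Base `m = 2`, `f ∈ TT 2`, `g ∈ TT 3`:
`D⁴ (f g) - D⁴ f * g(·+4) = 4 D³ f * D g(·+3) + 6 D² f * D² g(·+2) + 4 D f * D³ g(·+1) + f * D⁴ g`
and all four terms are `BL`.  Step: `f ∈ TT (m+1)`, `g ∈ TT (m+2)`: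
`D^(m+3) (f g) = D^(m+2) (D f * g(·+1)) + D^(m+2) (f * D g)`; the first is
`D^(m+3) f * g (·+m+3) + BL` by induction (`D f ∈ TT m`, `g(·+1) ∈ TT (m+1)`); the second is `BL`
because `f * D g ∈ TT (m+1)` (`f, D g ∈ TT (m+1)`).
`TT_g` by induction on `m ≥ 2`: `D g = - D w * (g * g(·+1))` on `[0,1]` (`DF_g`).  Base: `BI (D g)`;
`D² g = - (D² w * q(·+1) + D w * D q)`, `q = g g(·+1)`: `BL`;
`D³ g = - (D³ w * q(·+2) + 2 D² w * D q(·+1) + D w * D² q)`: `BL`.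
Step: `D w, g ∈ TT m` so `D g ∈ TT m`, hence `g ∈ TT (m+1)` (`TT.of_D`).
-/

namespace Pool.Agent.H37.DP

open Set Filter Topology

theorem TT.congr {m : ℕ} {f g : Fam} (h : TT m f) (e : EqI f g) : TT m g :=
  ⟨h.1.congr e, fun j hj => (h.2.1 j hj).congr (e.Dk j), h.2.2.1.congr (e.Dk m),
    h.2.2.2.congr (e.Dk (m + 1))⟩
theorem TT.sh {m : ℕ} {f : Fam} (h : TT m f) (a : ℤ) : TT m (shF a f) :=
  ⟨h.1.sh a, fun j hj => by rw [DkF_sh]; exact (h.2.1 j hj).sh a,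
    by rw [DkF_sh]; exact h.2.2.1.sh a, by rw [DkF_sh]; exact h.2.2.2.sh a⟩
theorem TT.pred {m : ℕ} {f : Fam} (h : TT (m + 1) f) : TT m f :=
  ⟨h.1, fun j hj => h.2.1 j (by omega), (h.2.1 m le_rfl).b2.bl (h.1.Dk m), h.2.2.1⟩
theorem TT.D {m : ℕ} {f : Fam} (h : TT (m + 1) f) : TT m (DF f) :=
  ⟨h.1.D, fun j hj => by rw [← DkF_succ]; exact h.2.1 (j + 1) (by omega),
    by rw [← DkF_succ]; exact h.2.2.1, by rw [← DkF_succ]; exact h.2.2.2⟩
theorem TT.of_D {m : ℕ} {f : Fam} (c : CF f) (b : BI f) (h : TT m (DF f)) :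
    TT (m + 1) f := by
  refine ⟨c, fun j hj => ?_, by rw [DkF_succ]; exact h.2.2.1, by rw [DkF_succ]; exact h.2.2.2⟩
  cases j with
  | zero => rw [DkF_zero]; exact b
  | succ j => rw [DkF_succ]; exact h.2.1 j (by omega)
theorem TT.add {m : ℕ} {f g : Fam} (hf : TT m f) (hg : TT m g) : TT m (addF f g) :=
  ⟨hf.1.add hg.1, fun j hj => by rw [DkF_add']; exact (hf.2.1 j hj).add (hg.2.1 j hj),
    by rw [DkF_add']; exact hf.2.2.1.add hg.2.2.1 (hf.1.Dk m) (hg.1.Dk m),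
    by rw [DkF_add']; exact hf.2.2.2.add hg.2.2.2 (hf.1.Dk _) (hg.1.Dk _)⟩
theorem TT.smul {m : ℕ} {f : Fam} (hf : TT m f) (c : ℝ) : TT m (smulF c f) :=
  ⟨hf.1.smul c, fun j hj => by rw [DkF_smul]; exact (hf.2.1 j hj).smul c,
    by rw [DkF_smul]; exact hf.2.2.1.smul c, by rw [DkF_smul]; exact hf.2.2.2.smul c⟩

private def hfI (f : Fam) : Prop := CF f ∧ BI f
private def hfL (f : Fam) : Prop := CF f ∧ BL f

private theorem hf_toL {f : Fam} (h : hfI f) : hfL f := ⟨h.1, h.2.b2.bl h.1⟩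
private theorem hf_shI {f : Fam} (h : hfI f) (a : ℤ) : hfI (shF a f) := ⟨h.1.sh a, h.2.sh a⟩
private theorem hf_shL {f : Fam} (h : hfL f) (a : ℤ) : hfL (shF a f) := ⟨h.1.sh a, h.2.sh a⟩
private theorem hf_II {f g : Fam} (hf : hfI f) (hg : hfI g) : hfI (mulF f g) :=
  ⟨hf.1.mul hg.1, hf.2.mul hg.2⟩
private theorem hf_LI {f g : Fam} (hf : hfL f) (hg : hfI g) : hfL (mulF f g) :=
  ⟨hf.1.mul hg.1, hf.2.mulI hg.2 hf.1 hg.1⟩
private theorem hf_IL {f g : Fam} (hf : hfI f) (hg : hfL g) : hfL (mulF f g) :=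
  ⟨hf.1.mul hg.1, BL.Imul hf.2 hg.2 hf.1 hg.1⟩
private theorem hf_addI {f g : Fam} (hf : hfI f) (hg : hfI g) : hfI (addF f g) :=
  ⟨hf.1.add hg.1, hf.2.add hg.2⟩
private theorem hf_addL {f g : Fam} (hf : hfL f) (hg : hfL g) : hfL (addF f g) :=
  ⟨hf.1.add hg.1, hf.2.add hg.2 hf.1 hg.1⟩
private theorem hf_DshI {f : Fam} {a : ℤ} (h : hfI (DF f)) : hfI (DF (shF a f)) := by
  have := DkF_sh 1 a f
  have e : DF (shF a f) = shF a (DF f) := this
  rw [e]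
  exact hf_shI h a
private theorem hf_DshL {f : Fam} {a : ℤ} (h : hfL (DF f)) : hfL (DF (shF a f)) := by
  have := DkF_sh 1 a f
  have e : DF (shF a f) = shF a (DF f) := this
  rw [e]
  exact hf_shL h a
private theorem hf_DDshL {f : Fam} {a : ℤ} (h : hfL (DF (DF f))) : hfL (DF (DF (shF a f))) := by
  have := DkF_sh 2 a f
  have e : DF (DF (shF a f)) = shF a (DF (DF f)) := this
  rw [e]
  exact hf_shL h a
private theorem hf_comm (f g : Fam) : mulF f g = mulF g f := by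
  funext n t i
  exact mul_comm _ _

private theorem hf_mI {f g : Fam} (hf : hfI f) (hf1 : hfI (DF f)) (hg : hfI g)
    (hg1 : hfI (DF g)) : hfI (DF (mulF f g)) := by
  rw [DF_mul]
  exact hf_addI (hf_II hf1 (hf_shI hg 1)) (hf_II hf hg1)

private theorem hf_mA {f g : Fam} (hf : hfL f) (hf1 : hfL (DF f)) (hg : hfI g)
    (hg1 : hfI (DF g)) : hfL (DF (mulF f g)) := by
  rw [DF_mul]
  exact hf_addL (hf_LI hf1 (hf_shI hg 1)) (hf_LI hf hg1)

private theorem hf_mA' {f g : Fam} (hf : hfI f) (hf1 : hfL (DF f)) (hg : hfI g)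
    (hg1 : hfL (DF g)) : hfL (DF (mulF f g)) := by
  rw [DF_mul]
  exact hf_addL (hf_LI hf1 (hf_shI hg 1)) (hf_IL hf hg1)

private theorem hf_mB {f g : Fam} (hf : hfI f) (hf1 : hfL (DF f)) (hf2 : hfL (DF (DF f)))
    (hg : hfI g) (hg1 : hfI (DF g)) (hg2 : hfL (DF (DF g))) : hfL (DF (DF (mulF f g))) := by
  rw [DF_mul, DF_add]
  exact hf_addL (hf_mA hf1 hf2 (hf_shI hg 1) (hf_DshI hg1)) (hf_mA' hf hf1 hg1 hg2)

private theorem hf_mC {f g : Fam} (hf : hfI f) (hf1 : hfI (DF f)) (hf2 : hfL (DF (DF f)))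
    (hf3 : hfL (DF (DF (DF f)))) (hg : hfI g) (hg1 : hfI (DF g)) (hg2 : hfL (DF (DF g)))
    (hg3 : hfL (DF (DF (DF g)))) : hfL (DF (DF (DF (mulF f g)))) := by
  rw [DF_mul, DF_add, DF_add]
  refine hf_addL (hf_mB hf1 hf2 hf3 (hf_shI hg 1) (hf_DshI hg1) (hf_DDshL hg2)) ?_
  rw [DF_mul, DF_add]
  refine hf_addL (hf_mA' hf1 hf2 (hf_shI hg1 1) (hf_DshL hg2)) ?_
  rw [hf_comm]
  exact hf_mA hg2 hg3 hf hf1

private theorem hf_of2 {f : Fam} (h : TT 2 f) : hfI f ∧ hfI (DF f) ∧ hfL (DF (DF f)) ∧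
    hfL (DF (DF (DF f))) :=
  ⟨⟨h.1, h.2.1 0 (by omega)⟩, ⟨h.1.D, h.2.1 1 (by omega)⟩, ⟨h.1.D.D, h.2.2.1⟩,
    ⟨h.1.D.D.D, h.2.2.2⟩⟩

theorem TT.mul {m : ℕ} (hm : 2 ≤ m) {f g : Fam} (hf : TT m f) (hg : TT m g) :
    TT m (mulF f g) := by
  induction m, hm using Nat.le_induction generalizing f g with
  | base =>
    obtain ⟨f0, f1, f2, f3⟩ := hf_of2 hf
    obtain ⟨g0, g1, g2, g3⟩ := hf_of2 hg
    refine ⟨hf.1.mul hg.1, fun j hj => ?_, ?_, ?_⟩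
    · rcases (by omega : j = 0 ∨ j = 1) with rfl | rfl
      · exact (hf_II f0 g0).2
      · exact (hf_mI f0 f1 g0 g1).2
    · exact (hf_mB f0 (hf_toL f1) f2 g0 g1 g2).2
    · exact (hf_mC f0 f1 f2 f3 g0 g1 g2 g3).2
  | succ m hm ih =>
    refine TT.of_D (hf.1.mul hg.1) ?_ ?_
    · have h0 : BI f := hf.2.1 0 (by omega)
      have h1 : BI g := hg.2.1 0 (by omega)
      exact h0.mul h1
    · rw [DF_mul]
      exact (ih hf.D (hg.pred.sh 1)).add (ih hf.pred hg.D)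

private theorem hf_pp (m : ℕ) : ∀ {f g : Fam}, TT m f → TT (m + 1) g → TT 3 g →
    BL (addF (DkF (m + 2) (mulF f g))
      (smulF (-1) (mulF (DkF (m + 2) f) (shF ((m : ℤ) + 2) g)))) := by
  induction m with
  | zero =>
    intro f g hf _ hg
    have f0 : hfL f := ⟨hf.1, hf.2.2.1⟩
    have f1 : hfL (DF f) := ⟨hf.1.D, hf.2.2.2⟩
    obtain ⟨g0, g1, -, -⟩ := hf_of2 hg.pred
    have g2 : hfI (DF (DF g)) := ⟨hg.1.D.D, hg.2.1 2 (by omega)⟩
    have key : addF (DkF (0 + 2) (mulF f g))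
        (smulF (-1) (mulF (DkF (0 + 2) f) (shF (((0 : ℕ) : ℤ) + 2) g))) =
        addF (addF (mulF (DF f) (DF (shF 1 g))) (mulF (DF f) (shF 1 (DF g))))
          (mulF f (DF (DF g))) := by
      have e1 : DkF (0 + 2) (mulF f g) = DF (DF (mulF f g)) := rfl
      have e2 : DkF (0 + 2) f = DF (DF f) := rfl
      have e3 : shF (((0 : ℕ) : ℤ) + 2) g = shF 1 (shF 1 g) := by
        rw [shF_sh]
        norm_num
      rw [e1, e2, e3, DF_mul, DF_add, DF_mul, DF_mul]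
      funext n t i
      simp only [addF, smulF, mulF]
      ring
    rw [key]
    exact (hf_addL (hf_addL (hf_LI f1 (hf_DshI g1)) (hf_LI f1 (hf_shI g1 1))) (hf_LI f0 g2)).2
  | succ m ih =>
    intro f g hf hg hg3
    have h1 := ih hf.D (hg.pred.sh 1) (hg3.sh 1)
    have h2 : hfL (DkF (m + 2) (mulF f (DF g))) := by
      cases m with
      | zero =>
        have f0 : hfI f := ⟨hf.1, hf.2.1 0 (by omega)⟩
        have f1 : hfL (DF f) := ⟨hf.1.D, hf.2.2.1⟩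
        have f2 : hfL (DF (DF f)) := ⟨hf.1.D.D, hf.2.2.2⟩
        obtain ⟨g1, g2, g3, -⟩ := hf_of2 hg3.D
        exact hf_mB f0 f1 f2 g1 g2 g3
      | succ m =>
        have := TT.mul (by omega) hf hg.D
        exact ⟨this.1.Dk _, this.2.2.2⟩
    have c1 : CF (addF (DkF (m + 2) (mulF (DF f) (shF 1 g)))
      (smulF (-1) (mulF (DkF (m + 2) (DF f)) (shF ((m : ℤ) + 2) (shF 1 g))))) :=
      ((hf.1.D.mul (hg.1.sh 1)).Dk _).add ((((hf.1.D).Dk _).mul ((hg.1.sh 1).sh _)).smul _)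
    have key : addF (DkF (m + 1 + 2) (mulF f g))
        (smulF (-1) (mulF (DkF (m + 1 + 2) f) (shF (((m + 1 : ℕ) : ℤ) + 2) g))) =
        addF (addF (DkF (m + 2) (mulF (DF f) (shF 1 g)))
          (smulF (-1) (mulF (DkF (m + 2) (DF f)) (shF ((m : ℤ) + 2) (shF 1 g)))))
          (DkF (m + 2) (mulF f (DF g))) := by
      have e1 : DkF (m + 1 + 2) (mulF f g) = DkF (m + 2) (DF (mulF f g)) := DkF_succ _ _
      have e2 : DkF (m + 1 + 2) f = DkF (m + 2) (DF f) := DkF_succ _ _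
      have e3 : shF (((m + 1 : ℕ) : ℤ) + 2) g = shF ((m : ℤ) + 2) (shF 1 g) := by
        rw [shF_sh, show ((m + 1 : ℕ) : ℤ) + 2 = (m : ℤ) + 2 + 1 by push_cast; ring]
      rw [e1, e2, e3, DF_mul, DkF_add']
      funext n t i
      simp only [addF, smulF, mulF]
      ring
    rw [key]
    exact (hf_addL ⟨c1, h1⟩ h2).2

theorem PP {m : ℕ} (hm : 2 ≤ m) {f g : Fam} (hf : TT m f) (hg : TT (m + 1) g) :
    BL (addF (DkF (m + 2) (mulF f g))
      (smulF (-1) (mulF (DkF (m + 2) f) (shF ((m : ℤ) + 2) g)))) := by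
  have h3 : ∀ k, TT (3 + k) g → TT 3 g := by
    intro k
    induction k with
    | zero => exact id
    | succ k ih => exact fun h => ih h.pred
  obtain ⟨k, rfl⟩ : ∃ k, m = 2 + k := ⟨m - 2, by omega⟩
  refine hf_pp _ hf hg (h3 k ?_)
  have : 3 + k = 2 + k + 1 := by omega
  rw [this]
  exact hg

theorem TT_g {m : ℕ} (hm : 2 ≤ m) {V : Fam}
    (hpos : ∀ n, ∀ t ∈ Icc (0 : ℝ) 1, ∀ i, 0 < wF V n t i) (cg : CF (gF V))
    (hg : BI (gF V)) (hw : TT m (wF V)) : TT m (gF V) := by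
  have dg : EqI (smulF (-1) (mulF (DF (wF V)) (mulF (gF V) (shF 1 (gF V))))) (DF (gF V)) :=
    EqI.symm fun n t ht i => DF_g V hpos n t ht i
  induction m, hm using Nat.le_induction with
  | base =>
    obtain ⟨w0, w1, w2, w3⟩ := hf_of2 hw
    have g0 : hfI (gF V) := ⟨cg, hg⟩
    have q0 : hfI (mulF (gF V) (shF 1 (gF V))) := hf_II g0 (hf_shI g0 1)
    have g1 : hfI (DF (gF V)) := ⟨cg.D, ((hf_II w1 q0).2.smul (-1)).congr dg⟩
    have q1 : hfI (DF (mulF (gF V) (shF 1 (gF V)))) := hf_mI g0 g1 (hf_shI g0 1) (hf_DshI g1)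
    have g2 : hfL (DF (DF (gF V))) := by
      refine ⟨cg.D.D, ?_⟩
      have h1 : BL (DkF 1 (smulF (-1) (mulF (DF (wF V)) (mulF (gF V) (shF 1 (gF V)))))) := by
        rw [DkF_smul]
        exact (hf_mA (hf_toL w1) w2 q0 q1).2.smul (-1)
      exact h1.congr (dg.Dk 1)
    have q2 : hfL (DF (DF (mulF (gF V) (shF 1 (gF V))))) :=
      hf_mB g0 (hf_toL g1) g2 (hf_shI g0 1) (hf_DshI g1) (hf_DDshL g2)
    have g3 : hfL (DF (DF (DF (gF V)))) := by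
      refine ⟨cg.D.D.D, ?_⟩
      have h1 : BL (DkF 2 (smulF (-1) (mulF (DF (wF V)) (mulF (gF V) (shF 1 (gF V)))))) := by
        rw [DkF_smul]
        exact (hf_mB w1 w2 w3 q0 q1 q2).2.smul (-1)
      exact h1.congr (dg.Dk 2)
    refine ⟨cg, fun j hj => ?_, g2.2, g3.2⟩
    rcases (by omega : j = 0 ∨ j = 1) with rfl | rfl
    · exact g0.2
    · exact g1.2
  | succ m hm ih =>
    have h1 : TT m (gF V) := ih hw.pred
    exact TT.of_D cg hg (((TT.mul hm hw.D (TT.mul hm h1 (h1.sh 1))).smul (-1)).congr dg)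

end Pool.Agent.H37.DP
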