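import Pool.Agent.H37.DP.HF
import Pool.Agent.H37.DP.HD
import Pool.Agent.H37.DP.HE

/-!
MODULE HG: all difference quotients of `w` are uniformly bounded.

PROOF.
(1) `E_large`: for `k ≥ 3` and `TT k (wF V)`: `BL (EF k V)`.  On `[0,1]`,
`D^(k+2) g = - D^(k+1) (u q)`, `u = D w ∈ TT (k-1)` (`TT.D`), `g ∈ TT k` (`TT_g`),
`q = g g(·+1) ∈ TT k`; `PP` with `m = k - 1 ≥ 2`:
`D^(k+1) (u q) - D^(k+1) u * q(·+k+1)` is `BL`; this is `- EF k V`.
(2) Main induction: for all `k ≥ 1`: `BL (D^(k+1) w)` and `B2 (D^k w)`.  `k = 1`: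
`basic_bounds` (`sq (L w) = sq (D (D w))`, `sq_L`).  `1 → 2`: `E_one` and `energy_step`;
`2 → 3`: `E_two` (a `BL` bound is the case `δ`-free of the hypothesis of `energy_step`, note
`∫ sq ≥ 0`);  `k → k+1`, `k ≥ 3`: `TT k w` holds: `BI (D^j w)`, `j ≤ k-1`
(`BI_of_B2_succ` for `1 ≤ j`, and `w ≤ W0` for `j = 0`), `BL (D^k w)` (from `B2`), `BL (D^(k+1) w)`;
then `E_large`, `energy_step`.
(3) `AllB (wF V)` by `BI_of_B2_succ`.
-/

namespace Pool.Agent.H37.DP

open Set Filter Topology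

theorem E_large {k : ℕ} (hk : 3 ≤ k) {V : Fam}
    (hpos : ∀ n, ∀ t ∈ Icc (0 : ℝ) 1, ∀ i, 0 < wF V n t i) (cg : CF (gF V))
    (hg : BI (gF V)) (hw : TT k (wF V)) : BL (EF k V) := by
  obtain ⟨m, rfl⟩ : ∃ m, k = m + 1 := ⟨k - 1, by omega⟩
  have hm : 2 ≤ m := by omega
  have hgT : TT (m + 1) (gF V) := TT_g (by omega) hpos cg hg hw
  have hq : TT (m + 1) (mulF (gF V) (shF 1 (gF V))) := TT.mul (by omega) hgT (hgT.sh 1)
  have hu : TT m (DF (wF V)) := hw.D
  have hPP := (PP hm hu hq).smul (-1)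
  refine hPP.congr ?_
  have hDg : EqI (DF (gF V))
      (smulF (-1) (mulF (DF (wF V)) (mulF (gF V) (shF 1 (gF V))))) := DF_g V hpos
  have h1 := hDg.Dk (m + 2)
  rw [DkF_smul] at h1
  intro n t ht i
  have h2 := h1 n t ht i
  have e1 : DkF (m + 1 + 2) (gF V) = DkF (m + 2) (DF (gF V)) := DkF_succ (m + 2) (gF V)
  have e2 : DkF (m + 1 + 2) (wF V) = DkF (m + 2) (DF (wF V)) := DkF_succ (m + 2) (wF V)
  have e3 : (((m + 1 : ℕ) : ℤ) + 1) = (m : ℤ) + 2 := by push_cast; ring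
  unfold EF
  rw [e1, e2, e3]
  unfold addF mulF smulF at h2 ⊢
  rw [h2]
  ring

private theorem hg_step {k : ℕ} {V : Fam} (hBL : BL (EF k V)) :
    ∀ δ : ℝ, 0 < δ → ∃ C : ℝ, ∀ n,
      (∫ t in (0 : ℝ)..1, sq (EF k V n t)) ≤
        δ * (∫ t in (0 : ℝ)..1, sq (DkF (k + 2) (wF V) n t)) + C := by
  obtain ⟨C, hC⟩ := hBL
  intro δ hδ
  refine ⟨C, fun n => ?_⟩
  have h1 : 0 ≤ ∫ t in (0 : ℝ)..1, sq (DkF (k + 2) (wF V) n t) :=
    intervalIntegral.integral_nonneg (by norm_num) fun t _ => sq_nonneg' _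
  have h2 := hC n
  have h3 := mul_nonneg hδ.le h1
  linarith

theorem AllB_w {lam c : ℝ} {B : ℕ → ℝ} (hlam : 0 < lam) (hc : 0 < c) {V V1 : Fam}
    (h : ∀ n, Cls (n + 3) lam c B (V n) (V1 n)) : AllB (wF V) := by
  obtain ⟨c0, W0, C, hc0, hW0, hb⟩ := basic_bounds lam c B hlam hc
  have hbn := fun n => hb (n + 3) (V n) (V1 n) (h n)
  have hpos : ∀ n, ∀ t ∈ Icc (0 : ℝ) 1, ∀ i, 0 < wF V n t i :=
    fun n t ht i => (h n).sol.pos t ht i
  have cw : CF (wF V) := fun n i => (h n).sol.cW i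
  have cg : CF (gF V) := fun n i => (h n).sol.cG i
  have hw : BI (wF V) := by
    refine ⟨W0, fun n t ht i => ?_⟩
    have h1 := (hbn n).1 t ht i
    rw [abs_of_pos (hpos n t ht i)]
    exact h1.2
  have hg : BI (gF V) := by
    refine ⟨c0⁻¹, fun n t ht i => ?_⟩
    have h1 := (hbn n).1 t ht i
    have h2 : 0 < W (V n t) i := lt_of_lt_of_le hc0 h1.1
    change |(W (V n t) i)⁻¹| ≤ c0⁻¹
    rw [abs_of_pos (inv_pos.2 h2)]
    exact inv_anti₀ hc0 h1.1
  have P1 : BL (DkF 2 (wF V)) ∧ B2 (DkF 1 (wF V)) := by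
    constructor
    · refine ⟨C, fun n => ?_⟩
      have h1 := (hbn n).2.2.1
      have e : (fun t => sq (DkF 2 (wF V) n t)) = fun t => sq (L (W (V n t))) := by
        funext t
        rw [sq_L]
        rfl
      rw [e]
      exact h1
    · exact ⟨C, fun n t ht => (hbn n).2.1 t ht⟩
  have hmain : ∀ k, 1 ≤ k → BL (DkF (k + 1) (wF V)) ∧ B2 (DkF k (wF V)) := by
    intro k
    induction k using Nat.strong_induction_on with
    | _ k ih =>
      intro hk
      rcases Nat.lt_or_ge k 4 with h4 | h4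
      · have P2 : BL (DkF 3 (wF V)) ∧ B2 (DkF 2 (wF V)) :=
          energy_step hlam hc h le_rfl (E_one hpos cw cg hw hg P1.2 P1.1)
        have P3 : BL (DkF 4 (wF V)) ∧ B2 (DkF 3 (wF V)) :=
          energy_step hlam hc h one_le_two (hg_step (E_two hpos cw cg hw hg P2.2 P2.1))
        interval_cases k
        · exact P1
        · exact P2
        · exact P3
      · obtain ⟨m, rfl⟩ : ∃ m, k = m + 1 := ⟨k - 1, by omega⟩
        have hPm := ih m (by omega) (by omega)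
        have hT : TT m (wF V) := by
          refine ⟨cw, fun j hj => ?_, hPm.2.bl (cw.Dk m), hPm.1⟩
          rcases Nat.eq_zero_or_pos j with h0 | h0
          · subst h0
            rw [DkF_zero]
            exact hw
          · exact BI_of_B2_succ h0 (ih (j + 1) (by omega) (by omega)).2
        exact energy_step hlam hc h (by omega)
          (hg_step (E_large (by omega) hpos cg hg hT))
  intro k
  rcases Nat.eq_zero_or_pos k with h0 | h0
  · subst h0
    rw [DkF_zero]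
    exact hw
  · exact BI_of_B2_succ h0 (hmain (k + 1) (by omega)).2

end Pool.Agent.H37.DP
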