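import Pool.Agent.H37.DP.HG

/-!
MODULE HI: all difference quotients of `V`, `V1`, `G` and `L V1` are uniformly bounded.

PROOF.  `AllB w` from `AllB_w`; `G = 1/w ≤ 1/c0`, `AllB_g` gives `AllB G`.
`V`: `D² V i = L V (i+1) = w (i+1) - 1`, so `BI (D^k V)` for `k ≥ 2`.  `avg (D V) = 0` so
`|D V| ≤ √(sq (D² V))`.  `avg V` is affine in `t` on `[0,1]` (its derivative `avg V1` is constant:
`(avg V1)' = - lam avg (L G) = 0`), so `|avg (V t)| ≤ B 0`, and `|V i - avg V| ≤ √(sq (D V))`.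
`V1`: `f = D^k V i`, `f' = D^k V1 i`, `f'' = - lam D^k (L G) i` is bounded by some `C`
(`L G i = D² G (i-1)`); mean value theorem: `f' s = f 1 - f 0` for some `s ∈ (0,1)`, and
`|f' t - f' s| ≤ C`.
`L V1 i = D² V1 (i-1)`.
-/

namespace Pool.Agent.H37.DP

open Set Filter Topology

private theorem hi_L_fam (f : Fam) : (fun n t => L (f n t) : Fam) = shF (-1) (DF (DF f)) := by
  funext n t i
  have h := L_eq (f n t) i
  simp only [shF, DF]
  rw [h]
  congr 1
  push_cast
  ring

private theorem hi_AllB_L {f : Fam} (hf : AllB f) : AllB (fun n t => L (f n t)) := by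
  rw [hi_L_fam]
  exact (hf.DF.DF).sh (-1)

private theorem hi_hasDeriv {N : ℕ} {F : ℝ → ZMod N → ℝ} {F' : ZMod N → ℝ} {t : ℝ}
    (h : ∀ i, HasDerivAt (fun s => F s i) (F' i) t) (k : ℕ) :
    ∀ i, HasDerivAt (fun s => D^[k] (F s) i) (D^[k] F' i) t := by
  induction k generalizing F F' with
  | zero => simpa using h
  | succ k ih =>
    simp only [Function.iterate_succ, Function.comp]
    apply ih
    intro i
    simp only [D]
    exact ((h (i + 1)).sub (h i)).const_mul _

private theorem hi_avg_deriv {N : ℕ} [NeZero N] {F : ℝ → ZMod N → ℝ} {F' : ZMod N → ℝ} {t : ℝ}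
    (h : ∀ i, HasDerivAt (fun s => F s i) (F' i) t) :
    HasDerivAt (fun s => avg (F s)) (avg F') t := by
  simp only [avg]
  exact (HasDerivAt.fun_sum (fun i _ => h i)).div_const _

private theorem hi_AllB_const (a : ℝ) : AllB (fun _ _ _ => a) := by
  intro k
  refine ⟨|a|, ?_⟩
  intro n t _ i
  cases k with
  | zero => simp [DkF]
  | succ k =>
    have h0 : ∀ m : ℕ, D^[m] (fun _ : ZMod (n + 3) => (0 : ℝ)) = fun _ => 0 := by
      intro m
      induction m with
      | zero => rfl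
      | succ m ih =>
        rw [Function.iterate_succ, Function.comp]
        have : D (fun _ : ZMod (n + 3) => (0 : ℝ)) = fun _ => 0 := by
          funext j
          simp [D]
        rw [this, ih]
    have h1 : D (fun _ : ZMod (n + 3) => a) = fun _ => 0 := by
      funext j
      simp [D]
    simp only [DkF, Function.iterate_succ, Function.comp]
    rw [h1, h0]
    simp

/-- the second difference quotient of `V` -/
private theorem hi_D2 (V : Fam) : DF (DF V) = addF (shF 1 (wF V)) (fun _ _ _ => -1) := by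
  funext n t i
  have h := L_eq (V n t) (i + 1)
  simp only [addF, shF, wF, DF, W]
  push_cast
  rw [h]
  simp

/-- a grid function differs from its mean value by at most the norm of the difference quotient -/
private theorem hi_sub_avg {N : ℕ} [NeZero N] (f : ZMod N → ℝ) {C : ℝ} (hC : 0 ≤ C)
    (h : ∀ i, |D f i| ≤ C) (i : ZMod N) : |f i - avg f| ≤ C := by
  have h1 : avg (fun j => f j - avg f) = 0 := by
    have := avg_sub f (fun _ => avg f)
    rw [this, avg_const]
    ring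
  have h2 : D (fun j => f j - avg f) = D f := by
    funext j
    simp only [D]
    ring
  have h3 := sup_le_of_avg_zero (fun j => f j - avg f) h1 i
  rw [h2] at h3
  have h4 := sq_le_of_abs_le h
  exact abs_le_of_sq_le_sq (le_trans h3 h4) hC

private theorem hi_abs_avg {N : ℕ} [NeZero N] (f : ZMod N → ℝ) {C : ℝ}
    (h : ∀ i, |f i| ≤ C) : |avg f| ≤ C := by
  calc |avg f| ≤ avg (fun i => |f i|) := abs_avg_le f
    _ ≤ avg (fun _ => C) := avg_mono h
    _ = C := avg_const C

/-- the mean value of `V` is bounded by that of the boundary data -/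
private theorem hi_avg_bound {N : ℕ} [NeZero N] {lam c : ℝ} {B : ℕ → ℝ}
    {V V1 : ℝ → ZMod N → ℝ} (h : Cls N lam c B V V1) {t : ℝ} (ht : t ∈ Icc (0 : ℝ) 1) :
    |avg (V t)| ≤ B 0 := by
  have d1 : ∀ s ∈ Icc (0 : ℝ) 1, HasDerivAt (fun s => avg (V s)) (avg (V1 s)) s :=
    fun s hs => hi_avg_deriv (h.sol.dV s hs)
  have d2 : ∀ s ∈ Icc (0 : ℝ) 1, HasDerivAt (fun s => avg (V1 s)) 0 s := by
    intro s hs
    have := hi_avg_deriv (h.sol.dV1 s hs)
    rwa [avg_mul_left, avg_L, mul_zero] at this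
  have c1 : ∀ s ∈ Icc (0 : ℝ) 1, avg (V1 s) = avg (V1 0) := by
    intro s hs
    have := constant_of_has_deriv_right_zero (f := fun s => avg (V1 s)) (a := 0) (b := 1)
      (fun x hx => (d2 x hx).continuousAt.continuousWithinAt)
      (fun x hx => (d2 x ⟨hx.1, hx.2.le⟩).hasDerivWithinAt)
    exact this s hs
  have c2 : ∀ s ∈ Icc (0 : ℝ) 1, avg (V s) - s * avg (V1 0) = avg (V 0) := by
    intro s hs
    have d3 : ∀ x ∈ Icc (0 : ℝ) 1,
        HasDerivAt (fun s => avg (V s) - s * avg (V1 0)) 0 x := by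
      intro x hx
      have h1 := (d1 x hx).sub ((hasDerivAt_id x).mul_const (avg (V1 0)))
      have h2 : avg (V1 x) - 1 * avg (V1 0) = 0 := by
        rw [c1 x hx]
        ring
      rw [h2] at h1
      exact h1
    have := constant_of_has_deriv_right_zero (f := fun s => avg (V s) - s * avg (V1 0))
      (a := 0) (b := 1)
      (fun x hx => (d3 x hx).continuousAt.continuousWithinAt)
      (fun x hx => (d3 x ⟨hx.1, hx.2.le⟩).hasDerivWithinAt)
    have := this s hs
    simpa using this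
  have e1 := c2 1 ⟨zero_le_one, le_rfl⟩
  have e2 := c2 t ht
  have b0 : |avg (V 0)| ≤ B 0 := hi_abs_avg _ (fun i => by simpa using h.d0.bd 0 i)
  have b1 : |avg (V 1)| ≤ B 0 := hi_abs_avg _ (fun i => by simpa using h.d1.bd 0 i)
  have e3 : avg (V t) = (1 - t) * avg (V 0) + t * avg (V 1) := by
    linear_combination e2 - t * e1
  rw [e3]
  rw [abs_le] at b0 b1 ⊢
  obtain ⟨t0, t1⟩ := ht
  constructor
  · nlinarith [mul_le_mul_of_nonneg_left b0.1 (sub_nonneg.2 t1), mul_le_mul_of_nonneg_left b1.1 t0]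
  · nlinarith [mul_le_mul_of_nonneg_left b0.2 (sub_nonneg.2 t1), mul_le_mul_of_nonneg_left b1.2 t0]

/-- a bound for the first derivative on `[0,1]` -/
private theorem hi_mvt {f f' f'' : ℝ → ℝ} {A C : ℝ}
    (d1 : ∀ t ∈ Icc (0 : ℝ) 1, HasDerivAt f (f' t) t)
    (d2 : ∀ t ∈ Icc (0 : ℝ) 1, HasDerivAt f' (f'' t) t)
    (hA : ∀ t ∈ Icc (0 : ℝ) 1, |f t| ≤ A) (hC : ∀ t ∈ Icc (0 : ℝ) 1, |f'' t| ≤ C) :
    ∀ t ∈ Icc (0 : ℝ) 1, |f' t| ≤ 2 * A + C := by
  intro t ht
  obtain ⟨s, hs, hs'⟩ := exists_hasDerivAt_eq_slope f f' (zero_lt_one)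
    (fun x hx => (d1 x hx).continuousAt.continuousWithinAt)
    (fun x hx => d1 x ⟨hx.1.le, hx.2.le⟩)
  have hs2 : s ∈ Icc (0 : ℝ) 1 := ⟨hs.1.le, hs.2.le⟩
  have h1 : |f' t - f' s| ≤ C := by
    have := (convex_Icc (0 : ℝ) 1).norm_image_sub_le_of_norm_hasDerivWithin_le
      (f := f') (f' := f'') (C := C)
      (fun x hx => (d2 x hx).hasDerivWithinAt) (fun x hx => by simpa using hC x hx) hs2 ht
    rw [Real.norm_eq_abs, Real.norm_eq_abs] at this
    have hC0 : 0 ≤ C := le_trans (abs_nonneg _) (hC t ht)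
    have h3 : |t - s| ≤ 1 := by
      rw [abs_le]
      constructor <;> linarith [ht.1, ht.2, hs2.1, hs2.2]
    calc |f' t - f' s| ≤ C * |t - s| := this
      _ ≤ C * 1 := mul_le_mul_of_nonneg_left h3 hC0
      _ = C := mul_one C
  have h2 : |f' s| ≤ 2 * A := by
    rw [hs']
    have a0 := hA 0 ⟨le_rfl, zero_le_one⟩
    have a1 := hA 1 ⟨zero_le_one, le_rfl⟩
    rw [abs_le] at a0 a1
    simp only [sub_zero, div_one]
    rw [abs_le]
    constructor <;> linarith [a0.1, a0.2, a1.1, a1.2]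
  have h3 : |f' t| ≤ |f' t - f' s| + |f' s| := by
    have := abs_add_le (f' t - f' s) (f' s)
    simpa using this
  linarith

theorem all_bounds {lam c : ℝ} {B : ℕ → ℝ} (hlam : 0 < lam) (hc : 0 < c) {V V1 : Fam}
    (h : ∀ n, Cls (n + 3) lam c B (V n) (V1 n)) :
    AllB V ∧ AllB V1 ∧ AllB (gF V) ∧ AllB (fun n t => L (V1 n t)) ∧
      ∃ c0 : ℝ, 0 < c0 ∧ ∀ n, ∀ t ∈ Icc (0 : ℝ) 1, ∀ i, c0 ≤ W (V n t) i := by
  obtain ⟨c0, W0, C, hc0, hW0, hb⟩ := basic_bounds lam c B hlam hc
  have hlow : ∀ n, ∀ t ∈ Icc (0 : ℝ) 1, ∀ i, c0 ≤ W (V n t) i :=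
    fun n t ht i => ((hb (n + 3) (V n) (V1 n) (h n)).1 t ht i).1
  have hw : AllB (wF V) := AllB_w hlam hc h
  have hg0 : BI (gF V) := by
    refine ⟨c0⁻¹, fun n t ht i => ?_⟩
    have h1 := hlow n t ht i
    have h2 : 0 < W (V n t) i := lt_of_lt_of_le hc0 h1
    simp only [gF, ginv]
    rw [abs_of_pos (inv_pos.2 h2)]
    exact inv_anti₀ hc0 h1
  have hg : AllB (gF V) := AllB_g (fun n t ht i => lt_of_lt_of_le hc0 (hlow n t ht i)) hw hg0
  have hV2 : AllB (DF (DF V)) := by
    rw [hi_D2]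
    exact (hw.sh 1).add (hi_AllB_const (-1))
  have hV1 : BI (DF V) := by
    obtain ⟨K, hK⟩ := hV2 0
    refine ⟨|K|, fun n t ht i => ?_⟩
    have h1 : ∀ i, |D (D (V n t)) i| ≤ |K| := by
      intro i
      have := hK n t ht i
      simp only [DkF, DF, Function.iterate_zero, id] at this
      exact le_trans this (le_abs_self K)
    have h2 := hi_sub_avg (D (V n t)) (abs_nonneg K) h1 i
    rw [avg_D, sub_zero] at h2
    exact h2
  have hV0 : BI V := by
    obtain ⟨K, hK⟩ := hV1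
    refine ⟨|K| + B 0, fun n t ht i => ?_⟩
    have h1 : ∀ i, |D (V n t) i| ≤ |K| := fun i => le_trans (hK n t ht i) (le_abs_self K)
    have h2 := hi_sub_avg (V n t) (abs_nonneg K) h1 i
    have h3 := hi_avg_bound (h n) ht
    have h4 := abs_add_le (V n t i - avg (V n t)) (avg (V n t))
    rw [sub_add_cancel] at h4
    linarith
  have hV : AllB V := by
    intro k
    rcases k with _ | _ | k
    · exact hV0
    · exact hV1
    · exact hV2 k
  have hLg : AllB (fun n t => L (gF V n t)) := hi_AllB_L hg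
  have hV1' : AllB V1 := by
    intro k
    obtain ⟨A, hA⟩ := hV k
    obtain ⟨K, hK⟩ := (hLg.smul (-lam)) k
    refine ⟨2 * A + K, fun n t ht i => ?_⟩
    exact hi_mvt (f := fun t => D^[k] (V n t) i) (f' := fun t => D^[k] (V1 n t) i)
      (f'' := fun t => D^[k] (fun i => -lam * L (ginv (W (V n t))) i) i)
      (fun s hs => hi_hasDeriv ((h n).sol.dV s hs) k i)
      (fun s hs => hi_hasDeriv ((h n).sol.dV1 s hs) k i)
      (fun s hs => hA n s hs i) (fun s hs => hK n s hs i) t ht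
  exact ⟨hV, hV1', hg, hi_AllB_L hV1', c0, hc0, hlow⟩

end Pool.Agent.H37.DP
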