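import Pool.Agent.H37.DP.UF

/-!
MODULE QA: the inverse `x ↦ Y x t` of `y ↦ y + v_y(y,t)`.

PROOF.  `X(y,t) = y + F 1 y t`, `∂_y X = 1 + F 2 ≥ c > 0`, `X(y+1,t) = X(y,t) + 1`; so for
`t ∈ [0,1]` `X(·,t)` is a strictly increasing continuous bijection of the line (tends to `± ∞`).
Let `Y · t` be its inverse for `t ∈ [0,1]` (anything, e.g. `Y x t = x`, otherwise).
`|Y x t - Y x' t| ≤ |x - x'|/c`, `|Y x t - Y x t'| ≤ (1/c) |X(y,t) - X(y,t')|` with `y = Y x t'`,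
so `Y` is continuous on `S = ℝ × [0,1]`.
`∂_x Y = 1/(1 + F 2) = Z 0` at `(Y,t)` (`HasDerivAt.of_local_left_inverse` or
`HasStrictDerivAt`).  `∂_t Y`: `0 = X(Y(x,s),s) - X(Y(x,t),t)
 = (X(Y(x,s),s) - X(Y(x,t),s)) + (X(y,s) - X(y,t))` with `y = Y x t`; the first bracket is
`(Y(x,s) - y)(1 + F 2 (ξ, s))`, the second `(s - t) H 1 y t + o(s-t)`; `F 2` is continuous, so
`Y(x,s) - y = - (s-t) H 1 y t/(1 + F 2 y t) + o(s - t)`.
-/

namespace Pool.Agent.H37.DP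

open Set Filter Topology
open scoped ContDiff

private theorem qa_mvt {f f' : ℝ → ℝ} (hf : ∀ z, HasDerivAt f (f' z) z) (a b : ℝ) :
    ∃ ξ, |ξ - a| ≤ |b - a| ∧ f b - f a = (b - a) * f' ξ := by
  rcases lt_trichotomy a b with h | h | h
  · obtain ⟨ξ, hξ, he⟩ := exists_hasDerivAt_eq_slope f f' h
      (fun z _ => (hf z).continuousAt.continuousWithinAt) (fun z _ => hf z)
    refine ⟨ξ, ?_, ?_⟩
    · rw [abs_of_pos (sub_pos.2 hξ.1), abs_of_pos (sub_pos.2 h)]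
      linarith [hξ.2]
    · rw [he]
      field_simp [(sub_pos.2 h).ne']
  · subst h
    exact ⟨a, le_rfl, by ring⟩
  · obtain ⟨ξ, hξ, he⟩ := exists_hasDerivAt_eq_slope f f' h
      (fun z _ => (hf z).continuousAt.continuousWithinAt) (fun z _ => hf z)
    refine ⟨ξ, ?_, ?_⟩
    · rw [abs_of_neg (sub_neg.2 hξ.2), abs_of_neg (sub_neg.2 h)]
      linarith [hξ.1]
    · have h1 : a - b ≠ 0 := (sub_pos.2 h).ne'
      rw [eq_div_iff h1] at he
      linarith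

private theorem qa_low {f f' : ℝ → ℝ} {c : ℝ} (hf : ∀ z, HasDerivAt f (f' z) z)
    (hc : ∀ z, c ≤ f' z) (a b : ℝ) : c * |b - a| ≤ |f b - f a| := by
  obtain ⟨ξ, _, h⟩ := qa_mvt hf a b
  rw [h, abs_mul, mul_comm]
  refine mul_le_mul_of_nonneg_left ?_ (abs_nonneg _)
  exact (hc ξ).trans (le_abs_self _)

private theorem qa_inj {f f' : ℝ → ℝ} {c : ℝ} (hf : ∀ z, HasDerivAt f (f' z) z)
    (hc : ∀ z, c ≤ f' z) (hc0 : 0 < c) {a b : ℝ} (h : f a = f b) : a = b := by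
  have h1 := qa_low hf hc a b
  rw [h, sub_self, abs_zero] at h1
  have h2 : |b - a| = 0 := by
    have := abs_nonneg (b - a)
    nlinarith
  linarith [abs_eq_zero.1 h2]

private theorem qa_surj {f f' : ℝ → ℝ} {c : ℝ} (hf : ∀ z, HasDerivAt f (f' z) z)
    (hc : ∀ z, c ≤ f' z) (hc0 : 0 < c) : Function.Surjective f := by
  have hcont : Continuous f := continuous_iff_continuousAt.2 fun z => (hf z).continuousAt
  refine hcont.surjective ?_ ?_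
  · refine tendsto_atTop_mono' atTop ?_
      (tendsto_atTop_add_const_right atTop (f 0) (tendsto_id.const_mul_atTop hc0))
    filter_upwards [eventually_ge_atTop 0] with z hz
    obtain ⟨ξ, _, h⟩ := qa_mvt hf 0 z
    have := mul_le_mul_of_nonneg_left (hc ξ) hz
    simp only [id_eq]
    linarith
  · refine tendsto_atBot_mono' atBot ?_
      (tendsto_atBot_add_const_right atBot (f 0) (tendsto_id.const_mul_atBot hc0))
    filter_upwards [eventually_le_atBot 0] with z hz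
    obtain ⟨ξ, _, h⟩ := qa_mvt hf 0 z
    have := mul_le_mul_of_nonpos_left (hc ξ) hz
    simp only [id_eq]
    linarith

theorem Jet.inverse {lam : ℝ} {F H Z : ℕ → ℝ → ℝ → ℝ} (h : Jet lam F H Z) :
    ∃ Y : ℝ → ℝ → ℝ,
      (∀ x, ∀ t ∈ Icc (0 : ℝ) 1, Y x t + F 1 (Y x t) t = x) ∧
      (∀ y, ∀ t ∈ Icc (0 : ℝ) 1, Y (y + F 1 y t) t = y) ∧
      (∀ x, ∀ t ∈ Icc (0 : ℝ) 1, Y (x + 1) t = Y x t + 1) ∧
      ContinuousOn (fun p : ℝ × ℝ => Y p.1 p.2) (univ ×ˢ Icc 0 1) ∧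
      (∀ x, ∀ t ∈ Icc (0 : ℝ) 1, HasDerivAt (fun x => Y x t) (Z 0 (Y x t) t) x) ∧
      (∀ x, ∀ t ∈ Icc (0 : ℝ) 1, HasDerivWithinAt (fun t => Y x t)
        (- (H 1 (Y x t) t * Z 0 (Y x t) t)) (Icc 0 1) t) := by
  classical
  obtain ⟨c, hc0, hc⟩ := h.pos
  have hX : ∀ t ∈ Icc (0 : ℝ) 1, ∀ y, HasDerivAt (fun y => y + F 1 y t) (1 + F 2 y t) y :=
    fun t ht y => (hasDerivAt_id y).add (h.Fy 1 y t ht)
  have hcX : ∀ t ∈ Icc (0 : ℝ) 1, ∀ y, c ≤ 1 + F 2 y t := fun t ht y => hc y t ht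
  have hsurj : ∀ t ∈ Icc (0 : ℝ) 1, ∀ x, ∃ y, y + F 1 y t = x := fun t ht x =>
    qa_surj (hX t ht) (hcX t ht) hc0 x
  have hinj : ∀ t ∈ Icc (0 : ℝ) 1, ∀ y y', y + F 1 y t = y' + F 1 y' t → y = y' :=
    fun t ht y y' e => qa_inj (hX t ht) (hcX t ht) hc0 e
  have hY : ∃ Y : ℝ → ℝ → ℝ, ∀ x, ∀ t ∈ Icc (0 : ℝ) 1, Y x t + F 1 (Y x t) t = x := by
    refine ⟨fun x t => if ht : t ∈ Icc (0 : ℝ) 1 then Classical.choose (hsurj t ht x) else x, ?_⟩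
    intro x t ht
    simp only [dif_pos ht]
    exact Classical.choose_spec (hsurj t ht x)
  obtain ⟨Y, hY⟩ := hY
  have hlow : ∀ x, ∀ t ∈ Icc (0 : ℝ) 1, ∀ y, c * |Y x t - y| ≤ |x - (y + F 1 y t)| := by
    intro x t ht y
    have h1 := qa_low (hX t ht) (hcX t ht) y (Y x t)
    simp only [hY x t ht] at h1
    exact h1
  have hcont : ContinuousOn (fun p : ℝ × ℝ => Y p.1 p.2) (univ ×ˢ Icc 0 1) := by
    rintro ⟨x₀, t₀⟩ ⟨_, ht₀⟩
    change t₀ ∈ Icc (0 : ℝ) 1 at ht₀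
    have h1 : Tendsto (fun p : ℝ × ℝ => |p.1 - (Y x₀ t₀ + F 1 (Y x₀ t₀) p.2)| / c)
        (𝓝[univ ×ˢ Icc 0 1] (x₀, t₀)) (𝓝 0) := by
      have h2 : Tendsto (fun p : ℝ × ℝ => F 1 (Y x₀ t₀) p.2) (𝓝[univ ×ˢ Icc 0 1] (x₀, t₀))
          (𝓝 (F 1 (Y x₀ t₀) t₀)) := by
        have h3 : Tendsto (fun t => F 1 (Y x₀ t₀) t) (𝓝[Icc 0 1] t₀) (𝓝 (F 1 (Y x₀ t₀) t₀)) :=
          (h.Ft 1 (Y x₀ t₀) t₀ ht₀).continuousWithinAt
        refine h3.comp (tendsto_nhdsWithin_iff.2 ⟨?_, ?_⟩)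
        · exact (continuous_snd.tendsto (x₀, t₀)).mono_left nhdsWithin_le_nhds
        · filter_upwards [self_mem_nhdsWithin] with p hp
          exact hp.2
      have h4 : Tendsto (fun p : ℝ × ℝ => p.1) (𝓝[univ ×ˢ Icc 0 1] (x₀, t₀)) (𝓝 x₀) :=
        (continuous_fst.tendsto (x₀, t₀)).mono_left nhdsWithin_le_nhds
      have h5 := ((h4.sub (h2.const_add (Y x₀ t₀))).abs).div_const c
      have h6 : |x₀ - (Y x₀ t₀ + F 1 (Y x₀ t₀) t₀)| / c = 0 := by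
        rw [hY x₀ t₀ ht₀, sub_self, abs_zero, zero_div]
      rw [h6] at h5
      exact h5
    change Tendsto (fun p : ℝ × ℝ => Y p.1 p.2) (𝓝[univ ×ˢ Icc 0 1] (x₀, t₀)) (𝓝 (Y x₀ t₀))
    rw [tendsto_iff_dist_tendsto_zero]
    refine squeeze_zero' (Eventually.of_forall fun p => dist_nonneg) ?_ h1
    filter_upwards [self_mem_nhdsWithin] with p hp
    rw [Real.dist_eq, le_div_iff₀ hc0, mul_comm]
    exact hlow p.1 p.2 hp.2 (Y x₀ t₀)
  have hcx : ∀ t ∈ Icc (0 : ℝ) 1, ∀ x, ContinuousAt (fun x => Y x t) x := by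
    intro t ht x
    have h1 : ContinuousWithinAt (fun p : ℝ × ℝ => Y p.1 p.2) (univ ×ˢ Icc 0 1) (x, t) :=
      hcont (x, t) ⟨trivial, ht⟩
    have h2 : Tendsto (fun x' : ℝ => (x', t)) (𝓝 x) (𝓝[univ ×ˢ Icc (0 : ℝ) 1] (x, t)) :=
      tendsto_nhdsWithin_iff.2 ⟨(Continuous.prodMk_left t).tendsto x,
        Eventually.of_forall fun x' => ⟨trivial, ht⟩⟩
    exact Tendsto.comp h1 h2
  have hct : ∀ t ∈ Icc (0 : ℝ) 1, ∀ x, Tendsto (fun s => Y x s) (𝓝[Icc 0 1] t) (𝓝 (Y x t)) := by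
    intro t ht x
    have h1 : ContinuousWithinAt (fun p : ℝ × ℝ => Y p.1 p.2) (univ ×ˢ Icc 0 1) (x, t) :=
      hcont (x, t) ⟨trivial, ht⟩
    have h2 : Tendsto (fun s : ℝ => (x, s)) (𝓝[Icc 0 1] t) (𝓝[univ ×ˢ Icc (0 : ℝ) 1] (x, t)) := by
      refine tendsto_nhdsWithin_iff.2
        ⟨((Continuous.prodMk_right x).tendsto t).mono_left nhdsWithin_le_nhds, ?_⟩
      filter_upwards [self_mem_nhdsWithin] with s hs
      exact ⟨trivial, hs⟩
    exact Tendsto.comp (g := fun p : ℝ × ℝ => Y p.1 p.2) h1 h2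
  refine ⟨Y, hY, ?_, ?_, hcont, ?_, ?_⟩
  · intro y t ht
    exact hinj t ht _ _ (hY _ t ht)
  · intro x t ht
    refine hinj t ht _ _ ?_
    rw [hY _ t ht, h.perF]
    linarith [hY x t ht]
  · intro x t ht
    rw [h.Z0 _ t ht]
    refine HasDerivAt.of_local_left_inverse (hcx t ht x) (hX t ht (Y x t)) ?_
      (Eventually.of_forall fun x' => hY x' t ht)
    exact (hc0.trans_le (hcX t ht _)).ne'
  · intro x t ht
    have hξ : ∀ s, ∃ ξ, s ∈ Icc (0 : ℝ) 1 → |ξ - Y x t| ≤ |Y x s - Y x t| ∧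
        x - (Y x t + F 1 (Y x t) s) = (Y x s - Y x t) * (1 + F 2 ξ s) := by
      intro s
      by_cases hs : s ∈ Icc (0 : ℝ) 1
      · obtain ⟨ξ, h1, h2⟩ := qa_mvt (hX s hs) (Y x t) (Y x s)
        simp only [hY x s hs] at h2
        exact ⟨ξ, fun _ => ⟨h1, h2⟩⟩
      · exact ⟨0, fun h => absurd h hs⟩
    choose ξ hξ using hξ
    have h1 : Tendsto ξ (𝓝[Icc 0 1] t) (𝓝 (Y x t)) := by
      rw [tendsto_iff_dist_tendsto_zero]
      have h2 : Tendsto (fun s => |Y x s - Y x t|) (𝓝[Icc 0 1] t) (𝓝 0) := by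
        have h3 := ((hct t ht x).sub_const (Y x t)).abs
        rwa [sub_self, abs_zero] at h3
      refine squeeze_zero' (Eventually.of_forall fun p => dist_nonneg) ?_ h2
      filter_upwards [self_mem_nhdsWithin] with s hs
      rw [Real.dist_eq]
      exact (hξ s hs).1
    have h2 : Tendsto (fun s => 1 + F 2 (ξ s) s) (𝓝[Icc 0 1] t) (𝓝 (1 + F 2 (Y x t) t)) := by
      refine Tendsto.const_add 1 ?_
      have h3 : ContinuousWithinAt (fun p : ℝ × ℝ => F 2 p.1 p.2) (univ ×ˢ Icc 0 1) (Y x t, t) :=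
        h.cF 2 (Y x t, t) ⟨trivial, ht⟩
      have h4 : Tendsto (fun s : ℝ => (ξ s, s)) (𝓝[Icc 0 1] t)
          (𝓝[univ ×ˢ Icc (0 : ℝ) 1] (Y x t, t)) := by
        refine tendsto_nhdsWithin_iff.2 ⟨?_, ?_⟩
        · exact h1.prodMk_nhds (tendsto_id.mono_left nhdsWithin_le_nhds)
        · filter_upwards [self_mem_nhdsWithin] with s hs
          exact ⟨trivial, hs⟩
      exact Tendsto.comp h3 h4
    have hne : 1 + F 2 (Y x t) t ≠ 0 := (hc0.trans_le (hcX t ht _)).ne'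
    have h3 := hasDerivWithinAt_iff_tendsto_slope.1 (h.Ft 1 (Y x t) t ht)
    rw [hasDerivWithinAt_iff_tendsto_slope]
    have h4 := (h3.mul ((h2.inv₀ hne).mono_left (nhdsWithin_mono t Set.sdiff_subset))).neg
    rw [h.Z0 _ t ht]
    refine h4.congr' ?_
    filter_upwards [self_mem_nhdsWithin] with s hs
    have hs1 : s ∈ Icc (0 : ℝ) 1 := hs.1
    have hst : s - t ≠ 0 := sub_ne_zero.2 hs.2
    have hne' : 1 + F 2 (ξ s) s ≠ 0 := (hc0.trans_le (hcX s hs1 _)).ne'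
    have h5 := (hξ s hs1).2
    have h6 := hY x t ht
    simp only [slope_def_field]
    have h7 : Y x s - Y x t = -((F 1 (Y x t) s - F 1 (Y x t) t) / (1 + F 2 (ξ s) s)) := by
      rw [← neg_div, eq_div_iff hne', ← h5]
      linarith
    rw [h7]
    field_simp

end Pool.Agent.H37.DP
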