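import Pool.Agent.H37.DP.QA

/-!
MODULE QB: the inverse is smooth on `S = ℝ × [0,1]`.

PROOF.  By induction on `n`, `Y` is `C^n` on `S`: `n = 0` is continuity; if `Y` is `C^n` then
`p ↦ Z 0 (Y p) p.2` and `p ↦ - H 1 (Y p) p.2 * Z 0 (Y p) p.2` are `C^n` on `S` as compositions of
the smooth functions `Z 0`, `H 1` on `S` (`Jet.smooth`) with `p ↦ (Y p, p.2)`, which maps `S` to
`S`; these are the partial derivatives of `Y`, so `Y` is `C^(n+1)` (`contDiffOn_succ_of_partials`).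
-/

namespace Pool.Agent.H37.DP

open Set Filter Topology
open scoped ContDiff

theorem Jet.inverse_smooth {lam : ℝ} {F H Z : ℕ → ℝ → ℝ → ℝ} (h : Jet lam F H Z)
    {Y : ℝ → ℝ → ℝ}
    (cY : ContinuousOn (fun p : ℝ × ℝ => Y p.1 p.2) (univ ×ˢ Icc 0 1))
    (dx : ∀ x, ∀ t ∈ Icc (0 : ℝ) 1, HasDerivAt (fun x => Y x t) (Z 0 (Y x t) t) x)
    (dt : ∀ x, ∀ t ∈ Icc (0 : ℝ) 1, HasDerivWithinAt (fun t => Y x t)
        (- (H 1 (Y x t) t * Z 0 (Y x t) t)) (Icc 0 1) t) :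
    ContDiffOn ℝ ∞ (fun p : ℝ × ℝ => Y p.1 p.2) (univ ×ˢ Icc 0 1) := by
  have key : ∀ n : ℕ, ContDiffOn ℝ n (fun p : ℝ × ℝ => Y p.1 p.2)
      ((univ : Set ℝ) ×ˢ Icc (0 : ℝ) 1) := by
    intro n
    induction n with
    | zero =>
      rw [Nat.cast_zero, contDiffOn_zero]
      exact cY
    | succ n ih =>
      have hle : ((n : ℕ∞) : WithTop ℕ∞) ≤ ∞ := by
        exact_mod_cast le_top
      have hmap : ContDiffOn ℝ n (fun p : ℝ × ℝ => (Y p.1 p.2, p.2))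
          ((univ : Set ℝ) ×ˢ Icc (0 : ℝ) 1) := ih.prodMk contDiffOn_snd
      have hmaps : MapsTo (fun p : ℝ × ℝ => (Y p.1 p.2, p.2))
          ((univ : Set ℝ) ×ˢ Icc (0 : ℝ) 1) ((univ : Set ℝ) ×ˢ Icc (0 : ℝ) 1) := by
        intro p hp
        exact ⟨mem_univ _, hp.2⟩
      have hZ : ContDiffOn ℝ n (fun p : ℝ × ℝ => Z 0 (Y p.1 p.2) p.2)
          ((univ : Set ℝ) ×ˢ Icc (0 : ℝ) 1) :=
        ((h.smooth 0).2.2.of_le hle).comp hmap hmaps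
      have hH : ContDiffOn ℝ n (fun p : ℝ × ℝ => H 1 (Y p.1 p.2) p.2)
          ((univ : Set ℝ) ×ˢ Icc (0 : ℝ) 1) :=
        ((h.smooth 1).2.1.of_le hle).comp hmap hmaps
      have h2 := contDiffOn_succ_of_partials n (f := fun p : ℝ × ℝ => Y p.1 p.2)
        (fy := fun p : ℝ × ℝ => Z 0 (Y p.1 p.2) p.2)
        (ft := fun p : ℝ × ℝ => -(H 1 (Y p.1 p.2) p.2 * Z 0 (Y p.1 p.2) p.2))
        (fun p hp => dx p.1 p.2 hp.2) (fun p hp => dt p.1 p.2 hp.2) hZ (hH.mul hZ).neg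
      exact_mod_cast h2
  exact contDiffOn_infty.2 key

end Pool.Agent.H37.DP
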