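import Pool.Agent.H37.DP.QB

/-!
MODULE QC: the Legendre transform of the solution solves the geodesic type equation.

`f(x,t) = - (1/2) v_y(Y,t)² - v(Y,t)`, `Y = Y(x,t)`, `x = Y + v_y(Y,t)`, i.e.
`f x t = - (1/2) (F 1 (Y x t) t)² - F 0 (Y x t) t`.

COMPUTATION (all on `ℝ × [0,1]`, time derivatives within `[0,1]`; `w = 1 + F 2`, `Z 0 = 1/w`,
everything at `(Y x t, t)`).
`f_x = - F 1 F 2 Y_x - F 1 Y_x = - F 1 w Y_x = - F 1` (`= Y - x`).
`f_xx = - F 2 Y_x = - F 2/w = Z 0 - 1`.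
`f_t = - F 1 (F 2 Y_t + H 1) - F 1 Y_t - H 0 = - F 1 (w Y_t + H 1) - H 0 = - H 0`
 (`w Y_t = - H 1`).  `f_tx = - H 1 Y_x = - H 1 Z 0`.
`f_tt = - H 1 Y_t + lam Z 2 = (H 1)² Z 0 + lam Z 2`.
So `f_tt - (f_tx)²/(1+f_xx) = (H 1)² Z 0 + lam Z 2 - (H 1)² (Z 0)²/Z 0 = lam Z 2`.
`log (1 + f_xx) = log Z 0 (Y)`; `∂_x` of it is `(Z 1/Z 0) Y_x = Z 1`; `∂_x Z 1 = Z 2 Y_x = Z 2 Z 0`;
divided by `1 + f_xx = Z 0` it is `Z 2`.
Smoothness: composition of smooth functions (`Jet.smooth`, `inverse_smooth`).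
Periodicity: `Y (x+1) t = Y x t + 1`, `perF`; for `t ∉ [0,1]` put `f x t = 0` (or anything
periodic) so that the periodicity statement is only needed on `[0,1]`.
-/

namespace Pool.Agent.H37.DP

open Set Filter Topology
open scoped ContDiff

/-- The chain rule along a curve, within `[0,1]`. -/
theorem qc_comp {G Gy Gt : ℝ → ℝ → ℝ}
    (hy : ∀ y, ∀ t ∈ Icc (0 : ℝ) 1, HasDerivAt (fun y => G y t) (Gy y t) y)
    (ht : ∀ y, ∀ t ∈ Icc (0 : ℝ) 1, HasDerivWithinAt (fun t => G y t) (Gt y t) (Icc 0 1) t)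
    (cy : ContinuousOn (fun p : ℝ × ℝ => Gy p.1 p.2) (univ ×ˢ Icc 0 1))
    {u : ℝ → ℝ} {u' t : ℝ} (htI : t ∈ Icc (0 : ℝ) 1)
    (hu : HasDerivWithinAt u u' (Icc 0 1) t) :
    HasDerivWithinAt (fun s => G (u s) s) (Gy (u t) t * u' + Gt (u t) t) (Icc 0 1) t := by
  have h1 := hasFDerivWithinAt_of_partials (f := fun p : ℝ × ℝ => G p.1 p.2)
    (fy := fun p => Gy p.1 p.2) (ft := fun p => Gt p.1 p.2) (fun p hp => hy p.1 p.2 hp.2)
    (fun p hp => ht p.1 p.2 hp.2) cy (p := (u t, t)) ⟨mem_univ _, htI⟩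
  have h2 : HasDerivWithinAt (fun s : ℝ => ((u s, s) : ℝ × ℝ)) ((u', 1) : ℝ × ℝ) (Icc 0 1) t :=
    hu.prodMk (hasDerivWithinAt_id t _)
  have h3 := HasFDerivWithinAt.comp_hasDerivWithinAt (f := fun s : ℝ => ((u s, s) : ℝ × ℝ)) t h1 h2
    (fun s hs => ⟨mem_univ _, hs⟩)
  have e : ((fun p : ℝ × ℝ => Gy p.1 p.2) (u t, t) • ContinuousLinearMap.fst ℝ ℝ ℝ +
      (fun p : ℝ × ℝ => Gt p.1 p.2) (u t, t) • ContinuousLinearMap.snd ℝ ℝ ℝ)
      ((u', 1) : ℝ × ℝ) = Gy (u t) t * u' + Gt (u t) t := by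
    simp
  rw [e] at h3
  exact h3

theorem Jet.legendre {lam : ℝ} {F H Z : ℕ → ℝ → ℝ → ℝ} (h : Jet lam F H Z)
    {Y : ℝ → ℝ → ℝ}
    (hX : ∀ x, ∀ t ∈ Icc (0 : ℝ) 1, Y x t + F 1 (Y x t) t = x)
    (hper : ∀ x, ∀ t ∈ Icc (0 : ℝ) 1, Y (x + 1) t = Y x t + 1)
    (cY : ContinuousOn (fun p : ℝ × ℝ => Y p.1 p.2) (univ ×ˢ Icc 0 1))
    (dx : ∀ x, ∀ t ∈ Icc (0 : ℝ) 1, HasDerivAt (fun x => Y x t) (Z 0 (Y x t) t) x)
    (dt : ∀ x, ∀ t ∈ Icc (0 : ℝ) 1, HasDerivWithinAt (fun t => Y x t)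
        (- (H 1 (Y x t) t * Z 0 (Y x t) t)) (Icc 0 1) t)
    {f : ℝ → ℝ → ℝ}
    (hf : ∀ x, ∀ t ∈ Icc (0 : ℝ) 1,
      f x t = - (1 / 2) * (F 1 (Y x t) t) ^ 2 - F 0 (Y x t) t) :
    ContDiffOn ℝ ∞ (fun p : ℝ × ℝ => f p.1 p.2) (univ ×ˢ Icc 0 1) ∧
    (∀ x, ∀ t ∈ Icc (0 : ℝ) 1, f (x + 1) t = f x t) ∧
    (∀ x, ∀ t ∈ Icc (0 : ℝ) 1, 0 < 1 + deriv (deriv (fun x => f x t)) x) ∧
    (∀ x, ∀ t ∈ Icc (0 : ℝ) 1,
      derivWithin (fun s => derivWithin (fun r => f x r) (Icc 0 1) s) (Icc 0 1) t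
        - (deriv (fun x => derivWithin (fun r => f x r) (Icc 0 1) t) x) ^ 2
            / (1 + deriv (deriv (fun x => f x t)) x)
        = lam * deriv (deriv (fun x => Real.log (1 + deriv (deriv (fun x => f x t)) x))) x
            / (1 + deriv (deriv (fun x => f x t)) x)) := by
  have hpos : ∀ y, ∀ t ∈ Icc (0 : ℝ) 1, 0 < 1 + F 2 y t := by
    obtain ⟨c, hc, hc'⟩ := h.pos
    exact fun y t ht => hc.trans_le (hc' y t ht)
  have hZ : ∀ y, ∀ t ∈ Icc (0 : ℝ) 1, Z 0 y t * (1 + F 2 y t) = 1 := by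
    intro y t ht
    rw [h.Z0 y t ht, inv_mul_cancel₀ (hpos y t ht).ne']
  have hZ0 : ∀ y, ∀ t ∈ Icc (0 : ℝ) 1, 0 < Z 0 y t := by
    intro y t ht
    rw [h.Z0 y t ht]
    exact inv_pos.2 (hpos y t ht)
  -- derivatives in `x`
  have cx : ∀ {G Gy : ℝ → ℝ → ℝ},
      (∀ y, ∀ t ∈ Icc (0 : ℝ) 1, HasDerivAt (fun y => G y t) (Gy y t) y) →
      ∀ x, ∀ t ∈ Icc (0 : ℝ) 1,
        HasDerivAt (fun x => G (Y x t) t) (Gy (Y x t) t * Z 0 (Y x t) t) x := by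
    intro G Gy hG x t ht
    exact (hG (Y x t) t ht).comp x (dx x t ht)
  have fx : ∀ x, ∀ t ∈ Icc (0 : ℝ) 1, HasDerivAt (fun x => f x t) (-F 1 (Y x t) t) x := by
    intro x t ht
    have e : (fun x => f x t) = fun x => - (1 / 2) * (F 1 (Y x t) t) ^ 2 - F 0 (Y x t) t := by
      funext x
      exact hf x t ht
    rw [e]
    have h1 := ((cx (h.Fy 1) x t ht).pow 2).const_mul (-(1 / 2 : ℝ))
    have h2 := h1.sub (cx (h.Fy 0) x t ht)
    refine h2.congr_deriv ?_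
    have h3 := hZ (Y x t) t ht
    simp only [zero_add, Nat.cast_ofNat, Nat.add_one_sub_one, pow_one, Nat.reduceAdd]
    linear_combination (-F 1 (Y x t) t) * h3
  have dfx : ∀ t ∈ Icc (0 : ℝ) 1, deriv (fun x => f x t) = fun x => -F 1 (Y x t) t := by
    intro t ht
    funext x
    exact (fx x t ht).deriv
  have dfxx : ∀ x, ∀ t ∈ Icc (0 : ℝ) 1, 1 + deriv (deriv (fun x => f x t)) x =
      Z 0 (Y x t) t := by
    intro x t ht
    have h9 : HasDerivAt (fun x => -F 1 (Y x t) t) (-(F (1 + 1) (Y x t) t * Z 0 (Y x t) t)) x :=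
      (cx (h.Fy 1) x t ht).neg
    rw [dfx t ht, h9.deriv]
    have h3 := hZ (Y x t) t ht
    linear_combination (-1 : ℝ) * h3
  -- derivatives in `t`
  have ft : ∀ x, ∀ t ∈ Icc (0 : ℝ) 1,
      HasDerivWithinAt (fun t => f x t) (-H 0 (Y x t) t) (Icc 0 1) t := by
    intro x t ht
    have h0 := qc_comp (h.Fy 0) (h.Ft 0) (h.cF 1) ht (dt x t ht)
    have h1 := qc_comp (h.Fy 1) (h.Ft 1) (h.cF 2) ht (dt x t ht)
    have h2 := ((h1.pow 2).const_mul (-(1 / 2 : ℝ))).sub h0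
    have h4 : HasDerivWithinAt (fun t => - (1 / 2) * (F 1 (Y x t) t) ^ 2 - F 0 (Y x t) t)
        (-H 0 (Y x t) t) (Icc 0 1) t := by
      refine h2.congr_deriv ?_
      have h3 := hZ (Y x t) t ht
      simp only [zero_add, Nat.cast_ofNat, Nat.add_one_sub_one, pow_one, Nat.reduceAdd]
      linear_combination (F 1 (Y x t) t * H 1 (Y x t) t) * h3
    exact h4.congr (fun s hs => hf x s hs) (hf x t ht)
  have uD : ∀ t ∈ Icc (0 : ℝ) 1, UniqueDiffWithinAt ℝ (Icc (0 : ℝ) 1) t := fun t ht =>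
    uniqueDiffOn_Icc zero_lt_one t ht
  have dft : ∀ x, ∀ t ∈ Icc (0 : ℝ) 1,
      derivWithin (fun r => f x r) (Icc 0 1) t = -H 0 (Y x t) t := fun x t ht =>
    (ft x t ht).derivWithin (uD t ht)
  have dftt : ∀ x, ∀ t ∈ Icc (0 : ℝ) 1,
      derivWithin (fun s => derivWithin (fun r => f x r) (Icc 0 1) s) (Icc 0 1) t =
        H 1 (Y x t) t ^ 2 * Z 0 (Y x t) t + lam * Z 2 (Y x t) t := by
    intro x t ht
    have h0 := (qc_comp (h.Hy 0) (h.Ht 0) (h.cH 1) ht (dt x t ht)).neg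
    have h1 : HasDerivWithinAt (fun s => derivWithin (fun r => f x r) (Icc 0 1) s)
        (H 1 (Y x t) t ^ 2 * Z 0 (Y x t) t + lam * Z 2 (Y x t) t) (Icc 0 1) t := by
      refine (h0.congr_deriv ?_).congr (fun s hs => dft x s hs) (dft x t ht)
      simp only [zero_add]
      ring
    exact h1.derivWithin (uD t ht)
  have dftx : ∀ x, ∀ t ∈ Icc (0 : ℝ) 1,
      deriv (fun x => derivWithin (fun r => f x r) (Icc 0 1) t) x =
        -(H 1 (Y x t) t * Z 0 (Y x t) t) := by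
    intro x t ht
    have e : (fun x => derivWithin (fun r => f x r) (Icc 0 1) t) =
        fun x => -H 0 (Y x t) t := by
      funext x
      exact dft x t ht
    rw [e]
    exact ((cx (h.Hy 0) x t ht).neg).deriv
  have dlog : ∀ x, ∀ t ∈ Icc (0 : ℝ) 1,
      deriv (deriv (fun x => Real.log (1 + deriv (deriv (fun x => f x t)) x))) x =
        Z 2 (Y x t) t * Z 0 (Y x t) t := by
    intro x t ht
    have e : (fun x => Real.log (1 + deriv (deriv (fun x => f x t)) x)) =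
        fun x => Real.log (Z 0 (Y x t) t) := by
      funext x
      rw [dfxx x t ht]
    have e2 : deriv (fun x => Real.log (Z 0 (Y x t) t)) = fun x => Z 1 (Y x t) t := by
      funext x
      rw [((cx (h.Zy 0) x t ht).log (hZ0 _ t ht).ne').deriv]
      simp only [zero_add]
      rw [mul_div_assoc, div_self (hZ0 _ t ht).ne', mul_one]
    rw [e, e2]
    exact (cx (h.Zy 1) x t ht).deriv
  refine ⟨?_, ?_, ?_, ?_⟩
  · have hY := h.inverse_smooth cY dx dt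
    have hm : ContDiffOn ℝ ∞ (fun p : ℝ × ℝ => ((Y p.1 p.2, p.2) : ℝ × ℝ))
        (univ ×ˢ Icc 0 1) := hY.prodMk contDiff_snd.contDiffOn
    have hmt : MapsTo (fun p : ℝ × ℝ => ((Y p.1 p.2, p.2) : ℝ × ℝ)) (univ ×ˢ Icc (0 : ℝ) 1)
        (univ ×ˢ Icc (0 : ℝ) 1) := fun p hp => ⟨mem_univ _, hp.2⟩
    have h0 := ((h.smooth 0).1).comp hm hmt
    have h1 := ((h.smooth 1).1).comp hm hmt
    have h2 := (contDiffOn_const (c := (-(1 / 2) : ℝ))).mul (h1.pow 2)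
    refine (h2.sub h0).congr fun p hp => ?_
    exact hf p.1 p.2 hp.2
  · intro x t ht
    rw [hf x t ht, hf (x + 1) t ht, hper x t ht, h.perF 1, h.perF 0]
  · intro x t ht
    rw [dfxx x t ht]
    exact hZ0 _ t ht
  · intro x t ht
    rw [dftt x t ht, dftx x t ht, dfxx x t ht, dlog x t ht]
    have h3 := (hZ0 (Y x t) t ht).ne'
    field_simp
    ring

end Pool.Agent.H37.DP
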