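import Mathlib

/-!
MODULE QD: the dual of the boundary data.

PROOF.  `X(x) = x + f'(x)`, `X' = 1 + f'' > 0`, `X(x+1) = X(x) + 1`, so `X` is a smooth increasing
bijection of the line; let `x = ξ(y)` be its inverse, smooth by the inverse function theorem
(`ContDiffAt.to_localInverse`, `OpenPartialHomeomorph.contDiffAt_symm_deriv` or
`contDiff` of the inverse), `ξ(y+1) = ξ(y) + 1`, `ξ' = 1/(1+f''(ξ))`.
`v(y) = - (1/2) f'(ξ y)² - f(ξ y)`.  `v' = - f' f'' ξ' - f' ξ' = - f'(ξ) (1 + f''(ξ)) ξ' = - f'(ξ)`,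
`v'' = - f''(ξ) ξ' = - f''/(1+f'')`, `1 + v'' = 1/(1+f''(ξ)) > 0`.
Periodic because `f, f'` are periodic.
-/

namespace Pool.Agent.H37.DP

open Set Filter Topology
open scoped ContDiff

theorem dual (f : ℝ → ℝ) (hf : ContDiff ℝ ∞ f) (hper : ∀ x, f (x + 1) = f x)
    (hpos : ∀ x, 0 < 1 + deriv (deriv f) x) :
    ∃ v : ℝ → ℝ, ContDiff ℝ ∞ v ∧ (∀ x, v (x + 1) = v x) ∧
      (∀ x, 0 < 1 + deriv (deriv v) x) ∧
      (∀ x, v (x + deriv f x) = - (1 / 2) * (deriv f x) ^ 2 - f x) ∧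
      (∀ x, deriv v (x + deriv f x) = - deriv f x) := by
  have hf1 : ContDiff ℝ ∞ (deriv f) := (contDiff_infty_iff_deriv.mp hf).2
  have hf2 : ContDiff ℝ ∞ (deriv (deriv f)) := (contDiff_infty_iff_deriv.mp hf1).2
  have hd0 : ∀ x, HasDerivAt f (deriv f x) x := fun x =>
    ((contDiff_infty_iff_deriv.mp hf).1 x).hasDerivAt
  have hd1 : ∀ x, HasDerivAt (deriv f) (deriv (deriv f) x) x := fun x =>
    ((contDiff_infty_iff_deriv.mp hf1).1 x).hasDerivAt
  have hper1 : ∀ x, deriv f (x + 1) = deriv f x := by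
    intro x
    have h1 : HasDerivAt (fun y => f (y + 1)) (deriv f (x + 1)) x :=
      (hd0 (x + 1)).comp_add_const x 1
    have h2 : (fun y => f (y + 1)) = f := funext hper
    rw [h2] at h1
    exact h1.unique (hd0 x)
  -- the map `X`
  obtain ⟨X, hX⟩ : ∃ X : ℝ → ℝ, X = fun x => x + deriv f x := ⟨_, rfl⟩
  have hXc : ContDiff ℝ ∞ X := by
    rw [hX]
    exact contDiff_id.add hf1
  have hXd : ∀ x, HasDerivAt X (1 + deriv (deriv f) x) x := by
    intro x
    rw [hX]
    exact (hasDerivAt_id x).add (hd1 x)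
  have hXm : StrictMono X := by
    apply strictMono_of_deriv_pos
    intro x
    rw [(hXd x).deriv]
    exact hpos x
  have hXn : ∀ (n : ℕ) (x : ℝ), X (x + n) = X x + n := by
    intro n
    induction n with
    | zero => intro x; simp
    | succ n ih =>
      intro x
      have h1 : X (x + 1) = X x + 1 := by
        rw [hX]
        show x + 1 + deriv f (x + 1) = x + deriv f x + 1
        rw [hper1]
        ring
      have h2 : x + ((n + 1 : ℕ) : ℝ) = (x + 1) + n := by push_cast; ring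
      rw [h2, ih, h1]
      push_cast
      ring
  have htop : Tendsto X atTop atTop := by
    refine tendsto_atTop_atTop_of_monotone hXm.monotone ?_
    intro b
    obtain ⟨n, hn⟩ := exists_nat_ge (b - X 0)
    refine ⟨0 + n, ?_⟩
    rw [hXn]
    linarith
  have hbot : Tendsto X atBot atBot := by
    refine tendsto_atBot_atBot_of_monotone hXm.monotone ?_
    intro b
    obtain ⟨n, hn⟩ := exists_nat_ge (X 0 - b)
    refine ⟨0 - n, ?_⟩
    have h1 := hXn n (0 - n)
    have h2 : (0 : ℝ) - n + n = 0 := by ring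
    rw [h2] at h1
    linarith
  have hsurj : Function.Surjective X := hXc.continuous.surjective htop hbot
  obtain ⟨e, he⟩ : ∃ e : ℝ ≃ₜ ℝ, (e : ℝ → ℝ) = X :=
    ⟨(StrictMono.orderIsoOfSurjective X hXm hsurj).toHomeomorph, by
      funext x
      rfl⟩
  obtain ⟨ξ, hξ⟩ : ∃ ξ : ℝ → ℝ, ξ = e.symm := ⟨_, rfl⟩
  have hξX : ∀ x, ξ (X x) = x := by
    intro x
    rw [hξ, ← he]
    exact e.symm_apply_apply x
  have hXξ : ∀ y, X (ξ y) = y := by
    intro y
    rw [hξ, ← he]
    exact e.apply_symm_apply y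
  have hξc : ContDiff ℝ ∞ ξ := by
    rw [hξ]
    refine Homeomorph.contDiff_symm_deriv (f := e) (f' := fun x => 1 + deriv (deriv f) x)
      (fun x => (hpos x).ne') (fun x => ?_) ?_
    · rw [he]; exact hXd x
    · rw [he]; exact hXc
  have hξd : ∀ y, HasDerivAt ξ (1 + deriv (deriv f) (ξ y))⁻¹ y := by
    intro y
    refine HasDerivAt.of_local_left_inverse hξc.continuous.continuousAt (hXd (ξ y))
      (hpos _).ne' (Eventually.of_forall hXξ)
  have hξp : ∀ y, ξ (y + 1) = ξ y + 1 := by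
    intro y
    apply hXm.injective
    rw [hXξ]
    have h1 := hXn 1 (ξ y)
    rw [Nat.cast_one, hXξ] at h1
    exact h1.symm
  obtain ⟨v, hv⟩ : ∃ v : ℝ → ℝ, v = fun y => - (1 / 2) * (deriv f (ξ y)) ^ 2 - f (ξ y) :=
    ⟨_, rfl⟩
  have hvd : ∀ y, HasDerivAt v (- deriv f (ξ y)) y := by
    intro y
    have h1 : HasDerivAt (fun y => deriv f (ξ y))
        (deriv (deriv f) (ξ y) * (1 + deriv (deriv f) (ξ y))⁻¹) y := (hd1 (ξ y)).comp y (hξd y)
    have h2 : HasDerivAt (fun y => f (ξ y))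
        (deriv f (ξ y) * (1 + deriv (deriv f) (ξ y))⁻¹) y := (hd0 (ξ y)).comp y (hξd y)
    have h3 := ((h1.pow 2).const_mul (- (1 / 2))).sub h2
    rw [hv]
    refine h3.congr_deriv ?_
    have h4 := (hpos (ξ y)).ne'
    field_simp
    ring
  have hvd1 : deriv v = fun y => - deriv f (ξ y) := funext fun y => (hvd y).deriv
  refine ⟨v, ?_, ?_, ?_, ?_, ?_⟩
  · rw [hv]
    exact (contDiff_const.mul ((hf1.comp hξc).pow 2)).sub (hf.comp hξc)
  · intro y
    rw [hv]
    show - (1 / 2) * (deriv f (ξ (y + 1))) ^ 2 - f (ξ (y + 1)) =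
      - (1 / 2) * (deriv f (ξ y)) ^ 2 - f (ξ y)
    rw [hξp, hper, hper1]
  · intro y
    have h1 : HasDerivAt (fun y => deriv f (ξ y))
        (deriv (deriv f) (ξ y) * (1 + deriv (deriv f) (ξ y))⁻¹) y := (hd1 (ξ y)).comp y (hξd y)
    have h2 : deriv (deriv v) y = -(deriv (deriv f) (ξ y) * (1 + deriv (deriv f) (ξ y))⁻¹) := by
      rw [hvd1]
      exact h1.neg.deriv
    rw [h2]
    have h4 := hpos (ξ y)
    have h5 : 1 + -(deriv (deriv f) (ξ y) * (1 + deriv (deriv f) (ξ y))⁻¹)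
        = (1 + deriv (deriv f) (ξ y))⁻¹ := by
      field_simp
      ring
    rw [h5]
    exact inv_pos.mpr h4
  · intro x
    have h1 : x + deriv f x = X x := by rw [hX]
    rw [h1, hv]
    show - (1 / 2) * (deriv f (ξ (X x))) ^ 2 - f (ξ (X x)) = _
    rw [hξX]
  · intro x
    have h1 : x + deriv f x = X x := by rw [hX]
    rw [h1, hvd1]
    show - deriv f (ξ (X x)) = _
    rw [hξX]

end Pool.Agent.H37.DP
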