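import Pool.Agent.H37.DP.UA

/-!
MODULE UC: the limit function is differentiable in `t`.

PROOF.  `f' = g`, `g' = k` in time on `[0,1]`, `|g|, |k| ≤ C`.  Mean value theorem:
`|f n s i - f n t i| ≤ C |s - t|`, `|f n s i - f n t i - (s-t) g n t i| ≤ C (s-t)²` for
`s, t ∈ [0,1]`.  Pass to the ultralimit (at fixed `y`).
`lf_cont`: a function on `ℝ × [0,1]` Lipschitz in `y` uniformly in `t` and Lipschitz in `t`
uniformly in `y` is continuous.
-/

namespace Pool.Agent.H37.DP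

open Set Filter Topology

private theorem uc_deriv_of_sq {u : ℝ → ℝ} {u' C x : ℝ} {S : Set ℝ}
    (h : ∀ y ∈ S, |u y - u x - (y - x) * u'| ≤ C * (y - x) ^ 2) :
    HasDerivWithinAt u u' S x := by
  rw [hasDerivWithinAt_iff_isLittleO]
  have h1 : (fun y => u y - u x - (y - x) • u') =O[𝓝[S] x] (fun y => ‖y - x‖ ^ 2) := by
    refine Asymptotics.IsBigO.of_bound C ?_
    filter_upwards [self_mem_nhdsWithin] with y hy
    have h2 := h y hy
    rw [Real.norm_eq_abs, smul_eq_mul, Real.norm_eq_abs, Real.norm_eq_abs, abs_pow, abs_abs,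
      sq_abs]
    exact h2
  refine h1.trans_isLittleO ?_
  exact (Asymptotics.isLittleO_pow_sub_sub x one_lt_two).mono nhdsWithin_le_nhds

/-- mean value estimate on `[0,1]` -/
private theorem uc_lip {f g : ℝ → ℝ} {C : ℝ}
    (hg : ∀ t ∈ Icc (0 : ℝ) 1, |g t| ≤ C)
    (d1 : ∀ t ∈ Icc (0 : ℝ) 1, HasDerivAt f (g t) t) {s t : ℝ} (hs : s ∈ Icc (0 : ℝ) 1)
    (ht : t ∈ Icc (0 : ℝ) 1) : |f s - f t| ≤ C * |s - t| := by
  have h := Convex.norm_image_sub_le_of_norm_hasDerivWithin_le (f := f) (f' := g)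
    (s := Icc (0 : ℝ) 1) (C := C) (fun r hr => (d1 r hr).hasDerivWithinAt)
    (fun r hr => by rw [Real.norm_eq_abs]; exact hg r hr) (convex_Icc 0 1) ht hs
  simpa only [Real.norm_eq_abs] using h

private theorem uc_sq {f g : ℝ → ℝ} {C : ℝ} {t : ℝ}
    (ht : t ∈ Icc (0 : ℝ) 1)
    (hg : ∀ s ∈ Icc (0 : ℝ) 1, |g s - g t| ≤ C * |s - t|)
    (hC : 0 ≤ C)
    (d1 : ∀ t ∈ Icc (0 : ℝ) 1, HasDerivAt f (g t) t) {s : ℝ} (hs : s ∈ Icc (0 : ℝ) 1) :
    |f s - f t - (s - t) * g t| ≤ C * (s - t) ^ 2 := by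
  have hsub : uIcc t s ⊆ Icc (0 : ℝ) 1 := by
    rw [← uIcc_of_le (zero_le_one' ℝ)] at ht hs ⊢
    exact uIcc_subset_uIcc ht hs
  have h := Convex.norm_image_sub_le_of_norm_hasDerivWithin_le
    (f := fun r => f r - (r - t) * g t) (f' := fun r => g r - g t)
    (s := uIcc t s) (C := C * |s - t|)
    (fun r hr => by
      have h1 := (d1 r (hsub hr)).sub (((hasDerivAt_id r).sub_const t).mul_const (g t))
      rw [one_mul] at h1
      exact h1.hasDerivWithinAt)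
    (fun r hr => by
      rw [Real.norm_eq_abs]
      refine (hg r (hsub hr)).trans (mul_le_mul_of_nonneg_left ?_ hC)
      exact abs_sub_left_of_mem_uIcc hr)
    (convex_uIcc t s) left_mem_uIcc right_mem_uIcc
  simp only [Real.norm_eq_abs, sub_self, zero_mul, sub_zero] at h
  have h2 : f s - (s - t) * g t - f t = f s - f t - (s - t) * g t := by ring
  rw [h2] at h
  refine h.trans (le_of_eq ?_)
  rw [mul_assoc, ← pow_two, sq_abs]

theorem lf_hasDeriv_t {f g k : Fam} (hf : BI f) (hg : BI g) (hk : BI k)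
    (d1 : ∀ n i, ∀ t ∈ Icc (0 : ℝ) 1, HasDerivAt (fun s => f n s i) (g n t i) t)
    (d2 : ∀ n i, ∀ t ∈ Icc (0 : ℝ) 1, HasDerivAt (fun s => g n s i) (k n t i) t) (y : ℝ)
    {t : ℝ} (ht : t ∈ Icc (0 : ℝ) 1) :
    HasDerivWithinAt (fun s => lf f y s) (lf g y t) (Icc 0 1) t := by
  obtain ⟨Cf, hCf⟩ := hf
  obtain ⟨Cg, hCg⟩ := hg
  obtain ⟨Ck, hCk⟩ := hk
  have hCk0 : 0 ≤ Ck := (abs_nonneg _).trans (hCk 0 0 ⟨le_rfl, zero_le_one⟩ 0)
  refine uc_deriv_of_sq (C := Ck) (fun s hs => ?_)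
  have h1 : ∀ n, |f n s (idx n y) - f n t (idx n y) - (s - t) * g n t (idx n y)|
      ≤ Ck * (s - t) ^ 2 := by
    intro n
    exact uc_sq (f := fun s => f n s (idx n y)) (g := fun s => g n s (idx n y)) ht
      (fun r hr => uc_lip (f := fun s => g n s (idx n y)) (g := fun s => k n s (idx n y))
        (fun r hr => hCk n r hr _) (fun r hr => d2 n _ r hr) hr ht) hCk0
      (fun r hr => d1 n _ r hr) hs
  have t1 : Tendsto (fun n => f n s (idx n y)) (↑(hyperfilter ℕ) : Filter ℕ) (𝓝 (lf f y s)) :=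
    ulim_tendsto (C := Cf) (fun n => hCf n s hs _)
  have t2 : Tendsto (fun n => f n t (idx n y)) (↑(hyperfilter ℕ) : Filter ℕ) (𝓝 (lf f y t)) :=
    ulim_tendsto (C := Cf) (fun n => hCf n t ht _)
  have t3 : Tendsto (fun n => g n t (idx n y)) (↑(hyperfilter ℕ) : Filter ℕ) (𝓝 (lf g y t)) :=
    ulim_tendsto (C := Cg) (fun n => hCg n t ht _)
  have t4 := ((t1.sub t2).sub (t3.const_mul (s - t))).abs
  exact le_of_tendsto t4 (Eventually.of_forall h1)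

theorem lf_lip_t {f g : Fam} (hf : BI f) (hg : BI g)
    (d1 : ∀ n i, ∀ t ∈ Icc (0 : ℝ) 1, HasDerivAt (fun s => f n s i) (g n t i) t) :
    ∃ C : ℝ, ∀ y, ∀ s ∈ Icc (0 : ℝ) 1, ∀ t ∈ Icc (0 : ℝ) 1,
      |lf f y s - lf f y t| ≤ C * |s - t| := by
  obtain ⟨Cf, hCf⟩ := hf
  obtain ⟨Cg, hCg⟩ := hg
  refine ⟨Cg, fun y s hs t ht => ?_⟩
  have h1 : ∀ n, |f n s (idx n y) - f n t (idx n y)| ≤ Cg * |s - t| := by
    intro n
    exact uc_lip (f := fun s => f n s (idx n y)) (g := fun s => g n s (idx n y))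
        (fun r hr => hCg n r hr _) (fun r hr => d1 n _ r hr) hs ht
  have t1 : Tendsto (fun n => f n s (idx n y)) (↑(hyperfilter ℕ) : Filter ℕ) (𝓝 (lf f y s)) :=
    ulim_tendsto (C := Cf) (fun n => hCf n s hs _)
  have t2 : Tendsto (fun n => f n t (idx n y)) (↑(hyperfilter ℕ) : Filter ℕ) (𝓝 (lf f y t)) :=
    ulim_tendsto (C := Cf) (fun n => hCf n t ht _)
  exact le_of_tendsto (t1.sub t2).abs (Eventually.of_forall h1)

theorem cont_of_lip {u : ℝ → ℝ → ℝ} {C C' : ℝ}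
    (hy : ∀ t ∈ Icc (0 : ℝ) 1, ∀ y y' : ℝ, |u y' t - u y t| ≤ C * |y' - y|)
    (ht : ∀ y, ∀ s ∈ Icc (0 : ℝ) 1, ∀ t ∈ Icc (0 : ℝ) 1, |u y s - u y t| ≤ C' * |s - t|) :
    ContinuousOn (fun p : ℝ × ℝ => u p.1 p.2) (univ ×ˢ Icc 0 1) := by
  rintro ⟨y, t⟩ hyt
  have htt : t ∈ Icc (0 : ℝ) 1 := (mem_prod.mp hyt).2
  unfold ContinuousWithinAt
  rw [tendsto_iff_norm_sub_tendsto_zero]
  have hlim : Tendsto (fun p : ℝ × ℝ => C * |p.1 - y| + C' * |p.2 - t|)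
      (𝓝[univ ×ˢ Icc (0 : ℝ) 1] (y, t)) (𝓝 0) := by
    have hc : Continuous (fun p : ℝ × ℝ => C * |p.1 - y| + C' * |p.2 - t|) := by fun_prop
    have h1 := (hc.tendsto (y, t)).mono_left
      (nhdsWithin_le_nhds (s := univ ×ˢ Icc (0 : ℝ) 1))
    simpa using h1
  refine squeeze_zero' (Eventually.of_forall fun p => norm_nonneg _) ?_ hlim
  filter_upwards [self_mem_nhdsWithin] with p hp
  have hp2 : p.2 ∈ Icc (0 : ℝ) 1 := (mem_prod.mp hp).2
  have h1 := hy p.2 hp2 y p.1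
  have h2 := ht y p.2 hp2 t htt
  rw [Real.norm_eq_abs]
  have h3 : u p.1 p.2 - u y t = (u p.1 p.2 - u y p.2) + (u y p.2 - u y t) := by ring
  show |u p.1 p.2 - u y t| ≤ _
  rw [h3]
  exact (abs_add_le _ _).trans (add_le_add h1 h2)

end Pool.Agent.H37.DP
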