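import Pool.Agent.H37.DP.UB
import Pool.Agent.H37.DP.UC
import Pool.Agent.H37.DP.HI
import Pool.Agent.H37.DP.ED

/-!
MODULE UD: existence of the jet.

PROOF.  Take `V, V1` from `family` and `all_bounds`.  `F k = lf (DkF k V)`,
`H k = lf (DkF k V1)`, `Z k = lf (DkF k (gF V))`.
`Fy, Hy, Zy`: `lf_hasDeriv_y` with `DF (DkF k f) = DkF (k+1) f`.
`Ft`: `lf_hasDeriv_t` with `f = DkF k V`, `g = DkF k V1`, `k = DkF k (- lam L G)`
(`hasDerivAt_Dk`, `IsSol.dV`, `IsSol.dV1`), all `BI` since `L G i = D² G (i-1)`.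
`Ht`: `f = DkF k V1`, `g = DkF k (- lam L G)`, third function
`DkF k (- lam L (- L V1 * G²))` (`IsSol.dLG`), `BI` by `AllB.mul` etc.;
`lf (DkF k (L G)) = lf (shF (-1) (DkF (k+2) G)) = Z (k+2)` by `lf_sh`.
`Z0`: `G = 1/W`, `lf_inv`, `W i = 1 + D² V (i-1)`, `lf_sh`: `lf (wF V) = 1 + F 2`.
`pos`: `W ≥ c0` and `le_ulim`.  `perF, perH`: `lf_per`.
`cF, cH, cZ`: `lf_lip_y`, `lf_lip_t`, `cont_of_lip` (time derivative of `DkF k (gF V)` is
`DkF k (- L V1 * G²)`, `IsSol.dG`).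
Boundary values: `F 0 y 0 = ulim (v0 (((idx n y).val)/(n+3)))`, and
`v0 ((idx n y).val/(n+3)) = v0 (⌊y(n+3)⌋/(n+3))` by periodicity, which tends to `v0 y`.
-/

namespace Pool.Agent.H37.DP

open Set Filter Topology
open scoped ContDiff

private theorem ud_int (N : ℕ) [NeZero N] (u : ℝ → ℝ) (hu : ∀ x, u (x + 1) = u x) (m : ℤ) :
    smpl N u (m : ZMod N) = u ((m : ℝ) / N) := by
  unfold smpl
  have hper : Function.Periodic u 1 := hu
  have hN : (N : ℝ) ≠ 0 := Nat.cast_ne_zero.2 (NeZero.ne N)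
  have h1 : (((m : ZMod N).val : ℕ) : ℤ) = m % N := ZMod.val_intCast m
  have h2 : (((m : ZMod N).val : ℕ) : ℝ) = ((m % N : ℤ) : ℝ) := by
    rw [← h1, Int.cast_natCast]
  have h3 : ((m % N : ℤ) : ℝ) = (m : ℝ) - N * ((m / N : ℤ) : ℝ) := by
    have := Int.emod_add_mul_ediv m N
    have h4 : ((m % N + N * (m / N) : ℤ) : ℝ) = (m : ℝ) := by rw [this]
    push_cast at h4
    push_cast
    linarith
  rw [h2, h3]
  have h4 : ((m : ℝ) - N * ((m / N : ℤ) : ℝ)) / N = (m : ℝ) / N - ((m / N : ℤ) : ℝ) * 1 := by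
    field_simp
  rw [h4, hper.sub_int_mul_eq]

private theorem ud_bdry (v : ℝ → ℝ) (hv : ContDiff ℝ ∞ v) (hp : ∀ x, v (x + 1) = v x) (y : ℝ) :
    ulim (fun n => smpl (n + 3) v (idx n y)) = v y := by
  apply ulim_of_tendsto
  have h1 : ∀ n : ℕ, smpl (n + 3) v (idx n y) = v ((⌊y * ((n : ℝ) + 3)⌋ : ℝ) / ((n : ℝ) + 3)) := by
    intro n
    unfold idx
    rw [ud_int (n + 3) v hp]
    push_cast
    rfl
  simp only [h1]
  have hT : Tendsto (fun n : ℕ => (n : ℝ) + 3) atTop atTop :=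
    tendsto_natCast_atTop_atTop.atTop_add tendsto_const_nhds
  have h2 : Tendsto (fun n : ℕ => (⌊y * ((n : ℝ) + 3)⌋ : ℝ) / ((n : ℝ) + 3)) atTop (𝓝 y) := by
    have h3 : Tendsto (fun n : ℕ => y - 1 / ((n : ℝ) + 3)) atTop (𝓝 y) := by
      have := (tendsto_const_nhds (x := y)).sub (hT.const_div_atTop 1)
      rwa [sub_zero] at this
    refine tendsto_of_tendsto_of_tendsto_of_le_of_le h3 tendsto_const_nhds ?_ ?_
    · intro n
      have hn : (0 : ℝ) < (n : ℝ) + 3 := by positivity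
      have h4 := Int.sub_one_lt_floor (y * ((n : ℝ) + 3))
      show y - 1 / ((n : ℝ) + 3) ≤ (⌊y * ((n : ℝ) + 3)⌋ : ℝ) / ((n : ℝ) + 3)
      rw [le_div_iff₀ hn, sub_mul, one_div_mul_cancel hn.ne']
      exact h4.le
    · intro n
      have hn : (0 : ℝ) < (n : ℝ) + 3 := by positivity
      show (⌊y * ((n : ℝ) + 3)⌋ : ℝ) / ((n : ℝ) + 3) ≤ y
      rw [div_le_iff₀ hn]
      exact Int.floor_le _
  exact (hv.continuous.tendsto y).comp h2

private theorem ud_L (G : Fam) : (fun n t => L (G n t) : Fam) = shF (-1) (DkF 2 G) := by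
  funext n t i
  rw [L_eq]
  unfold shF DkF
  rw [Function.iterate_succ_apply, Function.iterate_one]
  congr 1
  push_cast
  ring

theorem jet_exists {lam : ℝ} (hlam : 0 < lam) (v0 v1 : ℝ → ℝ) (h0 : ContDiff ℝ ∞ v0)
    (h1 : ContDiff ℝ ∞ v1) (p0 : ∀ x, v0 (x + 1) = v0 x) (p1 : ∀ x, v1 (x + 1) = v1 x)
    (c0 : ∀ x, 0 < 1 + deriv (deriv v0) x) (c1 : ∀ x, 0 < 1 + deriv (deriv v1) x) :
    ∃ F H Z : ℕ → ℝ → ℝ → ℝ, Jet lam F H Z ∧ (∀ y, F 0 y 0 = v0 y) ∧
      (∀ y, F 0 y 1 = v1 y) := by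
  obtain ⟨c, B, V, V1, hc, hcls, hV0, hV1⟩ := family hlam v0 v1 h0 h1 p0 p1 c0 c1
  obtain ⟨aV, aV1, aG, aL, d0, hd0, hlow⟩ := all_bounds hlam hc hcls
  have hsol : ∀ n, IsSol (n + 3) lam (V n) (V1 n) := fun n => (hcls n).sol
  -- the auxiliary families
  have eA : (fun n t => fun i => -lam * L (ginv (W (V n t))) i : Fam) =
      smulF (-lam) (shF (-1) (DkF 2 (gF V))) := by
    rw [← ud_L]
    rfl
  have eG' : (fun n t => fun i => -(L (V1 n t) i * (ginv (W (V n t)) i) ^ 2) : Fam) =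
      smulF (-1) (mulF (fun n t => L (V1 n t)) (mulF (gF V) (gF V))) := by
    funext n t i
    unfold smulF mulF gF
    ring
  have eA' : (fun n t => fun i => -lam *
      L (fun j => -(L (V1 n t) j * (ginv (W (V n t)) j) ^ 2)) i : Fam) =
      smulF (-lam) (shF (-1) (DkF 2 (smulF (-1)
        (mulF (fun n t => L (V1 n t)) (mulF (gF V) (gF V)))))) := by
    rw [← eG', ← ud_L]
    rfl
  have aG2 : AllB (DkF 2 (gF V)) := by
    intro k
    rw [← DkF_add]
    exact aG (k + 2)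
  have bA : AllB (fun n t => fun i => -lam * L (ginv (W (V n t))) i : Fam) := by
    rw [eA]
    exact (aG2.sh (-1)).smul (-lam)
  have aG' : AllB (fun n t => fun i => -(L (V1 n t) i * (ginv (W (V n t)) i) ^ 2) : Fam) := by
    rw [eG']
    exact (aL.mul (aG.mul aG)).smul (-1)
  have bA' : AllB (fun n t => fun i => -lam *
      L (fun j => -(L (V1 n t) j * (ginv (W (V n t)) j) ^ 2)) i : Fam) := by
    rw [eA', ← eG']
    have : AllB (DkF 2 (fun n t => fun i => -(L (V1 n t) i * (ginv (W (V n t)) i) ^ 2) : Fam)) := by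
      intro k
      rw [← DkF_add]
      exact aG' (k + 2)
    exact (this.sh (-1)).smul (-lam)
  -- time derivatives
  have tV : ∀ k n i, ∀ t ∈ Icc (0 : ℝ) 1,
      HasDerivAt (fun s => DkF k V n s i) (DkF k V1 n t i) t := fun k n i t ht =>
    hasDerivAt_Dk k (fun j => (hsol n).dV t ht j) i
  have tV1 : ∀ k n i, ∀ t ∈ Icc (0 : ℝ) 1,
      HasDerivAt (fun s => DkF k V1 n s i)
        (DkF k (fun n t => fun i => -lam * L (ginv (W (V n t))) i : Fam) n t i) t :=
    fun k n i t ht => hasDerivAt_Dk k (fun j => (hsol n).dV1 t ht j) i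
  have tA : ∀ k n i, ∀ t ∈ Icc (0 : ℝ) 1,
      HasDerivAt (fun s => DkF k (fun n t => fun i => -lam * L (ginv (W (V n t))) i : Fam) n s i)
        (DkF k (fun n t => fun i => -lam *
          L (fun j => -(L (V1 n t) j * (ginv (W (V n t)) j) ^ 2)) i : Fam) n t i) t :=
    fun k n i t ht => hasDerivAt_Dk k (fun j => ((hsol n).dLG ht j).const_mul (-lam)) i
  have tG : ∀ k n i, ∀ t ∈ Icc (0 : ℝ) 1,
      HasDerivAt (fun s => DkF k (gF V) n s i)
        (DkF k (fun n t => fun i => -(L (V1 n t) i * (ginv (W (V n t)) i) ^ 2) : Fam) n t i) t :=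
    fun k n i t ht => hasDerivAt_Dk k (fun j => (hsol n).dG ht j) i
  -- the density
  have hw : ∀ y, ∀ t ∈ Icc (0 : ℝ) 1, lf (wF V) y t = 1 + lf (DkF 2 V) y t := by
    intro y t ht
    obtain ⟨C, hC⟩ := aV 2
    have h2 : lf (wF V) y t = 1 + lf (shF (-1) (DkF 2 V)) y t := by
      have h3 := ulim_add (a := fun _ => (1 : ℝ)) (b := fun n => shF (-1) (DkF 2 V) n t (idx n y))
        (C := 1) (C' := C) (fun _ => by simp) (fun n => hC n t ht _)
      rw [ulim_const] at h3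
      rw [← ud_L] at h3 ⊢
      exact h3
    rw [h2, lf_sh (aV 2) _ _ _ ht]
    rw [← DkF_succ']
    exact aV 3
  have bW : BI (wF V) := by
    obtain ⟨C, hC⟩ := aV 2
    refine ⟨1 + C, fun n t ht i => ?_⟩
    have h3 := hC n t ht (i + ((-1 : ℤ) : ZMod (n + 3)))
    have h4 : wF V n t i = 1 + DkF 2 V n t (i + ((-1 : ℤ) : ZMod (n + 3))) := by
      have := congrFun (congrFun (congrFun (ud_L V) n) t) i
      unfold wF W
      rw [this]
      rfl
    rw [h4]
    refine (abs_add_le _ _).trans ?_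
    rw [abs_one]
    linarith
  refine ⟨fun k => lf (DkF k V), fun k => lf (DkF k V1), fun k => lf (DkF k (gF V)), ?_, ?_, ?_⟩
  · refine ⟨?_, ?_, ?_, ?_, ?_, ?_, ?_, ?_, ?_, ?_, ?_, ?_⟩
    · intro k y t ht
      have h2 := lf_hasDeriv_y (f := DkF k V) (aV k) (by rw [← DkF_succ']; exact aV (k + 1))
        (by rw [← DkF_succ', ← DkF_succ']; exact aV (k + 2)) y ht
      rw [← DkF_succ'] at h2
      exact h2
    · intro k y t ht
      exact lf_hasDeriv_t (aV k) (aV1 k) (bA k) (tV k) (tV1 k) y ht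
    · intro k y t ht
      have h2 := lf_hasDeriv_y (f := DkF k V1) (aV1 k) (by rw [← DkF_succ']; exact aV1 (k + 1))
        (by rw [← DkF_succ', ← DkF_succ']; exact aV1 (k + 2)) y ht
      rw [← DkF_succ'] at h2
      exact h2
    · intro k y t ht
      have h2 := lf_hasDeriv_t (aV1 k) (bA k) (bA' k) (tV1 k) (tA k) y ht
      have h3 : lf (DkF k (fun n t => fun i => -lam * L (ginv (W (V n t))) i : Fam)) y t =
          -lam * lf (DkF (k + 2) (gF V)) y t := by
        rw [eA, DkF_smul, DkF_sh, ← DkF_add, lf_smul ((aG (k + 2)).sh (-1)) _ _ ht,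
          lf_sh (aG (k + 2)) (by rw [← DkF_succ']; exact aG (k + 3)) _ _ ht]
      rw [h3] at h2
      exact h2
    · intro k y t ht
      have h2 := lf_hasDeriv_y (f := DkF k (gF V)) (aG k)
        (by rw [← DkF_succ']; exact aG (k + 1))
        (by rw [← DkF_succ', ← DkF_succ']; exact aG (k + 2)) y ht
      rw [← DkF_succ'] at h2
      exact h2
    · intro y t ht
      have h2 := lf_inv bW hd0 (fun n t ht i => hlow n t ht i) y ht
      rw [hw y t ht] at h2
      exact h2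
    · refine ⟨d0, hd0, fun y t ht => ?_⟩
      obtain ⟨C, hC⟩ := bW
      have h2 : d0 ≤ lf (wF V) y t := le_ulim (fun n => hC n t ht (idx n y))
        (fun n => hlow n t ht _)
      rw [hw y t ht] at h2
      exact h2
    · intro k y t
      exact lf_per _ y t
    · intro k y t
      exact lf_per _ y t
    · intro k
      obtain ⟨C, hC⟩ := lf_lip_y (aV k) (by rw [← DkF_succ']; exact aV (k + 1))
      obtain ⟨C', hC'⟩ := lf_lip_t (aV k) (aV1 k) (tV k)
      exact cont_of_lip hC hC'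
    · intro k
      obtain ⟨C, hC⟩ := lf_lip_y (aV1 k) (by rw [← DkF_succ']; exact aV1 (k + 1))
      obtain ⟨C', hC'⟩ := lf_lip_t (aV1 k) (bA k) (tV1 k)
      exact cont_of_lip hC hC'
    · intro k
      obtain ⟨C, hC⟩ := lf_lip_y (aG k) (by rw [← DkF_succ']; exact aG (k + 1))
      obtain ⟨C', hC'⟩ := lf_lip_t (aG k) (aG' k) (tG k)
      exact cont_of_lip hC hC'
  · intro y
    have h2 := ud_bdry v0 h0 p0 y
    have h3 : lf (DkF 0 V) y 0 = ulim (fun n => smpl (n + 3) v0 (idx n y)) := by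
      unfold lf
      congr 1
      funext n
      rw [DkF_zero, hV0 n]
    exact h3.trans h2
  · intro y
    have h2 := ud_bdry v1 h1 p1 y
    have h3 : lf (DkF 0 V) y 1 = ulim (fun n => smpl (n + 3) v1 (idx n y)) := by
      unfold lf
      congr 1
      funext n
      rw [DkF_zero, hV1 n]
    exact h3.trans h2

end Pool.Agent.H37.DP
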