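import Pool.Agent.H37.DP.QC
import Pool.Agent.H37.DP.QD
import Pool.Agent.H37.DP.UD

/-!
MODULE QE: the reduced theorem in the variable `x`.

PROOF.  `v0, v1` = duals of `f0, f1` (`dual`), `F, H, Z` from `jet_exists`, `Y` from
`Jet.inverse`, `f x t = - (1/2)(F 1 (Y x t) t)² - F 0 (Y x t) t`; `Jet.legendre`.
Boundary values at `t = 0`: `F 0 · 0 = v0`, so `F 1 y 0 = deriv v0 y` (`Jet.Fy`); with
`y = x + f0'(x)`: `y + F 1 y 0 = x + f0' x - f0' x = x`, so `Y x 0 = y` (second property of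
`Jet.inverse`) and `f x 0 = - (1/2) (f0' x)² - v0 y = f0 x`.  Same at `t = 1`.
-/

namespace Pool.Agent.H37.DP

open Set Filter Topology
open scoped ContDiff

private theorem qe_boundary {F H Z : ℕ → ℝ → ℝ → ℝ} {lam : ℝ} (hJ : Jet lam F H Z)
    {Y : ℝ → ℝ → ℝ} {f v : ℝ → ℝ} {t : ℝ} (ht : t ∈ Icc (0 : ℝ) 1)
    (hY : ∀ y, ∀ t ∈ Icc (0 : ℝ) 1, Y (y + F 1 y t) t = y)
    (hF : ∀ y, F 0 y t = v y)
    (hv : ∀ x, v (x + deriv f x) = - (1 / 2) * (deriv f x) ^ 2 - f x)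
    (hv' : ∀ x, deriv v (x + deriv f x) = - deriv f x) (x : ℝ) :
    - (1 / 2) * (F 1 (Y x t) t) ^ 2 - F 0 (Y x t) t = f x := by
  have hfun : (fun y => F 0 y t) = v := funext hF
  have hF1 : ∀ y, F 1 y t = deriv v y := by
    intro y
    have h1 := hJ.Fy 0 y t ht
    rw [hfun] at h1
    exact h1.deriv.symm
  set y := x + deriv f x with hy
  have h1 : F 1 y t = - deriv f x := by rw [hF1, hv']
  have h2 : Y x t = y := by
    have h3 := hY y t ht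
    rw [h1] at h3
    have h4 : y + - deriv f x = x := by
      rw [hy]
      ring
    rw [h4] at h3
    exact h3
  rw [h2, h1, hF, hv]
  ring

theorem reduced {lam : ℝ} (hlam : 0 < lam) (f0 f1 : ℝ → ℝ) (h0 : ContDiff ℝ ∞ f0)
    (h1 : ContDiff ℝ ∞ f1) (p0 : ∀ x, f0 (x + 1) = f0 x) (p1 : ∀ x, f1 (x + 1) = f1 x)
    (c0 : ∀ x, 0 < 1 + deriv (deriv f0) x) (c1 : ∀ x, 0 < 1 + deriv (deriv f1) x) :
    ∃ f : ℝ → ℝ → ℝ,
      ContDiffOn ℝ ∞ (fun p : ℝ × ℝ => f p.1 p.2) (univ ×ˢ Icc 0 1) ∧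
      (∀ x, f x 0 = f0 x) ∧ (∀ x, f x 1 = f1 x) ∧
      (∀ x, ∀ t ∈ Icc (0 : ℝ) 1, f (x + 1) t = f x t) ∧
      (∀ x, ∀ t ∈ Icc (0 : ℝ) 1, 0 < 1 + deriv (deriv (fun x => f x t)) x) ∧
      (∀ x, ∀ t ∈ Icc (0 : ℝ) 1,
        derivWithin (fun s => derivWithin (fun r => f x r) (Icc 0 1) s) (Icc 0 1) t
          - (deriv (fun x => derivWithin (fun r => f x r) (Icc 0 1) t) x) ^ 2
              / (1 + deriv (deriv (fun x => f x t)) x)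
          = lam * deriv (deriv (fun x => Real.log (1 + deriv (deriv (fun x => f x t)) x))) x
              / (1 + deriv (deriv (fun x => f x t)) x)) := by
  obtain ⟨v0, hv0, pv0, cv0, dv0, dv0'⟩ := dual f0 h0 p0 c0
  obtain ⟨v1, hv1, pv1, cv1, dv1, dv1'⟩ := dual f1 h1 p1 c1
  obtain ⟨F, H, Z, hJ, hF0, hF1⟩ := jet_exists hlam v0 v1 hv0 hv1 pv0 pv1 cv0 cv1
  obtain ⟨Y, hX, hY, hper, cY, dx, dt⟩ := hJ.inverse
  obtain ⟨a1, a2, a3, a4⟩ := hJ.legendre hX hper cY dx dt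
    (f := fun x t => - (1 / 2) * (F 1 (Y x t) t) ^ 2 - F 0 (Y x t) t) (fun x t _ => rfl)
  refine ⟨fun x t => - (1 / 2) * (F 1 (Y x t) t) ^ 2 - F 0 (Y x t) t, a1, ?_, ?_, a2, a3, a4⟩
  · intro x
    exact qe_boundary hJ ⟨le_rfl, zero_le_one⟩ hY hF0 dv0 dv0' x
  · intro x
    exact qe_boundary hJ ⟨zero_le_one, le_rfl⟩ hY hF1 dv1 dv1' x

end Pool.Agent.H37.DP
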