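import Pool.Agent.H37.DP.RDefs

/-!
MODULE RA: functions of one real linear form on `ℂ`.

`ell a b z = Im(ā z)/Im(ā b)`: `ell (z + s a) = ell z`, `ell (z + b) = ell z + 1`,
`ell (x b) = x`, `z = ell z • b + (real multiple) • a`.
`Kc a b = |a|²/Im(ā b)² = |∇ ell|²`.
HINTS.  `Im(ā b) ≠ 0` by linear independence (`LinearIndependent.pair_iff`; if
`Im(ā b) = 0` then `(ā b).re • a = ... ` i.e. `|a|² b = Re(ā b) a`).
`laplacian_comp`: `InnerProductSpace.laplacian_eq_iteratedFDeriv_complexPlane`; for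
`g : ℝ → ℝ` with `g` of class `C²`, the second derivative of `g ∘ ell` in the direction `v` is
`g''(ell z) (ell v)²` (`ell` is real linear), and `(ell 1)² + (ell I)² = Kc`.
`gradient_comp`: `‖gradient h z‖ = ‖fderiv ℝ h z‖`, `fderiv (g ∘ ell) = g'(ell z) • ell`, and the
norm of the linear form `ell` is `√Kc` (or compute `gradient (g ∘ ell) z = g'(ell z) • (vector)`).
-/

namespace Pool.Agent.H37.DP

open Set Filter Topology
open scoped ContDiff

/-- the real linear form vanishing at `a` and equal to `1` at `b` -/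
noncomputable def ell (a b z : ℂ) : ℝ :=
  ((starRingEnd ℂ) a * z).im / ((starRingEnd ℂ) a * b).im

/-- `|∇ ell|²` -/
noncomputable def Kc (a b : ℂ) : ℝ := ‖a‖ ^ 2 / ((starRingEnd ℂ) a * b).im ^ 2

theorem im_ne_zero {a b : ℂ} (hab : LinearIndependent ℝ ![a, b]) :
    ((starRingEnd ℂ) a * b).im ≠ 0 := by
  intro h
  have h1 := LinearIndependent.pair_iff.mp hab
  have h2 : ((starRingEnd ℂ) a * b).im = a.re * b.im - a.im * b.re := by
    simp [Complex.mul_im]
    ring
  rw [h2] at h
  have ha : a ≠ 0 := by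
    intro ha
    have h3 := h1 1 0 (by simp [ha])
    exact one_ne_zero h3.1
  -- `|a|² b = Re(ā b) a`
  have h4 := h1 (-(a.re * b.re + a.im * b.im)) (a.re * a.re + a.im * a.im) (by
    apply Complex.ext
    · simp
      linear_combination (-a.im) * h
    · simp
      linear_combination a.re * h)
  have h5 : Complex.normSq a = 0 := by
    rw [Complex.normSq_apply]
    exact h4.2
  exact ha (Complex.normSq_eq_zero.mp h5)

theorem Kc_pos {a b : ℂ} (hab : LinearIndependent ℝ ![a, b]) : 0 < Kc a b := by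
  have h1 := im_ne_zero hab
  have ha : a ≠ 0 := by
    intro ha
    apply h1
    simp [ha]
  unfold Kc
  have h2 : 0 < ‖a‖ := norm_pos_iff.mpr ha
  have h3 : 0 < ((starRingEnd ℂ) a * b).im ^ 2 := by positivity
  positivity

theorem ell_add_smul (a b z : ℂ) (s : ℝ) : ell a b (z + s • a) = ell a b z := by
  unfold ell
  congr 1
  simp [Complex.mul_im]
  ring

theorem ell_add_b {a b : ℂ} (hab : LinearIndependent ℝ ![a, b]) (z : ℂ) :
    ell a b (z + b) = ell a b z + 1 := by
  have h1 := im_ne_zero hab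
  unfold ell
  rw [mul_add, Complex.add_im, add_div, div_self h1]

theorem ell_smul_b {a b : ℂ} (hab : LinearIndependent ℝ ![a, b]) (x : ℝ) :
    ell a b (x • b) = x := by
  have h1 := im_ne_zero hab
  unfold ell
  have h2 : ((starRingEnd ℂ) a * (x • b)).im = x * ((starRingEnd ℂ) a * b).im := by
    rw [mul_smul_comm, Complex.smul_im, smul_eq_mul]
  rw [h2, mul_div_assoc, div_self h1, mul_one]

theorem exists_eq_smul {a b : ℂ} (hab : LinearIndependent ℝ ![a, b]) (z : ℂ) :
    ∃ s : ℝ, z = ell a b z • b + s • a := by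
  have h1 := im_ne_zero hab
  have h2 : ((starRingEnd ℂ) a * b).im = a.re * b.im - a.im * b.re := by
    simp [Complex.mul_im]
    ring
  have h3 : ((starRingEnd ℂ) a * z).im = a.re * z.im - a.im * z.re := by
    simp [Complex.mul_im]
    ring
  rw [h2] at h1
  refine ⟨(z.re * b.im - z.im * b.re) / (a.re * b.im - a.im * b.re), ?_⟩
  unfold ell
  rw [h2, h3]
  apply Complex.ext
  · simp only [Complex.add_re, Complex.smul_re, smul_eq_mul]
    field_simp
    ring
  · simp only [Complex.add_im, Complex.smul_im, smul_eq_mul]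
    field_simp
    ring

/-- the linear form as a continuous linear map -/
private noncomputable def RA_M (a b : ℂ) : ℂ →L[ℝ] ℝ :=
  (((starRingEnd ℂ) a * b).im)⁻¹ • ((a.re) • Complex.imCLM - (a.im) • Complex.reCLM)

private theorem RA_M_apply (a b z : ℂ) : RA_M a b z = ell a b z := by
  unfold RA_M ell
  have h3 : ((starRingEnd ℂ) a * z).im = a.re * z.im - a.im * z.re := by
    simp [Complex.mul_im]
    ring
  rw [h3]
  simp
  ring

private theorem RA_ell_eq (a b : ℂ) : ell a b = fun z => RA_M a b z :=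
  funext fun z => (RA_M_apply a b z).symm

theorem ell_contDiff (a b : ℂ) : ContDiff ℝ ∞ (ell a b) := by
  rw [RA_ell_eq]
  exact (RA_M a b).contDiff

private theorem RA_second {a b : ℂ} {g : ℝ → ℝ} (hg : ContDiff ℝ 2 g) (z v : ℂ) :
    iteratedFDeriv ℝ 2 (fun ζ => g (ell a b ζ)) z ![v, v]
      = (ell a b v) ^ 2 * deriv (deriv g) (ell a b z) := by
  have h1 : (fun ζ => g (ell a b ζ)) = g ∘ (RA_M a b) := by
    funext ζ
    simp only [Function.comp, RA_M_apply]
  rw [h1, ContinuousLinearMap.iteratedFDeriv_comp_right (RA_M a b) hg z (i := 2) le_rfl]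
  rw [ContinuousMultilinearMap.compContinuousLinearMap_apply,
    iteratedFDeriv_apply_eq_iteratedDeriv_mul_prod, RA_M_apply]
  simp [Fin.prod_univ_two, RA_M_apply, iteratedDeriv_succ, iteratedDeriv_zero, pow_two]

theorem laplacian_comp {a b : ℂ} (hab : LinearIndependent ℝ ![a, b]) {g : ℝ → ℝ}
    (hg : ContDiff ℝ 2 g) (z : ℂ) :
    Laplacian.laplacian (fun ζ => g (ell a b ζ)) z
      = Kc a b * deriv (deriv g) (ell a b z) := by
  have h1 := im_ne_zero hab
  rw [InnerProductSpace.laplacian_eq_iteratedFDeriv_complexPlane]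
  show iteratedFDeriv ℝ 2 (fun ζ => g (ell a b ζ)) z ![1, 1]
    + iteratedFDeriv ℝ 2 (fun ζ => g (ell a b ζ)) z ![Complex.I, Complex.I] = _
  rw [RA_second hg, RA_second hg, ← add_mul]
  congr 1
  unfold ell Kc
  rw [← Complex.normSq_eq_norm_sq, Complex.normSq_apply]
  simp [Complex.mul_im]
  field_simp
  ring

theorem gradient_comp {a b : ℂ} (hab : LinearIndependent ℝ ![a, b]) {g : ℝ → ℝ}
    (hg : ContDiff ℝ 1 g) (z : ℂ) :
    ‖gradient (fun ζ => g (ell a b ζ)) z‖ ^ 2
      = Kc a b * (deriv g (ell a b z)) ^ 2 := by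
  obtain ⟨d, hd⟩ : ∃ d, d = ((starRingEnd ℂ) a * b).im := ⟨_, rfl⟩
  have hdual : (InnerProductSpace.toDual ℝ ℂ) (d⁻¹ • (Complex.I * a)) = RA_M a b := by
    ext v
    rw [InnerProductSpace.toDual_apply_apply]
    rw [Complex.inner, RA_M_apply]
    unfold ell
    rw [← hd]
    simp [Complex.mul_im, Complex.mul_re]
    ring
  have hg1 : HasDerivAt g (deriv g (ell a b z)) (ell a b z) :=
    ((hg.differentiable one_ne_zero) (ell a b z)).hasDerivAt
  have h1 : HasFDerivAt (fun ζ => g (ell a b ζ)) (deriv g (ell a b z) • RA_M a b) z := by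
    have h2 : HasFDerivAt (ell a b) (RA_M a b) z := by
      rw [RA_ell_eq]
      exact (RA_M a b).hasFDerivAt
    exact hg1.comp_hasFDerivAt z h2
  have h3 : HasGradientAt (fun ζ => g (ell a b ζ))
      (deriv g (ell a b z) • (d⁻¹ • (Complex.I * a))) z := by
    rw [hasGradientAt_iff_hasFDerivAt]
    refine h1.congr_fderiv ?_
    rw [map_smulₛₗ, hdual]
    rfl
  rw [h3.gradient, norm_smul, norm_smul, norm_mul, Complex.norm_I, one_mul]
  unfold Kc
  rw [← hd]
  rw [mul_pow, mul_pow, Real.norm_eq_abs, Real.norm_eq_abs, sq_abs, sq_abs, inv_pow]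
  ring

end Pool.Agent.H37.DP
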