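import Pool.Agent.H37.DP.RDefs2
import Pool.Agent.H37.DP.RA
import Pool.Agent.H37.DP.QE

/-!
MODULE RC: the final theorem (Q1 for circle invariant Kähler forms and potentials on elliptic
curves).

PROOF.  `K = Kc a b`, `r x = ρ (x • b)`, so `ρ = r ∘ ell` (`exists_eq_smul`, invariance), `r` smooth,
`1`-periodic, positive.  `c = ∫_0^1 r > 0`.  There is a smooth `1`-periodic `ψ : ℝ → ℝ` with
`(K/2) ψ'' = r - c` (integrate twice; the first primitive is periodic since `r - c` has mean zero,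
subtract its mean, integrate again).  `g₀ x = φ₀ (x • b)`, smooth and `1`-periodic.
`dens ρ φ₀ z = c + (K/2)(ψ + g₀)''(ell z) > 0` and `ρ = c + (K/2) ψ'' > 0` (`laplacian_comp`).
Put `f0 = (K/(2c)) ψ`, `f1 = (K/(2c)) (ψ + g₀)`: `1 + f0'' = ρ/c > 0`, `1 + f1'' > 0`.
Apply `reduced` with `lam' = lam K²/(2c²)`, get `f`, and put
`φ t z = (2c/K) f (ell z) t - ψ (ell z)`.
`φ 0 = 0`, `φ 1 = φ₀`.  For `t ∈ [0,1]`: `x ↦ f x t` is `C^∞`,
`dens ρ (φ t) z = c (1 + f_xx)` at `ell z`;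
`scal = - K (log (1+f_xx))_xx/(c (1+f_xx))` (`log (c w) = log c + log w`);
`φ_t = (2c/K) f_t`, `½ gradSq = ½ K (2c/K)² (f_tx)²/(c (1+f_xx)) = (2c/K) (f_tx)²/(1+f_xx)`.  So
`φ_tt - ½ gradSq = (2c/K) (f_tt - (f_tx)²/(1+f_xx)) = (2c/K) lam' (log (1+f_xx))_xx/(1+f_xx)
 = lam K (log(1+f_xx))_xx/(c (1+f_xx)) = - lam scal`.
Smoothness of `φ` on `ℂ × [0,1]`: composition with `(z,t) ↦ (ell z, t)`.
(The time derivative within `[0,1]` of the `C^∞` function `f` on `ℝ × [0,1]` is `C^∞` in `x` for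
each `t`; `QC.lean`/`QE.lean` and module RB contain similar steps.)
-/

namespace Pool.Agent.H37.DP.Geo

open Set Filter Topology
open scoped ContDiff

/-- primitive of a smooth periodic mean zero function -/
private theorem rc_prim (q : ℝ → ℝ) (hq : ContDiff ℝ ∞ q)
    (hper : ∀ x, q (x + 1) = q x) (hmean : ∫ x in (0 : ℝ)..1, q x = 0) :
    ∃ g : ℝ → ℝ, ContDiff ℝ ∞ g ∧ (∀ x, g (x + 1) = g x) ∧ (∀ x, deriv g x = q x) ∧
      ∫ x in (0 : ℝ)..1, g x = 0 := by
  have hcont : Continuous q := hq.continuous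
  set p : ℝ → ℝ := fun x => ∫ s in (0 : ℝ)..x, q s with hp
  have hd : ∀ x, HasDerivAt p (q x) x := fun x =>
    intervalIntegral.integral_hasDerivAt_right (hcont.intervalIntegrable _ _)
      (hcont.stronglyMeasurableAtFilter _ _) hcont.continuousAt
  have hdp : deriv p = q := funext fun x => (hd x).deriv
  have hps : ContDiff ℝ ∞ p := by
    rw [contDiff_infty_iff_deriv, hdp]
    exact ⟨fun x => (hd x).differentiableAt, hq⟩
  have hpp : ∀ x, p (x + 1) = p x := by
    intro x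
    have h1 : p (x + 1) = p x + ∫ s in x..(x + 1), q s := by
      simp only [hp]
      rw [intervalIntegral.integral_add_adjacent_intervals] <;>
        exact hcont.intervalIntegrable _ _
    have h2 : ∫ s in x..(x + 1), q s = ∫ s in (0 : ℝ)..(0 + 1), q s :=
      Function.Periodic.intervalIntegral_add_eq hper x 0
    rw [h1, h2, zero_add, hmean, add_zero]
  refine ⟨fun x => p x - ∫ s in (0 : ℝ)..1, p s, hps.sub contDiff_const, fun x => by
    simp only [hpp], fun x => ?_, ?_⟩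
  · have := (hd x).sub_const (∫ s in (0 : ℝ)..1, p s)
    exact this.deriv
  · rw [intervalIntegral.integral_sub (hps.continuous.intervalIntegrable _ _)
      (continuous_const.intervalIntegrable _ _)]
    simp

/-- a smooth periodic function with mean zero has a smooth periodic second primitive -/
theorem exists_periodic_primitive (q : ℝ → ℝ) (hq : ContDiff ℝ ∞ q)
    (hper : ∀ x, q (x + 1) = q x) (hmean : ∫ x in (0 : ℝ)..1, q x = 0) :
    ∃ ψ : ℝ → ℝ, ContDiff ℝ ∞ ψ ∧ (∀ x, ψ (x + 1) = ψ x) ∧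
      ∀ x, deriv (deriv ψ) x = q x := by
  obtain ⟨g, hg, hgp, hgd, hgm⟩ := rc_prim q hq hper hmean
  obtain ⟨ψ, hψ, hψp, hψd, -⟩ := rc_prim g hg hgp hgm
  refine ⟨ψ, hψ, hψp, fun x => ?_⟩
  have : deriv ψ = g := funext hψd
  rw [this, hgd]

private theorem rc_uD {t : ℝ} (ht : t ∈ Icc (0 : ℝ) 1) : UniqueDiffWithinAt ℝ (Icc (0:ℝ) 1) t :=
  uniqueDiffOn_Icc (by norm_num) t ht

/-- slices in `x` of a smooth function on `ℝ × [0,1]` -/
private theorem rc_slice {f : ℝ → ℝ → ℝ}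
    (hf : ContDiffOn ℝ ∞ (fun p : ℝ × ℝ => f p.1 p.2) (univ ×ˢ Icc 0 1)) {t : ℝ}
    (ht : t ∈ Icc (0 : ℝ) 1) : ContDiff ℝ ∞ (fun x => f x t) := by
  rw [← contDiffOn_univ]
  have h1 : ContDiffOn ℝ ∞ (fun x : ℝ => (x, t)) univ := by
    have : ContDiff ℝ ∞ (fun x : ℝ => (x, t)) := by fun_prop
    exact this.contDiffOn
  exact hf.comp h1 (fun x _ => ⟨mem_univ _, ht⟩)

/-- the slices in `x` of the time derivative are smooth -/
private theorem rc_slice_t {f : ℝ → ℝ → ℝ}
    (hf : ContDiffOn ℝ ∞ (fun p : ℝ × ℝ => f p.1 p.2) (univ ×ˢ Icc 0 1)) {t : ℝ}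
    (ht : t ∈ Icc (0 : ℝ) 1) :
    ContDiff ℝ ∞ (fun x => derivWithin (fun r => f x r) (Icc 0 1) t) := by
  have huD : UniqueDiffOn ℝ ((univ : Set ℝ) ×ˢ Icc (0:ℝ) 1) :=
    uniqueDiffOn_univ.prod (uniqueDiffOn_Icc (by norm_num))
  have h1 : ContDiffOn ℝ ∞ (fderivWithin ℝ (fun p : ℝ × ℝ => f p.1 p.2) (univ ×ˢ Icc 0 1))
      (univ ×ˢ Icc 0 1) := hf.fderivWithin huD (by simp)
  have h2 : ContDiffOn ℝ ∞ (fun p : ℝ × ℝ =>
      fderivWithin ℝ (fun p : ℝ × ℝ => f p.1 p.2) (univ ×ˢ Icc 0 1) p (0, 1))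
      (univ ×ˢ Icc 0 1) := h1.clm_apply contDiffOn_const
  have h3 : ∀ x, derivWithin (fun r => f x r) (Icc 0 1) t =
      fderivWithin ℝ (fun p : ℝ × ℝ => f p.1 p.2) (univ ×ˢ Icc 0 1) (x, t) (0, 1) := by
    intro x
    have h4 : HasFDerivWithinAt (fun p : ℝ × ℝ => f p.1 p.2)
        (fderivWithin ℝ (fun p : ℝ × ℝ => f p.1 p.2) (univ ×ˢ Icc 0 1) (x, t))
        (univ ×ˢ Icc 0 1) (x, t) :=
      ((hf.differentiableOn (by simp)) (x, t) ⟨mem_univ _, ht⟩).hasFDerivWithinAt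
    have h5 : HasDerivWithinAt (fun r : ℝ => (x, r)) ((0 : ℝ), (1 : ℝ)) (Icc 0 1) t := by
      have := (hasDerivAt_const t x).prodMk (hasDerivAt_id t)
      exact this.hasDerivWithinAt
    have h6 := h4.comp_hasDerivWithinAt t h5 (fun r hr => ⟨mem_univ _, hr⟩)
    exact h6.derivWithin (rc_uD ht)
  have h7 : (fun x => derivWithin (fun r => f x r) (Icc 0 1) t) = fun x =>
      fderivWithin ℝ (fun p : ℝ × ℝ => f p.1 p.2) (univ ×ˢ Icc 0 1) (x, t) (0, 1) := funext h3
  rw [h7, ← contDiffOn_univ]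
  have h8 : ContDiffOn ℝ ∞ (fun x : ℝ => (x, t)) univ := by
    have : ContDiff ℝ ∞ (fun x : ℝ => (x, t)) := by fun_prop
    exact this.contDiffOn
  exact h2.comp h8 (fun x _ => ⟨mem_univ _, ht⟩)

private theorem rc_diff_t {f : ℝ → ℝ → ℝ}
    (hf : ContDiffOn ℝ ∞ (fun p : ℝ × ℝ => f p.1 p.2) (univ ×ˢ Icc 0 1)) (x : ℝ) :
    ContDiffOn ℝ ∞ (fun t => f x t) (Icc 0 1) := by
  have h1 : ContDiffOn ℝ ∞ (fun t : ℝ => (x, t)) (Icc 0 1) := by
    have : ContDiff ℝ ∞ (fun t : ℝ => (x, t)) := by fun_prop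
    exact this.contDiffOn
  exact hf.comp h1 (fun t ht => ⟨mem_univ _, ht⟩)

/-- `g'' ` of a linear combination -/
private theorem rc_dd (α β : ℝ) {u v : ℝ → ℝ} (hu : ContDiff ℝ ∞ u) (hv : ContDiff ℝ ∞ v) (x : ℝ) :
    deriv (deriv (fun x => α * u x + β * v x)) x
      = α * deriv (deriv u) x + β * deriv (deriv v) x := by
  have hu1 : Differentiable ℝ u := hu.differentiable (by simp)
  have hv1 : Differentiable ℝ v := hv.differentiable (by simp)
  have h2le : (2 : WithTop ℕ∞) ≤ ∞ := ENat.LEInfty.out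
  have hu2 : Differentiable ℝ (deriv u) := (hu.of_le h2le).differentiable_deriv_two
  have hv2 : Differentiable ℝ (deriv v) := (hv.of_le h2le).differentiable_deriv_two
  have h1 : deriv (fun x => α * u x + β * v x) = fun x => α * deriv u x + β * deriv v x := by
    funext y
    exact (((hu1 y).hasDerivAt.const_mul α).add ((hv1 y).hasDerivAt.const_mul β)).deriv
  rw [h1]
  exact (((hu2 x).hasDerivAt.const_mul α).add ((hv2 x).hasDerivAt.const_mul β)).deriv


theorem main {a b : ℂ} (hab : LinearIndependent ℝ ![a, b]) (ρ : ℂ → ℝ) (hρ : InvFun a b ρ)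
    (hpos : ∀ z, 0 < ρ z) {lam : ℝ} (hlam : 0 < lam) (φ₀ : ℂ → ℝ) (h₀ : InvFun a b φ₀)
    (hk : ∀ z, 0 < dens ρ φ₀ z) :
    ∃ φ : ℝ → ℂ → ℝ, IsSolution a b ρ lam φ₀ φ ∧ ∀ t ∈ Icc (0 : ℝ) 1, InvFun a b (φ t) := by
  obtain ⟨K, hK⟩ : ∃ K, K = Kc a b := ⟨_, rfl⟩
  have hKpos : 0 < K := hK ▸ Kc_pos hab
  have hrestr : ∀ {h : ℂ → ℝ}, InvFun a b h → ContDiff ℝ ∞ (fun x : ℝ => h (x • b)) ∧
      (∀ x : ℝ, h ((x + 1) • b) = h (x • b)) ∧ ∀ z, h z = h (ell a b z • b) := by
    intro h hh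
    refine ⟨hh.smooth.comp (contDiff_id.smul contDiff_const), fun x => ?_, fun z => ?_⟩
    · rw [add_smul, one_smul, hh.periodic]
    · obtain ⟨s, hs⟩ := exists_eq_smul hab z
      conv_lhs => rw [hs]
      exact hh.invariant s _
  obtain ⟨r, hr⟩ : ∃ r : ℝ → ℝ, r = fun x => ρ (x • b) := ⟨_, rfl⟩
  obtain ⟨g, hg⟩ : ∃ g : ℝ → ℝ, g = fun x => φ₀ (x • b) := ⟨_, rfl⟩
  have hrs : ContDiff ℝ ∞ r := by rw [hr]; exact (hrestr hρ).1
  have hrp : ∀ x, r (x + 1) = r x := by intro x; rw [hr]; exact (hrestr hρ).2.1 x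
  have hρr : ∀ z, ρ z = r (ell a b z) := by intro z; rw [hr]; exact (hrestr hρ).2.2 z
  have hrpos : ∀ x, 0 < r x := by intro x; rw [hr]; exact hpos _
  have hgs : ContDiff ℝ ∞ g := by rw [hg]; exact (hrestr h₀).1
  have hgp : ∀ x, g (x + 1) = g x := by intro x; rw [hg]; exact (hrestr h₀).2.1 x
  have hφg : ∀ z, φ₀ z = g (ell a b z) := by intro z; rw [hg]; exact (hrestr h₀).2.2 z
  obtain ⟨c, hc⟩ : ∃ c, c = ∫ x in (0:ℝ)..1, r x := ⟨_, rfl⟩
  have hcpos : 0 < c := by
    rw [hc]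
    exact intervalIntegral.intervalIntegral_pos_of_pos
      (hrs.continuous.intervalIntegrable _ _) hrpos one_pos
  obtain ⟨ψ, hψ, hψp, hψd⟩ := exists_periodic_primitive (fun x => 2 / K * (r x - c))
    (contDiff_const.mul (hrs.sub contDiff_const)) (fun x => by simp only [hrp]) (by
      rw [intervalIntegral.integral_const_mul, intervalIntegral.integral_sub
        (hrs.continuous.intervalIntegrable _ _) (continuous_const.intervalIntegrable _ _), ← hc]
      simp)
  -- density of a function of `ell`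
  have hdens : ∀ {h : ℝ → ℝ}, ContDiff ℝ ∞ h → ∀ z, dens ρ (fun ζ => h (ell a b ζ)) z
      = r (ell a b z) + K / 2 * deriv (deriv h) (ell a b z) := by
    intro h hh z
    unfold dens
    rw [laplacian_comp hab (hh.of_le (ENat.LEInfty.out)) z, hρr z, ← hK]
    ring
  have hk' : ∀ x, 0 < r x + K / 2 * deriv (deriv g) x := by
    intro x
    have h1 := hk (x • b)
    have h2 : φ₀ = fun ζ => g (ell a b ζ) := funext hφg
    rw [h2, hdens hgs, ell_smul_b hab] at h1
    exact h1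
  obtain ⟨f, hf, hf0, hf1, hfp, hfc, hfe⟩ := reduced (lam := lam * K ^ 2 / (2 * c ^ 2))
    (by positivity) (fun x => K / (2 * c) * ψ x + 0 * g x)
    (fun x => K / (2 * c) * ψ x + K / (2 * c) * g x)
    ((contDiff_const.mul hψ).add (contDiff_const.mul hgs))
    ((contDiff_const.mul hψ).add (contDiff_const.mul hgs))
    (fun x => by simp only [hψp, hgp]) (fun x => by simp only [hψp, hgp])
    (fun x => by
      rw [rc_dd _ _ hψ hgs, hψd]
      have : 1 + (K / (2 * c) * (2 / K * (r x - c)) + 0 * deriv (deriv g) x) = r x / c := by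
        field_simp
        ring
      rw [this]
      exact div_pos (hrpos x) hcpos)
    (fun x => by
      rw [rc_dd _ _ hψ hgs, hψd]
      have : 1 + (K / (2 * c) * (2 / K * (r x - c)) + K / (2 * c) * deriv (deriv g) x)
          = (r x + K / 2 * deriv (deriv g) x) / c := by
        field_simp
        ring
      rw [this]
      exact div_pos (hk' x) hcpos)
  -- slices
  have hfs : ∀ t ∈ Icc (0:ℝ) 1, ContDiff ℝ ∞ (fun x => f x t) := fun t ht => rc_slice hf ht
  have hGs : ∀ t ∈ Icc (0:ℝ) 1, ContDiff ℝ ∞ (fun x => 2 * c / K * f x t + (-1) * ψ x) :=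
    fun t ht => (contDiff_const.mul (hfs t ht)).add (contDiff_const.mul hψ)
  have hdens2 : ∀ t ∈ Icc (0:ℝ) 1, ∀ z,
      dens ρ (fun ζ => 2 * c / K * f (ell a b ζ) t + (-1) * ψ (ell a b ζ)) z
        = c * (1 + deriv (deriv (fun x => f x t)) (ell a b z)) := by
    intro t ht z
    have h1 := hdens (hGs t ht) z
    rw [h1, rc_dd _ _ (hfs t ht) hψ, hψd]
    field_simp
    ring
  have hft : ∀ t ∈ Icc (0:ℝ) 1, ∀ ζ,
      derivWithin (fun r => 2 * c / K * f (ell a b ζ) r + (-1) * ψ (ell a b ζ)) (Icc 0 1) t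
        = 2 * c / K * derivWithin (fun r => f (ell a b ζ) r) (Icc 0 1) t := by
    intro t ht ζ
    rw [derivWithin_add_const, derivWithin_const_mul_field]
  refine ⟨fun t z => 2 * c / K * f (ell a b z) t + (-1) * ψ (ell a b z),
    ⟨?_, ?_, ?_, ?_, ?_, ?_⟩, ?_⟩
  · -- smoothness
    have h1 : ContDiffOn ℝ ∞ (fun p : ℂ × ℝ => (ell a b p.1, p.2)) (univ ×ˢ Icc 0 1) := by
      have : ContDiff ℝ ∞ (fun p : ℂ × ℝ => (ell a b p.1, p.2)) :=
        ((ell_contDiff a b).comp contDiff_fst).prodMk contDiff_snd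
      exact this.contDiffOn
    have h2 : ContDiffOn ℝ ∞ (fun p : ℂ × ℝ => f (ell a b p.1) p.2) (univ ×ˢ Icc 0 1) :=
      hf.comp h1 (fun p hp => ⟨mem_univ _, hp.2⟩)
    have h3 : ContDiff ℝ ∞ (fun p : ℂ × ℝ => ψ (ell a b p.1)) :=
      hψ.comp ((ell_contDiff a b).comp contDiff_fst)
    exact (contDiffOn_const.mul h2).add (contDiffOn_const.mul h3.contDiffOn)
  · intro t ht z
    refine ⟨?_, ?_⟩
    · have : ell a b (z + a) = ell a b z := by
        have := ell_add_smul a b z 1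
        rwa [one_smul] at this
      simp only [this]
    · simp only [ell_add_b hab, hfp _ t ht, hψp]
  · intro t ht z
    rw [hdens2 t ht z]
    exact mul_pos hcpos (hfc _ t ht)
  · intro z
    simp only [hf0]
    field_simp
    ring
  · intro z
    simp only [hf1, hφg z]
    field_simp
    ring
  · intro t ht z
    obtain ⟨x, hx⟩ : ∃ x, x = ell a b z := ⟨_, rfl⟩
    obtain ⟨w, hw⟩ : ∃ w : ℝ → ℝ, w = fun x => 1 + deriv (deriv (fun x => f x t)) x := ⟨_, rfl⟩
    have hws : ContDiff ℝ ∞ w := by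
      rw [hw]
      have h1 : ContDiff ℝ ∞ (deriv (deriv (fun x => f x t))) := by
        have h2 := (contDiff_infty_iff_deriv.mp (hfs t ht)).2
        exact (contDiff_infty_iff_deriv.mp h2).2
      exact contDiff_const.add h1
    have hwpos : ∀ x, 0 < w x := by
      intro x
      rw [hw]
      exact hfc x t ht
    have hlog : ContDiff ℝ ∞ (fun x => Real.log (w x)) :=
      hws.log (fun x => (hwpos x).ne')
    have e1 : derivWithin (fun s => derivWithin
        (fun r => 2 * c / K * f (ell a b z) r + (-1) * ψ (ell a b z)) (Icc 0 1) s) (Icc 0 1) t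
        = 2 * c / K * derivWithin (fun s => derivWithin (fun r => f x r) (Icc 0 1) s)
            (Icc 0 1) t := by
      rw [← derivWithin_const_mul_field, hx]
      exact derivWithin_congr (fun s hs => hft s hs z) (hft t ht z)
    have e2 : scal ρ (fun ζ => 2 * c / K * f (ell a b ζ) t + (-1) * ψ (ell a b ζ)) z
        = - (K * deriv (deriv (fun x => Real.log (w x))) x) / (c * w x) := by
      unfold scal
      have h1 : (fun ζ => Real.log
          (dens ρ (fun ζ => 2 * c / K * f (ell a b ζ) t + (-1) * ψ (ell a b ζ)) ζ))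
          = fun ζ => (fun x => 1 * Real.log (w x) + Real.log c * (fun _ : ℝ => (1:ℝ)) x)
              (ell a b ζ) := by
        funext ζ
        rw [hdens2 t ht ζ, Real.log_mul hcpos.ne' (hfc _ t ht).ne', hw]
        ring
      rw [h1, laplacian_comp hab
        (((contDiff_const.mul hlog).add (contDiff_const.mul contDiff_const)).of_le
          (ENat.LEInfty.out)) z,
        rc_dd _ _ hlog contDiff_const, hdens2 t ht z, ← hK, ← hx]
      simp [hw]
    have e3 : gradSq ρ (fun ζ => 2 * c / K * f (ell a b ζ) t + (-1) * ψ (ell a b ζ))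
        (fun ζ => derivWithin (fun r => 2 * c / K * f (ell a b ζ) r + (-1) * ψ (ell a b ζ))
          (Icc 0 1) t) z
        = K * (2 * c / K * deriv (fun x => derivWithin (fun r => f x r) (Icc 0 1) t) x) ^ 2
            / (c * w x) := by
      unfold gradSq
      have hs : ContDiff ℝ ∞ (fun x => derivWithin (fun r => f x r) (Icc 0 1) t) :=
        rc_slice_t hf ht
      have h1 : (fun ζ => derivWithin
          (fun r => 2 * c / K * f (ell a b ζ) r + (-1) * ψ (ell a b ζ)) (Icc 0 1) t)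
          = fun ζ => (fun x => 2 * c / K * derivWithin (fun r => f x r) (Icc 0 1) t)
              (ell a b ζ) := by
        funext ζ
        exact hft t ht ζ
      rw [h1, gradient_comp hab ((contDiff_const.mul hs).of_le (by simp)) z, hdens2 t ht z,
        ← hK, ← hx, deriv_const_mul_field, hw]
    have e4 := hfe x t ht
    rw [e1, e2, e3]
    have hwx : 1 + deriv (deriv (fun x => f x t)) x = w x := by rw [hw]
    have hww : (fun x => Real.log (1 + deriv (deriv (fun x => f x t)) x))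
        = fun x => Real.log (w x) := by rw [hw]
    rw [hwx, hww] at e4
    obtain ⟨A, hA⟩ : ∃ A, A = derivWithin (fun s => derivWithin (fun r => f x r) (Icc 0 1) s)
      (Icc 0 1) t := ⟨_, rfl⟩
    obtain ⟨B, hB⟩ : ∃ B, B = deriv (fun x => derivWithin (fun r => f x r) (Icc 0 1) t) x :=
      ⟨_, rfl⟩
    obtain ⟨L, hL⟩ : ∃ L, L = deriv (deriv (fun x => Real.log (w x))) x := ⟨_, rfl⟩
    rw [← hA, ← hB, ← hL] at e4
    rw [← hA, ← hB, ← hL]
    have hW := hwpos x
    have e5 : A = B ^ 2 / w x + lam * K ^ 2 / (2 * c ^ 2) * L / w x := by linarith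
    rw [e5]
    field_simp
    ring
  · intro t ht
    refine ⟨(hGs t ht).comp (ell_contDiff a b), fun z => ?_, fun s z => ?_⟩
    · simp only [ell_add_b hab, hfp _ t ht, hψp]
    · simp only [ell_add_smul]

end Pool.Agent.H37.DP.Geo
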