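import Pool.Agent.H37.DP.Grid

/-!
MODULE SA: cube bound.  Let `G > 0` be a grid function, `K² = sq (L G)`.  Then
`|D G i|³ ≤ 8 K² max (G i) (G (i+1))`.

PROOF.  `N = 1`: then `D G = 0`.  Let `N ≥ 2`, `K = √(sq (L G))`.  Recall
`D (D G) i = L G (i+1)`, so `sq (D (D G)) = K²` (`sq_L`), and `path` applied to `f = D G` gives
`|D G (i+l) - D G i| ≤ √(l/N) K` for all naturals `l ≤ N`.
(1) CASE `D G i < 0`, `g := - D G i > 0`.  Since `avg (D G) = 0` there is `i' = i + l`, `l < N`,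
with `D G i' ≥ 0`; hence `g ≤ |D G i - D G i'| ≤ K` and `K > 0`, `g²/(4K²) ≤ 1/4`.
Put `m = ⌊g² N / (4 K²)⌋₊ + 1`; `m ≤ N/4 + 1 ≤ N`(for `N ≥ 2`, use also `m` integer: `N/4+1 ≤ N`
iff `N ≥ 4/3`).  For `l ≤ m - 1`, `l / N ≤ g²/(4K²)` so `|D G (i+l) - D G i| ≤ g/2`, i.e.
`D G (i+l) ≤ - g/2`.  By `path_sum`, `0 < G (i+m) ≤ G i - (m/N) (g/2)`.  As `m/N ≥ g²/(4K²)`:
`g³/(8K²) < G i`, i.e. `g³ < 8 K² G i ≤ 8 K² max`.
(2) CASE `D G i > 0`: apply (1) to the reflected function `G' j = G (-j)` at `j = - i - 1`: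
`D G' j = - D G (- j - 1)`, `L G' j = L G (-j)`, `sq (L G') = sq (L G)`, `D G' (-i-1) = - D G i`,
`G' (-i-1) = G (i+1)`.
(3) CASE `D G i = 0` trivial.
-/

namespace Pool.Agent.H37.DP

open Set Filter Topology

private theorem sa_neg {N : ℕ} [NeZero N] (G : ZMod N → ℝ) (hG : ∀ i, 0 < G i) (i : ZMod N)
    (hi : D G i < 0) : (-(D G i)) ^ 3 ≤ 8 * sq (L G) * G i := by
  have hNpos : 0 < N := Nat.pos_of_ne_zero (NeZero.ne N)
  have hN : (0 : ℝ) < N := by exact_mod_cast hNpos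
  -- `N ≥ 2`
  have hN2 : 2 ≤ N := by
    by_contra hcon
    have h1 : N = 1 := by omega
    subst h1
    have h2 : (i + 1 : ZMod 1) = i := Subsingleton.elim _ _
    have h3 : D G i = 0 := by
      simp only [D]
      rw [h2]
      ring
    rw [h3] at hi
    exact lt_irrefl _ hi
  obtain ⟨g, hg⟩ : ∃ g, g = -(D G i) := ⟨_, rfl⟩
  have hg0 : 0 < g := by rw [hg]; linarith
  obtain ⟨K, hKd⟩ : ∃ K, K = Real.sqrt (sq (D (D G))) := ⟨_, rfl⟩
  have hK0 : 0 ≤ K := by rw [hKd]; exact Real.sqrt_nonneg _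
  have hKs : K ^ 2 = sq (L G) := by
    rw [hKd, Real.sq_sqrt (sq_nonneg' _), sq_L]
  -- some value is nonnegative
  obtain ⟨i', hi'⟩ : ∃ i', 0 ≤ D G i' := by
    by_contra hcon
    push Not at hcon
    have h1 : avg (D G) < 0 := by
      unfold avg
      refine div_neg_of_neg_of_pos ?_ hN
      exact Finset.sum_neg (fun j _ => hcon j) ⟨0, Finset.mem_univ _⟩
    rw [avg_D] at h1
    exact lt_irrefl _ h1
  have hgK : g ≤ K := by
    have hlt : (i' - i).val < N := ZMod.val_lt _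
    have h1 := path (D G) i hlt.le
    have h2 : i + (((i' - i).val : ℕ) : ZMod N) = i' := by
      rw [ZMod.natCast_zmod_val]
      ring
    rw [h2, ← hKd] at h1
    have h3 : Real.sqrt (((i' - i).val : ℝ) / N) ≤ 1 := by
      refine (Real.sqrt_le_sqrt (show ((i' - i).val : ℝ) / N ≤ 1 from ?_)).trans_eq Real.sqrt_one
      rw [div_le_one hN]
      exact_mod_cast hlt.le
    have h4 : |D G i' - D G i| ≤ K :=
      h1.trans (mul_le_of_le_one_left hK0 h3)
    have h5 := (abs_le.mp h4).2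
    rw [hg]
    linarith
  have hKpos : 0 < K := lt_of_lt_of_le hg0 hgK
  have hx : g ^ 2 / (4 * K ^ 2) ≤ 1 / 4 := by
    rw [div_le_div_iff₀ (by positivity) (by norm_num)]
    nlinarith
  obtain ⟨m, hm⟩ : ∃ m : ℕ, m = ⌊g ^ 2 / (4 * K ^ 2) * N⌋₊ + 1 := ⟨_, rfl⟩
  have hx0 : 0 ≤ g ^ 2 / (4 * K ^ 2) * N := by positivity
  have hm1 : g ^ 2 / (4 * K ^ 2) * N ≤ m := by
    rw [hm]
    push_cast
    exact (Nat.lt_floor_add_one _).le
  have hmf : ((m - 1 : ℕ) : ℝ) ≤ g ^ 2 / (4 * K ^ 2) * N := by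
    rw [hm, Nat.add_sub_cancel]
    exact Nat.floor_le hx0
  have hmN : m ≤ N := by
    have h1 : ((m - 1 : ℕ) : ℝ) ≤ 1 / 4 * N := hmf.trans (by gcongr)
    have h2 : ((m - 1 : ℕ) : ℝ) < (N : ℝ) := by linarith
    have h3 : m - 1 < N := by exact_mod_cast h2
    omega
  have hl : ∀ l ∈ Finset.range m, D G (i + (l : ZMod N)) ≤ -(g / 2) := by
    intro l hl
    have hlm : l < m := Finset.mem_range.mp hl
    have h1 := path (D G) i (m := l) (by omega)
    rw [← hKd] at h1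
    have h2 : (l : ℝ) ≤ g ^ 2 / (4 * K ^ 2) * N := by
      refine le_trans ?_ hmf
      have : l ≤ m - 1 := by omega
      exact_mod_cast this
    have h3 : Real.sqrt ((l : ℝ) / N) * K ≤ g / 2 := by
      have h4 : (l : ℝ) / N ≤ (g / (2 * K)) ^ 2 := by
        rw [div_le_iff₀ hN]
        refine h2.trans (le_of_eq ?_)
        ring
      have h5 : Real.sqrt ((l : ℝ) / N) ≤ g / (2 * K) := by
        refine (Real.sqrt_le_sqrt h4).trans (le_of_eq ?_)
        exact Real.sqrt_sq (by positivity)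
      calc Real.sqrt ((l : ℝ) / N) * K ≤ g / (2 * K) * K :=
            mul_le_mul_of_nonneg_right h5 hK0
        _ = g / 2 := by field_simp
    have h6 := (abs_le.mp (h1.trans h3)).2
    linarith
  have hsum : ∑ l ∈ Finset.range m, D G (i + (l : ZMod N)) ≤ m * (-(g / 2)) := by
    refine (Finset.sum_le_sum hl).trans (le_of_eq ?_)
    simp
  have hps := path_sum G i m
  have hpos := hG (i + (m : ZMod N))
  have h7 : (∑ l ∈ Finset.range m, D G (i + (l : ZMod N))) / N ≤ m * (-(g / 2)) / N :=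
    div_le_div_of_nonneg_right hsum hN.le
  have h8 : g ^ 2 / (4 * K ^ 2) ≤ (m : ℝ) / N := by
    rw [le_div_iff₀ hN]
    exact hm1
  have h9 : g ^ 2 / (4 * K ^ 2) * (g / 2) ≤ G i := by
    have h10 := mul_le_mul_of_nonneg_right h8 (show 0 ≤ g / 2 by positivity)
    have h11 : (m : ℝ) * (-(g / 2)) / N = -((m : ℝ) / N * (g / 2)) := by ring
    rw [h11] at h7
    linarith
  rw [← hg, ← hKs]
  have h12 : g ^ 2 / (4 * K ^ 2) * (g / 2) = g ^ 3 / (8 * K ^ 2) := by
    field_simp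
    ring
  rw [h12, div_le_iff₀ (by positivity)] at h9
  linarith

theorem cube_bound {N : ℕ} [NeZero N] (G : ZMod N → ℝ) (hG : ∀ i, 0 < G i) (i : ZMod N) :
    |D G i| ^ 3 ≤ 8 * sq (L G) * max (G i) (G (i + 1)) := by
  have hK : 0 ≤ 8 * sq (L G) := mul_nonneg (by norm_num) (sq_nonneg' _)
  rcases lt_trichotomy (D G i) 0 with h | h | h
  · rw [abs_of_neg h]
    exact (sa_neg G hG i h).trans (mul_le_mul_of_nonneg_left (le_max_left _ _) hK)
  · rw [h, abs_zero]
    have : 0 < max (G i) (G (i + 1)) := lt_max_of_lt_left (hG i)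
    simpa using mul_nonneg hK this.le
  · have e1 : D (fun j => G (-j)) (-i - 1) = - D G i := by
      simp only [D]
      have a1 : -(-i - 1 + 1) = i := by ring
      have a2 : -(-i - 1) = i + 1 := by ring
      rw [a1, a2]
      ring
    have e2 : sq (L (fun j => G (-j))) = sq (L G) := by
      have a3 : L (fun j => G (-j)) = fun j => L G (-j) := by
        funext j
        simp only [L]
        have a1 : -(j + 1) = -j - 1 := by ring
        have a2 : -(j - 1) = -j + 1 := by ring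
        rw [a1, a2]
        ring
      rw [a3]
      unfold sq avg
      congr 1
      exact Equiv.sum_comp (Equiv.neg (ZMod N)) (fun j => (L G j) ^ 2)
    have h1 := sa_neg (fun j => G (-j)) (fun j => hG (-j)) (-i - 1) (by rw [e1]; linarith)
    have a2 : -(-i - 1) = i + 1 := by ring
    rw [e1, e2] at h1
    simp only [neg_neg, a2] at h1
    rw [abs_of_pos h]
    exact h1.trans (mul_le_mul_of_nonneg_left (le_max_right _ _) hK)

end Pool.Agent.H37.DP
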