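import Pool.Agent.H37.DP.SA

/-!
MODULE SB: `G^(2/3)` is Lipschitz with constant `2 K^(2/3)`, `K² = sq (L G)`.

PROOF.  One step: let `A = min, B = max` of `G i, G (i+1)`, `0 < A ≤ B`.
`B^(2/3) - A^(2/3) = B^(2/3) (1 - (A/B)^(2/3)) ≤ B^(2/3) (1 - A/B) = B^(-1/3) (B - A)`
(as `x ≤ x^(2/3)` for `0 ≤ x ≤ 1`), and `B - A = |D G i| / N ≤ (8 K² B)^(1/3) / N
= 2 (K²)^(1/3) B^(1/3) / N` by `cube_bound`.  So one step costs at most `2 (K²)^(1/3) / N`.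
Induction on `m`.
-/

namespace Pool.Agent.H37.DP

open Set Filter Topology

/-- Cube roots. -/
private theorem sb_root {x : ℝ} (hx : 0 ≤ x) :
    ((x ^ ((1 : ℝ) / 3)) ^ 3 = x) ∧ x ^ ((2 : ℝ) / 3) = (x ^ ((1 : ℝ) / 3)) ^ 2 := by
  constructor
  · rw [← Real.rpow_natCast, ← Real.rpow_mul hx]
    norm_num
  · rw [← Real.rpow_natCast, ← Real.rpow_mul hx]
    norm_num

private theorem sb_aux {a b k n : ℝ} (ha : 0 < a) (hab : a ≤ b) (hk : 0 ≤ k) (hn : 0 < n)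
    (h : (n * (b ^ 3 - a ^ 3)) ^ 3 ≤ 8 * k ^ 3 * b ^ 3) : b ^ 2 - a ^ 2 ≤ 2 * k / n := by
  have hb : 0 < b := lt_of_lt_of_le ha hab
  have h1 : n * (b ^ 3 - a ^ 3) ≤ 2 * k * b := by
    have h2 : (n * (b ^ 3 - a ^ 3)) ^ 3 ≤ (2 * k * b) ^ 3 := by
      calc (n * (b ^ 3 - a ^ 3)) ^ 3 ≤ 8 * k ^ 3 * b ^ 3 := h
        _ = (2 * k * b) ^ 3 := by ring
    exact le_of_pow_le_pow_left₀ (by norm_num) (by positivity) h2
  have h3 : b * (b ^ 2 - a ^ 2) ≤ b ^ 3 - a ^ 3 := by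
    have h4 : 0 ≤ a ^ 2 * (b - a) := mul_nonneg (by positivity) (by linarith)
    nlinarith
  rw [le_div_iff₀ hn]
  have h5 : b * ((b ^ 2 - a ^ 2) * n) ≤ b * (2 * k) := by
    calc b * ((b ^ 2 - a ^ 2) * n) = n * (b * (b ^ 2 - a ^ 2)) := by ring
      _ ≤ n * (b ^ 3 - a ^ 3) := mul_le_mul_of_nonneg_left h3 hn.le
      _ ≤ 2 * k * b := h1
      _ = b * (2 * k) := by ring
  exact le_of_mul_le_mul_left h5 hb

private theorem sb_step {N : ℕ} [NeZero N] (G : ZMod N → ℝ) (hG : ∀ i, 0 < G i) (i : ZMod N) :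
    |(G (i + 1)) ^ ((2 : ℝ) / 3) - (G i) ^ ((2 : ℝ) / 3)|
      ≤ 2 * (sq (L G)) ^ ((1 : ℝ) / 3) / N := by
  have hN : (0 : ℝ) < N := by exact_mod_cast Nat.pos_of_ne_zero (NeZero.ne N)
  have hK : 0 ≤ sq (L G) := sq_nonneg' _
  obtain ⟨hk3, _⟩ := sb_root hK
  obtain ⟨ha3, ha2⟩ := sb_root (hG i).le
  obtain ⟨hb3, hb2⟩ := sb_root (hG (i + 1)).le
  have ha : 0 < (G i) ^ ((1 : ℝ) / 3) := Real.rpow_pos_of_pos (hG i) _
  have hb : 0 < (G (i + 1)) ^ ((1 : ℝ) / 3) := Real.rpow_pos_of_pos (hG (i + 1)) _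
  have hk : 0 ≤ (sq (L G)) ^ ((1 : ℝ) / 3) := Real.rpow_nonneg hK _
  have hc := cube_bound G hG i
  rw [ha2, hb2]
  set a := (G i) ^ ((1 : ℝ) / 3) with hadef
  set b := (G (i + 1)) ^ ((1 : ℝ) / 3) with hbdef
  set k := (sq (L G)) ^ ((1 : ℝ) / 3) with hkdef
  have hD : D G i = N * (b ^ 3 - a ^ 3) := by
    rw [hb3, ha3]
    rfl
  rw [hD, ← hk3, ← ha3, ← hb3] at hc
  rcases le_total a b with hab | hab
  · have hle : a ^ 3 ≤ b ^ 3 := pow_le_pow_left₀ ha.le hab 3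
    rw [max_eq_right hle, abs_of_nonneg (mul_nonneg hN.le (by linarith))] at hc
    rw [abs_of_nonneg (by nlinarith)]
    exact sb_aux ha hab hk hN hc
  · have hle : b ^ 3 ≤ a ^ 3 := pow_le_pow_left₀ hb.le hab 3
    have hneg : (N : ℝ) * (b ^ 3 - a ^ 3) = -(N * (a ^ 3 - b ^ 3)) := by ring
    rw [max_eq_left hle, hneg, abs_neg, abs_of_nonneg (mul_nonneg hN.le (by linarith))] at hc
    rw [abs_sub_comm, abs_of_nonneg (by nlinarith)]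
    exact sb_aux hb hab hk hN hc

theorem rpow_lip {N : ℕ} [NeZero N] (G : ZMod N → ℝ) (hG : ∀ i, 0 < G i) (i : ZMod N) (m : ℕ) :
    |(G (i + (m : ZMod N))) ^ ((2 : ℝ) / 3) - (G i) ^ ((2 : ℝ) / 3)|
      ≤ 2 * (sq (L G)) ^ ((1 : ℝ) / 3) * ((m : ℝ) / N) := by
  induction m with
  | zero => simp
  | succ m ih =>
    have h1 := sb_step G hG (i + (m : ZMod N))
    have h2 : i + ((m + 1 : ℕ) : ZMod N) = i + (m : ZMod N) + 1 := by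
      push_cast
      ring
    rw [h2]
    have h3 : |(G (i + (m : ZMod N) + 1)) ^ ((2 : ℝ) / 3) - (G i) ^ ((2 : ℝ) / 3)| ≤
        |(G (i + (m : ZMod N) + 1)) ^ ((2 : ℝ) / 3) - (G (i + (m : ZMod N))) ^ ((2 : ℝ) / 3)| +
        |(G (i + (m : ZMod N))) ^ ((2 : ℝ) / 3) - (G i) ^ ((2 : ℝ) / 3)| :=
      abs_sub_le _ _ _
    calc |(G (i + (m : ZMod N) + 1)) ^ ((2 : ℝ) / 3) - (G i) ^ ((2 : ℝ) / 3)| ≤ _ := h3
      _ ≤ 2 * (sq (L G)) ^ ((1 : ℝ) / 3) / N + 2 * (sq (L G)) ^ ((1 : ℝ) / 3) * ((m : ℝ) / N) :=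
          add_le_add h1 ih
      _ = 2 * (sq (L G)) ^ ((1 : ℝ) / 3) * (((m + 1 : ℕ) : ℝ) / N) := by
          push_cast
          ring

end Pool.Agent.H37.DP
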