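import Pool.Agent.H37.DP.Grid

/-!
MODULE SC: lower bound for `G`.  If `G > 0`, `avg (1/G) = 1`, `sq (L G) ≤ κ²`, `κ ≥ 1`, `N ≥ 3`,
then `G ≥ 1/(32 κ²)`.

PROOF.  Let `G` attain its minimum `m0` at `p`.  As `avg (1/G) = 1`, `m0 ≤ 1`.
`D G (p-1) = N (G p - G (p-1)) ≤ 0`, and `D G p - D G (p-1) = L G p / N`, with
`|L G p| / N ≤ √N κ / N` (because `(L G p)² ≤ N sq (L G)`); so `D G p ≤ √(1/N) κ`.
By `path` for `f = D G` (`sq (D (D G)) = sq (L G)`): `D G (p+l) ≤ (√(1/N) + √(l/N)) κ` for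
`l ≤ N`.  By `path_sum`, for `1 ≤ j ≤ N`:
`G (p+j) ≤ m0 + (1/N) ∑_{l<j} (√(1/N) + √(l/N)) κ ≤ m0 + 2 (j/N)^(3/2) κ`.
Let `x = (m0/(2κ))^(2/3) ≤ (1/2)^(2/3) < 0.63`, `J = ⌊x N⌋₊ + 1`; `J ≤ 0.63 N + 1 ≤ N` for
`N ≥ 3`, and `J/N ≥ x`.  For `0 ≤ j ≤ J - 1`, `j/N ≤ x`, so `G (p+j) ≤ m0 + 2 x^(3/2) κ = 2 m0`.
Hence `1 = avg (1/G) ≥ (J/N) / (2 m0) ≥ x / (2 m0)`, i.e. `(m0/(2κ))^(2/3) ≤ 2 m0`, i.e.
`m0^(1/3) ≥ (1/2) (2κ)^(-2/3)`, cubing: `m0 ≥ (1/8) (2κ)^(-2) = 1/(32κ²)`.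
-/

namespace Pool.Agent.H37.DP

open Set Filter Topology

private theorem sc_sq_term {N : ℕ} [NeZero N] (f : ZMod N → ℝ) (i : ZMod N) :
    (f i) ^ 2 ≤ N * sq f := by
  have hN : (0 : ℝ) < N := by
    have := NeZero.pos N
    exact_mod_cast this
  have h : (N : ℝ) * sq f = ∑ j, (f j) ^ 2 := by
    unfold sq avg
    field_simp
  rw [h]
  exact Finset.single_le_sum (f := fun j => (f j) ^ 2) (fun j _ => sq_nonneg _) (Finset.mem_univ i)

private theorem sc_sum_range {N : ℕ} [NeZero N] (f : ZMod N → ℝ) (hf : ∀ i, 0 ≤ f i)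
    (p : ZMod N) {J : ℕ} (hJ : J ≤ N) :
    ∑ l ∈ Finset.range J, f (p + (l : ZMod N)) ≤ ∑ i, f i := by
  have hinj : Set.InjOn (fun l : ℕ => p + (l : ZMod N)) (Finset.range J : Set ℕ) := by
    intro a ha b hb hab
    have ha' : a < N := lt_of_lt_of_le (Finset.mem_range.mp (Finset.mem_coe.mp ha)) hJ
    have hb' : b < N := lt_of_lt_of_le (Finset.mem_range.mp (Finset.mem_coe.mp hb)) hJ
    have h1 : (a : ZMod N) = (b : ZMod N) := add_left_cancel hab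
    have h2 := (ZMod.natCast_eq_natCast_iff' a b N).mp h1
    rwa [Nat.mod_eq_of_lt ha', Nat.mod_eq_of_lt hb'] at h2
  have h1 : ∑ l ∈ Finset.range J, f (p + (l : ZMod N))
      = ∑ i ∈ (Finset.range J).image (fun l : ℕ => p + (l : ZMod N)), f i := by
    rw [Finset.sum_image hinj]
  rw [h1]
  exact Finset.sum_le_univ_sum_of_nonneg hf

theorem G_lower {N : ℕ} [NeZero N] (hN : 3 ≤ N) (G : ZMod N → ℝ) (hG : ∀ i, 0 < G i)
    (havg : avg (ginv G) = 1) {κ : ℝ} (hκ : 1 ≤ κ) (hK : sq (L G) ≤ κ ^ 2) (i : ZMod N) :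
    1 / (32 * κ ^ 2) ≤ G i := by
  obtain ⟨p, hp⟩ := Finite.exists_min G
  refine le_trans ?_ (hp i)
  have hκ0 : (0 : ℝ) < κ := by linarith
  have hN0 : (0 : ℝ) < N := by
    have : 0 < N := by omega
    exact_mod_cast this
  have hN3 : (3 : ℝ) ≤ N := by exact_mod_cast hN
  set m0 : ℝ := G p with hm0
  have hm0pos : 0 < m0 := hG p
  have hsum : ∑ j, (G j)⁻¹ = N := by
    have h := havg
    unfold avg ginv at h
    field_simp at h
    simpa using h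
  have hm1 : m0 ≤ 1 := by
    have h1 : ∑ j : ZMod N, (G j)⁻¹ ≤ ∑ _j : ZMod N, m0⁻¹ :=
      Finset.sum_le_sum fun j _ => inv_anti₀ hm0pos (hp j)
    rw [hsum, Finset.sum_const, Finset.card_univ, ZMod.card, nsmul_eq_mul] at h1
    have h2 : (1 : ℝ) ≤ m0⁻¹ := by
      by_contra hc
      push Not at hc
      have : (N : ℝ) * m0⁻¹ < N * 1 := mul_lt_mul_of_pos_left hc hN0
      linarith
    have h3 := (one_le_inv₀ hm0pos).mp h2
    exact h3
  have hsqL : Real.sqrt (sq (L G)) ≤ κ := by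
    rw [← Real.sqrt_sq hκ0.le]
    exact Real.sqrt_le_sqrt hK
  have hDm : D G (p - 1) ≤ 0 := by
    unfold D
    rw [sub_add_cancel]
    have : G p - G (p - 1) ≤ 0 := by linarith [hp (p - 1)]
    exact mul_nonpos_of_nonneg_of_nonpos hN0.le this
  have hLp : D G p = D G (p - 1) + L G p / N := by
    rw [L_eq]
    conv_rhs => rw [show D (D G) (p - 1) = N * (D G (p - 1 + 1) - D G (p - 1)) from rfl]
    rw [sub_add_cancel]
    field_simp
    ring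
  have hLabs : |L G p| ≤ Real.sqrt N * κ := by
    have h1 : (L G p) ^ 2 ≤ N * κ ^ 2 :=
      (sc_sq_term (L G) p).trans (mul_le_mul_of_nonneg_left hK hN0.le)
    have h2 : |L G p| = Real.sqrt ((L G p) ^ 2) := (Real.sqrt_sq_eq_abs _).symm
    rw [h2]
    calc Real.sqrt ((L G p) ^ 2) ≤ Real.sqrt (N * κ ^ 2) := Real.sqrt_le_sqrt h1
      _ = Real.sqrt N * κ := by rw [Real.sqrt_mul hN0.le, Real.sqrt_sq hκ0.le]
  have hsqrtN : Real.sqrt N / N = Real.sqrt (1 / N) := by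
    rw [Real.sqrt_div zero_le_one, Real.sqrt_one]
    have h := Real.mul_self_sqrt hN0.le
    have h0 : 0 < Real.sqrt N := Real.sqrt_pos.mpr hN0
    rw [div_eq_div_iff hN0.ne' h0.ne']
    linarith
  have hDp : D G p ≤ Real.sqrt (1 / N) * κ := by
    rw [hLp]
    have h1 : L G p / N ≤ Real.sqrt N * κ / N :=
      div_le_div_of_nonneg_right ((le_abs_self _).trans hLabs) hN0.le
    have h2 : Real.sqrt N * κ / N = Real.sqrt (1 / N) * κ := by
      rw [← hsqrtN]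
      ring
    linarith
  have hDl : ∀ l : ℕ, l ≤ N → D G (p + (l : ZMod N))
      ≤ (Real.sqrt (1 / N) + Real.sqrt ((l : ℝ) / N)) * κ := by
    intro l hl
    have h1 := path (D G) p hl
    rw [← sq_L] at h1
    have h2 : D G (p + (l : ZMod N)) - D G p ≤ Real.sqrt ((l : ℝ) / N) * κ :=
      (le_abs_self _).trans (h1.trans (mul_le_mul_of_nonneg_left hsqL (Real.sqrt_nonneg _)))
    have h3 : (Real.sqrt (1 / N) + Real.sqrt ((l : ℝ) / N)) * κ
        = Real.sqrt (1 / N) * κ + Real.sqrt ((l : ℝ) / N) * κ := by ring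
    rw [h3]
    linarith
  have hGj : ∀ j : ℕ, j ≤ N → G (p + (j : ZMod N))
      ≤ m0 + 2 * κ * ((j : ℝ) / N * Real.sqrt ((j : ℝ) / N)) := by
    intro j hj
    rw [path_sum G p j]
    have hb : ∑ l ∈ Finset.range j, D G (p + (l : ZMod N))
        ≤ ∑ _l ∈ Finset.range j, (2 * Real.sqrt ((j : ℝ) / N) * κ) := by
      refine Finset.sum_le_sum fun l hl => ?_
      have hlj : l < j := Finset.mem_range.mp hl
      have hlN : l ≤ N := by omega
      refine (hDl l hlN).trans (mul_le_mul_of_nonneg_right ?_ hκ0.le)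
      have h1 : Real.sqrt (1 / N) ≤ Real.sqrt ((j : ℝ) / N) := by
        apply Real.sqrt_le_sqrt
        apply div_le_div_of_nonneg_right _ hN0.le
        have : 1 ≤ j := by omega
        exact_mod_cast this
      have h2 : Real.sqrt ((l : ℝ) / N) ≤ Real.sqrt ((j : ℝ) / N) := by
        apply Real.sqrt_le_sqrt
        apply div_le_div_of_nonneg_right _ hN0.le
        exact_mod_cast hlj.le
      linarith
    rw [Finset.sum_const, Finset.card_range, nsmul_eq_mul] at hb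
    have hb' : (∑ l ∈ Finset.range j, D G (p + (l : ZMod N))) / N
        ≤ ((j : ℝ) * (2 * Real.sqrt ((j : ℝ) / N) * κ)) / N :=
      div_le_div_of_nonneg_right hb hN0.le
    have e : ((j : ℝ) * (2 * Real.sqrt ((j : ℝ) / N) * κ)) / N
        = 2 * κ * ((j : ℝ) / N * Real.sqrt ((j : ℝ) / N)) := by ring
    rw [e] at hb'
    linarith
  -- the cube root
  have hq0 : 0 < m0 / (2 * κ) := by positivity
  obtain ⟨s, hs0, hs3⟩ : ∃ s : ℝ, 0 < s ∧ s ^ 3 = m0 / (2 * κ) := by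
    refine ⟨(m0 / (2 * κ)) ^ ((1 : ℝ) / 3), Real.rpow_pos_of_pos hq0 _, ?_⟩
    rw [← Real.rpow_natCast, ← Real.rpow_mul hq0.le]
    norm_num
  have hm0s : m0 = 2 * κ * s ^ 3 := by
    rw [hs3]
    field_simp
  have hs3le : s ^ 3 ≤ 1 / 2 := by
    rw [hs3, div_le_div_iff₀ (by positivity) (by norm_num)]
    nlinarith
  have hx : s ^ 2 < 2 / 3 := by
    by_contra hc
    push Not at hc
    have h1 : (2 / 3 : ℝ) ^ 3 ≤ (s ^ 2) ^ 3 := pow_le_pow_left₀ (by norm_num) hc 3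
    have h2 : (s ^ 2) ^ 3 = (s ^ 3) ^ 2 := by ring
    have h3 : (s ^ 3) ^ 2 ≤ (1 / 2 : ℝ) ^ 2 := pow_le_pow_left₀ (by positivity) hs3le 2
    rw [h2] at h1
    norm_num at h1 h3
    linarith
  set J : ℕ := ⌊s ^ 2 * N⌋₊ + 1 with hJ
  have hxN0 : 0 ≤ s ^ 2 * N := by positivity
  have hfl : ((⌊s ^ 2 * N⌋₊ : ℕ) : ℝ) ≤ s ^ 2 * N := Nat.floor_le hxN0
  have hfu : s ^ 2 * N < (J : ℝ) := by
    rw [hJ]
    push_cast
    exact Nat.lt_floor_add_one _
  have hJN : J ≤ N := by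
    have h1 : ((⌊s ^ 2 * N⌋₊ : ℕ) : ℝ) + 1 < N + 1 := by
      have : s ^ 2 * N < 2 / 3 * N := mul_lt_mul_of_pos_right hx hN0
      nlinarith
    have h2 : (((⌊s ^ 2 * N⌋₊ + 1 : ℕ)) : ℝ) < ((N + 1 : ℕ) : ℝ) := by
      push_cast
      exact h1
    have h3 : ⌊s ^ 2 * N⌋₊ + 1 < N + 1 := by exact_mod_cast h2
    omega
  have hsmall : ∀ l ∈ Finset.range J, G (p + (l : ZMod N)) ≤ 2 * m0 := by
    intro l hl
    have hl1 : l < J := Finset.mem_range.mp hl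
    have hl2 : l ≤ ⌊s ^ 2 * N⌋₊ := by omega
    have hl3 : (l : ℝ) ≤ s ^ 2 * N := le_trans (by exact_mod_cast hl2) hfl
    have hl4 : (l : ℝ) / N ≤ s ^ 2 := by
      rw [div_le_iff₀ hN0]
      exact hl3
    have hl5 : Real.sqrt ((l : ℝ) / N) ≤ s := by
      rw [← Real.sqrt_sq hs0.le]
      exact Real.sqrt_le_sqrt hl4
    have hl6 : (l : ℝ) / N * Real.sqrt ((l : ℝ) / N) ≤ s ^ 2 * s :=
      mul_le_mul hl4 hl5 (Real.sqrt_nonneg _) (by positivity)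
    have h7 := hGj l (by omega)
    have h8 : 2 * κ * ((l : ℝ) / N * Real.sqrt ((l : ℝ) / N)) ≤ 2 * κ * (s ^ 2 * s) :=
      mul_le_mul_of_nonneg_left hl6 (by positivity)
    have h9 : 2 * κ * (s ^ 2 * s) = m0 := by
      rw [hm0s]
      ring
    linarith
  have hfin : (J : ℝ) * (2 * m0)⁻¹ ≤ N := by
    calc (J : ℝ) * (2 * m0)⁻¹ = ∑ _l ∈ Finset.range J, (2 * m0)⁻¹ := by
          rw [Finset.sum_const, Finset.card_range, nsmul_eq_mul]
      _ ≤ ∑ l ∈ Finset.range J, (G (p + (l : ZMod N)))⁻¹ :=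
          Finset.sum_le_sum fun l hl => inv_anti₀ (hG _) (hsmall l hl)
      _ ≤ ∑ j, (G j)⁻¹ :=
          sc_sum_range (fun j => (G j)⁻¹) (fun j => (inv_pos.mpr (hG j)).le) p hJN
      _ = N := hsum
  have hJ2 : (J : ℝ) ≤ N * (2 * m0) := by
    rw [← div_eq_mul_inv, div_le_iff₀ (by positivity)] at hfin
    exact hfin
  have hx2 : s ^ 2 ≤ 2 * m0 := by
    have h1 : s ^ 2 * N ≤ (2 * m0) * N := by linarith
    exact le_of_mul_le_mul_right h1 hN0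
  have hs4 : 1 ≤ 4 * κ * s := by
    rw [hm0s] at hx2
    have h1 : s ^ 2 * 1 ≤ s ^ 2 * (4 * κ * s) := by nlinarith
    exact le_of_mul_le_mul_left h1 (by positivity)
  have hcube : 1 ≤ (4 * κ * s) ^ 3 := one_le_pow₀ hs4
  rw [div_le_iff₀ (by positivity), hm0s]
  have e : 2 * κ * s ^ 3 * (32 * κ ^ 2) = (4 * κ * s) ^ 3 := by ring
  rw [e]
  exact hcube

end Pool.Agent.H37.DP
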