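import Pool.Agent.H37.DP.SB
import Pool.Agent.H37.DP.SC

/-!
MODULE SD: ratio bound.  `G1, G2 > 0`, `avg (1/G1) = avg (1/G2) = 1`,
`sq (L G1), sq (L G2) ≤ κ²`, `κ ≥ 1`, `N ≥ 3`.  Let `r = log (G1/G2)`.
If `|r i| ≥ ρ` for some `i` and `0 < ρ ≤ 1` then `ρ³ ≤ 1952 κ² sq r`.

PROOF.  By symmetry (`r ↦ - r`, exchange `G1, G2`) let `r i ≥ ρ`: `G1 i ≥ e^ρ G2 i`.
Put `A = (G1 i)^(2/3)`, `B = (G2 i)^(2/3)`; `A ≥ e^(2ρ/3) B ≥ (1 + 2ρ/3) B`.
Let `s = ρ/(122 κ²)`.  By `G_lower`, `B ≥ (32κ²)^(-2/3) ≥ κ^(-4/3)/10.08`, so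
`2 κ^(2/3) s ≤ ρ B / 6` (as `12 * 10.08 ≤ 122`).  By `rpow_lip` (with
`(sq (L G))^(1/3) ≤ κ^(2/3)`), for `j = i ± m`, `m/N ≤ s`:
`(G1 j)^(2/3) ≥ A - ρB/6 ≥ (1+ρ/2) B`, `(G2 j)^(2/3) ≤ (1+ρ/6) B`.
Ratio `≥ (1+ρ/2)/(1+ρ/6) ≥ 1 + ρ/4` (`ρ ≤ 2`).  So
`r j = (3/2) log ((G1 j)^(2/3)/(G2 j)^(2/3)) ≥ (3/2) log (1+ρ/4) ≥ (3/2)(7/8)(ρ/4) ≥ ρ/4`
(`log (1+x) ≥ x - x²/2` for `x ≥ 0`, or `log(1+x) ≥ x/(1+x)`, which also suffices).
The points `i + m`, `i - m` with `m ≤ ⌊sN⌋₊` are `2⌊sN⌋₊ + 1 ≥ sN` distinct points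
(`2⌊sN⌋₊ + 1 ≤ N` as `s ≤ 1/122`; it suffices to use only `i + m`, `0 ≤ m ≤ ⌊sN⌋₊`, which are
`⌊sN⌋₊ + 1 ≥ sN` distinct points).  Hence `sq r ≥ (1/N) (sN) (ρ/4)² = s ρ²/16 = ρ³/(1952 κ²)`.
-/

namespace Pool.Agent.H37.DP

open Set Filter Topology

/-- the sum over an arc of a nonnegative function. -/
private theorem sd_arc {N : ℕ} [NeZero N] (f : ZMod N → ℝ) (hf : ∀ j, 0 ≤ f j) (i : ZMod N)
    (M : ℕ) (hM : M < N) {a : ℝ} (ha : ∀ m ≤ M, a ≤ f (i + (m : ZMod N))) :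
    (M + 1 : ℝ) * a ≤ ∑ j, f j := by
  have hinj : Set.InjOn (fun m : ℕ => i + (m : ZMod N)) (Finset.range (M + 1)) := by
    intro x hx y hy hxy
    simp only [Finset.coe_range, Set.mem_Iio] at hx hy
    have h1 : ((x : ℕ) : ZMod N) = (y : ZMod N) := add_left_cancel hxy
    rw [ZMod.natCast_eq_natCast_iff'] at h1
    rwa [Nat.mod_eq_of_lt (by omega), Nat.mod_eq_of_lt (by omega)] at h1
  have h2 : ∑ m ∈ Finset.range (M + 1), f (i + (m : ZMod N)) =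
      ∑ j ∈ (Finset.range (M + 1)).image (fun m : ℕ => i + (m : ZMod N)), f j := by
    rw [Finset.sum_image hinj]
  have h3 : ∑ j ∈ (Finset.range (M + 1)).image (fun m : ℕ => i + (m : ZMod N)), f j ≤ ∑ j, f j :=
    Finset.sum_le_univ_sum_of_nonneg hf
  have h4 : ∑ _m ∈ Finset.range (M + 1), a ≤ ∑ m ∈ Finset.range (M + 1), f (i + (m : ZMod N)) := by
    apply Finset.sum_le_sum
    intro m hm
    exact ha m (by simpa [Nat.lt_succ_iff] using hm)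
  have h5 : ∑ _m ∈ Finset.range (M + 1), a = (M + 1 : ℝ) * a := by simp
  linarith

private theorem sd_one {N : ℕ} [NeZero N] (hN : 3 ≤ N) (G1 G2 : ZMod N → ℝ) (h1 : ∀ i, 0 < G1 i)
    (h2 : ∀ i, 0 < G2 i) (a2 : avg (ginv G2) = 1)
    {κ : ℝ} (hκ : 1 ≤ κ) (k1 : sq (L G1) ≤ κ ^ 2) (k2 : sq (L G2) ≤ κ ^ 2)
    {ρ : ℝ} (hρ : 0 < ρ) (hρ1 : ρ ≤ 1) (i : ZMod N) (hi : ρ ≤ Real.log (G1 i / G2 i)) :
    ρ ^ 3 ≤ 1952 * κ ^ 2 * sq (fun j => Real.log (G1 j / G2 j)) := by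
  have hκ0 : 0 < κ := by linarith
  have hNp : (0 : ℝ) < N := by
    have : 0 < N := by omega
    exact_mod_cast this
  set k : ℝ := κ ^ ((2 : ℝ) / 3) with hk
  have hkp : 0 < k := Real.rpow_pos_of_pos hκ0 _
  have hk3 : k ^ 3 = κ ^ 2 := by
    rw [hk, ← Real.rpow_natCast, ← Real.rpow_mul hκ0.le, ← Real.rpow_natCast]
    norm_num
  have hkK : ∀ G : ZMod N → ℝ, sq (L G) ≤ κ ^ 2 → (sq (L G)) ^ ((1 : ℝ) / 3) ≤ k := by
    intro G hG
    have e1 : (sq (L G)) ^ ((1 : ℝ) / 3) ≤ (κ ^ 2) ^ ((1 : ℝ) / 3) :=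
      Real.rpow_le_rpow (sq_nonneg' _) hG (by norm_num)
    have e2 : (κ ^ 2) ^ ((1 : ℝ) / 3) = k := by
      rw [hk, ← Real.rpow_natCast, ← Real.rpow_mul hκ0.le]
      norm_num
    rwa [e2] at e1
  have hcube : ∀ x : ℝ, 0 < x → (x ^ ((2 : ℝ) / 3)) ^ 3 = x ^ 2 := by
    intro x hx
    rw [← Real.rpow_natCast, ← Real.rpow_mul hx.le, ← Real.rpow_natCast]
    norm_num
  set A : ℝ := (G1 i) ^ ((2 : ℝ) / 3) with hA
  set B : ℝ := (G2 i) ^ ((2 : ℝ) / 3) with hB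
  have hBp : 0 < B := Real.rpow_pos_of_pos (h2 i) _
  have hAp : 0 < A := Real.rpow_pos_of_pos (h1 i) _
  -- lower bound of B
  have hBlow : 6 / 61 / k ^ 2 ≤ B := by
    have hl := G_lower hN G2 h2 a2 hκ k2 i
    have e1 : (1 / (32 * κ ^ 2)) ^ 2 ≤ (G2 i) ^ 2 := pow_le_pow_left₀ (by positivity) hl 2
    rw [← hcube (G2 i) (h2 i), ← hk3] at e1
    have e2 : (6 / 61 / k ^ 2) ^ 3 ≤ B ^ 3 := by
      refine le_trans ?_ e1
      have e3 : (1 / (32 * k ^ 3)) ^ 2 = 1 / 1024 / k ^ 6 := by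
        field_simp
        ring
      have e4 : (6 / 61 / k ^ 2) ^ 3 = (6 / 61) ^ 3 / k ^ 6 := by
        field_simp
      rw [e3, e4]
      apply div_le_div_of_nonneg_right _ (by positivity)
      norm_num
    exact le_of_pow_le_pow_left₀ (by norm_num) hBp.le e2
  -- A is larger
  have hAB : (1 + 2 * ρ / 3) * B ≤ A := by
    have e1 : Real.exp ρ * G2 i ≤ G1 i := by
      have := Real.exp_le_exp.mpr hi
      rw [Real.exp_log (div_pos (h1 i) (h2 i)), le_div_iff₀ (h2 i)] at this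
      exact this
    have e2 : (Real.exp ρ * G2 i) ^ ((2 : ℝ) / 3) ≤ A :=
      Real.rpow_le_rpow (mul_pos (Real.exp_pos _) (h2 i)).le e1 (by norm_num)
    rw [Real.mul_rpow (Real.exp_pos _).le (h2 i).le, ← Real.exp_mul] at e2
    have e3 : 1 + 2 * ρ / 3 ≤ Real.exp (ρ * (2 / 3)) := by
      have := Real.add_one_le_exp (ρ * (2 / 3))
      linarith
    exact (mul_le_mul_of_nonneg_right e3 hBp.le).trans e2
  set s : ℝ := ρ / (122 * κ ^ 2) with hs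
  have hsp : 0 < s := by positivity
  have hs1 : s ≤ 1 / 122 := by
    rw [hs, div_le_iff₀ (by positivity)]
    have : 1 ≤ κ ^ 2 := one_le_pow₀ hκ
    nlinarith
  set M : ℕ := ⌊s * N⌋₊ with hM
  have hMle : (M : ℝ) ≤ s * N := Nat.floor_le (by positivity)
  have hMlt : M < N := by
    have : (M : ℝ) < N := by
      have : s * N ≤ 1 / 122 * N := mul_le_mul_of_nonneg_right hs1 hNp.le
      linarith
    exact_mod_cast this
  have hMge : s * N ≤ M + 1 := (Nat.lt_floor_add_one _).le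
  have hstep : ∀ m ≤ M, ρ ^ 2 / 16 ≤
      (fun j => (Real.log (G1 j / G2 j)) ^ 2) (i + (m : ZMod N)) := by
    intro m hm
    have hmN : (m : ℝ) / N ≤ s := by
      rw [div_le_iff₀ hNp]
      have : (m : ℝ) ≤ M := by exact_mod_cast hm
      linarith
    have hmN0 : 0 ≤ (m : ℝ) / N := by positivity
    have hdev : 2 * k * s ≤ ρ * B / 6 := by
      have e1 : 2 * k * s = ρ / 6 * (6 / 61 / k ^ 2) := by
        rw [hs, ← hk3]
        field_simp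
        ring
      rw [e1]
      have := mul_le_mul_of_nonneg_left hBlow (show 0 ≤ ρ / 6 by positivity)
      linarith
    have l1 := rpow_lip G1 h1 i m
    have l2 := rpow_lip G2 h2 i m
    set j := i + (m : ZMod N) with hj
    have d1 : 2 * (sq (L G1)) ^ ((1 : ℝ) / 3) * ((m : ℝ) / N) ≤ ρ * B / 6 := by
      refine le_trans ?_ hdev
      apply mul_le_mul _ hmN hmN0 (by positivity)
      linarith [hkK G1 k1]
    have d2 : 2 * (sq (L G2)) ^ ((1 : ℝ) / 3) * ((m : ℝ) / N) ≤ ρ * B / 6 := by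
      refine le_trans ?_ hdev
      apply mul_le_mul _ hmN hmN0 (by positivity)
      linarith [hkK G2 k2]
    have b1 : (1 + ρ / 2) * B ≤ (G1 j) ^ ((2 : ℝ) / 3) := by
      have := (abs_le.mp (l1.trans d1)).1
      nlinarith
    have b2 : (G2 j) ^ ((2 : ℝ) / 3) ≤ (1 + ρ / 6) * B := by
      have := (abs_le.mp (l2.trans d2)).2
      nlinarith
    have x2p : 0 < (G2 j) ^ ((2 : ℝ) / 3) := Real.rpow_pos_of_pos (h2 j) _
    have b3 : (1 + ρ / 4) * (G2 j) ^ ((2 : ℝ) / 3) ≤ (G1 j) ^ ((2 : ℝ) / 3) := by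
      refine le_trans ?_ b1
      calc (1 + ρ / 4) * (G2 j) ^ ((2 : ℝ) / 3) ≤ (1 + ρ / 4) * ((1 + ρ / 6) * B) :=
            mul_le_mul_of_nonneg_left b2 (by positivity)
        _ = ((1 + ρ / 4) * (1 + ρ / 6)) * B := by ring
        _ ≤ (1 + ρ / 2) * B := by
            apply mul_le_mul_of_nonneg_right _ hBp.le
            nlinarith
    have b4 : Real.log ((1 + ρ / 4) * (G2 j) ^ ((2 : ℝ) / 3)) ≤
        Real.log ((G1 j) ^ ((2 : ℝ) / 3)) :=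
      Real.log_le_log (by positivity) b3
    rw [Real.log_mul (by positivity) x2p.ne', Real.log_rpow (h2 j), Real.log_rpow (h1 j)] at b4
    have b5 : ρ / 5 ≤ Real.log (1 + ρ / 4) := by
      have := Real.one_sub_inv_le_log_of_pos (show 0 < 1 + ρ / 4 by positivity)
      refine le_trans ?_ this
      have e : 1 - (1 + ρ / 4)⁻¹ = (ρ / 4) / (1 + ρ / 4) := by
        field_simp
        ring
      rw [e, le_div_iff₀ (by positivity)]
      nlinarith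
    have b6 : ρ / 4 ≤ Real.log (G1 j / G2 j) := by
      rw [Real.log_div (h1 j).ne' (h2 j).ne']
      linarith
    have b7 : ρ ^ 2 / 16 = (ρ / 4) ^ 2 := by ring
    simp only
    rw [b7]
    exact pow_le_pow_left₀ (by positivity) b6 2
  have hfin := sd_arc (fun j => (Real.log (G1 j / G2 j)) ^ 2) (fun j => sq_nonneg _) i M hMlt hstep
  have hsq : sq (fun j => Real.log (G1 j / G2 j)) =
      (∑ j, (Real.log (G1 j / G2 j)) ^ 2) / N := rfl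
  have h6 : s * ρ ^ 2 / 16 ≤ sq (fun j => Real.log (G1 j / G2 j)) := by
    rw [hsq, le_div_iff₀ hNp]
    refine le_trans ?_ hfin
    have := mul_le_mul_of_nonneg_right hMge (show 0 ≤ ρ ^ 2 / 16 by positivity)
    linarith
  have h7 : ρ ^ 3 = 1952 * κ ^ 2 * (s * ρ ^ 2 / 16) := by
    rw [hs]
    field_simp
    ring
  rw [h7]
  exact mul_le_mul_of_nonneg_left h6 (by positivity)

theorem ratio {N : ℕ} [NeZero N] (hN : 3 ≤ N) (G1 G2 : ZMod N → ℝ) (h1 : ∀ i, 0 < G1 i)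
    (h2 : ∀ i, 0 < G2 i) (a1 : avg (ginv G1) = 1) (a2 : avg (ginv G2) = 1)
    {κ : ℝ} (hκ : 1 ≤ κ) (k1 : sq (L G1) ≤ κ ^ 2) (k2 : sq (L G2) ≤ κ ^ 2)
    {ρ : ℝ} (hρ : 0 < ρ) (hρ1 : ρ ≤ 1) (i : ZMod N) (hi : ρ ≤ |Real.log (G1 i / G2 i)|) :
    ρ ^ 3 ≤ 1952 * κ ^ 2 * sq (fun j => Real.log (G1 j / G2 j)) := by
  rcases le_total 0 (Real.log (G1 i / G2 i)) with h | h
  · rw [abs_of_nonneg h] at hi
    exact sd_one hN G1 G2 h1 h2 a2 hκ k1 k2 hρ hρ1 i hi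
  · rw [abs_of_nonpos h] at hi
    have e : ∀ j, Real.log (G2 j / G1 j) = -Real.log (G1 j / G2 j) := by
      intro j
      rw [Real.log_div (h2 j).ne' (h1 j).ne', Real.log_div (h1 j).ne' (h2 j).ne']
      ring
    have := sd_one hN G2 G1 h2 h1 a1 hκ k2 k1 hρ hρ1 i (by rwa [e i])
    have e2 : sq (fun j => Real.log (G2 j / G1 j)) = sq (fun j => Real.log (G1 j / G2 j)) := by
      unfold sq
      congr 1
      funext j
      simp only
      rw [e j]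
      ring
    rwa [e2] at this

end Pool.Agent.H37.DP
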