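import Pool.Agent.H37.DP.Grid

/-!
MODULE SE: `avg (L w * L (1/w)) ≤ - (1/2) S + 2 Q` with `S = Sq w`, `Q = Qv w`, `w > 0`.

PROOF.  Put `P = Pq w`, `P i = (D w i)²/(w i w(i+1))`.  From `L_ginv`:
`L w i = - (w i)² L G i + w i (P i + P (i-1))`, `G = ginv w`
(as `(D w i)²/w(i+1) = w i * P i`, `(D w (i-1))²/w(i-1) = w i * P (i-1)`).
Hence `L w i * L G i = - (w i L G i)² + (w i L G i)(P i + P (i-1))
 ≤ - (1/2)(w i L G i)² + (1/2)(P i + P(i-1))² ≤ - (1/2)(w i L G i)² + (P i)² + (P (i-1))²`.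
Average and use `avg_shift_neg`.

Second statement: `sq (L w) ≤ 2 avg (w⁴ (L G)²) + ...` in the form
`|L w i| ≤ w i * (|w i * L G i| + P i + P (i-1))`.
-/

namespace Pool.Agent.H37.DP

open Set Filter Topology

theorem L_w_eq {N : ℕ} (w : ZMod N → ℝ) (hw : ∀ i, 0 < w i) (i : ZMod N) :
    L w i = w i * (- (w i * L (ginv w) i) + (Pq w i + Pq w (i - 1))) := by
  have h0 := hw i
  have h1 := hw (i + 1)
  have h2 := hw (i - 1)
  rw [L_ginv w hw i]
  simp only [Pq, ginv, sub_add_cancel]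
  field_simp
  ring

private theorem se_pt {N : ℕ} (w : ZMod N → ℝ) (hw : ∀ i, 0 < w i) (i : ZMod N) :
    L w i * L (ginv w) i ≤
      (- (1 / 2) * (w i * L (ginv w) i) ^ 2 + (Pq w i) ^ 2) + (Pq w (i - 1)) ^ 2 := by
  rw [L_w_eq w hw i]
  nlinarith [sq_nonneg (w i * L (ginv w) i - (Pq w i + Pq w (i - 1))),
    sq_nonneg (Pq w i - Pq w (i - 1))]

theorem avg_Lw_LG {N : ℕ} [NeZero N] (w : ZMod N → ℝ) (hw : ∀ i, 0 < w i) :
    avg (fun i => L w i * L (ginv w) i) ≤ - (1 / 2) * Sq w + 2 * Qv w := by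
  refine (avg_mono (se_pt w hw)).trans (le_of_eq ?_)
  rw [avg_add, avg_add, avg_mul_left]
  have h3 : avg (fun i => (Pq w (i - 1)) ^ 2) = Qv w :=
    avg_shift_neg (fun i => (Pq w i) ^ 2)
  rw [h3]
  show - (1 / 2) * Sq w + Qv w + Qv w = _
  ring

theorem abs_L_w_le {N : ℕ} (w : ZMod N → ℝ) (hw : ∀ i, 0 < w i) (i : ZMod N) :
    |L w i| ≤ w i * (|w i * L (ginv w) i| + Pq w i + Pq w (i - 1)) := by
  have h0 := hw i
  have hP : ∀ j, 0 ≤ Pq w j := fun j => by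
    unfold Pq
    have := hw j
    have := hw (j + 1)
    positivity
  have h1 := hP i
  have h2 := hP (i - 1)
  rw [L_w_eq w hw i, abs_mul, abs_of_pos h0]
  refine mul_le_mul_of_nonneg_left ?_ h0.le
  have h3 : |-(w i * L (ginv w) i) + (Pq w i + Pq w (i - 1))|
      ≤ |-(w i * L (ginv w) i)| + |Pq w i + Pq w (i - 1)| := abs_add_le _ _
  rw [abs_neg, abs_of_nonneg (add_nonneg h1 h2)] at h3
  linarith

end Pool.Agent.H37.DP
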