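import Pool.Agent.H37.DP.SA

/-!
MODULE SF: upper bounds.  `w > 0`, `avg w = 1`.
(a) `w i ≤ 1 + √(2 Y)`, `Y = Yq w`;
(b) `avg |D w| ≤ √(2 Y)`;
(c) `Q ≤ K² (4 + 24 Y)`, `Q = Qv w`, `K² = K2 w`;
(d) `Q ≤ 8 K² W √(2Y)` if `w ≤ W`.

PROOF.  (b) Cauchy-Schwarz: `|D w i| = (|D w i|/√(w i + w(i+1))) * √(w i + w(i+1))`, and
`avg (w i + w (i+1)) = 2`.
(a) some `j` has `w j ≤ 1`; `osc` and (b).
(c),(d) `P i = (D w i)²/(w i w(i+1))`; with `G = 1/w`, `D G i = - D w i/(w i w(i+1))` (`D_ginv`):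
`P i ^ 2 = |D G i|³ |D G i| (w i w(i+1))²  ≤ 8 K² max (G i) (G(i+1)) * |D G i| (w i w (i+1))²
 = 8 K² * max (w i) (w (i+1)) * |D w i|`
(`max(G i, G(i+1)) w i w(i+1) = max (w i, w (i+1))`; `|D G i| w i w(i+1) = |D w i|`).
Average: `Q ≤ 8 K² (max w) avg |D w| ≤ 8 K² (1 + √(2Y)) √(2Y)`, and
`(1+x) x ≤ 1/2 + (3/2) x²`, so `Q ≤ K² (4 + 12 * 2Y)`.
-/

namespace Pool.Agent.H37.DP

open Set Filter Topology

private theorem sf_Y_nonneg {N : ℕ} [NeZero N] (w : ZMod N → ℝ) (hw : ∀ i, 0 < w i) :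
    0 ≤ Yq w := by
  refine avg_nonneg fun i => ?_
  have := hw i
  have := hw (i + 1)
  positivity

theorem avg_abs_D_le {N : ℕ} [NeZero N] (w : ZMod N → ℝ) (hw : ∀ i, 0 < w i)
    (havg : avg w = 1) : avg (fun i => |D w i|) ≤ Real.sqrt (2 * Yq w) := by
  have e : (fun i => |D w i|) = fun i => (|D w i| / Real.sqrt (w i + w (i + 1)))
      * Real.sqrt (w i + w (i + 1)) := by
    funext i
    have h1 : 0 < w i + w (i + 1) := add_pos (hw i) (hw (i + 1))
    rw [div_mul_cancel₀ _ (Real.sqrt_pos.mpr h1).ne']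
  rw [e]
  refine (le_abs_self _).trans ((cs' _ _).trans (le_of_eq ?_))
  have e1 : sq (fun i => |D w i| / Real.sqrt (w i + w (i + 1))) = Yq w := by
    unfold sq Yq
    congr 1
    funext i
    have h1 : 0 ≤ w i + w (i + 1) := (add_pos (hw i) (hw (i + 1))).le
    rw [div_pow, sq_abs, Real.sq_sqrt h1]
  have e2 : sq (fun i => Real.sqrt (w i + w (i + 1))) = 2 := by
    have h2 : sq (fun i => Real.sqrt (w i + w (i + 1))) = avg (fun i => w i + w (i + 1)) := by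
      unfold sq
      congr 1
      funext i
      exact Real.sq_sqrt (add_pos (hw i) (hw (i + 1))).le
    rw [h2, avg_add, avg_shift_one, havg]
    norm_num
  rw [e1, e2, ← Real.sqrt_mul (sf_Y_nonneg w hw), mul_comm]

theorem w_le {N : ℕ} [NeZero N] (w : ZMod N → ℝ) (hw : ∀ i, 0 < w i)
    (havg : avg w = 1) (i : ZMod N) : w i ≤ 1 + Real.sqrt (2 * Yq w) := by
  have h : ∀ j, w i - w j ≤ Real.sqrt (2 * Yq w) := fun j =>
    (le_abs_self _).trans ((osc w i j).trans (avg_abs_D_le w hw havg))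
  have h2 := avg_mono h
  rw [avg_const, avg_sub, avg_const, havg] at h2
  linarith

private theorem sf_pt {N : ℕ} [NeZero N] (w : ZMod N → ℝ) (hw : ∀ i, 0 < w i) (i : ZMod N) :
    (Pq w i) ^ 2 ≤ 8 * K2 w * max (w i) (w (i + 1)) * |D w i| := by
  have h0 := hw i
  have h1 := hw (i + 1)
  have hG : ∀ j, 0 < ginv w j := fun j => inv_pos.mpr (hw j)
  have hc := cube_bound (ginv w) hG i
  have hK : sq (L (ginv w)) = K2 w := rfl
  rw [hK] at hc
  have hDG : |D (ginv w) i| = |D w i| / (w i * w (i + 1)) := by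
    rw [D_ginv w hw i]
    have e : -(D w i * ginv w i * ginv w (i + 1)) = -(D w i / (w i * w (i + 1))) := by
      unfold ginv
      field_simp
    rw [e, abs_neg, abs_div, abs_of_pos (mul_pos h0 h1)]
  have hmax : max (ginv w i) (ginv w (i + 1)) * (w i * w (i + 1)) = max (w i) (w (i + 1)) := by
    rw [max_mul_of_nonneg _ _ (mul_pos h0 h1).le]
    have e1 : ginv w i * (w i * w (i + 1)) = w (i + 1) := by
      unfold ginv
      field_simp
    have e2 : ginv w (i + 1) * (w i * w (i + 1)) = w i := by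
      unfold ginv
      field_simp
    rw [e1, e2, max_comm]
  have e3 : (Pq w i) ^ 2
      = |D (ginv w) i| ^ 3 * (|D w i| * (w i * w (i + 1))) := by
    rw [hDG]
    unfold Pq
    have e4 : (D w i) ^ 2 = |D w i| ^ 2 := (sq_abs _).symm
    rw [e4]
    field_simp
  rw [e3]
  have h5 : 0 ≤ |D w i| * (w i * w (i + 1)) := by positivity
  refine (mul_le_mul_of_nonneg_right hc h5).trans (le_of_eq ?_)
  rw [← hmax]
  ring

private theorem sf_K_nonneg {N : ℕ} [NeZero N] (w : ZMod N → ℝ) : 0 ≤ K2 w := sq_nonneg' _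

theorem Q_le' {N : ℕ} [NeZero N] (w : ZMod N → ℝ) (hw : ∀ i, 0 < w i)
    (havg : avg w = 1) {A : ℝ} (hA : ∀ i, w i ≤ A) :
    Qv w ≤ 8 * K2 w * A * Real.sqrt (2 * Yq w) := by
  have hA0 : 0 ≤ A := (hw 0).le.trans (hA 0)
  have hK := sf_K_nonneg w
  have h : ∀ i, (Pq w i) ^ 2 ≤ (8 * K2 w * A) * |D w i| := by
    intro i
    refine (sf_pt w hw i).trans (mul_le_mul_of_nonneg_right ?_ (abs_nonneg _))
    exact mul_le_mul_of_nonneg_left (max_le (hA i) (hA (i + 1))) (by positivity)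
  have h2 := avg_mono h
  rw [avg_mul_left] at h2
  refine (show Qv w ≤ _ from h2).trans ?_
  exact mul_le_mul_of_nonneg_left (avg_abs_D_le w hw havg) (by positivity)

theorem Q_le {N : ℕ} [NeZero N] (w : ZMod N → ℝ) (hw : ∀ i, 0 < w i)
    (havg : avg w = 1) : Qv w ≤ K2 w * (4 + 24 * Yq w) := by
  have h := Q_le' w hw havg (w_le w hw havg)
  have hK := sf_K_nonneg w
  have hY := sf_Y_nonneg w hw
  have hs : Real.sqrt (2 * Yq w) ^ 2 = 2 * Yq w := Real.sq_sqrt (by positivity)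
  refine h.trans ?_
  have h3 : 8 * ((1 + Real.sqrt (2 * Yq w)) * Real.sqrt (2 * Yq w)) ≤ 4 + 24 * Yq w := by
    nlinarith [sq_nonneg (Real.sqrt (2 * Yq w) - 1)]
  calc 8 * K2 w * (1 + Real.sqrt (2 * Yq w)) * Real.sqrt (2 * Yq w)
      = K2 w * (8 * ((1 + Real.sqrt (2 * Yq w)) * Real.sqrt (2 * Yq w))) := by ring
    _ ≤ K2 w * (4 + 24 * Yq w) := mul_le_mul_of_nonneg_left h3 hK

end Pool.Agent.H37.DP
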