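import Pool.Agent.H37.DP.Grid

/-!
MODULE SG: bound for the time derivative of `Y`.  `w > 0`, `n` any grid function (`n = w_t`).
`Y' = avg (2 D w D n / s - (D w)² (n + n₊)/s²)`, `s i = w i + w(i+1)`, satisfies
`|Y'| ≤ √(sq n) (2 √S + 11 √Q)`, `S = Sq w`, `Q = Qv w`.

PROOF.  Let `G = ginv w`, `P = Pq w`.
First part: by summation by parts (`sbp_D'`, i.e. `avg (h * D n) = - avg (D h (i-1) * n i)`),
`2 avg ((D w/s) D n) = - 2 avg (R i * n i)`,
`R i = N (D w i/s i - D w (i-1)/s (i-1)) = L w i/s i - D w (i-1) (D w i + D w (i-1))/(s i s(i-1))`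
(since `L w i = N (D w i - D w (i-1))`, `s i - s (i-1) = w (i+1) - w (i-1)
= (D w i + D w (i-1))/N`).
By `L_ginv`: `|L w i|/s i ≤ w i |L G i| + P i + P (i-1)` (`w i ≤ s i`,
`(D w i)²/w(i+1) = w i P i ≤ s i P i`, same for `P (i-1)`).
`(D w (i-1))²/(s i s (i-1)) ≤ (D w(i-1))²/(w i w (i-1)) = P (i-1)`, and
`|D w (i-1) D w i|/(s i s(i-1)) ≤ (1/2)((D w i)²/(s i)² + (D w (i-1))²/(s (i-1))²)
 ≤ (P i + P (i-1))/8` (`s² ≥ 4 w w₊`).
So `|R i| ≤ w i |L G i| + 2 P i + 3 P (i-1)`, and by Cauchy-Schwarz and Minkowski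
`2 |avg (R n)| ≤ 2 √(sq n) (√S + 5 √Q)`.
Second part: `(D w i)²/(s i)² ≤ P i/4`, so `|avg (..)| ≤ avg (P i/4 (|n i| + |n (i+1)|))
≤ (1/2) √Q √(sq n)`.  Total `≤ √(sq n)(2√S + 10.5 √Q)`.
-/

namespace Pool.Agent.H37.DP

open Set Filter Topology

private theorem sg_P_nonneg {N : ℕ} (w : ZMod N → ℝ) (hw : ∀ i, 0 < w i) (i : ZMod N) :
    0 ≤ Pq w i := by
  unfold Pq
  have := hw i
  have := hw (i + 1)
  positivity

private theorem sg_Lw {N : ℕ} (w : ZMod N → ℝ) (hw : ∀ i, 0 < w i) (i : ZMod N) :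
    |L w i| ≤ w i * (|w i * L (ginv w) i| + Pq w i + Pq w (i - 1)) := by
  have h0 := hw i
  have h1 := sg_P_nonneg w hw i
  have h2 := sg_P_nonneg w hw (i - 1)
  have e : L w i = w i * (- (w i * L (ginv w) i) + (Pq w i + Pq w (i - 1))) := by
    have h0 := hw i
    have h1 := hw (i + 1)
    have h2 := hw (i - 1)
    rw [L_ginv w hw i]
    simp only [Pq, ginv, sub_add_cancel]
    field_simp
    ring
  rw [e, abs_mul, abs_of_pos h0]
  refine mul_le_mul_of_nonneg_left ?_ h0.le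
  have h3 : |-(w i * L (ginv w) i) + (Pq w i + Pq w (i - 1))|
      ≤ |-(w i * L (ginv w) i)| + |Pq w i + Pq w (i - 1)| := abs_add_le _ _
  rw [abs_neg, abs_of_nonneg (add_nonneg h1 h2)] at h3
  linarith

/-- `(D w i)²/s² ≤ P/4` -/
private theorem sg_quarter {N : ℕ} (w : ZMod N → ℝ) (hw : ∀ i, 0 < w i) (i : ZMod N) :
    (D w i) ^ 2 / (w i + w (i + 1)) ^ 2 ≤ Pq w i / 4 := by
  have h0 := hw i
  have h1 := hw (i + 1)
  unfold Pq
  rw [div_div, div_le_div_iff₀ (by positivity) (by positivity)]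
  nlinarith [mul_nonneg (sq_nonneg (D w i)) (sq_nonneg (w i - w (i + 1)))]

private theorem sg_R {N : ℕ} (w : ZMod N → ℝ) (hw : ∀ i, 0 < w i) (i : ZMod N) :
    |D (fun j => D w j / (w j + w (j + 1))) (i - 1)|
      ≤ |(fun j => w j * L (ginv w) j) i| + 2 * Pq w i + 3 * Pq w (i - 1) := by
  have h0 := hw i
  have h1 := hw (i + 1)
  have h2 := hw (i - 1)
  have hs : 0 < w i + w (i + 1) := by positivity
  have hs' : 0 < w (i - 1) + w i := by positivity
  have e : D (fun j => D w j / (w j + w (j + 1))) (i - 1)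
      = L w i / (w i + w (i + 1))
        - D w (i - 1) * (D w i + D w (i - 1)) / ((w i + w (i + 1)) * (w (i - 1) + w i)) := by
    simp only [D, L, sub_add_cancel]
    field_simp
    ring
  have a1 : |L w i / (w i + w (i + 1))| ≤ |w i * L (ginv w) i| + Pq w i + Pq w (i - 1) := by
    rw [abs_div, abs_of_pos hs, div_le_iff₀ hs]
    have h3 := sg_Lw w hw i
    have h4 : 0 ≤ |w i * L (ginv w) i| + Pq w i + Pq w (i - 1) := by
      have := sg_P_nonneg w hw i
      have := sg_P_nonneg w hw (i - 1)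
      positivity
    nlinarith
  have a2 : (D w (i - 1)) ^ 2 / ((w i + w (i + 1)) * (w (i - 1) + w i)) ≤ Pq w (i - 1) := by
    unfold Pq
    rw [sub_add_cancel]
    refine div_le_div_of_nonneg_left (sq_nonneg _) (by positivity) ?_
    nlinarith [mul_pos h0 h1, mul_pos h0 h2, mul_pos h1 h2]
  have a3 : |D w (i - 1) * D w i / ((w i + w (i + 1)) * (w (i - 1) + w i))|
      ≤ (Pq w i + Pq w (i - 1)) / 8 := by
    have q1 := sg_quarter w hw i
    have q2 := sg_quarter w hw (i - 1)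
    rw [sub_add_cancel] at q2
    have e3 : D w (i - 1) * D w i / ((w i + w (i + 1)) * (w (i - 1) + w i))
        = (D w (i - 1) / (w (i - 1) + w i)) * (D w i / (w i + w (i + 1))) := by
      field_simp
    rw [e3, abs_mul]
    have e4 : (D w i) ^ 2 / (w i + w (i + 1)) ^ 2 = |D w i / (w i + w (i + 1))| ^ 2 := by
      rw [sq_abs, div_pow]
    have e5 : (D w (i - 1)) ^ 2 / (w (i - 1) + w i) ^ 2
        = |D w (i - 1) / (w (i - 1) + w i)| ^ 2 := by
      rw [sq_abs, div_pow]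
    rw [e4] at q1
    rw [e5] at q2
    nlinarith [sq_nonneg (|D w i / (w i + w (i + 1))| - |D w (i - 1) / (w (i - 1) + w i)|)]
  have e6 : D w (i - 1) * (D w i + D w (i - 1)) / ((w i + w (i + 1)) * (w (i - 1) + w i))
      = D w (i - 1) * D w i / ((w i + w (i + 1)) * (w (i - 1) + w i))
        + (D w (i - 1)) ^ 2 / ((w i + w (i + 1)) * (w (i - 1) + w i)) := by
    ring
  have a4 : 0 ≤ (D w (i - 1)) ^ 2 / ((w i + w (i + 1)) * (w (i - 1) + w i)) := by positivity
  have p1 := sg_P_nonneg w hw i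
  have p2 := sg_P_nonneg w hw (i - 1)
  rw [e, e6]
  have b1 := abs_le.mp a1
  have b3 := abs_le.mp a3
  refine abs_le.mpr ⟨?_, ?_⟩ <;> simp only <;> linarith [b1.1, b1.2, b3.1, b3.2]

private theorem sg_sqrt_mul {N : ℕ} [NeZero N] (c : ℝ) (hc : 0 ≤ c) (f : ZMod N → ℝ) :
    Real.sqrt (sq (fun i => c * f i)) = c * Real.sqrt (sq f) := by
  rw [sq_mul_left, Real.sqrt_mul (by positivity), Real.sqrt_sq hc]

theorem Yderiv_le {N : ℕ} [NeZero N] (w n : ZMod N → ℝ) (hw : ∀ i, 0 < w i) :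
    |avg (fun i => 2 * D w i * D n i / (w i + w (i + 1))
        - (D w i) ^ 2 * (n i + n (i + 1)) / (w i + w (i + 1)) ^ 2)|
      ≤ Real.sqrt (sq n) * (2 * Real.sqrt (Sq w) + 11 * Real.sqrt (Qv w)) := by
  have hQ : Real.sqrt (sq (Pq w)) = Real.sqrt (Qv w) := rfl
  have hS : Real.sqrt (sq (fun j => w j * L (ginv w) j)) = Real.sqrt (Sq w) := rfl
  -- first part
  have e1 : avg (fun i => 2 * D w i * D n i / (w i + w (i + 1)))
      = -(2 * avg (fun i => D (fun j => D w j / (w j + w (j + 1))) (i - 1) * n i)) := by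
    have h1 : (fun i => 2 * D w i * D n i / (w i + w (i + 1)))
        = (fun i => 2 * ((fun j => D w j / (w j + w (j + 1))) i * D n i)) := by
      funext i
      ring
    have h2 := avg_shift_one
      (fun i => D (fun j => D w j / (w j + w (j + 1))) (i - 1) * n i)
    simp only [add_sub_cancel_right] at h2
    rw [h1, avg_mul_left, sbp_D', h2]
    ring
  have b1 : |avg (fun i => D (fun j => D w j / (w j + w (j + 1))) (i - 1) * n i)|
      ≤ (Real.sqrt (Sq w) + 5 * Real.sqrt (Qv w)) * Real.sqrt (sq n) := by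
    refine (cs' _ _).trans (mul_le_mul_of_nonneg_right ?_ (Real.sqrt_nonneg _))
    have h1 : sq (fun i => D (fun j => D w j / (w j + w (j + 1))) (i - 1))
        ≤ sq (fun i => (|(fun j => w j * L (ginv w) j) i| + 2 * Pq w i)
            + 3 * Pq w (i - 1)) := by
      refine sq_mono fun i => ?_
      refine (sg_R w hw i).trans (le_abs_self _)
    refine (Real.sqrt_le_sqrt h1).trans ((sqrt_sq_add_le _ _).trans ?_)
    have h2 := sqrt_sq_add_le (fun i => |(fun j => w j * L (ginv w) j) i|)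
      (fun i => 2 * Pq w i)
    have h3 : Real.sqrt (sq (fun i => |(fun j => w j * L (ginv w) j) i|))
        = Real.sqrt (Sq w) := by
      rw [← hS]
      congr 1
      unfold sq
      congr 1
      funext i
      simp only [sq_abs]
    have h4 : Real.sqrt (sq (fun i => 2 * Pq w i)) = 2 * Real.sqrt (Qv w) := by
      rw [sg_sqrt_mul 2 (by norm_num), hQ]
    have h5 : Real.sqrt (sq (fun i => 3 * Pq w (i - 1))) = 3 * Real.sqrt (Qv w) := by
      rw [sg_sqrt_mul 3 (by norm_num) (fun i => Pq w (i - 1)), sq_shift_neg, hQ]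
    rw [h3, h4] at h2
    rw [h5]
    linarith
  -- second part
  have e2 : avg (fun i => (D w i) ^ 2 * (n i + n (i + 1)) / (w i + w (i + 1)) ^ 2)
      = avg (fun i => ((D w i) ^ 2 / (w i + w (i + 1)) ^ 2) * (n i + n (i + 1))) := by
    congr 1
    funext i
    ring
  have b2 : |avg (fun i => (D w i) ^ 2 * (n i + n (i + 1)) / (w i + w (i + 1)) ^ 2)|
      ≤ (1 / 4 * Real.sqrt (Qv w)) * (2 * Real.sqrt (sq n)) := by
    rw [e2]
    refine (cs' _ _).trans (mul_le_mul ?_ ?_ (Real.sqrt_nonneg _) (by positivity))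
    · have h1 : sq (fun i => (D w i) ^ 2 / (w i + w (i + 1)) ^ 2)
          ≤ sq (fun i => 1 / 4 * Pq w i) := by
        refine sq_mono fun i => ?_
        have h2 := sg_quarter w hw i
        have h3 := sg_P_nonneg w hw i
        rw [abs_of_nonneg (by positivity), abs_of_nonneg (by positivity)]
        linarith
      refine (Real.sqrt_le_sqrt h1).trans (le_of_eq ?_)
      rw [sg_sqrt_mul (1 / 4) (by norm_num), hQ]
    · have h1 := sqrt_sq_add_le n (fun i => n (i + 1))
      rw [sq_shift n 1] at h1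
      linarith
  rw [avg_sub, e1]
  have c1 := abs_le.mp b1
  have c2 := abs_le.mp b2
  have q0 : 0 ≤ Real.sqrt (sq n) * Real.sqrt (Qv w) := by positivity
  refine abs_le.mpr ⟨?_, ?_⟩ <;> nlinarith [c1.1, c1.2, c2.1, c2.2]

end Pool.Agent.H37.DP
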