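import Pool.Agent.H37.DP.SA
import Pool.Agent.H37.DP.SC
import Pool.Agent.H37.DP.SE

/-!
MODULE SH: bounds at good times.  `w > 0`, `avg w = 1`, `K2 w ≤ κ²`, `κ ≥ 1`, `N ≥ 3`.
Then `w ≤ 32 κ²`, `P = Pq w ≤ 512 κ⁴`, `Y ≤ 512 κ⁴`, `sq (L w) ≤ 2³² κ¹²`, `sq w ≤ 32 κ²`.

PROOF.  `w ≤ 32κ²`: `G_lower` for `G = ginv w` (`ginv (ginv w) = w`).
`P i`: with `G = ginv w`, `D G i = - D w i/(w i w(i+1))`, `P i = (D G i)² w i w(i+1)`, so
`P i ³ = |D G i|⁶ (w i w(i+1))³ ≤ 64 κ⁴ max(G)² (w i w(i+1))³ = 64 κ⁴ max(w)² w i w(i+1)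
 ≤ 64 κ⁴ (32κ²)⁴ = 2²⁶ κ¹² ≤ (512 κ⁴)³` (`cube_bound`; here `max(G) = max (G i) (G (i+1))` and
`max(G) w i w(i+1) = max(w)`).
`Y = avg (P i * (w i w(i+1))/(w i + w(i+1))) ≤ 512κ⁴ avg (w i)` since
`w i w(i+1)/(w i + w(i+1)) ≤ w i`.
`sq (L w)`: `abs_L_w_le`: `|L w i| ≤ w i (|w i L G i| + 1024κ⁴)`, so
`(L w i)² ≤ 2 (w i)⁴ (L G i)² + 2 (w i)² (1024κ⁴)² ≤ 2 (32κ²)⁴ (L G i)² + 2 (32κ²)² (1024κ⁴)²`,
average: `≤ 2²¹ κ¹⁰ + 2³¹ κ¹² ≤ 2³² κ¹²`.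
`sq w ≤ 32κ² avg w`.
-/

namespace Pool.Agent.H37.DP

open Set Filter Topology

private theorem sh_ginv_ginv {N : ℕ} (w : ZMod N → ℝ) : ginv (ginv w) = w := by
  funext i
  unfold ginv
  exact inv_inv (w i)

theorem good_w_le {N : ℕ} [NeZero N] (hN : 3 ≤ N) (w : ZMod N → ℝ) (hw : ∀ i, 0 < w i)
    (havg : avg w = 1) {κ : ℝ} (hκ : 1 ≤ κ) (hK : K2 w ≤ κ ^ 2) (i : ZMod N) :
    w i ≤ 32 * κ ^ 2 := by
  have h1 := G_lower hN (ginv w) (fun i => inv_pos.2 (hw i)) (by rw [sh_ginv_ginv]; exact havg)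
    hκ hK i
  have h2 : ginv w i = (w i)⁻¹ := rfl
  rw [h2, ← one_div] at h1
  exact (one_div_le_one_div (by positivity) (hw i)).1 h1

theorem good_sq_w {N : ℕ} [NeZero N] (hN : 3 ≤ N) (w : ZMod N → ℝ) (hw : ∀ i, 0 < w i)
    (havg : avg w = 1) {κ : ℝ} (hκ : 1 ≤ κ) (hK : K2 w ≤ κ ^ 2) :
    sq w ≤ 32 * κ ^ 2 := by
  have h1 : sq w ≤ avg (fun i => (32 * κ ^ 2) * w i) := by
    unfold sq
    refine avg_mono (fun i => ?_)
    have h2 := good_w_le hN w hw havg hκ hK i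
    have h3 := (hw i).le
    nlinarith
  rw [avg_mul_left, havg, mul_one] at h1
  exact h1

private theorem sh_DG {N : ℕ} (w : ZMod N → ℝ) (hw : ∀ i, 0 < w i) (i : ZMod N) :
    Pq w i = |D (ginv w) i| ^ 2 * (w i * w (i + 1)) := by
  have h1 := (hw i).ne'
  have h2 := (hw (i + 1)).ne'
  unfold Pq D ginv
  rw [sq_abs]
  field_simp
  ring

theorem good_P_le {N : ℕ} [NeZero N] (hN : 3 ≤ N) (w : ZMod N → ℝ) (hw : ∀ i, 0 < w i)
    (havg : avg w = 1) {κ : ℝ} (hκ : 1 ≤ κ) (hK : K2 w ≤ κ ^ 2) (i : ZMod N) :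
    Pq w i ≤ 512 * κ ^ 4 := by
  have hG : ∀ i, 0 < ginv w i := fun i => inv_pos.2 (hw i)
  have hcb := cube_bound (ginv w) hG i
  have ha := hw i
  have hb := hw (i + 1)
  have haM := good_w_le hN w hw havg hκ hK i
  have hbM := good_w_le hN w hw havg hκ hK (i + 1)
  set a := w i with haa
  set b := w (i + 1) with hbb
  set g := |D (ginv w) i| with hg
  have hg0 : 0 ≤ g := abs_nonneg _
  set m := max (ginv w i) (ginv w (i + 1)) with hm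
  have hm0 : 0 ≤ m := (hG i).le.trans (le_max_left _ _)
  have hκ0 : 0 < κ := by linarith
  have hab : 0 < a * b := mul_pos ha hb
  have hmab : m * (a * b) ≤ 32 * κ ^ 2 := by
    rcases le_total (ginv w i) (ginv w (i + 1)) with h | h
    · rw [hm, max_eq_right h]
      have e : ginv w (i + 1) = b⁻¹ := rfl
      rw [e]
      have e2 : b⁻¹ * (a * b) = a := by field_simp
      rw [e2]
      exact haM
    · rw [hm, max_eq_left h]
      have e : ginv w i = a⁻¹ := rfl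
      rw [e]
      have e2 : a⁻¹ * (a * b) = b := by field_simp
      rw [e2]
      exact hbM
  have hK' : sq (L (ginv w)) ≤ κ ^ 2 := hK
  have hg3 : g ^ 3 ≤ 8 * κ ^ 2 * m := by
    refine hcb.trans (mul_le_mul_of_nonneg_right ?_ hm0)
    linarith
  have hP := sh_DG w hw i
  rw [← haa, ← hbb, ← hg] at hP
  have h6 : (g ^ 3) ^ 2 ≤ (8 * κ ^ 2 * m) ^ 2 := pow_le_pow_left₀ (by positivity) hg3 2
  have hcube : Pq w i ^ 3 ≤ (512 * κ ^ 4) ^ 3 := by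
    calc Pq w i ^ 3 = (g ^ 3) ^ 2 * (a * b) ^ 3 := by rw [hP]; ring
      _ ≤ (8 * κ ^ 2 * m) ^ 2 * (a * b) ^ 3 := mul_le_mul_of_nonneg_right h6 (by positivity)
      _ = 64 * κ ^ 4 * (m * (a * b)) ^ 2 * (a * b) := by ring
      _ ≤ 64 * κ ^ 4 * (32 * κ ^ 2) ^ 2 * ((32 * κ ^ 2) * (32 * κ ^ 2)) := by
          refine mul_le_mul ?_ (mul_le_mul haM hbM hb.le (by positivity)) hab.le (by positivity)
          exact mul_le_mul_of_nonneg_left (pow_le_pow_left₀ (by positivity) hmab 2)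
            (by positivity)
      _ ≤ (512 * κ ^ 4) ^ 3 := by
          have h12 : 0 ≤ κ ^ 12 := by positivity
          nlinarith
  exact le_of_pow_le_pow_left₀ (by norm_num) (by positivity) hcube

theorem good_Y_le {N : ℕ} [NeZero N] (hN : 3 ≤ N) (w : ZMod N → ℝ) (hw : ∀ i, 0 < w i)
    (havg : avg w = 1) {κ : ℝ} (hκ : 1 ≤ κ) (hK : K2 w ≤ κ ^ 2) :
    Yq w ≤ 512 * κ ^ 4 := by
  have h1 : Yq w ≤ avg (fun i => (512 * κ ^ 4) * w i) := by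
    unfold Yq
    refine avg_mono (fun i => ?_)
    have hP := good_P_le hN w hw havg hκ hK i
    have ha := hw i
    have hb := hw (i + 1)
    unfold Pq at hP
    rw [div_le_iff₀ (by positivity)] at hP
    rw [div_le_iff₀ (by positivity)]
    refine hP.trans ?_
    have h4 : 0 ≤ 512 * κ ^ 4 * (w i * w i) := by positivity
    nlinarith
  rw [avg_mul_left, havg, mul_one] at h1
  exact h1

theorem good_sq_Lw {N : ℕ} [NeZero N] (hN : 3 ≤ N) (w : ZMod N → ℝ) (hw : ∀ i, 0 < w i)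
    (havg : avg w = 1) {κ : ℝ} (hκ : 1 ≤ κ) (hK : K2 w ≤ κ ^ 2) :
    sq (L w) ≤ 2 ^ 32 * κ ^ 12 := by
  have hκ0 : 0 < κ := by linarith
  have h1 : sq (L w) ≤ avg (fun i => (2 * (32 * κ ^ 2) ^ 4) * (L (ginv w) i) ^ 2 +
      2 * (32 * κ ^ 2) ^ 2 * (1024 * κ ^ 4) ^ 2) := by
    unfold sq
    refine avg_mono (fun i => ?_)
    have hL := abs_L_w_le w hw i
    have hP := good_P_le hN w hw havg hκ hK i
    have hP' := good_P_le hN w hw havg hκ hK (i - 1)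
    have hwM := good_w_le hN w hw havg hκ hK i
    have ha := hw i
    set a := w i with haa
    set g := L (ginv w) i with hg
    rw [abs_mul, abs_of_pos ha] at hL
    have h2 : |L w i| ≤ a ^ 2 * |g| + a * (1024 * κ ^ 4) := by
      refine hL.trans ?_
      have h3 : a * (a * |g| + Pq w i + Pq w (i - 1)) ≤
          a * (a * |g| + 1024 * κ ^ 4) := mul_le_mul_of_nonneg_left (by linarith) ha.le
      refine h3.trans (le_of_eq (by ring))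
    have h4 : |L w i| ^ 2 ≤ (a ^ 2 * |g| + a * (1024 * κ ^ 4)) ^ 2 :=
      pow_le_pow_left₀ (abs_nonneg _) h2 2
    rw [sq_abs] at h4
    have h5 : (a ^ 2 * |g| + a * (1024 * κ ^ 4)) ^ 2 ≤
        2 * a ^ 4 * g ^ 2 + 2 * a ^ 2 * (1024 * κ ^ 4) ^ 2 := by
      have h6 : g ^ 2 = |g| ^ 2 := (sq_abs g).symm
      rw [h6]
      nlinarith [sq_nonneg (a ^ 2 * |g| - a * (1024 * κ ^ 4))]
    have h7 : 2 * a ^ 4 * g ^ 2 ≤ (2 * (32 * κ ^ 2) ^ 4) * g ^ 2 := by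
      refine mul_le_mul_of_nonneg_right ?_ (sq_nonneg g)
      have := pow_le_pow_left₀ ha.le hwM 4
      linarith
    have h8 : 2 * a ^ 2 * (1024 * κ ^ 4) ^ 2 ≤ 2 * (32 * κ ^ 2) ^ 2 * (1024 * κ ^ 4) ^ 2 := by
      refine mul_le_mul_of_nonneg_right ?_ (by positivity)
      have := pow_le_pow_left₀ ha.le hwM 2
      linarith
    linarith
  have h2 : avg (fun i => (2 * (32 * κ ^ 2) ^ 4) * (L (ginv w) i) ^ 2 +
      2 * (32 * κ ^ 2) ^ 2 * (1024 * κ ^ 4) ^ 2) =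
      (2 * (32 * κ ^ 2) ^ 4) * sq (L (ginv w)) + 2 * (32 * κ ^ 2) ^ 2 * (1024 * κ ^ 4) ^ 2 := by
    rw [avg_add, avg_mul_left, avg_const]
    rfl
  rw [h2] at h1
  have hK' : sq (L (ginv w)) ≤ κ ^ 2 := hK
  have h3 : (2 * (32 * κ ^ 2) ^ 4) * sq (L (ginv w)) ≤ (2 * (32 * κ ^ 2) ^ 4) * κ ^ 2 :=
    mul_le_mul_of_nonneg_left hK' (by positivity)
  have h4 : κ ^ 10 ≤ κ ^ 12 := pow_le_pow_right₀ hκ (by norm_num)
  have h5 : (2 * (32 * κ ^ 2) ^ 4) * κ ^ 2 = 2 ^ 21 * κ ^ 10 := by ring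
  have h6 : 2 * (32 * κ ^ 2) ^ 2 * (1024 * κ ^ 4) ^ 2 = 2 ^ 31 * κ ^ 12 := by ring
  rw [h5] at h3
  rw [h6] at h1
  have h7 : 0 ≤ κ ^ 12 := by positivity
  linarith

end Pool.Agent.H37.DP
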