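import Pool.Agent.H37.DP.Grid

/-!
MODULE SJ: positivity used for the convexity of `avg G`: for `G > 0`,
`avg (L G * L (G²)) ≥ 0`.

PROOF.  `L (G²) i = 2 G i L G i + (D G i)² + (D G (i-1))²`.  With `a i = D G i`,
`L G i = N (a i - a (i-1))`, and for reals `(a-b)(a²+b²) = (2/3)(a³-b³) + (1/3)(a-b)³`, so
`avg (L G i (a i ² + a(i-1)²)) = N avg ((1/3)(a i - a (i-1))³) = (1/(3N²)) avg ((L G i)³)`
(the telescoping part has average `0`).  So
`avg (L G L(G²)) = avg ((L G i)² (2 G i + L G i/(3N²)))` and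
`L G i/N² = G(i+1) + G(i-1) - 2 G i ≥ - 2 G i`, giving `2 G i + L G i/(3N²) ≥ (4/3) G i ≥ 0`.
-/

namespace Pool.Agent.H37.DP

open Set Filter Topology

private lemma sj_shift {N : ℕ} [NeZero N] (h : ZMod N → ℝ) :
    ∑ i, (h i - h (i - 1)) = 0 := by
  rw [Finset.sum_sub_distrib]
  have : ∑ i, h (i - 1) = ∑ i, h i :=
    Equiv.sum_comp (Equiv.subRight (1 : ZMod N)) h
  rw [this, sub_self]

private lemma sj_point {N : ℕ} [NeZero N] (G : ZMod N → ℝ) (hG : ∀ i, 0 < G i) (i : ZMod N) :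
    (2 / 3) * (N : ℝ) * ((D G i) ^ 3 - (D G (i - 1)) ^ 3) ≤
      L G i * L (fun j => (G j) ^ 2) i := by
  have hx := hG (i + 1)
  have hy := hG i
  have hz := hG (i - 1)
  have hN : (0 : ℝ) < N := by exact_mod_cast Nat.pos_of_ne_zero (NeZero.ne N)
  simp only [L, D, sub_add_cancel]
  set x := G (i + 1)
  set y := G i
  set z := G (i - 1)
  set n : ℝ := (N : ℝ)
  have key : n ^ 2 * (x + z - 2 * y) * (n ^ 2 * (x ^ 2 + z ^ 2 - 2 * y ^ 2)) -
      2 / 3 * n * ((n * (x - y)) ^ 3 - (n * (y - z)) ^ 3) =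
      n ^ 4 * (x + z - 2 * y) ^ 2 * ((x + z + 4 * y) / 3) := by
    ring
  have h2 : 0 ≤ n ^ 4 * (x + z - 2 * y) ^ 2 * ((x + z + 4 * y) / 3) := by positivity
  linarith

theorem avg_LG_LG2_nonneg {N : ℕ} [NeZero N] (G : ZMod N → ℝ) (hG : ∀ i, 0 < G i) :
    0 ≤ avg (fun i => L G i * L (fun j => (G j) ^ 2) i) := by
  unfold avg
  refine div_nonneg ?_ (Nat.cast_nonneg N)
  have h1 : ∑ i, (2 / 3) * (N : ℝ) * ((D G i) ^ 3 - (D G (i - 1)) ^ 3) ≤
      ∑ i, L G i * L (fun j => (G j) ^ 2) i :=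
    Finset.sum_le_sum fun i _ => sj_point G hG i
  rw [← Finset.mul_sum, sj_shift (fun i => (D G i) ^ 3), mul_zero] at h1
  exact h1

end Pool.Agent.H37.DP
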