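import Pool.Agent.H37.DP.Grid

/-!
MODULE TA: time derivatives and continuity for solutions (`IsSol`).
All statements are direct: `L` is a finite linear combination of point values, `W V = 1 + L V`,
`ginv w = 1/w` with `w > 0`.  Continuity on `[0,1]`: `HasDerivAt.continuousAt.continuousWithinAt`
and `ContinuousOn` algebra (denominators are positive on `[0,1]`).
-/

namespace Pool.Agent.H37.DP

open Set Filter Topology

theorem hasDerivAt_avg {N : ℕ} [NeZero N] {f : ℝ → ZMod N → ℝ} {f' : ZMod N → ℝ} {t : ℝ}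
    (h : ∀ i, HasDerivAt (fun s => f s i) (f' i) t) :
    HasDerivAt (fun s => avg (f s)) (avg f') t := by
  have := HasDerivAt.fun_sum (u := (Finset.univ : Finset (ZMod N))) fun i _ => h i
  exact this.div_const _

theorem hasDerivAt_D {N : ℕ} {f : ℝ → ZMod N → ℝ} {f' : ZMod N → ℝ} {t : ℝ}
    (h : ∀ i, HasDerivAt (fun s => f s i) (f' i) t) (i : ZMod N) :
    HasDerivAt (fun s => D (f s) i) (D f' i) t :=
  ((h (i + 1)).sub (h i)).const_mul _

theorem hasDerivAt_Dk {N : ℕ} (k : ℕ) {f : ℝ → ZMod N → ℝ} {f' : ZMod N → ℝ} {t : ℝ}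
    (h : ∀ i, HasDerivAt (fun s => f s i) (f' i) t) (i : ZMod N) :
    HasDerivAt (fun s => (D^[k] (f s)) i) ((D^[k] f') i) t := by
  induction k generalizing i with
  | zero => exact h i
  | succ k ih =>
    simp only [Function.iterate_succ']
    exact hasDerivAt_D ih i

theorem hasDerivAt_L {N : ℕ} {f : ℝ → ZMod N → ℝ} {f' : ZMod N → ℝ} {t : ℝ}
    (h : ∀ i, HasDerivAt (fun s => f s i) (f' i) t) (i : ZMod N) :
    HasDerivAt (fun s => L (f s) i) (L f' i) t :=
  ((((h (i + 1)).add (h (i - 1))).sub ((h i).const_mul 2)).const_mul ((N : ℝ) ^ 2))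

theorem continuousOn_avg {N : ℕ} [NeZero N] {f : ℝ → ZMod N → ℝ} {s : Set ℝ}
    (h : ∀ i, ContinuousOn (fun t => f t i) s) : ContinuousOn (fun t => avg (f t)) s := by
  have := continuousOn_finsetSum (Finset.univ : Finset (ZMod N)) fun i _ => h i
  exact this.div_const _

theorem continuousOn_sq {N : ℕ} [NeZero N] {f : ℝ → ZMod N → ℝ} {s : Set ℝ}
    (h : ∀ i, ContinuousOn (fun t => f t i) s) : ContinuousOn (fun t => sq (f t)) s :=
  continuousOn_avg fun i => (h i).pow 2

theorem continuousOn_L {N : ℕ} {f : ℝ → ZMod N → ℝ} {s : Set ℝ}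
    (h : ∀ i, ContinuousOn (fun t => f t i) s) (i : ZMod N) :
    ContinuousOn (fun t => L (f t) i) s :=
  continuousOn_const.mul (((h (i + 1)).add (h (i - 1))).sub (continuousOn_const.mul (h i)))

private theorem ta_contD {N : ℕ} {f : ℝ → ZMod N → ℝ} {s : Set ℝ}
    (h : ∀ i, ContinuousOn (fun t => f t i) s) (i : ZMod N) :
    ContinuousOn (fun t => D (f t) i) s :=
  continuousOn_const.mul ((h (i + 1)).sub (h i))

theorem continuousOn_Dk {N : ℕ} (k : ℕ) {f : ℝ → ZMod N → ℝ} {s : Set ℝ}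
    (h : ∀ i, ContinuousOn (fun t => f t i) s) (i : ZMod N) :
    ContinuousOn (fun t => (D^[k] (f t)) i) s := by
  induction k generalizing i with
  | zero => exact h i
  | succ k ih =>
    simp only [Function.iterate_succ']
    exact ta_contD ih i

namespace IsSol

variable {N : ℕ} [NeZero N] {lam : ℝ} {V V1 : ℝ → ZMod N → ℝ}

theorem dW (h : IsSol N lam V V1) {t : ℝ} (ht : t ∈ Icc (0 : ℝ) 1) (i : ZMod N) :
    HasDerivAt (fun s => W (V s) i) (L (V1 t) i) t :=
  (hasDerivAt_L (h.dV t ht) i).const_add 1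

theorem dLV1 (h : IsSol N lam V V1) {t : ℝ} (ht : t ∈ Icc (0 : ℝ) 1) (i : ZMod N) :
    HasDerivAt (fun s => L (V1 s) i) (- lam * L (L (ginv (W (V t)))) i) t := by
  have := hasDerivAt_L (h.dV1 t ht) i
  rwa [show L (fun i => -lam * L (ginv (W (V t))) i) = fun i => -lam * L (L (ginv (W (V t)))) i
    from L_mul_left _ _] at this

theorem dG (h : IsSol N lam V V1) {t : ℝ} (ht : t ∈ Icc (0 : ℝ) 1) (i : ZMod N) :
    HasDerivAt (fun s => ginv (W (V s)) i) (- (L (V1 t) i * (ginv (W (V t)) i) ^ 2)) t := by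
  have h1 := (h.dW ht i).fun_inv (h.pos t ht i).ne'
  have h2 : - (L (V1 t) i * (ginv (W (V t)) i) ^ 2) = -L (V1 t) i / W (V t) i ^ 2 := by
    unfold ginv
    rw [inv_pow, div_eq_mul_inv, neg_mul]
  rw [h2]
  exact h1

theorem dLG (h : IsSol N lam V V1) {t : ℝ} (ht : t ∈ Icc (0 : ℝ) 1) (i : ZMod N) :
    HasDerivAt (fun s => L (ginv (W (V s))) i)
      (L (fun j => - (L (V1 t) j * (ginv (W (V t)) j) ^ 2)) i) t :=
  hasDerivAt_L (f := fun s => ginv (W (V s))) (h.dG ht) i

theorem G_pos (h : IsSol N lam V V1) {t : ℝ} (ht : t ∈ Icc (0 : ℝ) 1) (i : ZMod N) :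
    0 < ginv (W (V t)) i :=
  inv_pos.2 (h.pos t ht i)

theorem cV (h : IsSol N lam V V1) (i : ZMod N) :
    ContinuousOn (fun t => V t i) (Icc 0 1) :=
  fun t ht => (h.dV t ht i).continuousAt.continuousWithinAt

theorem cV1 (h : IsSol N lam V V1) (i : ZMod N) :
    ContinuousOn (fun t => V1 t i) (Icc 0 1) :=
  fun t ht => (h.dV1 t ht i).continuousAt.continuousWithinAt

theorem cW (h : IsSol N lam V V1) (i : ZMod N) :
    ContinuousOn (fun t => W (V t) i) (Icc 0 1) :=
  fun t ht => (h.dW ht i).continuousAt.continuousWithinAt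

theorem cG (h : IsSol N lam V V1) (i : ZMod N) :
    ContinuousOn (fun t => ginv (W (V t)) i) (Icc 0 1) :=
  fun t ht => (h.dG ht i).continuousAt.continuousWithinAt

theorem cK2 (h : IsSol N lam V V1) : ContinuousOn (fun t => K2 (W (V t))) (Icc 0 1) :=
  continuousOn_sq fun i => continuousOn_L (f := fun t => ginv (W (V t))) h.cG i

theorem cY (h : IsSol N lam V V1) : ContinuousOn (fun t => Yq (W (V t))) (Icc 0 1) := by
  refine continuousOn_avg fun i => ?_
  refine ((ta_contD h.cW i).pow 2).div ((h.cW i).add (h.cW (i + 1))) fun t ht => ?_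
  exact (add_pos (h.pos t ht i) (h.pos t ht (i + 1))).ne'

theorem cS (h : IsSol N lam V V1) : ContinuousOn (fun t => Sq (W (V t))) (Icc 0 1) :=
  continuousOn_avg fun i => ((h.cW i).mul
    (continuousOn_L (f := fun t => ginv (W (V t))) h.cG i)).pow 2

theorem cQ (h : IsSol N lam V V1) : ContinuousOn (fun t => Qv (W (V t))) (Icc 0 1) := by
  refine continuousOn_sq fun i => ?_
  refine ((ta_contD h.cW i).pow 2).div ((h.cW i).mul (h.cW (i + 1))) fun t ht => ?_
  exact (mul_pos (h.pos t ht i) (h.pos t ht (i + 1))).ne'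

theorem cX (h : IsSol N lam V V1) :
    ContinuousOn (fun t => Xq lam (V t) (V1 t)) (Icc 0 1) := by
  refine (continuousOn_sq fun i => ?_).add (continuousOn_const.mul h.cK2)
  exact (continuousOn_L h.cV1 i).div (h.cW i) fun t ht => (h.pos t ht i).ne'

theorem cWt (h : IsSol N lam V V1) : ContinuousOn (fun t => sq (L (V1 t))) (Icc 0 1) :=
  continuousOn_sq fun i => continuousOn_L h.cV1 i

end IsSol

end Pool.Agent.H37.DP
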