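import Pool.Agent.H37.DP.TA

/-!
MODULE TB: the entropy `M` is convex in time.
`d/dt M = Pp`, `d/dt Pp = X ≥ 0`; `0 ≤ M`; `M t ≤ max (M 0) (M 1)`.

PROOF.  `d/dt (- avg log w) = - avg (L V1 / w) = - avg (L V1 * G) = - avg (V1 * L G) = Pp`
(`sbp_L`).  `d/dt Pp = - avg (V1' * L G) - avg (V1 * L G')
 = lam * avg ((L G)²) - avg (L V1 * G')`, `G' = - L V1 * G²`, so `= lam K2 + avg ((L V1/w)²) = X`.
`M ≥ 0`: `log w ≤ w - 1` and `avg w = 1` (`avg_W`).
Convexity: `Pp` is nondecreasing on `[0,1]`, hence `M` is convex on `[0,1]`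
(`convexOn_of_deriv...` or the mean value theorem on `[0,t]` and `[t,1]`).
-/

namespace Pool.Agent.H37.DP

open Set Filter Topology

namespace IsSol

variable {N : ℕ} [NeZero N] {lam : ℝ} {V V1 : ℝ → ZMod N → ℝ}

theorem dM (h : IsSol N lam V V1) {t : ℝ} (ht : t ∈ Icc (0 : ℝ) 1) :
    HasDerivAt (fun s => Mq (V s)) (Pp (V t) (V1 t)) t := by
  have h1 := (hasDerivAt_avg (f := fun s i => Real.log (W (V s) i)) fun i =>
    (h.dW ht i).log (h.pos t ht i).ne').neg
  have h2 : Pp (V t) (V1 t) = -avg (fun i => L (V1 t) i / W (V t) i) := by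
    unfold Pp
    rw [sbp_L]
    rfl
  rw [h2]
  exact h1

theorem dP (h : IsSol N lam V V1) {t : ℝ} (ht : t ∈ Icc (0 : ℝ) 1) :
    HasDerivAt (fun s => Pp (V s) (V1 s)) (Xq lam (V t) (V1 t)) t := by
  have h1 := (hasDerivAt_avg (f := fun s i => V1 s i * L (ginv (W (V s))) i) fun i =>
    (h.dV1 t ht i).mul (h.dLG ht i)).neg
  have h2 : Xq lam (V t) (V1 t) = -avg (fun i => -lam * L (ginv (W (V t))) i *
      L (ginv (W (V t))) i + V1 t i *
        L (fun j => - (L (V1 t) j * (ginv (W (V t)) j) ^ 2)) i) := by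
    rw [avg_add, sbp_L (V1 t), Xq]
    have e1 : avg (fun i => -lam * L (ginv (W (V t))) i * L (ginv (W (V t))) i) =
        -lam * K2 (W (V t)) := by
      unfold K2 sq
      rw [← avg_mul_left]
      congr 1
      funext i
      ring
    have e2 : avg (fun i => L (V1 t) i * -(L (V1 t) i * ginv (W (V t)) i ^ 2)) =
        - sq (fun i => L (V1 t) i / W (V t) i) := by
      unfold sq
      rw [← avg_neg]
      congr 1
      funext i
      simp only [ginv, div_eq_mul_inv]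
      ring
    rw [e1, e2]
    ring
  rw [h2]
  exact h1

theorem X_nonneg (hlam : 0 ≤ lam) (V n : ZMod N → ℝ) : 0 ≤ Xq lam V n :=
  add_nonneg (sq_nonneg' _) (mul_nonneg hlam (sq_nonneg' _))

/-- `∫ X = P(t2) - P(t1)` -/
theorem int_X (h : IsSol N lam V V1) {s t : ℝ} (hs : 0 ≤ s) (hst : s ≤ t) (ht : t ≤ 1) :
    ∫ r in s..t, Xq lam (V r) (V1 r) = Pp (V t) (V1 t) - Pp (V s) (V1 s) := by
  have hsub : Icc s t ⊆ Icc (0 : ℝ) 1 := Icc_subset_Icc hs ht
  refine intervalIntegral.integral_eq_sub_of_hasDerivAt (f := fun s => Pp (V s) (V1 s))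
    (fun r hr => ?_) ?_
  · rw [uIcc_of_le hst] at hr
    exact h.dP (hsub hr)
  · refine ContinuousOn.intervalIntegrable ?_
    rw [uIcc_of_le hst]
    exact h.cX.mono hsub

theorem P_mono (h : IsSol N lam V V1) (hlam : 0 ≤ lam) {s t : ℝ} (hs : 0 ≤ s) (hst : s ≤ t)
    (ht : t ≤ 1) : Pp (V s) (V1 s) ≤ Pp (V t) (V1 t) := by
  have h1 := h.int_X hs hst ht
  have h2 : 0 ≤ ∫ r in s..t, Xq lam (V r) (V1 r) :=
    intervalIntegral.integral_nonneg hst fun r _ => X_nonneg hlam _ _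
  linarith

theorem M_nonneg (h : IsSol N lam V V1) {t : ℝ} (ht : t ∈ Icc (0 : ℝ) 1) :
    0 ≤ Mq (V t) := by
  have h1 : avg (fun i => Real.log (W (V t) i)) ≤ avg (fun i => W (V t) i - 1) :=
    avg_mono fun i => Real.log_le_sub_one_of_pos (h.pos t ht i)
  rw [avg_sub, avg_const, show avg (fun i => W (V t) i) = 1 from avg_W (V t)] at h1
  unfold Mq
  linarith

theorem M_le (h : IsSol N lam V V1) (hlam : 0 ≤ lam) {t : ℝ} (ht : t ∈ Icc (0 : ℝ) 1) :
    Mq (V t) ≤ max (Mq (V 0)) (Mq (V 1)) := by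
  have hc : ConvexOn ℝ (Icc (0 : ℝ) 1) (fun s => Mq (V s)) := by
    refine MonotoneOn.convexOn_of_deriv (convex_Icc 0 1)
      (fun s hs => (h.dM hs).continuousAt.continuousWithinAt) ?_ ?_
    · intro s hs
      rw [interior_Icc] at hs
      exact (h.dM (Ioo_subset_Icc_self hs)).differentiableAt.differentiableWithinAt
    · intro a ha b hb hab
      rw [interior_Icc] at ha hb
      rw [(h.dM (Ioo_subset_Icc_self ha)).deriv, (h.dM (Ioo_subset_Icc_self hb)).deriv]
      exact h.P_mono hlam ha.1.le hab hb.2.le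
  exact hc.le_max_of_mem_Icc (left_mem_Icc.2 zero_le_one) (right_mem_Icc.2 zero_le_one) ht

end IsSol

end Pool.Agent.H37.DP
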