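import Pool.Agent.H37.DP.TA
import Pool.Agent.H37.DP.SJ

/-!
MODULE TC: `t ↦ avg (1/w)` is convex, so bounded by its boundary values.

PROOF.  `F = avg G`, `G' = - L V1 * G²`, `F' = - avg (L V1 * G²)`,
`F'' = - avg ((L V1)' G²) - avg (L V1 * 2 G G') = lam avg (L (L G) * G²) + 2 avg ((L V1)² G³)
 = lam avg (L G * L (G²)) + 2 avg ((L V1)² G³) ≥ 0` by `avg_LG_LG2_nonneg`.
-/

namespace Pool.Agent.H37.DP

open Set Filter Topology

private theorem tc_dF {N : ℕ} [NeZero N] {lam : ℝ} {V V1 : ℝ → ZMod N → ℝ}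
    (h : IsSol N lam V V1) {t : ℝ} (ht : t ∈ Icc (0 : ℝ) 1) :
    HasDerivAt (fun s => avg (ginv (W (V s))))
      (avg (fun i => - (L (V1 t) i * (ginv (W (V t)) i) ^ 2))) t :=
  hasDerivAt_avg (f := fun s i => ginv (W (V s)) i) (fun i => h.dG ht i)

private theorem tc_dF' {N : ℕ} [NeZero N] {lam : ℝ} {V V1 : ℝ → ZMod N → ℝ}
    (h : IsSol N lam V V1) {t : ℝ} (ht : t ∈ Icc (0 : ℝ) 1) :
    HasDerivAt (fun s => avg (fun i => - (L (V1 s) i * (ginv (W (V s)) i) ^ 2)))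
      (lam * avg (fun i => L (ginv (W (V t))) i * L (fun j => (ginv (W (V t)) j) ^ 2) i)
        + 2 * avg (fun i => (L (V1 t) i) ^ 2 * (ginv (W (V t)) i) ^ 3)) t := by
  have h1 := hasDerivAt_avg (f := fun s i => - (L (V1 s) i * (ginv (W (V s)) i) ^ 2))
    (f' := fun i => lam * (L (L (ginv (W (V t)))) i * (ginv (W (V t)) i) ^ 2)
      + 2 * ((L (V1 t) i) ^ 2 * (ginv (W (V t)) i) ^ 3)) (t := t) (fun i => by
      have a1 := h.dLV1 ht i
      have a2 := (h.dG ht i).pow 2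
      refine ((a1.mul a2).neg).congr_deriv ?_
      simp only [Nat.cast_ofNat, Pi.pow_apply]
      ring)
  refine h1.congr_deriv ?_
  rw [avg_add, avg_mul_left, avg_mul_left]
  congr 2
  rw [sbp_L (L (ginv (W (V t)))) (fun j => (ginv (W (V t)) j) ^ 2)]

/-- a function with nonnegative second derivative is bounded by the boundary values -/
private theorem tc_conv {F F' F'' : ℝ → ℝ}
    (h1 : ∀ t ∈ Icc (0 : ℝ) 1, HasDerivAt F (F' t) t)
    (h2 : ∀ t ∈ Icc (0 : ℝ) 1, HasDerivAt F' (F'' t) t)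
    (h3 : ∀ t ∈ Icc (0 : ℝ) 1, 0 ≤ F'' t) {t : ℝ} (ht : t ∈ Icc (0 : ℝ) 1) :
    F t ≤ max (F 0) (F 1) := by
  have hint : interior (Icc (0 : ℝ) 1) = Ioo 0 1 := interior_Icc
  have hmono : MonotoneOn F' (Icc 0 1) := by
    refine monotoneOn_of_deriv_nonneg (convex_Icc 0 1)
      (fun s hs => (h2 s hs).continuousAt.continuousWithinAt)
      (fun s hs => ?_) (fun s hs => ?_)
    · rw [hint] at hs
      exact (h2 s (Ioo_subset_Icc_self hs)).differentiableAt.differentiableWithinAt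
    · rw [hint] at hs
      rw [(h2 s (Ioo_subset_Icc_self hs)).deriv]
      exact h3 s (Ioo_subset_Icc_self hs)
  have hconv : ConvexOn ℝ (Icc 0 1) F := by
    refine MonotoneOn.convexOn_of_deriv (convex_Icc 0 1)
      (fun s hs => (h1 s hs).continuousAt.continuousWithinAt)
      (fun s hs => ?_) ?_
    · rw [hint] at hs
      exact (h1 s (Ioo_subset_Icc_self hs)).differentiableAt.differentiableWithinAt
    · rw [hint]
      intro a ha b hb hab
      rw [(h1 a (Ioo_subset_Icc_self ha)).deriv, (h1 b (Ioo_subset_Icc_self hb)).deriv]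
      exact hmono (Ioo_subset_Icc_self ha) (Ioo_subset_Icc_self hb) hab
  have hseg : t ∈ segment ℝ (0 : ℝ) 1 := by
    rw [segment_eq_Icc zero_le_one]
    exact ht
  exact hconv.le_on_segment (by simp) (by simp) hseg

theorem IsSol.avgG_le {N : ℕ} [NeZero N] {lam : ℝ} {V V1 : ℝ → ZMod N → ℝ}
    (h : IsSol N lam V V1) (hlam : 0 ≤ lam) {t : ℝ} (ht : t ∈ Icc (0 : ℝ) 1) :
    avg (ginv (W (V t))) ≤ max (avg (ginv (W (V 0)))) (avg (ginv (W (V 1)))) := by
  refine tc_conv (F := fun s => avg (ginv (W (V s)))) (fun s hs => tc_dF h hs)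
    (fun s hs => tc_dF' h hs) (fun s hs => ?_) ht
  have h1 := avg_LG_LG2_nonneg (ginv (W (V s))) (fun i => h.G_pos hs i)
  have h2 : 0 ≤ avg (fun i => (L (V1 s) i) ^ 2 * (ginv (W (V s)) i) ^ 3) := by
    refine avg_nonneg fun i => ?_
    have := h.G_pos hs i
    positivity
  positivity

end Pool.Agent.H37.DP
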