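import Pool.Agent.H37.DP.TB

/-!
MODULE TD: kinetic energy bound
`sq (V1 t) ≤ 2 lam + 2 sq (V 1 - V 0) + 2 lam max (M 0) (M 1)`.

PROOF.  (1) Conservation: `e = (1/2) sq (V1) - lam M` has derivative
`avg (V1 * (- lam L G)) - lam Pp = 0`, so it is constant on `[0,1]`.
(2) `z t = V t - (1-t) V 0 - t V 1`, `Φ t = avg (z * z')`, `z' = V1 t - (V 1 - V 0)`;
`Φ 0 = Φ 1 = 0`, so by Rolle there is `t0` in `(0,1)` with `Φ' t0 = 0`,
`Φ' = sq z' + avg (z * V1') = sq z' - lam avg (z * L G) = sq z' - lam avg (L z * G)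
 = sq z' - lam (avg (w G) - avg (w_ℓ G)) = sq z' - lam (1 - avg (w_ℓ G))`, where
`w_ℓ = (1-t) W (V 0) + t W (V 1) > 0`, `G > 0`.  So `sq (z' t0) ≤ lam`, and
`sq (V1 t0) ≤ 2 lam + 2 sq (V 1 - V 0)`.
(3) `(1/2) sq (V1 t) = e + lam M t ≤ (1/2) sq (V1 t0) + lam M t` (`M t0 ≥ 0`), and `M_le`.
-/

namespace Pool.Agent.H37.DP

open Set Filter Topology

private theorem td_sq_deriv {N : ℕ} [NeZero N] {f : ℝ → ZMod N → ℝ} {f' : ZMod N → ℝ} {t : ℝ}
    (h : ∀ i, HasDerivAt (fun s => f s i) (f' i) t) :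
    HasDerivAt (fun s => sq (f s)) (avg (fun i => 2 * f t i * f' i)) t := by
  have h1 := hasDerivAt_avg (f := fun s i => (f s i) ^ 2) (f' := fun i => 2 * f t i * f' i)
    (t := t) (fun i => by
      have h2 := (h i).pow 2
      refine h2.congr_deriv ?_
      simp)
  exact h1

private theorem td_energy {N : ℕ} [NeZero N] {lam : ℝ} {V V1 : ℝ → ZMod N → ℝ}
    (h : IsSol N lam V V1) {t : ℝ} (ht : t ∈ Icc (0 : ℝ) 1) :
    HasDerivAt (fun s => 1 / 2 * sq (V1 s) - lam * Mq (V s)) 0 t := by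
  have h1 := (td_sq_deriv (f := V1) (t := t) (h.dV1 t ht)).const_mul (1 / 2)
  have h2 := (h.dM ht).const_mul lam
  refine (h1.sub h2).congr_deriv ?_
  have e : (fun i => 2 * V1 t i * (-lam * L (ginv (W (V t))) i))
      = fun i => (-(2 * lam)) * (V1 t i * L (ginv (W (V t))) i) := by
    funext i
    ring
  rw [e, avg_mul_left]
  unfold Pp
  ring

private theorem td_const {N : ℕ} [NeZero N] {lam : ℝ} {V V1 : ℝ → ZMod N → ℝ}
    (h : IsSol N lam V V1) {t : ℝ} (ht : t ∈ Icc (0 : ℝ) 1) :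
    1 / 2 * sq (V1 t) - lam * Mq (V t) = 1 / 2 * sq (V1 0) - lam * Mq (V 0) := by
  have hc : ContinuousOn (fun s => 1 / 2 * sq (V1 s) - lam * Mq (V s)) (Icc 0 1) :=
    fun s hs => (td_energy h hs).continuousAt.continuousWithinAt
  exact constant_of_has_deriv_right_zero hc
    (fun s hs => (td_energy h (Ico_subset_Icc_self hs)).hasDerivWithinAt) t ht

private theorem td_rolle {N : ℕ} [NeZero N] {lam : ℝ} {V V1 : ℝ → ZMod N → ℝ}
    (h : IsSol N lam V V1) (hlam : 0 < lam) :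
    ∃ t ∈ Ioo (0 : ℝ) 1, sq (fun i => V1 t i - (V 1 i - V 0 i)) ≤ lam := by
  -- the comparison function
  have dz : ∀ t ∈ Icc (0 : ℝ) 1, ∀ i, HasDerivAt
      (fun s => V s i - (1 - s) * V 0 i - s * V 1 i) (V1 t i - (V 1 i - V 0 i)) t := by
    intro t ht i
    have a1 := h.dV t ht i
    have a2 : HasDerivAt (fun s : ℝ => (1 - s) * V 0 i) (-1 * V 0 i) t :=
      (((hasDerivAt_id t).const_sub 1)).mul_const _
    have a3 : HasDerivAt (fun s : ℝ => s * V 1 i) (1 * V 1 i) t :=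
      (hasDerivAt_id t).mul_const _
    refine ((a1.sub a2).sub a3).congr_deriv ?_
    ring
  have dz' : ∀ t ∈ Icc (0 : ℝ) 1, ∀ i, HasDerivAt
      (fun s => V1 s i - (V 1 i - V 0 i)) (-lam * L (ginv (W (V t))) i) t := by
    intro t ht i
    exact (h.dV1 t ht i).sub_const _
  have dΦ : ∀ t ∈ Icc (0 : ℝ) 1, HasDerivAt
      (fun s => avg (fun i => (V s i - (1 - s) * V 0 i - s * V 1 i)
        * (V1 s i - (V 1 i - V 0 i))))
      (avg (fun i => (V1 t i - (V 1 i - V 0 i)) * (V1 t i - (V 1 i - V 0 i))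
        + (V t i - (1 - t) * V 0 i - t * V 1 i) * (-lam * L (ginv (W (V t))) i))) t := by
    intro t ht
    refine hasDerivAt_avg (f := fun s i => (V s i - (1 - s) * V 0 i - s * V 1 i)
        * (V1 s i - (V 1 i - V 0 i))) (fun i => ?_)
    exact (dz t ht i).mul (dz' t ht i)
  obtain ⟨t, ht, h0⟩ := exists_hasDerivAt_eq_zero (f := fun s => avg (fun i =>
      (V s i - (1 - s) * V 0 i - s * V 1 i) * (V1 s i - (V 1 i - V 0 i))))
    (a := 0) (b := 1) one_pos
    (fun s hs => (dΦ s hs).continuousAt.continuousWithinAt)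
    (by
      have e0 : (fun i => (V 0 i - (1 - 0) * V 0 i - 0 * V 1 i) * (V1 0 i - (V 1 i - V 0 i)))
          = fun _ : ZMod N => (0 : ℝ) := by
        funext i
        ring
      have e1 : (fun i => (V 1 i - (1 - 1) * V 0 i - 1 * V 1 i) * (V1 1 i - (V 1 i - V 0 i)))
          = fun _ : ZMod N => (0 : ℝ) := by
        funext i
        ring
      show avg _ = avg _
      rw [e0, e1])
    (fun s hs => dΦ s (Ioo_subset_Icc_self hs))
  have htc : t ∈ Icc (0 : ℝ) 1 := Ioo_subset_Icc_self ht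
  refine ⟨t, ht, ?_⟩
  have e2 : avg (fun i => (V1 t i - (V 1 i - V 0 i)) * (V1 t i - (V 1 i - V 0 i))
        + (V t i - (1 - t) * V 0 i - t * V 1 i) * (-lam * L (ginv (W (V t))) i))
      = sq (fun i => V1 t i - (V 1 i - V 0 i))
        - lam * avg (fun i => (V t i - (1 - t) * V 0 i - t * V 1 i)
          * L (ginv (W (V t))) i) := by
    rw [avg_add]
    have e3 : (fun i => (V t i - (1 - t) * V 0 i - t * V 1 i) * (-lam * L (ginv (W (V t))) i))
        = fun i => (-lam) * ((V t i - (1 - t) * V 0 i - t * V 1 i)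
          * L (ginv (W (V t))) i) := by
      funext i
      ring
    have e4 : (fun i => (V1 t i - (V 1 i - V 0 i)) * (V1 t i - (V 1 i - V 0 i)))
        = fun i => (V1 t i - (V 1 i - V 0 i)) ^ 2 := by
      funext i
      ring
    rw [e3, avg_mul_left, e4]
    show sq _ + _ = _
    ring
  have e5 : avg (fun i => (V t i - (1 - t) * V 0 i - t * V 1 i) * L (ginv (W (V t))) i) ≤ 1 := by
    rw [sbp_L (fun i => V t i - (1 - t) * V 0 i - t * V 1 i) (ginv (W (V t)))]
    have h1 : avg (fun i => L (fun i => V t i - (1 - t) * V 0 i - t * V 1 i) i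
        * ginv (W (V t)) i) ≤ avg (fun _ : ZMod N => (1 : ℝ)) := by
      refine avg_mono fun i => ?_
      have hW := h.pos t htc i
      have hW0 := h.pos 0 (by simp) i
      have hW1 := h.pos 1 (by simp) i
      have hG := h.G_pos htc i
      have e6 : L (fun i => V t i - (1 - t) * V 0 i - t * V 1 i) i
          = W (V t) i - (1 - t) * W (V 0) i - t * W (V 1) i := by
        simp only [W, L]
        ring
      have e7 : W (V t) i * ginv (W (V t)) i = 1 := by
        unfold ginv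
        exact mul_inv_cancel₀ hW.ne'
      rw [e6, sub_mul, sub_mul, e7]
      have h8 : 0 ≤ (1 - t) * W (V 0) i * ginv (W (V t)) i := by
        have : 0 ≤ 1 - t := by linarith [ht.2]
        positivity
      have h9 : 0 ≤ t * W (V 1) i * ginv (W (V t)) i := by
        have : 0 ≤ t := ht.1.le
        positivity
      linarith
    rwa [avg_const] at h1
  have h10 : sq (fun i => V1 t i - (V 1 i - V 0 i))
      - lam * avg (fun i => (V t i - (1 - t) * V 0 i - t * V 1 i)
          * L (ginv (W (V t))) i) = 0 := by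
    rw [← e2]
    exact h0
  nlinarith

theorem IsSol.kin_le {N : ℕ} [NeZero N] {lam : ℝ} {V V1 : ℝ → ZMod N → ℝ}
    (h : IsSol N lam V V1) (hlam : 0 < lam) {t : ℝ} (ht : t ∈ Icc (0 : ℝ) 1) :
    sq (V1 t) ≤ 2 * lam + 2 * sq (fun i => V 1 i - V 0 i)
      + 2 * lam * max (Mq (V 0)) (Mq (V 1)) := by
  obtain ⟨t0, ht0, h0⟩ := td_rolle h hlam
  have ht0c : t0 ∈ Icc (0 : ℝ) 1 := Ioo_subset_Icc_self ht0
  have e0 := td_const h ht0c
  have e1 := td_const h ht
  have m0 := h.M_nonneg ht0c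
  have m1 := h.M_le hlam.le ht
  have h1 := sq_add_le (fun i => V1 t0 i - (V 1 i - V 0 i)) (fun i => V 1 i - V 0 i)
  have e2 : (fun i => V1 t0 i - (V 1 i - V 0 i) + (V 1 i - V 0 i)) = V1 t0 := by
    funext i
    ring
  rw [e2] at h1
  have m2 := mul_le_mul_of_nonneg_left m1 hlam.le
  have m3 : 0 ≤ lam * Mq (V t0) := by positivity
  nlinarith

end Pool.Agent.H37.DP
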