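import Pool.Agent.H37.DP.TC
import Pool.Agent.H37.DP.TD

/-!
MODULE TE: uniform constants for the class `Cls`.

PROOF.  Let `h : Cls N lam c B V V1`.  For `a = 0, 1`: `W (V a) ≥ c`, `avg (W (V a)) = 1` so
`c ≤ 1`; `M (V a) ≤ - log c`; `|V a i| ≤ B 0`, so `sq (V 1 - V 0) ≤ 4 (B 0)²`; `kin_le` gives
`sq (V1 t) ≤ A := 2 lam + 8 (B 0)² - 2 lam log c`.
`K2`: with `w = W (V a)`, `D w i = D (L V) i = (D^[3] V) (i-1)`, `L w i = (D^[4] V)(i-2)`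
(`L_eq`, `D_shift`), so `|D w| ≤ B 3`, `|L w| ≤ B 4`; `L_ginv` gives
`|L (ginv w)| ≤ c⁻² (B 4 + 2 (B 3)²/c) =: k0`, `K2 w ≤ k0²`; take `Ks = max 1 k0`.
`|Pp (V a) (V1 a)| ≤ √(sq (V1 a)) √(K2) ≤ √A Ks` (`cs'`).
`avg G ≤ 1/c` at `t = 0, 1`, and `avgG_le`.
-/

namespace Pool.Agent.H37.DP

open Set Filter Topology

private lemma te_DW {N : ℕ} (V : ZMod N → ℝ) (i : ZMod N) :
    D (W V) i = (D^[3] V) (i + (-1)) := by
  have h1 : D (W V) i = D (L V) i := by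
    unfold D W
    ring
  have h2 : L V = fun j => (D (D V)) (j + (-1)) := by
    funext j
    rw [L_eq, sub_eq_add_neg]
  rw [h1, h2, D_shift]
  rfl

private lemma te_LW {N : ℕ} (V : ZMod N → ℝ) (i : ZMod N) :
    L (W V) i = (D^[4] V) (i - 1 + (-1)) := by
  have h1 : L (W V) i = L (L V) i := by
    unfold L W
    unfold L
    ring
  have h2 : L V = fun j => (D (D V)) (j + (-1)) := by
    funext j
    rw [L_eq, sub_eq_add_neg]
  rw [h1, L_eq, h2, D_shift, D_shift]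
  rfl

private lemma te_K2 {N : ℕ} [NeZero N] {c : ℝ} (hc : 0 < c) {B : ℕ → ℝ} {V : ZMod N → ℝ}
    (hd : Data c B V) :
    K2 (W V) ≤ ((c⁻¹) ^ 2 * (|B 4| + ((B 3) ^ 2 / c + (B 3) ^ 2 / c))) ^ 2 := by
  have hw : ∀ i, 0 < W V i := fun i => lt_of_lt_of_le hc (hd.pos i)
  unfold K2
  apply sq_le_of_abs_le
  intro i
  rw [L_ginv _ hw, abs_mul]
  have hg : |(ginv (W V) i) ^ 2| ≤ (c⁻¹) ^ 2 := by
    rw [abs_of_nonneg (by positivity)]
    unfold ginv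
    exact pow_le_pow_left₀ (inv_nonneg.mpr (hw i).le) (inv_anti₀ hc (hd.pos i)) 2
  have hD : ∀ j, (D (W V) j) ^ 2 ≤ (B 3) ^ 2 := by
    intro j
    rw [te_DW]
    exact sq_le_sq' (by have := abs_le.mp (hd.bd 3 (j + (-1))); linarith [this.1])
      (by have := abs_le.mp (hd.bd 3 (j + (-1))); exact this.2)
  have hq : ∀ j k, (D (W V) j) ^ 2 / W V k ≤ (B 3) ^ 2 / c := fun j k =>
    div_le_div₀ (by positivity) (hD j) hc (hd.pos k)
  have hq0 : ∀ j k, 0 ≤ (D (W V) j) ^ 2 / W V k := fun j k => by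
    have := hw k
    positivity
  have hL : |L (W V) i| ≤ |B 4| := by
    rw [te_LW]
    exact (hd.bd 4 _).trans (le_abs_self _)
  apply mul_le_mul hg _ (abs_nonneg _) (by positivity)
  refine (abs_add_le _ _).trans ?_
  rw [abs_neg]
  apply add_le_add hL
  rw [abs_of_nonneg (add_nonneg (hq0 _ _) (hq0 _ _))]
  exact add_le_add (hq _ _) (hq _ _)

private lemma te_M {N : ℕ} [NeZero N] {c : ℝ} (hc : 0 < c) {B : ℕ → ℝ} {V : ZMod N → ℝ}
    (hd : Data c B V) : Mq V ≤ |Real.log c| := by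
  have h1 : Real.log c ≤ avg (fun i => Real.log (W V i)) := by
    rw [← avg_const (N := N) (Real.log c)]
    exact avg_mono (fun i => Real.log_le_log hc (hd.pos i))
  unfold Mq
  have := neg_abs_le (Real.log c)
  linarith

private lemma te_G {N : ℕ} [NeZero N] {c : ℝ} (hc : 0 < c) {B : ℕ → ℝ} {V : ZMod N → ℝ}
    (hd : Data c B V) : avg (ginv (W V)) ≤ 1 / c := by
  rw [← avg_const (N := N) (1 / c)]
  apply avg_mono
  intro i
  unfold ginv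
  rw [one_div]
  exact inv_anti₀ hc (hd.pos i)

private lemma te_P {N : ℕ} [NeZero N] {V n : ZMod N → ℝ} {A K : ℝ} (hK : 0 ≤ K)
    (h1 : sq n ≤ A) (h2 : K2 (W V) ≤ K ^ 2) : |Pp V n| ≤ Real.sqrt A * K := by
  unfold Pp
  rw [abs_neg]
  refine (cs' _ _).trans ?_
  apply mul_le_mul (Real.sqrt_le_sqrt h1) _ (Real.sqrt_nonneg _) (Real.sqrt_nonneg _)
  rw [← Real.sqrt_sq hK]
  exact Real.sqrt_le_sqrt h2

theorem total_X (lam c : ℝ) (B : ℕ → ℝ) (hlam : 0 < lam) (hc : 0 < c) :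
    ∃ C1 Ks : ℝ, 0 < C1 ∧ 1 ≤ Ks ∧ ∀ (N : ℕ) [NeZero N] (V V1 : ℝ → ZMod N → ℝ),
      Cls N lam c B V V1 →
        Pp (V 1) (V1 1) - Pp (V 0) (V1 0) ≤ C1 ∧ K2 (W (V 0)) ≤ Ks ^ 2 ∧
        K2 (W (V 1)) ≤ Ks ^ 2 ∧ (∀ t ∈ Icc (0 : ℝ) 1, avg (ginv (W (V t))) ≤ 1 / c) ∧
        (∀ t ∈ Icc (0 : ℝ) 1, sq (V1 t) ≤ C1) := by
  set A : ℝ := 2 * lam + 2 * (2 * |B 0|) ^ 2 + 2 * lam * |Real.log c| with hA
  have hA0 : 0 ≤ A := by positivity
  set k0 : ℝ := (c⁻¹) ^ 2 * (|B 4| + ((B 3) ^ 2 / c + (B 3) ^ 2 / c)) with hk0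
  have hk00 : 0 ≤ k0 := by positivity
  set Ks : ℝ := 1 + k0 with hKs
  have hkk : k0 ^ 2 ≤ Ks ^ 2 := pow_le_pow_left₀ hk00 (by linarith) 2
  refine ⟨2 * (Real.sqrt A * Ks) + A + 1, Ks, by positivity, by linarith, ?_⟩
  intro N _ V V1 h
  have hm0 : (0 : ℝ) ∈ Icc (0 : ℝ) 1 := left_mem_Icc.mpr zero_le_one
  have hm1 : (1 : ℝ) ∈ Icc (0 : ℝ) 1 := right_mem_Icc.mpr zero_le_one
  have hkin : ∀ t ∈ Icc (0 : ℝ) 1, sq (V1 t) ≤ A := by
    intro t ht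
    refine (h.sol.kin_le hlam ht).trans ?_
    rw [hA]
    have h1 : sq (fun i => V 1 i - V 0 i) ≤ (2 * |B 0|) ^ 2 := by
      apply sq_le_of_abs_le
      intro i
      have a0 := h.d0.bd 0 i
      have a1 := h.d1.bd 0 i
      simp only [Function.iterate_zero, id_eq] at a0 a1
      have := le_abs_self (B 0)
      have := abs_sub (V 1 i) (V 0 i)
      linarith
    have h2 : max (Mq (V 0)) (Mq (V 1)) ≤ |Real.log c| :=
      max_le (te_M hc h.d0) (te_M hc h.d1)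
    have h3 := mul_le_mul_of_nonneg_left h2 (show 0 ≤ 2 * lam by positivity)
    linarith
  have hKs0 : 0 ≤ Ks := by linarith
  have hK0 : K2 (W (V 0)) ≤ Ks ^ 2 := (te_K2 hc h.d0).trans hkk
  have hK1 : K2 (W (V 1)) ≤ Ks ^ 2 := (te_K2 hc h.d1).trans hkk
  refine ⟨?_, hK0, hK1, ?_, ?_⟩
  · have p0 := te_P hKs0 (hkin 0 hm0) hK0
    have p1 := te_P hKs0 (hkin 1 hm1) hK1
    have q0 := neg_abs_le (Pp (V 0) (V1 0))
    have q1 := le_abs_self (Pp (V 1) (V1 1))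
    linarith
  · intro t ht
    exact (h.sol.avgG_le hlam.le ht).trans (max_le (te_G hc h.d0) (te_G hc h.d1))
  · intro t ht
    have := hkin t ht
    have : 0 ≤ Real.sqrt A * Ks := by positivity
    linarith

end Pool.Agent.H37.DP
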