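import Pool.Agent.H37.DP.Defs

/-!
MODULE TF: selection of a good scale (pure one variable calculus).

PROOF.  Let `P~ s = P (max 0 (min s 1))`, nondecreasing on the line, and for `j ≤ J`,
`b_j = b0/2^j`, `A_j = (P~(t - b_j/2) - P~(t - b_j)) + (P~(t + b_j) - P~(t + b_j/2)) ≥ 0`.
Since `b_j/2 = b_(j+1)` the sum telescopes:
`∑_{j ≤ J} A_j ≤ (P~ t - P~(t - b0)) + (P~(t+b0) - P~ t) ≤ P 1 - P 0 ≤ C < (J+1) η`,
so some `A_j ≤ η`.  Put `b = b_j`.  If `t - b < 0` take `t1 = 0`; otherwise the mean value theorem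
on `[t-b, t-b/2]` gives `t1` in it with `X t1 * (b/2) = P(t-b/2) - P(t-b) ≤ η`.
Similarly `t2` (`= 1` if `t + b > 1`).
`t2 - t1 ≤ 2b` is clear (if `t1 = 0` then `t - t1 = t < b`); since `b ≤ 1/4`, at least one of
`t - b ≥ 0`, `t + b ≤ 1` holds, which gives `t2 - t1 ≥ b/2`.
-/

namespace Pool.Agent.H37.DP

open Set Filter Topology

/-- the clamped function is monotone. -/
private theorem tf_mono {P X : ℝ → ℝ} (hP : ∀ t ∈ Icc (0 : ℝ) 1, HasDerivAt P (X t) t)
    (hX : ∀ t ∈ Icc (0 : ℝ) 1, 0 ≤ X t) : Monotone (fun s => P (max 0 (min s 1))) := by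
  have hm : MonotoneOn P (Icc 0 1) := by
    apply monotoneOn_of_deriv_nonneg (convex_Icc 0 1)
    · intro t ht
      exact (hP t ht).continuousAt.continuousWithinAt
    · intro t ht
      rw [interior_Icc] at ht
      exact (hP t (Ioo_subset_Icc_self ht)).differentiableAt.differentiableWithinAt
    · intro t ht
      rw [interior_Icc] at ht
      rw [(hP t (Ioo_subset_Icc_self ht)).deriv]
      exact hX t (Ioo_subset_Icc_self ht)
  intro x y hxy
  apply hm
  · exact ⟨le_max_left _ _, max_le (by norm_num) (min_le_right _ _)⟩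
  · exact ⟨le_max_left _ _, max_le (by norm_num) (min_le_right _ _)⟩
  · exact max_le_max le_rfl (min_le_min hxy le_rfl)

private theorem tf_clamp {s : ℝ} (h0 : 0 ≤ s) (h1 : s ≤ 1) : max 0 (min s 1) = s := by
  rw [min_eq_left h1, max_eq_right h0]

private theorem tf_mvt {P X : ℝ → ℝ} (hP : ∀ t ∈ Icc (0 : ℝ) 1, HasDerivAt P (X t) t)
    {a b : ℝ} (h0 : 0 ≤ a) (hab : a < b) (h1 : b ≤ 1) :
    ∃ s ∈ Ioo a b, X s * (b - a) = P b - P a := by
  obtain ⟨s, hs, he⟩ := exists_hasDerivAt_eq_slope P X hab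
    (fun t ht => (hP t ⟨by linarith [ht.1], by linarith [ht.2]⟩).continuousAt.continuousWithinAt)
    (fun t ht => hP t ⟨by linarith [ht.1], by linarith [ht.2]⟩)
  refine ⟨s, hs, ?_⟩
  rw [he, div_mul_cancel₀]
  linarith

theorem select {P X : ℝ → ℝ} (hP : ∀ t ∈ Icc (0 : ℝ) 1, HasDerivAt P (X t) t)
    (hX : ∀ t ∈ Icc (0 : ℝ) 1, 0 ≤ X t) {C η b0 : ℝ} (hC : P 1 - P 0 ≤ C) (hη : 0 < η)
    (hb0 : 0 < b0) (hb : b0 ≤ 1 / 4) (J : ℕ) (hJ : C < (J + 1) * η) {t : ℝ}
    (ht : t ∈ Icc (0 : ℝ) 1) :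
    ∃ j ≤ J, ∃ t1 t2 : ℝ, 0 ≤ t1 ∧ t1 ≤ t ∧ t ≤ t2 ∧ t2 ≤ 1 ∧ t1 < t2 ∧
      t2 - t1 ≤ 2 * (b0 / 2 ^ j) ∧ b0 / 2 ^ j / 2 ≤ t2 - t1 ∧
      (t1 = 0 ∨ X t1 * (b0 / 2 ^ j / 2) ≤ η) ∧
      (t2 = 1 ∨ X t2 * (b0 / 2 ^ j / 2) ≤ η) := by
  set Q : ℝ → ℝ := fun s => P (max 0 (min s 1)) with hQ
  have hQm : Monotone Q := tf_mono hP hX
  have hQ1 : ∀ s, Q s ≤ P 1 := by
    intro s
    have h1 : Q s ≤ Q (max s 1) := hQm (le_max_left _ _)
    have h2 : Q (max s 1) = P 1 := by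
      simp only [hQ]
      rw [min_eq_right (le_max_right _ _), max_eq_right (by norm_num)]
    linarith
  have hQ0 : ∀ s, P 0 ≤ Q s := by
    intro s
    have h1 : Q (min s 0) ≤ Q s := hQm (min_le_left _ _)
    have h2 : Q (min s 0) = P 0 := by
      simp only [hQ]
      rw [min_eq_left ((min_le_right _ _).trans (by norm_num)), max_eq_left (min_le_right _ _)]
    linarith
  set A : ℕ → ℝ := fun j => (Q (t - b0 / 2 ^ (j + 1)) - Q (t - b0 / 2 ^ j)) +
    (Q (t + b0 / 2 ^ j) - Q (t + b0 / 2 ^ (j + 1))) with hA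
  have htel : ∀ n : ℕ, ∑ j ∈ Finset.range n, A j =
      (Q (t - b0 / 2 ^ n) - Q (t - b0)) + (Q (t + b0) - Q (t + b0 / 2 ^ n)) := by
    intro n
    induction n with
    | zero => simp
    | succ n ih =>
      rw [Finset.sum_range_succ, ih]
      simp only [hA]
      ring
  have hsum : ∑ j ∈ Finset.range (J + 1), A j ≤ C := by
    rw [htel]
    have hp : 0 < b0 / 2 ^ (J + 1) := by positivity
    have h1 : Q (t - b0 / 2 ^ (J + 1)) ≤ Q t := hQm (by linarith)
    have h2 : Q t ≤ Q (t + b0 / 2 ^ (J + 1)) := hQm (by linarith)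
    have h3 := hQ1 (t + b0)
    have h4 := hQ0 (t - b0)
    linarith
  have hex : ∃ j ≤ J, A j ≤ η := by
    by_contra hcon
    push Not at hcon
    have : (J + 1 : ℝ) * η ≤ ∑ j ∈ Finset.range (J + 1), A j := by
      have h5 : ∑ _j ∈ Finset.range (J + 1), η ≤ ∑ j ∈ Finset.range (J + 1), A j := by
        apply Finset.sum_le_sum
        intro j hj
        exact (hcon j (by simpa [Nat.lt_succ_iff] using hj)).le
      simpa using h5
    linarith
  obtain ⟨j, hj, hAj⟩ := hex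
  have hpow : b0 / 2 ^ (j + 1) = b0 / 2 ^ j / 2 := by
    rw [pow_succ]
    field_simp
  set b := b0 / 2 ^ j with hbdef
  have hbp : 0 < b := by positivity
  have hb4 : b ≤ 1 / 4 := by
    have : b ≤ b0 := div_le_self hb0.le (one_le_pow₀ (by norm_num))
    linarith
  simp only [hA] at hAj
  rw [hpow] at hAj
  have part1 : 0 ≤ Q (t - b / 2) - Q (t - b) := by
    have := hQm (show t - b ≤ t - b / 2 by linarith)
    linarith
  have part2 : 0 ≤ Q (t + b) - Q (t + b / 2) := by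
    have := hQm (show t + b / 2 ≤ t + b by linarith)
    linarith
  obtain ⟨ht0, ht1⟩ := ht
  have left : ∃ t1, 0 ≤ t1 ∧ t1 ≤ t ∧ t - b ≤ t1 ∧ (t - b < 0 ∨ t1 ≤ t - b / 2) ∧
      (t1 = 0 ∨ X t1 * (b / 2) ≤ η) := by
    rcases lt_or_ge (t - b) 0 with h | h
    · exact ⟨0, le_rfl, ht0, h.le, Or.inl h, Or.inl rfl⟩
    · obtain ⟨s, hs, he⟩ := tf_mvt hP h (show t - b < t - b / 2 by linarith) (by linarith)
      refine ⟨s, by linarith [hs.1], by linarith [hs.2], hs.1.le, Or.inr hs.2.le, Or.inr ?_⟩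
      have e1 : Q (t - b / 2) = P (t - b / 2) := by
        simp only [hQ]
        rw [tf_clamp (by linarith) (by linarith)]
      have e2 : Q (t - b) = P (t - b) := by
        simp only [hQ]
        rw [tf_clamp h (by linarith)]
      have e3 : (t - b / 2 - (t - b)) = b / 2 := by ring
      rw [e3] at he
      rw [he]
      linarith
  have right : ∃ t2, t ≤ t2 ∧ t2 ≤ 1 ∧ t2 ≤ t + b ∧ (1 < t + b ∨ t + b / 2 ≤ t2) ∧
      (t2 = 1 ∨ X t2 * (b / 2) ≤ η) := by
    rcases lt_or_ge 1 (t + b) with h | h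
    · exact ⟨1, ht1, le_rfl, h.le, Or.inl h, Or.inl rfl⟩
    · obtain ⟨s, hs, he⟩ := tf_mvt hP (show 0 ≤ t + b / 2 by linarith)
        (show t + b / 2 < t + b by linarith) h
      refine ⟨s, by linarith [hs.1], by linarith [hs.2], hs.2.le, Or.inr hs.1.le, Or.inr ?_⟩
      have e1 : Q (t + b / 2) = P (t + b / 2) := by
        simp only [hQ]
        rw [tf_clamp (by linarith) (by linarith)]
      have e2 : Q (t + b) = P (t + b) := by
        simp only [hQ]
        rw [tf_clamp (by linarith) h]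
      have e3 : (t + b - (t + b / 2)) = b / 2 := by ring
      rw [e3] at he
      rw [he]
      linarith
  obtain ⟨t1, l1, l2, l3, l4, l5⟩ := left
  obtain ⟨t2, r1, r2, r3, r4, r5⟩ := right
  have hlow : b / 2 ≤ t2 - t1 := by
    rcases l4 with l4 | l4
    · rcases r4 with r4 | r4
      · linarith
      · linarith
    · linarith
  exact ⟨j, hj, t1, t2, l1, l2, r1, r2, by linarith, by linarith, hlow, l5, r5⟩

end Pool.Agent.H37.DP
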