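import Pool.Agent.H37.DP.TB
import Pool.Agent.H37.DP.SD

/-!
MODULE TG: no concentration of `∫ K²` between two good times (the key estimate).

PROOF.  Write `I = [t1,t2]`, `l = t2 - t1`, `w_a = W (V t_a)`, `G_a = ginv w_a`,
`XK = lam ∫_I K2 (W (V t))`, `r i = log (w_2 i / w_1 i) = log (G_1 i / G_2 i)`.
(1) For every `i`: `r i = ∫_I (L V1 i / W V i)`, so `(r i)² ≤ l ∫_I (L V1 i/W V i)²`
(Cauchy-Schwarz), and averaging `sq r ≤ l ∫_I sq (L V1/W V) = l (P(t2) - P(t1) - XK)`
(`int_X`).  In particular `sq r ≤ l C1` (as `XK ≥ 0`).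
(2) Let `q = 1952 θ C1 < 1`.  Then `|r i| ≤ q^(1/3)` for all `i`: otherwise apply `ratio` to
`G_1, G_2` with `ρ = min |r i| 1 > q^(1/3)`: `ρ³ ≤ 1952 κ² sq r ≤ 1952 κ² l C1 ≤ q`,
contradiction.  (`G_a > 0`, `avg (ginv G_a) = avg w_a = 1`, `sq (L G_a) = K2 w_a ≤ κ²`.)
(3) Put `p i = (V t2 i - V t1 i)/l`.  For every grid function `g` and `t ∈ I`:
`|avg ((V1 t - p) g)| ≤ lam (∫_I √K2) √(sq g)`, since
`avg ((V1 t - p) g) = (1/l) ∫_I avg ((V1 t - V1 s) g) ds` and
`|avg ((V1 t - V1 s) g)| ≤ ∫_I |avg (lam L G g)| ≤ lam ∫_I √K2 √(sq g)`; and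
`lam ∫_I √K2 ≤ lam √l √(∫_I K2) = √(lam l XK)`.
(4) `P(t2) - P(t1) = - avg (V1 t2 * L G_2) + avg (V1 t1 * L G_1)
 = - avg ((V1 t2 - p) L G_2) + avg ((V1 t1 - p) L G_1) - avg (p L (G_2 - G_1))`.
The first two are `≤ 2 κ √(lam l XK) ≤ 2 √(lam θ XK) ≤ XK/2 + 2 lam θ`.  The last one:
`avg (p L(G_2 - G_1)) = avg (L p (G_2 - G_1)) = (1/l) avg ((w_2 - w_1)(1/w_2 - 1/w_1))
 = - (1/l) avg ((w_2-w_1)²/(w_1 w_2)) = - (1/l) avg (2 cosh r - 2)`.
For `|x| ≤ 1`: `2 cosh x - 2 - x² ≤ x⁴/10`, so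
`- avg (p L(G_2-G_1)) ≤ (1/l)(sq r + q^(2/3) sq r/10) ≤ (P(t2) - P(t1) - XK) + q^(2/3) C1/10`.
(5) Altogether `XK ≤ XK/2 + 2 lam θ + q^(2/3) C1/10`.
-/

namespace Pool.Agent.H37.DP

open Set Filter Topology

/-- Cauchy-Schwarz on an interval. -/
private theorem tg_cs {f : ℝ → ℝ} {a b : ℝ} (hab : a ≤ b) (hf : ContinuousOn f (Icc a b)) :
    (∫ t in a..b, f t) ^ 2 ≤ (b - a) * ∫ t in a..b, (f t) ^ 2 := by
  rcases eq_or_lt_of_le hab with h | h
  · subst h
    simp
  have hu : uIcc a b = Icc a b := uIcc_of_le hab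
  have i1 : IntervalIntegrable f MeasureTheory.volume a b := by
    apply ContinuousOn.intervalIntegrable
    rwa [hu]
  have i2 : IntervalIntegrable (fun t => (f t) ^ 2) MeasureTheory.volume a b := by
    apply ContinuousOn.intervalIntegrable
    rw [hu]
    exact hf.pow 2
  set m := (∫ t in a..b, f t) / (b - a) with hm
  have hba : 0 < b - a := by linarith
  have h0 : 0 ≤ ∫ t in a..b, (f t - m) ^ 2 :=
    intervalIntegral.integral_nonneg hab fun t _ => sq_nonneg _
  have h1 : ∫ t in a..b, (f t - m) ^ 2 =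
      (∫ t in a..b, (f t) ^ 2) - 2 * m * (∫ t in a..b, f t) + m ^ 2 * (b - a) := by
    have e : ∀ t, (f t - m) ^ 2 = ((f t) ^ 2 - 2 * m * f t) + m ^ 2 := fun t => by ring
    simp only [e]
    rw [intervalIntegral.integral_add (i2.sub (i1.const_mul _)) (by simp),
      intervalIntegral.integral_sub i2 (i1.const_mul _), intervalIntegral.integral_const_mul,
      intervalIntegral.integral_const]
    simp only [smul_eq_mul]
    ring
  rw [h1] at h0
  have h2 : m * (b - a) = ∫ t in a..b, f t := by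
    rw [hm]
    field_simp
  rw [← h2] at h0 ⊢
  nlinarith

private theorem tg_exp {x : ℝ} (hx : |x| ≤ 1) :
    Real.exp x + Real.exp (-x) - 2 ≤ x ^ 2 + x ^ 4 / 10 := by
  have h1 := Real.exp_bound (x := x) hx (n := 6) (by norm_num)
  have h2 := Real.exp_bound (x := -x) (by rwa [abs_neg]) (n := 6) (by norm_num)
  rw [abs_neg] at h2
  have h1' := (abs_le.mp h1).2
  have h2' := (abs_le.mp h2).2
  simp only [Finset.sum_range_succ, Finset.sum_range_zero, Nat.factorial] at h1' h2'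
  norm_num at h1' h2'
  have h6 : |x| ^ 6 ≤ x ^ 4 := by
    have : |x| ^ 6 = |x| ^ 4 * |x| ^ 2 := by ring
    rw [this]
    have h4 : |x| ^ 4 = x ^ 4 := by
      rw [← abs_pow]
      exact abs_of_nonneg (by positivity)
    rw [h4]
    have h5 : |x| ^ 2 ≤ 1 := by
      have := abs_nonneg x
      nlinarith
    have h7 : 0 ≤ x ^ 4 := by positivity
    nlinarith
  have h8 : (-x) ^ 6 = x ^ 6 := by ring
  nlinarith [h6, h1', h2', sq_nonneg (x ^ 2)]

private theorem tg_hasDerivAt_pair {N : ℕ} [NeZero N] {lam : ℝ} {V V1 : ℝ → ZMod N → ℝ}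
    (h : IsSol N lam V V1) (g : ZMod N → ℝ) {t : ℝ} (ht : t ∈ Icc (0 : ℝ) 1) :
    HasDerivAt (fun s => avg (fun i => V s i * g i)) (avg (fun i => V1 t i * g i)) t :=
  hasDerivAt_avg (f := fun s i => V s i * g i) (f' := fun i => V1 t i * g i)
    fun i => (h.dV t ht i).mul_const (g i)

private theorem tg_hasDerivAt_pair1 {N : ℕ} [NeZero N] {lam : ℝ} {V V1 : ℝ → ZMod N → ℝ}
    (h : IsSol N lam V V1) (g : ZMod N → ℝ) {t : ℝ} (ht : t ∈ Icc (0 : ℝ) 1) :
    HasDerivAt (fun s => avg (fun i => V1 s i * g i))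
      (avg (fun i => (-lam * L (ginv (W (V t))) i) * g i)) t :=
  hasDerivAt_avg (f := fun s i => V1 s i * g i)
    (f' := fun i => (-lam * L (ginv (W (V t))) i) * g i)
    fun i => (h.dV1 t ht i).mul_const (g i)

/-- the drift of the momentum. -/
private theorem tg_drift {N : ℕ} [NeZero N] {lam : ℝ} {V V1 : ℝ → ZMod N → ℝ}
    (h : IsSol N lam V V1) (hlam : 0 < lam) (g : ZMod N → ℝ) {t1 t2 x y : ℝ} (h0 : 0 ≤ t1)
    (h1 : t2 ≤ 1) (hx : t1 ≤ x) (hxy : x ≤ y) (hy : y ≤ t2) :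
    |avg (fun i => V1 y i * g i) - avg (fun i => V1 x i * g i)| ≤
      (lam * Real.sqrt (sq g)) * ∫ t in t1..t2, Real.sqrt (K2 (W (V t))) := by
  have hsub : Icc x y ⊆ Icc (0 : ℝ) 1 := Icc_subset_Icc (by linarith) (by linarith)
  have hsub2 : Icc t1 t2 ⊆ Icc (0 : ℝ) 1 := Icc_subset_Icc (by linarith) (by linarith)
  have cLG : ∀ i, ContinuousOn (fun t => L (ginv (W (V t))) i) (Icc 0 1) := fun i =>
    continuousOn_L (f := fun t => ginv (W (V t))) (fun j => h.cG j) i
  have cf : ContinuousOn (fun t => avg (fun i => (-lam * L (ginv (W (V t))) i) * g i)) (Icc 0 1) :=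
    continuousOn_avg (f := fun t i => (-lam * L (ginv (W (V t))) i) * g i)
      fun i => ((continuousOn_const.mul (cLG i)).mul continuousOn_const)
  have cK : ContinuousOn (fun t => Real.sqrt (K2 (W (V t)))) (Icc 0 1) :=
    Real.continuous_sqrt.comp_continuousOn h.cK2
  have e : ∫ t in x..y, avg (fun i => (-lam * L (ginv (W (V t))) i) * g i) =
      avg (fun i => V1 y i * g i) - avg (fun i => V1 x i * g i) := by
    apply intervalIntegral.integral_eq_sub_of_hasDerivAt
    · intro t ht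
      rw [uIcc_of_le hxy] at ht
      exact tg_hasDerivAt_pair1 h g (hsub ht)
    · apply ContinuousOn.intervalIntegrable
      rw [uIcc_of_le hxy]
      exact cf.mono hsub
  rw [← e, ← intervalIntegral.integral_const_mul]
  have b1 : ∀ t ∈ Icc (0 : ℝ) 1, |avg (fun i => (-lam * L (ginv (W (V t))) i) * g i)| ≤
      lam * Real.sqrt (sq g) * Real.sqrt (K2 (W (V t))) := by
    intro t _
    have e2 : avg (fun i => (-lam * L (ginv (W (V t))) i) * g i) =
        -lam * avg (fun i => L (ginv (W (V t))) i * g i) := by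
      rw [← avg_mul_left]
      congr 1
      funext i
      ring
    rw [e2, abs_mul, abs_neg, abs_of_pos hlam]
    have := cs' (L (ginv (W (V t)))) g
    have hK : K2 (W (V t)) = sq (L (ginv (W (V t)))) := rfl
    rw [hK]
    calc lam * |avg (fun i => L (ginv (W (V t))) i * g i)|
        ≤ lam * (Real.sqrt (sq (L (ginv (W (V t))))) * Real.sqrt (sq g)) :=
          mul_le_mul_of_nonneg_left this hlam.le
      _ = _ := by ring
  have i3 : IntervalIntegrable (fun t => lam * Real.sqrt (sq g) * Real.sqrt (K2 (W (V t))))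
      MeasureTheory.volume t1 t2 := by
    apply ContinuousOn.intervalIntegrable
    rw [uIcc_of_le (by linarith)]
    exact (continuousOn_const.mul cK).mono hsub2
  calc |∫ t in x..y, avg (fun i => (-lam * L (ginv (W (V t))) i) * g i)|
      ≤ ∫ t in x..y, |avg (fun i => (-lam * L (ginv (W (V t))) i) * g i)| :=
        intervalIntegral.abs_integral_le_integral_abs hxy
    _ ≤ ∫ t in x..y, lam * Real.sqrt (sq g) * Real.sqrt (K2 (W (V t))) := by
        apply intervalIntegral.integral_mono_on hxy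
        · apply ContinuousOn.intervalIntegrable
          rw [uIcc_of_le hxy]
          exact (cf.mono hsub).abs
        · apply ContinuousOn.intervalIntegrable
          rw [uIcc_of_le hxy]
          exact (continuousOn_const.mul cK).mono hsub
        · intro t ht
          exact b1 t (hsub ht)
    _ ≤ ∫ t in t1..t2, lam * Real.sqrt (sq g) * Real.sqrt (K2 (W (V t))) := by
        apply intervalIntegral.integral_mono_interval hx hxy hy
        · refine Eventually.of_forall fun t => ?_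
          have : 0 ≤ lam * Real.sqrt (sq g) * Real.sqrt (K2 (W (V t))) :=
            mul_nonneg (mul_nonneg hlam.le (Real.sqrt_nonneg _)) (Real.sqrt_nonneg _)
          simpa using this
        · exact i3

theorem IsSol.small_K {N : ℕ} [NeZero N] (hN : 3 ≤ N) {lam : ℝ} {V V1 : ℝ → ZMod N → ℝ}
    (h : IsSol N lam V V1) (hlam : 0 < lam) {t1 t2 : ℝ} (h0 : 0 ≤ t1) (h12 : t1 < t2)
    (h1 : t2 ≤ 1) {κ θ C1 : ℝ} (hκ : 1 ≤ κ) (k1 : K2 (W (V t1)) ≤ κ ^ 2)
    (k2 : K2 (W (V t2)) ≤ κ ^ 2) (hθ : κ ^ 2 * (t2 - t1) ≤ θ)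
    (hC : Pp (V t2) (V1 t2) - Pp (V t1) (V1 t1) ≤ C1) (hsm : 1952 * θ * C1 < 1) :
    lam * ∫ t in t1..t2, K2 (W (V t)) ≤
      4 * lam * θ + C1 / 5 * (1952 * θ * C1) ^ ((2 : ℝ) / 3) := by
  have hl : 0 < t2 - t1 := by linarith
  have ht1 : t1 ∈ Icc (0 : ℝ) 1 := ⟨h0, by linarith⟩
  have ht2 : t2 ∈ Icc (0 : ℝ) 1 := ⟨by linarith, h1⟩
  have hsub : Icc t1 t2 ⊆ Icc (0 : ℝ) 1 := Icc_subset_Icc h0 h1
  have huI : uIcc t1 t2 = Icc t1 t2 := uIcc_of_le h12.le
  have hθ0 : 0 < θ := lt_of_lt_of_le (by positivity) hθ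
  have hPm := h.P_mono hlam.le h0 h12.le h1
  have hC0 : 0 ≤ C1 := by linarith
  have K_nonneg : ∀ t, 0 ≤ K2 (W (V t)) := fun t => sq_nonneg' _
  -- the integrals
  set IK := ∫ t in t1..t2, K2 (W (V t)) with hIK
  have hIK0 : 0 ≤ IK := intervalIntegral.integral_nonneg h12.le fun t _ => K_nonneg t
  set A := ∫ t in t1..t2, sq (fun i => L (V1 t) i / W (V t) i) with hA
  have cLV1 : ∀ i, ContinuousOn (fun t => L (V1 t) i) (Icc 0 1) := fun i =>
    continuousOn_L (f := fun t => V1 t) (fun j => h.cV1 j) i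
  have cq : ∀ i, ContinuousOn (fun t => L (V1 t) i / W (V t) i) (Icc 0 1) := fun i =>
    (cLV1 i).div (h.cW i) fun t ht => (h.pos t ht i).ne'
  have cA : ContinuousOn (fun t => sq (fun i => L (V1 t) i / W (V t) i)) (Icc 0 1) :=
    continuousOn_sq (f := fun t i => L (V1 t) i / W (V t) i) cq
  have iA : IntervalIntegrable (fun t => sq (fun i => L (V1 t) i / W (V t) i))
      MeasureTheory.volume t1 t2 := by
    apply ContinuousOn.intervalIntegrable
    rw [huI]
    exact cA.mono hsub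
  have iK : IntervalIntegrable (fun t => K2 (W (V t))) MeasureTheory.volume t1 t2 := by
    apply ContinuousOn.intervalIntegrable
    rw [huI]
    exact h.cK2.mono hsub
  have hPA : Pp (V t2) (V1 t2) - Pp (V t1) (V1 t1) = A + lam * IK := by
    rw [← h.int_X h0 h12.le h1]
    unfold Xq
    rw [intervalIntegral.integral_add iA (iK.const_mul lam), intervalIntegral.integral_const_mul]
  have hAC : A ≤ C1 := by
    have : 0 ≤ lam * IK := mul_nonneg hlam.le hIK0
    linarith
  have hA0 : 0 ≤ A := intervalIntegral.integral_nonneg h12.le fun t _ => sq_nonneg' _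
  -- the ratio
  set G1 := ginv (W (V t1)) with hG1
  set G2 := ginv (W (V t2)) with hG2
  have w1p : ∀ i, 0 < W (V t1) i := h.pos t1 ht1
  have w2p : ∀ i, 0 < W (V t2) i := h.pos t2 ht2
  set r : ZMod N → ℝ := fun j => Real.log (G1 j / G2 j) with hr
  have hr' : ∀ j, r j = Real.log (W (V t2) j) - Real.log (W (V t1) j) := by
    intro j
    simp only [hr, hG1, hG2, ginv]
    rw [Real.log_div (inv_ne_zero (w1p j).ne') (inv_ne_zero (w2p j).ne'), Real.log_inv,
      Real.log_inv]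
    ring
  have hrint : ∀ j, r j = ∫ t in t1..t2, L (V1 t) j / W (V t) j := by
    intro j
    rw [hr' j]
    symm
    apply intervalIntegral.integral_eq_sub_of_hasDerivAt
    · intro t ht
      rw [huI] at ht
      have := (h.dW (hsub ht) j).log (h.pos t (hsub ht) j).ne'
      exact this
    · apply ContinuousOn.intervalIntegrable
      rw [huI]
      exact (cq j).mono hsub
  have hsqr : sq r ≤ (t2 - t1) * A := by
    have e1 : ∀ j, (r j) ^ 2 ≤ (t2 - t1) * ∫ t in t1..t2, (L (V1 t) j / W (V t) j) ^ 2 := by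
      intro j
      rw [hrint j]
      exact tg_cs h12.le ((cq j).mono hsub)
    have e2 : A = avg (fun j => ∫ t in t1..t2, (L (V1 t) j / W (V t) j) ^ 2) := by
      rw [hA]
      unfold sq avg
      rw [intervalIntegral.integral_div, intervalIntegral.integral_finsetSum]
      intro j _
      apply ContinuousOn.intervalIntegrable
      rw [huI]
      exact ((cq j).mono hsub).pow 2
    rw [e2, ← avg_mul_left]
    exact avg_mono e1
  -- the bound of the ratio
  set q := 1952 * θ * C1 with hq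
  have hq0 : 0 ≤ q := by positivity
  have hrb : ∀ i, |r i| ≤ q ^ ((1 : ℝ) / 3) := by
    intro i
    by_contra hcon
    push Not at hcon
    set ρ := min |r i| 1 with hρ
    have hq3 : (q ^ ((1 : ℝ) / 3)) ^ 3 = q := by
      rw [← Real.rpow_natCast, ← Real.rpow_mul hq0]
      norm_num
    have hq13 : 0 ≤ q ^ ((1 : ℝ) / 3) := Real.rpow_nonneg hq0 _
    have hq1 : q ^ ((1 : ℝ) / 3) < 1 := Real.rpow_lt_one hq0 hsm (by norm_num)
    have hρ1 : q ^ ((1 : ℝ) / 3) < ρ := lt_min hcon hq1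
    have hρ0 : 0 < ρ := lt_of_le_of_lt hq13 hρ1
    have G1p : ∀ i, 0 < G1 i := h.G_pos ht1
    have G2p : ∀ i, 0 < G2 i := h.G_pos ht2
    have a1 : avg (ginv G1) = 1 := by
      have : ginv G1 = W (V t1) := by
        funext j
        simp [hG1, ginv]
      rw [this, avg_W]
    have a2 : avg (ginv G2) = 1 := by
      have : ginv G2 = W (V t2) := by
        funext j
        simp [hG2, ginv]
      rw [this, avg_W]
    have hrat := ratio hN G1 G2 G1p G2p a1 a2 hκ k1 k2 hρ0 (min_le_right _ _) i (min_le_left _ _)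
    have h3 : ρ ^ 3 ≤ q := by
      calc ρ ^ 3 ≤ 1952 * κ ^ 2 * sq r := hrat
        _ ≤ 1952 * κ ^ 2 * ((t2 - t1) * A) := by
            apply mul_le_mul_of_nonneg_left hsqr
            positivity
        _ ≤ 1952 * κ ^ 2 * ((t2 - t1) * C1) := by
            apply mul_le_mul_of_nonneg_left _ (by positivity)
            exact mul_le_mul_of_nonneg_left hAC hl.le
        _ = 1952 * (κ ^ 2 * (t2 - t1)) * C1 := by ring
        _ ≤ 1952 * θ * C1 := by
            apply mul_le_mul_of_nonneg_right _ hC0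
            exact mul_le_mul_of_nonneg_left hθ (by norm_num)
    have h4 : (q ^ ((1 : ℝ) / 3)) ^ 3 < ρ ^ 3 := pow_lt_pow_left₀ hρ1 hq13 (by norm_num)
    rw [hq3] at h4
    linarith
  -- the momentum
  set J := ∫ t in t1..t2, Real.sqrt (K2 (W (V t))) with hJ
  have cK : ContinuousOn (fun t => Real.sqrt (K2 (W (V t)))) (Icc 0 1) :=
    Real.continuous_sqrt.comp_continuousOn h.cK2
  have hJ0 : 0 ≤ J := intervalIntegral.integral_nonneg h12.le fun t _ => Real.sqrt_nonneg _
  have hJ2 : J ^ 2 ≤ (t2 - t1) * IK := by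
    have := tg_cs h12.le (cK.mono hsub)
    have e : ∫ t in t1..t2, (Real.sqrt (K2 (W (V t)))) ^ 2 = IK := by
      rw [hIK]
      congr 1
      funext t
      exact Real.sq_sqrt (K_nonneg t)
    rwa [e] at this
  set p : ZMod N → ℝ := fun i => (V t2 i - V t1 i) / (t2 - t1) with hp
  -- mean value theorem
  have hmv : ∀ g : ZMod N → ℝ, ∃ ξ ∈ Ioo t1 t2,
      avg (fun i => p i * g i) = avg (fun i => V1 ξ i * g i) := by
    intro g
    obtain ⟨ξ, hξ, he⟩ := exists_hasDerivAt_eq_slope (fun s => avg (fun i => V s i * g i))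
      (fun s => avg (fun i => V1 s i * g i)) h12
      (fun t ht => (tg_hasDerivAt_pair h g (hsub ht)).continuousAt.continuousWithinAt)
      (fun t ht => tg_hasDerivAt_pair h g (hsub (Ioo_subset_Icc_self ht)))
    refine ⟨ξ, hξ, ?_⟩
    rw [he, ← avg_sub]
    rw [eq_div_iff hl.ne', mul_comm, ← avg_mul_left]
    congr 1
    funext i
    simp only [hp]
    field_simp
  have hmom1 : |avg (fun i => V1 t2 i * (L G2) i) - avg (fun i => p i * (L G2) i)| ≤
      lam * κ * J := by
    obtain ⟨ξ, hξ, he⟩ := hmv (L G2)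
    rw [he]
    refine (tg_drift h hlam (L G2) h0 h1 hξ.1.le hξ.2.le le_rfl).trans ?_
    apply mul_le_mul_of_nonneg_right _ hJ0
    apply mul_le_mul_of_nonneg_left _ hlam.le
    apply Real.sqrt_le_iff.mpr
    exact ⟨by linarith, k2⟩
  have hmom2 : |avg (fun i => V1 t1 i * (L G1) i) - avg (fun i => p i * (L G1) i)| ≤
      lam * κ * J := by
    obtain ⟨ξ, hξ, he⟩ := hmv (L G1)
    rw [he, abs_sub_comm]
    refine (tg_drift h hlam (L G1) h0 h1 le_rfl hξ.1.le hξ.2.le).trans ?_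
    apply mul_le_mul_of_nonneg_right _ hJ0
    apply mul_le_mul_of_nonneg_left _ hlam.le
    apply Real.sqrt_le_iff.mpr
    exact ⟨by linarith, k1⟩
  -- the main term
  have hmain : avg (fun i => p i * (L G1) i) - avg (fun i => p i * (L G2) i) =
      avg (fun i => Real.exp (r i) + Real.exp (-(r i)) - 2) / (t2 - t1) := by
    rw [sbp_L, sbp_L, ← avg_sub, eq_div_iff hl.ne', mul_comm, ← avg_mul_left]
    congr 1
    funext i
    have e1 : L p i = (W (V t2) i - W (V t1) i) / (t2 - t1) := by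
      simp only [hp, L, W]
      field_simp
      ring
    have e2 : Real.exp (r i) = W (V t2) i / W (V t1) i := by
      rw [hr' i, Real.exp_sub, Real.exp_log (w2p i), Real.exp_log (w1p i)]
    have e3 : Real.exp (-(r i)) = W (V t1) i / W (V t2) i := by
      rw [hr' i, neg_sub, Real.exp_sub, Real.exp_log (w2p i), Real.exp_log (w1p i)]
    have hw1 := (w1p i).ne'
    have hw2 := (w2p i).ne'
    rw [e1, e2, e3, hG1, hG2]
    simp only [ginv]
    field_simp
    ring
  have hq23 : (q ^ ((1 : ℝ) / 3)) ^ 2 = q ^ ((2 : ℝ) / 3) := by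
    rw [← Real.rpow_natCast, ← Real.rpow_mul hq0]
    norm_num
  have hq230 : 0 ≤ q ^ ((2 : ℝ) / 3) := Real.rpow_nonneg hq0 _
  have hq1 : q ^ ((1 : ℝ) / 3) < 1 := Real.rpow_lt_one hq0 hsm (by norm_num)
  have hcosh : avg (fun i => Real.exp (r i) + Real.exp (-(r i)) - 2) ≤
      (1 + q ^ ((2 : ℝ) / 3) / 10) * sq r := by
    have : (1 + q ^ ((2 : ℝ) / 3) / 10) * sq r =
        avg (fun i => (1 + q ^ ((2 : ℝ) / 3) / 10) * (r i) ^ 2) := by
      rw [avg_mul_left]
      rfl
    rw [this]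
    apply avg_mono
    intro i
    have e1 := tg_exp (x := r i) ((hrb i).trans hq1.le)
    have e2 : (r i) ^ 2 ≤ q ^ ((2 : ℝ) / 3) := by
      rw [← hq23, ← sq_abs]
      exact pow_le_pow_left₀ (abs_nonneg _) (hrb i) 2
    have e3 : (r i) ^ 4 ≤ q ^ ((2 : ℝ) / 3) * (r i) ^ 2 := by
      have : (r i) ^ 4 = (r i) ^ 2 * (r i) ^ 2 := by ring
      rw [this]
      exact mul_le_mul_of_nonneg_right e2 (sq_nonneg _)
    nlinarith
  have hthird : avg (fun i => p i * (L G1) i) - avg (fun i => p i * (L G2) i) ≤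
      A + q ^ ((2 : ℝ) / 3) * C1 / 10 := by
    rw [hmain, div_le_iff₀ hl]
    calc avg (fun i => Real.exp (r i) + Real.exp (-(r i)) - 2)
        ≤ (1 + q ^ ((2 : ℝ) / 3) / 10) * sq r := hcosh
      _ ≤ (1 + q ^ ((2 : ℝ) / 3) / 10) * ((t2 - t1) * A) :=
          mul_le_mul_of_nonneg_left hsqr (by positivity)
      _ = (A + q ^ ((2 : ℝ) / 3) * A / 10) * (t2 - t1) := by ring
      _ ≤ (A + q ^ ((2 : ℝ) / 3) * C1 / 10) * (t2 - t1) := by
          apply mul_le_mul_of_nonneg_right _ hl.le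
          have := mul_le_mul_of_nonneg_left hAC hq230
          linarith
  -- AM-GM
  have ham : 2 * (lam * κ * J) ≤ lam * IK / 2 + 2 * lam * θ := by
    have e1 : κ ^ 2 * J ^ 2 ≤ θ * IK := by
      calc κ ^ 2 * J ^ 2 ≤ κ ^ 2 * ((t2 - t1) * IK) :=
            mul_le_mul_of_nonneg_left hJ2 (by positivity)
        _ = (κ ^ 2 * (t2 - t1)) * IK := by ring
        _ ≤ θ * IK := mul_le_mul_of_nonneg_right hθ hIK0
    have e2 : 2 * (κ * J) ≤ IK / 2 + 2 * θ := by
      apply le_of_sq_le_sq _ (by positivity)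
      nlinarith [sq_nonneg (IK / 2 - 2 * θ)]
    have := mul_le_mul_of_nonneg_left e2 hlam.le
    nlinarith
  have hPP : Pp (V t2) (V1 t2) - Pp (V t1) (V1 t1) =
      - avg (fun i => V1 t2 i * (L G2) i) + avg (fun i => V1 t1 i * (L G1) i) := by
    unfold Pp
    ring
  have m1 := (abs_le.mp hmom1).1
  have m2 := (abs_le.mp hmom2).2
  have hfin : lam * IK ≤ lam * IK / 2 + 2 * lam * θ + q ^ ((2 : ℝ) / 3) * C1 / 10 := by
    linarith
  linarith

end Pool.Agent.H37.DP
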