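import Pool.Agent.H37.DP.TB
import Pool.Agent.H37.DP.SE

/-!
MODULE TH: second level energy estimate on `I = [t1,t2]`.

PROOF.  `l = t2 - t1`, `w t = W (V t)`, `wl t = ((t2-t) w t1 + (t-t1) w t2)/l`, `z = w - wl`,
`z' = L V1 - (w t2 - w t1)/l`.  `Φ = avg (z * z')` vanishes at `t1` and `t2`, and
`Φ' = sq z' + avg (z * (L V1)') = sq z' - lam avg (z * L (L G)) = sq z' - lam avg (L z * L G)`.
So `∫_I sq z' = lam ∫_I avg (L w * L G) - lam ∫_I avg (L wl * L G)
 ≤ lam ∫_I (- S/2 + 2 Q) + lam ∫_I (A/2 + K2/2)` by `avg_Lw_LG`, `|ab| ≤ (a²+b²)/2` and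
`sq (L (wl t)) ≤ A` (`L (wl t)` is a convex combination of `L (w t1)`, `L (w t2)`, `sq` convex).
Finally `sq (L V1) ≤ 2 sq z' + 2 sq (w t2 - w t1)/l² ≤ 2 sq z' + 8 B'/l²`.
-/

namespace Pool.Agent.H37.DP

open Set Filter Topology

private lemma th_sq_convex {N : ℕ} [NeZero N] (f g : ZMod N → ℝ) {a b A : ℝ} (ha : 0 ≤ a)
    (hb : 0 ≤ b) (hab : a + b = 1) (hf : sq f ≤ A) (hg : sq g ≤ A) :
    sq (fun i => a * f i + b * g i) ≤ A := by
  have h1 : sq (fun i => a * f i + b * g i) ≤ a * sq f + b * sq g := by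
    unfold sq
    rw [← avg_mul_left, ← avg_mul_left, ← avg_add]
    apply avg_mono
    intro i
    have hb' : b = 1 - a := by linarith
    subst hb'
    nlinarith [mul_nonneg (mul_nonneg ha hb) (sq_nonneg (f i - g i))]
  have h2 : a * sq f + b * sq g ≤ a * A + b * A :=
    add_le_add (mul_le_mul_of_nonneg_left hf ha) (mul_le_mul_of_nonneg_left hg hb)
  have h3 : a * A + b * A = A := by rw [← add_mul, hab, one_mul]
  linarith

private lemma th_young {N : ℕ} [NeZero N] (f g : ZMod N → ℝ) :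
    - avg (fun i => f i * g i) ≤ sq f / 2 + sq g / 2 := by
  have h1 : avg (fun i => - (f i * g i)) ≤
      avg (fun i => (1 / 2) * ((f i) ^ 2) + (1 / 2) * ((g i) ^ 2)) := by
    apply avg_mono
    intro i
    nlinarith [sq_nonneg (f i + g i)]
  rw [avg_neg, avg_add, avg_mul_left, avg_mul_left] at h1
  unfold sq
  linarith

/-- the pointwise inequality -/
private lemma th_point {N : ℕ} [NeZero N] {lam : ℝ} (hlam : 0 < lam) (w w1 w2 n : ZMod N → ℝ)
    (hw : ∀ i, 0 < w i) {a b l A B' : ℝ} (hl : 0 < l) (ha : 0 ≤ a) (hb : 0 ≤ b)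
    (hab : a + b = 1) (a1 : sq (L w1) ≤ A) (a2 : sq (L w2) ≤ A) (b1 : sq w1 ≤ B')
    (b2 : sq w2 ≤ B') :
    sq n + lam * Sq w - (4 * lam * Qv w + lam * K2 w + (lam * A + 8 * B' / l ^ 2)) ≤
      2 * avg (fun i => (n i - (w2 i - w1 i) / l) * (n i - (w2 i - w1 i) / l) +
        (w i - (a * w1 i + b * w2 i)) * (- lam * L (L (ginv w)) i)) := by
  have e1 : avg (fun i => (n i - (w2 i - w1 i) / l) * (n i - (w2 i - w1 i) / l) +
        (w i - (a * w1 i + b * w2 i)) * (- lam * L (L (ginv w)) i)) =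
      sq (fun i => n i - (w2 i - w1 i) / l) +
        (- lam) * avg (fun i => L (fun j => w j - (a * w1 j + b * w2 j)) i * L (ginv w) i) := by
    rw [avg_add]
    congr 1
    · unfold sq
      congr 1
      funext i
      ring
    · rw [← sbp_L (fun j => w j - (a * w1 j + b * w2 j)) (L (ginv w)), ← avg_mul_left]
      congr 1
      funext i
      ring
  have e2 : avg (fun i => L (fun j => w j - (a * w1 j + b * w2 j)) i * L (ginv w) i) =
      avg (fun i => L w i * L (ginv w) i) -
        avg (fun i => (a * L w1 i + b * L w2 i) * L (ginv w) i) := by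
    rw [← avg_sub]
    congr 1
    funext i
    rw [L_sub w (fun j => a * w1 j + b * w2 j), L_add (fun j => a * w1 j) (fun j => b * w2 j),
      L_mul_left, L_mul_left]
    ring
  have e3 := avg_Lw_LG w hw
  have e4 := th_young (fun i => a * L w1 i + b * L w2 i) (L (ginv w))
  have e5 := th_sq_convex (L w1) (L w2) ha hb hab a1 a2
  have e6 : sq n ≤ 2 * sq (fun i => n i - (w2 i - w1 i) / l) + 8 * B' / l ^ 2 := by
    have h1 : sq (fun i => (n i - (w2 i - w1 i) / l) + (w2 i - w1 i) / l) ≤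
        2 * sq (fun i => n i - (w2 i - w1 i) / l) + 2 * sq (fun i => (w2 i - w1 i) / l) :=
      sq_add_le _ _
    have h2 : (fun i => (n i - (w2 i - w1 i) / l) + (w2 i - w1 i) / l) = n := by
      funext i
      ring
    rw [h2] at h1
    have h3 : sq (fun i => (w2 i - w1 i) / l) = (1 / l) ^ 2 * sq (fun i => w2 i - w1 i) := by
      rw [← sq_mul_left]
      congr 1
      funext i
      ring
    have h4 : sq (fun i => w2 i - w1 i) ≤ 4 * B' := by
      have := sq_sub_le w2 w1
      linarith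
    have h5 : (1 / l) ^ 2 * sq (fun i => w2 i - w1 i) ≤ (1 / l) ^ 2 * (4 * B') :=
      mul_le_mul_of_nonneg_left h4 (by positivity)
    have h6 : 8 * B' / l ^ 2 = 2 * ((1 / l) ^ 2 * (4 * B')) := by
      field_simp
      ring
    rw [h6]
    rw [h3] at h1
    linarith
  have hK : K2 w = sq (L (ginv w)) := rfl
  rw [e1, e2]
  have e7 : avg (fun i => L w i * L (ginv w) i) -
        avg (fun i => (a * L w1 i + b * L w2 i) * L (ginv w) i) ≤
      - (1 / 2) * Sq w + 2 * Qv w + (A / 2 + K2 w / 2) := by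
    rw [hK]
    linarith
  have e8 := mul_le_mul_of_nonneg_left e7 hlam.le
  nlinarith [e8, e6]

theorem IsSol.energy_I {N : ℕ} [NeZero N] {lam : ℝ} {V V1 : ℝ → ZMod N → ℝ}
    (h : IsSol N lam V V1) (hlam : 0 < lam) {t1 t2 : ℝ} (h0 : 0 ≤ t1) (h12 : t1 < t2)
    (h1 : t2 ≤ 1) {A B' : ℝ} (a1 : sq (L (W (V t1))) ≤ A) (a2 : sq (L (W (V t2))) ≤ A)
    (b1 : sq (W (V t1)) ≤ B') (b2 : sq (W (V t2)) ≤ B') :
    (∫ t in t1..t2, sq (L (V1 t))) + lam * (∫ t in t1..t2, Sq (W (V t))) ≤
      4 * lam * (∫ t in t1..t2, Qv (W (V t))) + lam * (∫ t in t1..t2, K2 (W (V t)))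
        + lam * (t2 - t1) * A + 8 * B' / (t2 - t1) := by
  have hl : 0 < t2 - t1 := sub_pos.mpr h12
  have hsub : Icc t1 t2 ⊆ Icc (0 : ℝ) 1 := Icc_subset_Icc h0 h1
  -- the function `Φ`
  set Φ : ℝ → ℝ := fun t => avg (fun i =>
    (W (V t) i - ((t2 - t) * W (V t1) i + (t - t1) * W (V t2) i) / (t2 - t1)) *
      (L (V1 t) i - (W (V t2) i - W (V t1) i) / (t2 - t1))) with hΦ
  have hd : ∀ t ∈ Icc t1 t2, HasDerivAt Φ (avg (fun i =>
      (L (V1 t) i - (W (V t2) i - W (V t1) i) / (t2 - t1)) *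
        (L (V1 t) i - (W (V t2) i - W (V t1) i) / (t2 - t1)) +
      (W (V t) i - ((t2 - t) * W (V t1) i + (t - t1) * W (V t2) i) / (t2 - t1)) *
        (- lam * L (L (ginv (W (V t)))) i))) t := by
    intro t ht
    apply hasDerivAt_avg
    intro i
    have d1 : HasDerivAt (fun s => W (V s) i -
        ((t2 - s) * W (V t1) i + (s - t1) * W (V t2) i) / (t2 - t1))
        (L (V1 t) i - (W (V t2) i - W (V t1) i) / (t2 - t1)) t := by
      have d2 := h.dW (hsub ht) i
      have d3 : HasDerivAt (fun s : ℝ => ((t2 - s) * W (V t1) i + (s - t1) * W (V t2) i) /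
          (t2 - t1)) ((W (V t2) i - W (V t1) i) / (t2 - t1)) t := by
        have d4 : HasDerivAt (fun s : ℝ => t2 - s) (-1) t := by
          simpa using (hasDerivAt_id t).const_sub t2
        have d5 : HasDerivAt (fun s : ℝ => s - t1) 1 t := by
          simpa using (hasDerivAt_id t).sub_const t1
        have d6 := ((d4.mul_const (W (V t1) i)).add (d5.mul_const (W (V t2) i))).div_const
          (t2 - t1)
        exact d6.congr_deriv (by ring)
      exact d2.sub d3
    have d2 : HasDerivAt (fun s => L (V1 s) i - (W (V t2) i - W (V t1) i) / (t2 - t1))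
        (- lam * L (L (ginv (W (V t)))) i) t := (h.dLV1 (hsub ht) i).sub_const _
    exact d1.mul d2
  have hΦ1 : Φ t1 = 0 := by
    have e : (fun i => (W (V t1) i - ((t2 - t1) * W (V t1) i + (t1 - t1) * W (V t2) i) /
        (t2 - t1)) * (L (V1 t1) i - (W (V t2) i - W (V t1) i) / (t2 - t1))) =
        fun _ : ZMod N => (0 : ℝ) := by
      funext i
      have : (t2 - t1) * W (V t1) i / (t2 - t1) = W (V t1) i := by
        field_simp
      rw [sub_self t1, zero_mul, add_zero, this, sub_self, zero_mul]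
    rw [hΦ]
    show avg _ = 0
    rw [e, avg_const]
  have hΦ2 : Φ t2 = 0 := by
    have e : (fun i => (W (V t2) i - ((t2 - t2) * W (V t1) i + (t2 - t1) * W (V t2) i) /
        (t2 - t1)) * (L (V1 t2) i - (W (V t2) i - W (V t1) i) / (t2 - t1))) =
        fun _ : ZMod N => (0 : ℝ) := by
      funext i
      have : (t2 - t1) * W (V t2) i / (t2 - t1) = W (V t2) i := by
        field_simp
      rw [sub_self t2, zero_mul, zero_add, this, sub_self, zero_mul]
    rw [hΦ]
    show avg _ = 0
    rw [e, avg_const]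
  -- integrability
  have iu : ∀ f : ℝ → ℝ, ContinuousOn f (Icc 0 1) → IntervalIntegrable f MeasureTheory.volume t1 t2 := by
    intro f hf
    apply ContinuousOn.intervalIntegrable
    rw [uIcc_of_le h12.le]
    exact hf.mono hsub
  have i1 := iu _ h.cWt
  have i2 := iu _ h.cS
  have i3 := iu _ h.cQ
  have i4 := iu _ h.cK2
  set c0 : ℝ := lam * A + 8 * B' / (t2 - t1) ^ 2 with hc0
  have hφc : ContinuousOn (fun t => sq (L (V1 t)) + lam * Sq (W (V t)) -
      (4 * lam * Qv (W (V t)) + lam * K2 (W (V t)) + c0)) (Icc t1 t2) :=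
    ((h.cWt.add (continuousOn_const.mul h.cS)).sub
      (((continuousOn_const.mul h.cQ).add (continuousOn_const.mul h.cK2)).add
        continuousOn_const)).mono hsub
  have hle := intervalIntegral.integral_le_sub_of_hasDeriv_right_of_le (g := fun t => 2 * Φ t)
    (g' := fun t => 2 * (avg (fun i =>
      (L (V1 t) i - (W (V t2) i - W (V t1) i) / (t2 - t1)) *
        (L (V1 t) i - (W (V t2) i - W (V t1) i) / (t2 - t1)) +
      (W (V t) i - ((t2 - t) * W (V t1) i + (t - t1) * W (V t2) i) / (t2 - t1)) *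
        (- lam * L (L (ginv (W (V t)))) i))))
    (φ := fun t => sq (L (V1 t)) + lam * Sq (W (V t)) -
      (4 * lam * Qv (W (V t)) + lam * K2 (W (V t)) + c0)) h12.le
    (fun t ht => ((hd t ht).const_mul 2).continuousAt.continuousWithinAt)
    (fun t ht => ((hd t (Ioo_subset_Icc_self ht)).const_mul 2).hasDerivWithinAt)
    (hφc.integrableOn_Icc)
    (by
      intro t ht
      have ht' := Ioo_subset_Icc_self ht
      have hp := th_point hlam (W (V t)) (W (V t1)) (W (V t2)) (L (V1 t))
        (h.pos t (hsub ht')) (a := (t2 - t) / (t2 - t1)) (b := (t - t1) / (t2 - t1)) hl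
        (div_nonneg (sub_nonneg.mpr ht'.2) hl.le) (div_nonneg (sub_nonneg.mpr ht'.1) hl.le)
        (by rw [← add_div]; field_simp; ring) a1 a2 b1 b2
      refine le_trans hp (le_of_eq ?_)
      congr 2
      funext i
      congr 3
      ring)
  simp only [hΦ1, hΦ2, mul_zero, sub_self] at hle
  have e1 : ∫ t in t1..t2, (sq (L (V1 t)) + lam * Sq (W (V t)) -
      (4 * lam * Qv (W (V t)) + lam * K2 (W (V t)) + c0)) =
      ((∫ t in t1..t2, sq (L (V1 t))) + lam * (∫ t in t1..t2, Sq (W (V t)))) -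
      (4 * lam * (∫ t in t1..t2, Qv (W (V t))) + lam * (∫ t in t1..t2, K2 (W (V t))) +
        (t2 - t1) * c0) := by
    rw [intervalIntegral.integral_sub (i1.add (i2.const_mul lam))
      (((i3.const_mul (4 * lam)).add (i4.const_mul lam)).add intervalIntegrable_const),
      intervalIntegral.integral_add i1 (i2.const_mul lam),
      intervalIntegral.integral_add ((i3.const_mul (4 * lam)).add (i4.const_mul lam))
        intervalIntegrable_const,
      intervalIntegral.integral_add (i3.const_mul (4 * lam)) (i4.const_mul lam),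
      intervalIntegral.integral_const_mul, intervalIntegral.integral_const_mul,
      intervalIntegral.integral_const_mul, intervalIntegral.integral_const, smul_eq_mul]
  rw [e1] at hle
  have e2 : (t2 - t1) * c0 = lam * (t2 - t1) * A + 8 * B' / (t2 - t1) := by
    rw [hc0]
    field_simp
  rw [e2] at hle
  linarith

end Pool.Agent.H37.DP
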