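import Pool.Agent.H37.DP.TA
import Pool.Agent.H37.DP.SG

/-!
MODULE TI: growth of `Y` on `[t1, t2]`.

PROOF.  `Y' = avg (2 D w D n/s - (D w)² (n + n₊)/s²)` with `w = W (V t)`, `n = L (V1 t)`,
`s = w + w₊`, and `|Y'| ≤ √(sq n)(2√S + 11√Q) ≤ 2 sq n + S + 31 Q` (`Yderiv_le`).
Integrate from `t1` to `t`; the integrand `2 sq n + S + 31 Q` is nonnegative.
-/

namespace Pool.Agent.H37.DP

open Set Filter Topology

private lemma ti_dY {N : ℕ} [NeZero N] {lam : ℝ} {V V1 : ℝ → ZMod N → ℝ}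
    (h : IsSol N lam V V1) {t : ℝ} (ht : t ∈ Icc (0 : ℝ) 1) :
    HasDerivAt (fun s => Yq (W (V s)))
      (avg (fun i => 2 * D (W (V t)) i * D (L (V1 t)) i / (W (V t) i + W (V t) (i + 1))
        - (D (W (V t)) i) ^ 2 * (L (V1 t) i + L (V1 t) (i + 1)) /
          (W (V t) i + W (V t) (i + 1)) ^ 2)) t := by
  unfold Yq
  apply hasDerivAt_avg
  intro i
  have d1 : HasDerivAt (fun s => D (W (V s)) i) (D (L (V1 t)) i) t :=
    hasDerivAt_D (f := fun s => W (V s)) (fun j => h.dW ht j) i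
  have d2 : HasDerivAt (fun s => W (V s) i + W (V s) (i + 1))
      (L (V1 t) i + L (V1 t) (i + 1)) t := (h.dW ht i).add (h.dW ht (i + 1))
  have hp : 0 < W (V t) i + W (V t) (i + 1) := add_pos (h.pos t ht i) (h.pos t ht (i + 1))
  have d3 := (d1.pow 2).div d2 hp.ne'
  refine d3.congr_deriv ?_
  have hp' := hp.ne'
  simp only [Pi.pow_apply]
  field_simp
  ring

private lemma ti_young {a b c : ℝ} (ha : 0 ≤ a) (hb : 0 ≤ b) (hc : 0 ≤ c) :
    Real.sqrt a * (2 * Real.sqrt b + 11 * Real.sqrt c) ≤ 2 * a + b + 31 * c := by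
  have h1 := Real.sq_sqrt ha
  have h2 := Real.sq_sqrt hb
  have h3 := Real.sq_sqrt hc
  nlinarith [sq_nonneg (Real.sqrt a - Real.sqrt b), sq_nonneg (2 * Real.sqrt a - 11 * Real.sqrt c),
    sq_nonneg (Real.sqrt c)]

theorem IsSol.Y_growth {N : ℕ} [NeZero N] {lam : ℝ} {V V1 : ℝ → ZMod N → ℝ}
    (h : IsSol N lam V V1) {t1 t2 t : ℝ} (h0 : 0 ≤ t1) (h1t : t1 ≤ t) (ht2 : t ≤ t2)
    (h1 : t2 ≤ 1) :
    Yq (W (V t)) ≤ Yq (W (V t1)) + 2 * (∫ s in t1..t2, sq (L (V1 s)))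
      + (∫ s in t1..t2, Sq (W (V s))) + 31 * (∫ s in t1..t2, Qv (W (V s))) := by
  have hsub : Icc t1 t2 ⊆ Icc (0 : ℝ) 1 := Icc_subset_Icc h0 h1
  have h12 : t1 ≤ t2 := h1t.trans ht2
  have iu : ∀ f : ℝ → ℝ, ContinuousOn f (Icc 0 1) →
      IntervalIntegrable f MeasureTheory.volume t1 t2 := by
    intro f hf
    apply ContinuousOn.intervalIntegrable
    rw [uIcc_of_le h12]
    exact hf.mono hsub
  have i1 := iu _ h.cWt
  have i2 := iu _ h.cS
  have i3 := iu _ h.cQ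
  have hφc : ContinuousOn (fun s => 2 * sq (L (V1 s)) + Sq (W (V s)) + 31 * Qv (W (V s)))
      (Icc 0 1) :=
    ((continuousOn_const.mul h.cWt).add h.cS).add (continuousOn_const.mul h.cQ)
  have hS0 : ∀ s, 0 ≤ Sq (W (V s)) := fun s => avg_nonneg (fun i => by positivity)
  have hQ0 : ∀ s, 0 ≤ Qv (W (V s)) := fun s => sq_nonneg' _
  have hW0 : ∀ s, 0 ≤ sq (L (V1 s)) := fun s => sq_nonneg' _
  have hle := intervalIntegral.sub_le_integral_of_hasDeriv_right_of_le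
    (g := fun s => Yq (W (V s)))
    (g' := fun s => avg (fun i => 2 * D (W (V s)) i * D (L (V1 s)) i /
        (W (V s) i + W (V s) (i + 1))
        - (D (W (V s)) i) ^ 2 * (L (V1 s) i + L (V1 s) (i + 1)) /
          (W (V s) i + W (V s) (i + 1)) ^ 2))
    (φ := fun s => 2 * sq (L (V1 s)) + Sq (W (V s)) + 31 * Qv (W (V s))) h1t
    (fun s hs => (ti_dY h (hsub ⟨hs.1, hs.2.trans ht2⟩)).continuousAt.continuousWithinAt)
    (fun s hs => (ti_dY h (hsub ⟨hs.1.le, hs.2.le.trans ht2⟩)).hasDerivWithinAt)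
    ((hφc.mono (fun s hs => hsub ⟨hs.1, hs.2.trans ht2⟩)).integrableOn_Icc)
    (by
      intro s hs
      have hs' : s ∈ Icc (0 : ℝ) 1 := hsub ⟨hs.1.le, hs.2.le.trans ht2⟩
      exact (le_abs_self _).trans ((Yderiv_le (W (V s)) (L (V1 s)) (h.pos s hs')).trans
        (ti_young (hW0 s) (hS0 s) (hQ0 s))))
  have e1 : ∫ s in t1..t2, (2 * sq (L (V1 s)) + Sq (W (V s)) + 31 * Qv (W (V s))) =
      2 * (∫ s in t1..t2, sq (L (V1 s))) + (∫ s in t1..t2, Sq (W (V s)))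
        + 31 * (∫ s in t1..t2, Qv (W (V s))) := by
    rw [intervalIntegral.integral_add ((i1.const_mul 2).add i2) (i3.const_mul 31),
      intervalIntegral.integral_add (i1.const_mul 2) i2,
      intervalIntegral.integral_const_mul, intervalIntegral.integral_const_mul]
  have e2 : ∫ s in t1..t, (2 * sq (L (V1 s)) + Sq (W (V s)) + 31 * Qv (W (V s))) ≤
      ∫ s in t1..t2, (2 * sq (L (V1 s)) + Sq (W (V s)) + 31 * Qv (W (V s))) := by
    apply intervalIntegral.integral_mono_interval le_rfl h1t ht2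
    · filter_upwards with s
      have := hS0 s
      have := hQ0 s
      have := hW0 s
      show (0 : ℝ) ≤ 2 * sq (L (V1 s)) + Sq (W (V s)) + 31 * Qv (W (V s))
      positivity
    · exact ((i1.const_mul 2).add i2).add (i3.const_mul 31)
  linarith

end Pool.Agent.H37.DP
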