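import Pool.Agent.H37.DP.TH
import Pool.Agent.H37.DP.TI
import Pool.Agent.H37.DP.SF
import Pool.Agent.H37.DP.SH

/-!
MODULE TJ: local bound of the Fisher information.

PROOF.  `l = t2 - t1`, `A = 2³² κ¹²`, `B' = 32 κ²` (module SH at `t1`, `t2`),
`Y t1 ≤ 512 κ⁴`.  Let `m = sup_I Y` (attained, `cY`).  By `Y_growth` and `energy_I`
(which also bounds `∫ S ≤ (1/lam)(...)` and `∫ sq (L V1) ≤ (...)`, both integrals being `≥ 0`):
`m ≤ 512κ⁴ + (2 + 1/lam)(4 lam ∫Q + E0) + 31 ∫Q`,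
`E0 = lam ∫K2 + lam l A + 8 B'/l ≤ ε + lam l A + 8 B'/l`.
By `Q_le`, `∫_I Q ≤ (4 + 24 m) ∫_I K2 ≤ (4 + 24 m) ε/lam`.  The coefficient of `∫Q` is
`8 lam + 4 + 31 = 8 lam + 35`, and `24 (8 lam + 35) ε/lam ≤ 1/2`, so
`(8 lam+35) ∫ Q ≤ m/2 + 1/12`.  Hence `m ≤ 2 (512κ⁴ + (2+1/lam) E0 + 1/12)`.
-/

namespace Pool.Agent.H37.DP

open Set Filter Topology

theorem IsSol.Y_local {N : ℕ} [NeZero N] (hN : 3 ≤ N) {lam : ℝ} {V V1 : ℝ → ZMod N → ℝ}
    (h : IsSol N lam V V1) (hlam : 0 < lam) {t1 t2 : ℝ} (h0 : 0 ≤ t1) (h12 : t1 < t2)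
    (h1 : t2 ≤ 1) {κ ε : ℝ} (hκ : 1 ≤ κ) (k1 : K2 (W (V t1)) ≤ κ ^ 2)
    (k2 : K2 (W (V t2)) ≤ κ ^ 2) (hε : lam * ∫ t in t1..t2, K2 (W (V t)) ≤ ε)
    (hs : 24 * (8 * lam + 35) * ε / lam ≤ 1 / 2) {t : ℝ} (ht : t ∈ Icc t1 t2) :
    Yq (W (V t)) ≤ 2 * (512 * κ ^ 4 + (2 + 1 / lam) *
      (ε + lam * (t2 - t1) * (2 ^ 32 * κ ^ 12) + 256 * κ ^ 2 / (t2 - t1)) + 1) := by
  have hl : 0 < t2 - t1 := sub_pos.mpr h12
  have hsub : Icc t1 t2 ⊆ Icc (0 : ℝ) 1 := Icc_subset_Icc h0 h1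
  have m1 : t1 ∈ Icc t1 t2 := left_mem_Icc.mpr h12.le
  have m2 : t2 ∈ Icc t1 t2 := right_mem_Icc.mpr h12.le
  have hin : 0 < 1 / lam := by positivity
  have iu : ∀ f : ℝ → ℝ, ContinuousOn f (Icc 0 1) →
      IntervalIntegrable f MeasureTheory.volume t1 t2 := by
    intro f hf
    apply ContinuousOn.intervalIntegrable
    rw [uIcc_of_le h12.le]
    exact hf.mono hsub
  have iQ := iu _ h.cQ
  have iK := iu _ h.cK2
  have hS0 : ∀ s, 0 ≤ Sq (W (V s)) := fun s => avg_nonneg (fun i => by positivity)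
  have hK0 : ∀ s, 0 ≤ K2 (W (V s)) := fun s => sq_nonneg' _
  have hW0 : ∀ s, 0 ≤ sq (L (V1 s)) := fun s => sq_nonneg' _
  have hIS : 0 ≤ ∫ s in t1..t2, Sq (W (V s)) :=
    intervalIntegral.integral_nonneg h12.le (fun s _ => hS0 s)
  have hIK : 0 ≤ ∫ s in t1..t2, K2 (W (V s)) :=
    intervalIntegral.integral_nonneg h12.le (fun s _ => hK0 s)
  have hIW : 0 ≤ ∫ s in t1..t2, sq (L (V1 s)) :=
    intervalIntegral.integral_nonneg h12.le (fun s _ => hW0 s)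
  -- the maximum of `Y`
  obtain ⟨τ, hτ, hmax⟩ := isCompact_Icc.exists_isMaxOn (nonempty_Icc.mpr h12.le)
    (h.cY.mono hsub)
  have hm : ∀ s ∈ Icc t1 t2, Yq (W (V s)) ≤ Yq (W (V τ)) := fun s hs => hmax hs
  have hm0 : 0 ≤ Yq (W (V τ)) := by
    unfold Yq
    apply avg_nonneg
    intro i
    have p1 := h.pos τ (hsub hτ) i
    have p2 := h.pos τ (hsub hτ) (i + 1)
    positivity
  have hen := h.energy_I hlam h0 h12 h1
    (good_sq_Lw hN _ (h.pos t1 (hsub m1)) (avg_W _) hκ k1)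
    (good_sq_Lw hN _ (h.pos t2 (hsub m2)) (avg_W _) hκ k2)
    (good_sq_w hN _ (h.pos t1 (hsub m1)) (avg_W _) hκ k1)
    (good_sq_w hN _ (h.pos t2 (hsub m2)) (avg_W _) hκ k2)
  have hgr := h.Y_growth h0 hτ.1 hτ.2 h1
  have hY1 := good_Y_le hN _ (h.pos t1 (hsub m1)) (avg_W _) hκ k1
  have hQ : ∫ s in t1..t2, Qv (W (V s)) ≤
      (∫ s in t1..t2, K2 (W (V s))) * (4 + 24 * Yq (W (V τ))) := by
    rw [← intervalIntegral.integral_mul_const]
    apply intervalIntegral.integral_mono_on h12.le iQ (iK.mul_const _)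
    intro s hs
    refine (Q_le _ (h.pos s (hsub hs)) (avg_W _)).trans ?_
    apply mul_le_mul_of_nonneg_left _ (hK0 s)
    have := hm s hs
    linarith
  generalize (∫ s in t1..t2, Qv (W (V s))) = IQ at *
  generalize (∫ s in t1..t2, K2 (W (V s))) = IK at *
  generalize (∫ s in t1..t2, Sq (W (V s))) = IS at *
  generalize (∫ s in t1..t2, sq (L (V1 s))) = IW at *
  have hmt := hm t ht
  generalize Yq (W (V τ)) = m at *
  -- the constant
  have e256 : 8 * (32 * κ ^ 2) / (t2 - t1) = 256 * κ ^ 2 / (t2 - t1) := by ring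
  rw [e256] at hen
  set E : ℝ := ε + lam * (t2 - t1) * (2 ^ 32 * κ ^ 12) + 256 * κ ^ 2 / (t2 - t1) with hE
  have hX : IW + lam * IS ≤ 4 * lam * IQ + E := by
    rw [hE]
    linarith
  have hIW2 : IW ≤ 4 * lam * IQ + E := by
    have : 0 ≤ lam * IS := by positivity
    linarith
  have hIS2 : IS ≤ 1 / lam * (4 * lam * IQ + E) := by
    have h2 : lam * IS ≤ 4 * lam * IQ + E := by linarith
    have h3 := mul_le_mul_of_nonneg_left h2 hin.le
    have h4 : 1 / lam * (lam * IS) = IS := by field_simp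
    rw [h4] at h3
    exact h3
  have hc : 1 / lam * (4 * lam * IQ + E) = 4 * IQ + 1 / lam * E := by
    field_simp
  have hmle : m ≤ 512 * κ ^ 4 + (2 + 1 / lam) * E + (8 * lam + 35) * IQ := by
    rw [hc] at hIS2
    nlinarith [hIS2, hIW2, hgr, hY1]
  have hQ2 : (8 * lam + 35) * IQ ≤ m / 2 + 1 / 12 := by
    have h2 : IK ≤ ε / lam := by
      rw [le_div_iff₀ hlam]
      linarith
    have h3 : IQ ≤ ε / lam * (4 + 24 * m) :=
      hQ.trans (mul_le_mul_of_nonneg_right h2 (by linarith))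
    have h4 : (8 * lam + 35) * IQ ≤ (8 * lam + 35) * (ε / lam * (4 + 24 * m)) :=
      mul_le_mul_of_nonneg_left h3 (by positivity)
    have h5 : (8 * lam + 35) * (ε / lam * (4 + 24 * m)) =
        (24 * (8 * lam + 35) * ε / lam) * ((4 + 24 * m) / 24) := by
      field_simp
    have h6 : (24 * (8 * lam + 35) * ε / lam) * ((4 + 24 * m) / 24) ≤
        1 / 2 * ((4 + 24 * m) / 24) :=
      mul_le_mul_of_nonneg_right hs (by positivity)
    linarith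
  linarith

end Pool.Agent.H37.DP
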