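import Pool.Agent.H37.DP.TE
import Pool.Agent.H37.DP.TF
import Pool.Agent.H37.DP.TG
import Pool.Agent.H37.DP.TJ

/-!
MODULE TK: uniform bound of the Fisher information on `[0,1]` over the class.

PROOF.  Take `C1, Ks` from `total_X`.  Let `ε = lam/(48 (8 lam + 35))`, and choose `θ > 0` with
`1952 θ C1 < 1` and `4 lam θ + C1/5 (1952 θ C1)^(2/3) ≤ ε` (limit `θ → 0`).
Let `b0 = min (1/4) (θ/(2 Ks²))`, `η = lam θ/4`, `J` with `C1 < (J+1) η`.
Given `h : Cls ...` and `t ∈ [0,1]` apply `select` with `P s = Pp (V s) (V1 s)`, `X = Xq`: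
get `j ≤ J`, `t1, t2`; `b = b0/2^j`.  Let `κ = √(θ/(2b)) ≥ 1` (`b ≤ θ/(2Ks²) ≤ θ/2`).
`K2 (W (V t1)) ≤ κ²`: if `t1 = 0` it is `≤ Ks² ≤ θ/(2b0) ≤ κ²`; otherwise
`lam K2 ≤ X t1 ≤ 2η/b = lam θ/(2b)`.  Same for `t2`.  `κ² (t2 - t1) ≤ κ² 2b = θ`.
`P t2 - P t1 ≤ P 1 - P 0 ≤ C1` (`P_mono`).  By `small_K` and `Y_local`, `Y t` is bounded by the
expression there, where `κ² ≤ θ 2^J/(2 b0)`, `t2 - t1 ≤ 1`, `t2 - t1 ≥ b/2 ≥ b0/2^(J+1)`:
a constant depending only on `lam, c, B`.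
-/

namespace Pool.Agent.H37.DP

open Set Filter Topology

private lemma tk_theta {lam C1 ε : ℝ} (hε : 0 < ε) :
    ∃ θ : ℝ, 0 < θ ∧ 1952 * θ * C1 < 1 ∧
      4 * lam * θ + C1 / 5 * (1952 * θ * C1) ^ ((2 : ℝ) / 3) ≤ ε := by
  have h1 : Tendsto (fun θ : ℝ => 1952 * θ * C1) (𝓝 0) (𝓝 (1952 * 0 * C1)) :=
    Continuous.tendsto (by fun_prop) 0
  have h2 : Tendsto (fun θ : ℝ => 4 * lam * θ + C1 / 5 * (1952 * θ * C1) ^ ((2 : ℝ) / 3)) (𝓝 0)
      (𝓝 (4 * lam * 0 + C1 / 5 * (1952 * 0 * C1) ^ ((2 : ℝ) / 3))) := by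
    apply Continuous.tendsto
    have : Continuous (fun θ : ℝ => (1952 * θ * C1) ^ ((2 : ℝ) / 3)) :=
      (by fun_prop : Continuous (fun θ : ℝ => 1952 * θ * C1)).rpow_const
        (fun x => Or.inr (by norm_num))
    exact (by fun_prop : Continuous (fun θ : ℝ => 4 * lam * θ)).add
      (continuous_const.mul this)
  have e1 : (1952 * 0 * C1 : ℝ) = 0 := by ring
  have e2 : 4 * lam * 0 + C1 / 5 * (1952 * 0 * C1) ^ ((2 : ℝ) / 3) = 0 := by
    rw [e1, Real.zero_rpow (by norm_num)]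
    ring
  rw [e1] at h1
  rw [e2] at h2
  have f1 := h1.eventually (gt_mem_nhds (show (0 : ℝ) < 1 by norm_num))
  have f2 := h2.eventually (gt_mem_nhds hε)
  have f3 : ∀ᶠ θ : ℝ in 𝓝[>] 0, 0 < θ := self_mem_nhdsWithin
  have f4 := (f3.and ((f1.and f2).filter_mono nhdsWithin_le_nhds)).exists
  obtain ⟨θ, h3, h4, h5⟩ := f4
  exact ⟨θ, h3, h4, h5.le⟩

theorem Y_global (lam c : ℝ) (B : ℕ → ℝ) (hlam : 0 < lam) (hc : 0 < c) :
    ∃ C : ℝ, 0 < C ∧ ∀ (N : ℕ) [NeZero N] (V V1 : ℝ → ZMod N → ℝ),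
      Cls N lam c B V V1 → ∀ t ∈ Icc (0 : ℝ) 1, Yq (W (V t)) ≤ C := by
  obtain ⟨C1, Ks, hC1, hKs, hX⟩ := total_X lam c B hlam hc
  set ε : ℝ := lam / (48 * (8 * lam + 35)) with hεd
  have hε : 0 < ε := by positivity
  obtain ⟨θ, hθ, hθ1, hθ2⟩ := tk_theta (lam := lam) (C1 := C1) hε
  have hKs0 : 0 < Ks := by linarith
  set b0 : ℝ := min (1 / 4) (θ / (2 * Ks ^ 2)) with hb0d
  have hb0 : 0 < b0 := lt_min (by norm_num) (by positivity)
  have hb4 : b0 ≤ 1 / 4 := min_le_left _ _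
  have hbK : b0 ≤ θ / (2 * Ks ^ 2) := min_le_right _ _
  set η : ℝ := lam * θ / 4 with hηd
  have hη : 0 < η := by positivity
  obtain ⟨J, hJ'⟩ := exists_nat_gt (C1 / η)
  have hJ : C1 < ((J : ℝ) + 1) * η := by
    rw [div_lt_iff₀ hη] at hJ'
    nlinarith
  set bJ : ℝ := b0 / 2 ^ J with hbJd
  have hbJ : 0 < bJ := by positivity
  set k : ℝ := θ / (2 * bJ) with hkd
  have hk : 0 < k := by positivity
  refine ⟨2 * (512 * k ^ 2 + (2 + 1 / lam) *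
    (ε + lam * 1 * (2 ^ 32 * k ^ 6) + 256 * k / (bJ / 2)) + 1), by positivity, ?_⟩
  intro N _ V V1 h t ht
  obtain ⟨hP, hk0, hk1, -, -⟩ := hX N V V1 h
  obtain ⟨j, hj, t1, t2, ht1, ht1t, htt2, ht2, h12, hlen, hlen', hx1, hx2⟩ :=
    select (P := fun s => Pp (V s) (V1 s)) (X := fun s => Xq lam (V s) (V1 s))
      (fun s hs => h.sol.dP hs) (fun s _ => IsSol.X_nonneg hlam.le (V s) (V1 s)) hP hη hb0 hb4 J
      hJ ht
  set b : ℝ := b0 / 2 ^ j with hbd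
  have hb : 0 < b := by positivity
  have hbb0 : b ≤ b0 := div_le_self hb0.le (one_le_pow₀ (by norm_num))
  have hbJb : bJ ≤ b := by
    rw [hbJd, hbd]
    exact div_le_div_of_nonneg_left hb0.le (by positivity)
      (pow_le_pow_right₀ (by norm_num) hj)
  set κ : ℝ := Real.sqrt (θ / (2 * b)) with hκd
  have hκsq : κ ^ 2 = θ / (2 * b) := Real.sq_sqrt (by positivity)
  have hKsκ : Ks ^ 2 ≤ κ ^ 2 := by
    rw [hκsq, le_div_iff₀ (by positivity)]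
    have h1 : b ≤ θ / (2 * Ks ^ 2) := hbb0.trans hbK
    rw [le_div_iff₀ (by positivity)] at h1
    linarith
  have hκ : 1 ≤ κ := by
    rw [hκd, Real.one_le_sqrt, ← hκsq]
    nlinarith
  have hKbound : ∀ s, s = 0 ∨ s = 1 ∨ Xq lam (V s) (V1 s) * (b / 2) ≤ η →
      K2 (W (V s)) ≤ κ ^ 2 := by
    rintro s (rfl | rfl | hs)
    · exact hk0.trans hKsκ
    · exact hk1.trans hKsκ
    · have h1 : lam * K2 (W (V s)) ≤ Xq lam (V s) (V1 s) := by
        unfold Xq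
        have := sq_nonneg' (fun i => L (V1 s) i / W (V s) i)
        linarith
      have h2 : lam * K2 (W (V s)) * (b / 2) ≤ lam * θ / 4 :=
        (mul_le_mul_of_nonneg_right h1 (by positivity)).trans hs
      rw [hκsq, le_div_iff₀ (by positivity)]
      have h3 : lam * (K2 (W (V s)) * (2 * b)) ≤ lam * θ := by nlinarith
      exact le_of_mul_le_mul_left h3 hlam
  have k1 : K2 (W (V t1)) ≤ κ ^ 2 := by
    apply hKbound
    rcases hx1 with h1 | h1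
    · exact Or.inl h1
    · exact Or.inr (Or.inr h1)
  have k2 : K2 (W (V t2)) ≤ κ ^ 2 := by
    apply hKbound
    rcases hx2 with h1 | h1
    · exact Or.inr (Or.inl h1)
    · exact Or.inr (Or.inr h1)
  have hθl : κ ^ 2 * (t2 - t1) ≤ θ := by
    have h1 : κ ^ 2 * (t2 - t1) ≤ κ ^ 2 * (2 * b) :=
      mul_le_mul_of_nonneg_left hlen (by positivity)
    have h2 : κ ^ 2 * (2 * b) = θ := by
      rw [hκsq]
      field_simp
    linarith
  have hPC : Pp (V t2) (V1 t2) - Pp (V t1) (V1 t1) ≤ C1 := by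
    have h1 := h.sol.P_mono hlam.le le_rfl ht1 (h12.le.trans ht2)
    have h2 := h.sol.P_mono hlam.le (ht1.trans h12.le) ht2 le_rfl
    linarith
  have hsm := h.sol.small_K h.hN hlam ht1 h12 ht2 hκ k1 k2 hθl hPC hθ1
  have hsm' := hsm.trans hθ2
  have hs : 24 * (8 * lam + 35) * ε / lam ≤ 1 / 2 := by
    apply le_of_eq
    rw [hεd]
    field_simp
    norm_num
  have hY := h.sol.Y_local h.hN hlam ht1 h12 ht2 hκ k1 k2 hsm' hs ⟨ht1t, htt2⟩
  refine hY.trans ?_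
  have hκk : κ ^ 2 ≤ k := by
    rw [hκsq, hkd]
    exact div_le_div_of_nonneg_left hθ.le (by positivity) (by linarith)
  have q1 : κ ^ 4 ≤ k ^ 2 := by
    calc κ ^ 4 = (κ ^ 2) ^ 2 := by ring
      _ ≤ k ^ 2 := pow_le_pow_left₀ (by positivity) hκk 2
  have q2 : κ ^ 12 ≤ k ^ 6 := by
    calc κ ^ 12 = (κ ^ 2) ^ 6 := by ring
      _ ≤ k ^ 6 := pow_le_pow_left₀ (by positivity) hκk 6
  have q3 : lam * (t2 - t1) * (2 ^ 32 * κ ^ 12) ≤ lam * 1 * (2 ^ 32 * k ^ 6) := by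
    apply mul_le_mul
    · exact mul_le_mul_of_nonneg_left (by linarith) hlam.le
    · exact mul_le_mul_of_nonneg_left q2 (by positivity)
    · positivity
    · positivity
  have q4 : 256 * κ ^ 2 / (t2 - t1) ≤ 256 * k / (bJ / 2) := by
    apply div_le_div₀
    · positivity
    · linarith
    · positivity
    · linarith
  have q5 : (2 + 1 / lam) *
      (ε + lam * (t2 - t1) * (2 ^ 32 * κ ^ 12) + 256 * κ ^ 2 / (t2 - t1)) ≤
      (2 + 1 / lam) * (ε + lam * 1 * (2 ^ 32 * k ^ 6) + 256 * k / (bJ / 2)) :=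
    mul_le_mul_of_nonneg_left (by linarith) (by positivity)
  linarith

end Pool.Agent.H37.DP
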