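import Pool.Agent.H37.DP.UDefs
import Pool.Agent.H37.DP.Grid

/-!
MODULE UA: ultralimits.

HINTS.  A bounded real sequence converges along an ultrafilter:
`IsCompact.ultrafilter_le_nhds'` (or `isCompact_Icc.ultrafilter_le_nhds`) applied to
`(hyperfilter ℕ).map a`.  `hyperfilter ≤ cofinite = atTop` gives `ulim_of_tendsto`.
Algebra: `Tendsto.add`, `Tendsto.mul`, `Tendsto.inv₀`, uniqueness of limits
(`Tendsto.limUnder_eq`).
`lf_sh`: `|f n t (i + a) - f n t i| ≤ |a| C/(n+3)` with `C` a bound for `D f`.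
`lf_per`: `⌊(y+1)(n+3)⌋ = ⌊y (n+3)⌋ + (n+3)` and `((n+3 : ℕ) : ZMod (n+3)) = 0`.
-/

namespace Pool.Agent.H37.DP

open Set Filter Topology

theorem ulim_tendsto {a : ℕ → ℝ} {C : ℝ} (h : ∀ n, |a n| ≤ C) :
    Tendsto a (↑(hyperfilter ℕ) : Filter ℕ) (𝓝 (ulim a)) := by
  unfold ulim
  apply tendsto_nhds_limUnder
  have hK : IsCompact (Icc (-C) C) := isCompact_Icc
  have h1 : (((hyperfilter ℕ).map a : Ultrafilter ℝ) : Filter ℝ) ≤ 𝓟 (Icc (-C) C) := by
    rw [le_principal_iff, Ultrafilter.coe_map, Filter.mem_map]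
    exact Filter.Eventually.of_forall fun n => abs_le.1 (h n)
  obtain ⟨x, -, hx⟩ := hK.ultrafilter_le_nhds ((hyperfilter ℕ).map a) h1
  exact ⟨x, hx⟩

theorem ulim_of_tendsto {a : ℕ → ℝ} {l : ℝ} (h : Tendsto a atTop (𝓝 l)) : ulim a = l := by
  unfold ulim
  exact (h.mono_left Nat.hyperfilter_le_atTop).limUnder_eq

theorem ulim_le {a : ℕ → ℝ} {C : ℝ} (h : ∀ n, |a n| ≤ C) {b : ℝ} (hb : ∀ n, a n ≤ b) :
    ulim a ≤ b :=
  le_of_tendsto (ulim_tendsto h) (Filter.Eventually.of_forall hb)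

theorem le_ulim {a : ℕ → ℝ} {C : ℝ} (h : ∀ n, |a n| ≤ C) {b : ℝ} (hb : ∀ n, b ≤ a n) :
    b ≤ ulim a :=
  ge_of_tendsto (ulim_tendsto h) (Filter.Eventually.of_forall hb)

theorem abs_ulim_le {a : ℕ → ℝ} {C : ℝ} (h : ∀ n, |a n| ≤ C) : |ulim a| ≤ C :=
  abs_le.2 ⟨le_ulim h fun n => (abs_le.1 (h n)).1, ulim_le h fun n => (abs_le.1 (h n)).2⟩

theorem ulim_add {a b : ℕ → ℝ} {C C' : ℝ} (h : ∀ n, |a n| ≤ C) (h' : ∀ n, |b n| ≤ C') :
    ulim (fun n => a n + b n) = ulim a + ulim b :=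
  ((ulim_tendsto h).add (ulim_tendsto h')).limUnder_eq

theorem ulim_mul {a b : ℕ → ℝ} {C C' : ℝ} (h : ∀ n, |a n| ≤ C) (h' : ∀ n, |b n| ≤ C') :
    ulim (fun n => a n * b n) = ulim a * ulim b :=
  ((ulim_tendsto h).mul (ulim_tendsto h')).limUnder_eq

theorem ulim_const (c : ℝ) : ulim (fun _ => c) = c :=
  ulim_of_tendsto tendsto_const_nhds

theorem lf_congr {f g : Fam} {t : ℝ} (h : ∀ n i, f n t i = g n t i) (y : ℝ) :
    lf f y t = lf g y t := by
  unfold lf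
  congr 1
  funext n
  exact h n _

theorem lf_add {f g : Fam} (hf : BI f) (hg : BI g) (y : ℝ) {t : ℝ} (ht : t ∈ Icc (0 : ℝ) 1) :
    lf (addF f g) y t = lf f y t + lf g y t := by
  obtain ⟨C, hC⟩ := hf
  obtain ⟨C', hC'⟩ := hg
  exact ulim_add (fun n => hC n t ht _) (fun n => hC' n t ht _)

theorem lf_mul {f g : Fam} (hf : BI f) (hg : BI g) (y : ℝ) {t : ℝ} (ht : t ∈ Icc (0 : ℝ) 1) :
    lf (mulF f g) y t = lf f y t * lf g y t := by
  obtain ⟨C, hC⟩ := hf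
  obtain ⟨C', hC'⟩ := hg
  exact ulim_mul (fun n => hC n t ht _) (fun n => hC' n t ht _)

theorem lf_smul {f : Fam} (hf : BI f) (c : ℝ) (y : ℝ) {t : ℝ} (ht : t ∈ Icc (0 : ℝ) 1) :
    lf (smulF c f) y t = c * lf f y t := by
  obtain ⟨C, hC⟩ := hf
  have h := ulim_mul (a := fun _ => c) (b := fun n => f n t (idx n y)) (C := |c|) (C' := C)
    (fun _ => le_rfl) (fun n => hC n t ht _)
  rw [ulim_const] at h
  exact h

theorem lf_inv {f : Fam} (hf : BI f) {c : ℝ} (hc : 0 < c)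
    (h : ∀ n, ∀ t ∈ Icc (0 : ℝ) 1, ∀ i, c ≤ f n t i) (y : ℝ) {t : ℝ}
    (ht : t ∈ Icc (0 : ℝ) 1) :
    lf (fun n t i => (f n t i)⁻¹) y t = (lf f y t)⁻¹ := by
  obtain ⟨C, hC⟩ := hf
  have h1 := ulim_tendsto (fun n => hC n t ht (idx n y))
  have h2 : c ≤ lf f y t := le_ulim (fun n => hC n t ht (idx n y)) (fun n => h n t ht _)
  exact (h1.inv₀ (hc.trans_le h2).ne').limUnder_eq

private theorem ua_step {n : ℕ} {f : ZMod (n + 3) → ℝ} {C : ℝ} (h : ∀ i, |D f i| ≤ C) (m : ℕ)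
    (i : ZMod (n + 3)) : |f (i + (m : ZMod (n + 3))) - f i| ≤ m * (C / ((n : ℝ) + 3)) := by
  have hn : (0 : ℝ) < (n : ℝ) + 3 := by positivity
  have h1 : ∀ i, |f (i + 1) - f i| ≤ C / ((n : ℝ) + 3) := by
    intro i
    have h2 := h i
    unfold D at h2
    rw [abs_mul, abs_of_nonneg (Nat.cast_nonneg _)] at h2
    rw [le_div_iff₀ hn]
    push_cast at h2
    linarith
  induction m with
  | zero => simp
  | succ m ih =>
    have h3 := h1 (i + (m : ZMod (n + 3)))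
    rw [Nat.cast_succ, ← add_assoc]
    have h4 : f (i + (m : ZMod (n + 3)) + 1) - f i =
        (f (i + (m : ZMod (n + 3)) + 1) - f (i + (m : ZMod (n + 3)))) +
          (f (i + (m : ZMod (n + 3))) - f i) := by ring
    rw [h4]
    refine (abs_add_le _ _).trans ?_
    push_cast
    linarith

private theorem ua_shift {n : ℕ} {f : ZMod (n + 3) → ℝ} {C : ℝ} (h : ∀ i, |D f i| ≤ C) (a : ℤ)
    (i : ZMod (n + 3)) :
    |f (i + (a : ZMod (n + 3))) - f i| ≤ (a.natAbs : ℝ) * (C / ((n : ℝ) + 3)) := by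
  rcases Int.natAbs_eq a with h1 | h1
  · have := ua_step h a.natAbs i
    rw [h1]
    push_cast at this ⊢
    simpa using this
  · have := ua_step h a.natAbs (i + (a : ZMod (n + 3)))
    have h2 : i + (a : ZMod (n + 3)) + ((a.natAbs : ℕ) : ZMod (n + 3)) = i := by
      have h3 : (a : ZMod (n + 3)) = -((a.natAbs : ℕ) : ZMod (n + 3)) := by
        conv_lhs => rw [h1]
        rw [Int.cast_neg, Int.cast_natCast]
      rw [h3]
      ring
    rw [h2, abs_sub_comm] at this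
    exact this

theorem lf_sh {f : Fam} (hf : BI f) (hd : BI (DF f)) (a : ℤ) (y : ℝ) {t : ℝ}
    (ht : t ∈ Icc (0 : ℝ) 1) : lf (shF a f) y t = lf f y t := by
  obtain ⟨C, hC⟩ := hf
  obtain ⟨C', hC'⟩ := hd
  have h1 := ulim_tendsto (fun n => hC n t ht (idx n y))
  have h2 : Tendsto (fun n : ℕ => shF a f n t (idx n y) - f n t (idx n y)) atTop (𝓝 0) := by
    have h3 : Tendsto (fun n : ℕ => (a.natAbs : ℝ) * (C' / ((n : ℝ) + 3))) atTop (𝓝 0) := by
      have h4 : Tendsto (fun n : ℕ => (n : ℝ) + 3) atTop atTop :=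
        tendsto_natCast_atTop_atTop.atTop_add tendsto_const_nhds
      have h5 := (h4.const_div_atTop C').const_mul (a.natAbs : ℝ)
      rwa [mul_zero] at h5
    refine squeeze_zero_norm (fun n => ?_) h3
    rw [Real.norm_eq_abs]
    exact ua_shift (fun i => hC' n t ht i) a (idx n y)
  have h3 := h1.add (h2.mono_left Nat.hyperfilter_le_atTop)
  rw [add_zero] at h3
  have h4 : (fun n : ℕ => f n t (idx n y) + (shF a f n t (idx n y) - f n t (idx n y))) =
      fun n => shF a f n t (idx n y) := by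
    funext n
    ring
  rw [h4] at h3
  exact h3.limUnder_eq

theorem lf_per (f : Fam) (y t : ℝ) : lf f (y + 1) t = lf f y t := by
  unfold lf
  congr 1
  funext n
  congr 1
  unfold idx
  have h1 : (y + 1) * ((n : ℝ) + 3) = y * ((n : ℝ) + 3) + (((n + 3 : ℕ) : ℤ) : ℝ) := by
    push_cast
    ring
  rw [h1, Int.floor_add_intCast, Int.cast_add, Int.cast_natCast, ZMod.natCast_self, add_zero]

end Pool.Agent.H37.DP
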