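import Pool.Agent.H37.DP.UA

/-!
MODULE UB: the limit function is differentiable in `y`.

PROOF.  Let `C` bound `|D f|, |D D f|` and `y, y'` real, `t ∈ [0,1]`, `N = n+3`,
`m = ⌊y' N⌋ - ⌊y N⌋` (an integer), so `idx n y' = idx n y + m` and
`|m/N - (y'-y)| ≤ 1/N`.  For `m ≥ 0`: `f (i+m) - f i = (1/N) ∑_{l<m} D f (i+l)` (`path_sum`) and
`|D f (i+l) - D f i| ≤ l C/N`, so `|f (i+m) - f i - (m/N) D f i| ≤ C (m/N)²` and
`|f (i+m) - f i| ≤ C m/N`.  For `m < 0` apply this at `i + m` with `-m` and compare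
`D f (i+m)` with `D f i`: `|f (i+m) - f i - (m/N) D f i| ≤ 2 C (m/N)²`.
Pass to the ultralimit: `|lf f y' t - lf f y t - (y'-y) lf (DF f) y t| ≤ 2C (y'-y)²` and
`|lf f y' t - lf f y t| ≤ C |y' - y|`.
-/

namespace Pool.Agent.H37.DP

open Set Filter Topology

private theorem ub_deriv_of_sq {u : ℝ → ℝ} {u' C x : ℝ}
    (h : ∀ y, |u y - u x - (y - x) * u'| ≤ C * (y - x) ^ 2) :
    HasDerivAt u u' x := by
  rw [hasDerivAt_iff_isLittleO]
  have h1 : (fun y => u y - u x - (y - x) • u') =O[𝓝 x] (fun y => ‖y - x‖ ^ 2) := by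
    refine Asymptotics.IsBigO.of_bound C (Eventually.of_forall fun y => ?_)
    have h2 := h y
    rw [Real.norm_eq_abs, smul_eq_mul, Real.norm_eq_abs, Real.norm_eq_abs, abs_pow, abs_abs,
      sq_abs]
    exact h2
  exact h1.trans_isLittleO (Asymptotics.isLittleO_pow_sub_sub x one_lt_two)

section grid

variable {N : ℕ} [NeZero N]

private theorem ub_lip_nat {f : ZMod N → ℝ} {C : ℝ} (h : ∀ i, |D f i| ≤ C) (i : ZMod N)
    (m : ℕ) : |f (i + (m : ZMod N)) - f i| ≤ C * (m / N) := by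
  have hN : (0 : ℝ) < N := by exact_mod_cast Nat.pos_of_ne_zero (NeZero.ne N)
  have h1 := path_sum f i m
  have h2 : f (i + (m : ZMod N)) - f i
      = (∑ l ∈ Finset.range m, D f (i + (l : ZMod N))) / N := by
    rw [h1]; ring
  rw [h2, abs_div, abs_of_pos hN, div_le_iff₀ hN]
  refine (Finset.abs_sum_le_sum_abs _ _).trans ?_
  refine (Finset.sum_le_card_nsmul _ _ C (fun l _ => h _)).trans (le_of_eq ?_)
  rw [Finset.card_range, nsmul_eq_mul]
  field_simp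

private theorem ub_lip_int {f : ZMod N → ℝ} {C : ℝ} (h : ∀ i, |D f i| ≤ C) (i : ZMod N)
    (m : ℤ) : |f (i + (m : ZMod N)) - f i| ≤ C * |(m : ℝ) / N| := by
  have hN : (0 : ℝ) < N := by exact_mod_cast Nat.pos_of_ne_zero (NeZero.ne N)
  obtain ⟨l, hl | hl⟩ := m.eq_nat_or_neg
  · subst hl
    have h1 := ub_lip_nat h i l
    rw [Int.cast_natCast, Int.cast_natCast, abs_of_nonneg (show (0 : ℝ) ≤ (l : ℝ) / N by positivity)]
    exact h1
  · subst hl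
    have h1 := ub_lip_nat h (i - (l : ZMod N)) l
    rw [sub_add_cancel, abs_sub_comm] at h1
    push_cast
    rw [neg_div, abs_neg, abs_of_nonneg (show (0 : ℝ) ≤ (l : ℝ) / N by positivity),
      ← sub_eq_add_neg]
    exact h1

private theorem ub_sq_nat {f : ZMod N → ℝ} {C : ℝ} (hC : 0 ≤ C) (h : ∀ i, |D (D f) i| ≤ C)
    (i : ZMod N) (m : ℕ) :
    |f (i + (m : ZMod N)) - f i - ((m : ℝ) / N) * D f i| ≤ C * ((m : ℝ) / N) ^ 2 := by
  have hN : (0 : ℝ) < N := by exact_mod_cast Nat.pos_of_ne_zero (NeZero.ne N)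
  have h1 := path_sum f i m
  have h2 : f (i + (m : ZMod N)) - f i - ((m : ℝ) / N) * D f i
      = (∑ l ∈ Finset.range m, (D f (i + (l : ZMod N)) - D f i)) / N := by
    rw [h1, Finset.sum_sub_distrib, Finset.sum_const, Finset.card_range, nsmul_eq_mul]
    ring
  rw [h2, abs_div, abs_of_pos hN, div_le_iff₀ hN]
  refine (Finset.abs_sum_le_sum_abs _ _).trans ?_
  refine (Finset.sum_le_card_nsmul _ _ (C * ((m : ℝ) / N)) (fun l hl => ?_)).trans
    (le_of_eq ?_)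
  · refine (ub_lip_nat h i l).trans ?_
    have hlm : (l : ℝ) ≤ m := by exact_mod_cast (Finset.mem_range.mp hl).le
    gcongr
  · rw [Finset.card_range, nsmul_eq_mul]
    field_simp

private theorem ub_sq_int {f : ZMod N → ℝ} {C : ℝ} (hC : 0 ≤ C) (h : ∀ i, |D (D f) i| ≤ C)
    (i : ZMod N) (m : ℤ) :
    |f (i + (m : ZMod N)) - f i - ((m : ℝ) / N) * D f i| ≤ 2 * C * ((m : ℝ) / N) ^ 2 := by
  have hN : (0 : ℝ) < N := by exact_mod_cast Nat.pos_of_ne_zero (NeZero.ne N)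
  obtain ⟨l, hl | hl⟩ := m.eq_nat_or_neg
  · subst hl
    have h1 := ub_sq_nat hC h i l
    rw [Int.cast_natCast, Int.cast_natCast]
    refine h1.trans ?_
    have : 0 ≤ C * ((l : ℝ) / N) ^ 2 := by positivity
    linarith
  · subst hl
    have h1 := ub_sq_nat hC h (i - (l : ZMod N)) l
    have h2 := ub_lip_nat h (i - (l : ZMod N)) l
    rw [sub_add_cancel] at h1 h2
    push_cast
    rw [← sub_eq_add_neg]
    have h3 : f (i - (l : ZMod N)) - f i - (-(l : ℝ) / N) * D f i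
        = -(f i - f (i - (l : ZMod N)) - ((l : ℝ) / N) * D f (i - (l : ZMod N)))
          + ((l : ℝ) / N) * (D f i - D f (i - (l : ZMod N))) := by ring
    rw [h3]
    refine (abs_add_le _ _).trans ?_
    rw [abs_neg, abs_mul, abs_of_nonneg (show (0 : ℝ) ≤ (l : ℝ) / N by positivity)]
    have h4 : (l : ℝ) / N * |D f i - D f (i - (l : ZMod N))| ≤ (l : ℝ) / N * (C * (l / N)) :=
      mul_le_mul_of_nonneg_left h2 (by positivity)
    have h5 : (-(l : ℝ) / N) ^ 2 = ((l : ℝ) / N) ^ 2 := by ring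
    rw [h5]
    nlinarith

end grid

private theorem ub_idx (n : ℕ) (y y' : ℝ) :
    idx n y' = idx n y
      + (((⌊y' * ((n : ℝ) + 3)⌋ - ⌊y * ((n : ℝ) + 3)⌋ : ℤ)) : ZMod (n + 3)) := by
  unfold idx
  push_cast
  ring

private theorem ub_tendsto (y y' : ℝ) :
    Tendsto (fun n : ℕ => (((⌊y' * ((n : ℝ) + 3)⌋ - ⌊y * ((n : ℝ) + 3)⌋ : ℤ)) : ℝ)
      / ((n + 3 : ℕ) : ℝ)) (↑(hyperfilter ℕ) : Filter ℕ) (𝓝 (y' - y)) := by
  have h0 : Tendsto (fun n : ℕ => (((⌊y' * ((n : ℝ) + 3)⌋ - ⌊y * ((n : ℝ) + 3)⌋ : ℤ)) : ℝ)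
      / ((n + 3 : ℕ) : ℝ)) atTop (𝓝 (y' - y)) := by
    rw [tendsto_iff_norm_sub_tendsto_zero]
    have h1 : Tendsto (fun n : ℕ => 1 / ((n : ℝ) + 1)) atTop (𝓝 0) :=
      tendsto_one_div_add_atTop_nhds_zero_nat
    refine squeeze_zero (fun n => norm_nonneg _) (fun n => ?_) h1
    have hn : (0 : ℝ) < (n : ℝ) + 3 := by positivity
    have a1 := Int.floor_le (y' * ((n : ℝ) + 3))
    have a2 := Int.lt_floor_add_one (y' * ((n : ℝ) + 3))
    have b1 := Int.floor_le (y * ((n : ℝ) + 3))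
    have b2 := Int.lt_floor_add_one (y * ((n : ℝ) + 3))
    have h2 : (((⌊y' * ((n : ℝ) + 3)⌋ - ⌊y * ((n : ℝ) + 3)⌋ : ℤ)) : ℝ)
        / ((n + 3 : ℕ) : ℝ) - (y' - y)
        = (((⌊y' * ((n : ℝ) + 3)⌋ : ℝ) - y' * ((n : ℝ) + 3))
            - ((⌊y * ((n : ℝ) + 3)⌋ : ℝ) - y * ((n : ℝ) + 3))) / ((n : ℝ) + 3) := by
      push_cast
      field_simp
      ring
    rw [h2, Real.norm_eq_abs, abs_div, abs_of_pos hn]
    have h3 : |((⌊y' * ((n : ℝ) + 3)⌋ : ℝ) - y' * ((n : ℝ) + 3))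
            - ((⌊y * ((n : ℝ) + 3)⌋ : ℝ) - y * ((n : ℝ) + 3))| ≤ 1 := by
      rw [abs_le]
      constructor <;> linarith
    calc _ ≤ 1 / ((n : ℝ) + 3) := by gcongr
      _ ≤ 1 / ((n : ℝ) + 1) := by
        apply one_div_le_one_div_of_le (by positivity)
        linarith
  exact h0.mono_left Nat.hyperfilter_le_atTop

theorem lf_hasDeriv_y {f : Fam} (h0 : BI f) (h1 : BI (DF f)) (h2 : BI (DF (DF f))) (y : ℝ)
    {t : ℝ} (ht : t ∈ Icc (0 : ℝ) 1) :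
    HasDerivAt (fun y => lf f y t) (lf (DF f) y t) y := by
  obtain ⟨C0, hC0⟩ := h0
  obtain ⟨C1, hC1⟩ := h1
  obtain ⟨C, hC⟩ := h2
  have hCpos : 0 ≤ C := (abs_nonneg _).trans (hC 0 0 ⟨le_rfl, zero_le_one⟩ 0)
  refine ub_deriv_of_sq (C := 2 * C) (fun y' => ?_)
  have t1 : Tendsto (fun n => f n t (idx n y')) (↑(hyperfilter ℕ) : Filter ℕ)
      (𝓝 (lf f y' t)) := ulim_tendsto (C := C0) (fun n => hC0 n t ht _)
  have t2 : Tendsto (fun n => f n t (idx n y)) (↑(hyperfilter ℕ) : Filter ℕ)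
      (𝓝 (lf f y t)) := ulim_tendsto (C := C0) (fun n => hC0 n t ht _)
  have t3 : Tendsto (fun n => DF f n t (idx n y)) (↑(hyperfilter ℕ) : Filter ℕ)
      (𝓝 (lf (DF f) y t)) := ulim_tendsto (C := C1) (fun n => hC1 n t ht _)
  have t4 := ub_tendsto y y'
  have t5 := ((t1.sub t2).sub (t4.mul t3)).abs
  have t6 := (t4.pow 2).const_mul (2 * C)
  refine le_of_tendsto_of_tendsto' t5 t6 (fun n => ?_)
  have h3 := ub_sq_int (f := f n t) hCpos (fun i => hC n t ht i) (idx n y)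
    (⌊y' * ((n : ℝ) + 3)⌋ - ⌊y * ((n : ℝ) + 3)⌋)
  rw [← ub_idx] at h3
  exact h3

theorem lf_lip_y {f : Fam} (h0 : BI f) (h1 : BI (DF f)) :
    ∃ C : ℝ, ∀ t ∈ Icc (0 : ℝ) 1, ∀ y y' : ℝ, |lf f y' t - lf f y t| ≤ C * |y' - y| := by
  obtain ⟨C0, hC0⟩ := h0
  obtain ⟨C1, hC1⟩ := h1
  refine ⟨C1, fun t ht y y' => ?_⟩
  have t1 : Tendsto (fun n => f n t (idx n y')) (↑(hyperfilter ℕ) : Filter ℕ)
      (𝓝 (lf f y' t)) := ulim_tendsto (C := C0) (fun n => hC0 n t ht _)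
  have t2 : Tendsto (fun n => f n t (idx n y)) (↑(hyperfilter ℕ) : Filter ℕ)
      (𝓝 (lf f y t)) := ulim_tendsto (C := C0) (fun n => hC0 n t ht _)
  have t4 := (ub_tendsto y y').abs.const_mul C1
  refine le_of_tendsto_of_tendsto' (t1.sub t2).abs t4 (fun n => ?_)
  have h3 := ub_lip_int (f := f n t) (fun i => hC1 n t ht i) (idx n y)
    (⌊y' * ((n : ℝ) + 3)⌋ - ⌊y * ((n : ℝ) + 3)⌋)
  rw [← ub_idx] at h3
  exact h3

end Pool.Agent.H37.DP
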