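import Pool.Agent.H37.DP.HDefs

/-!
Ultralimits of families of grid functions, and the jet of the limit.
-/

namespace Pool.Agent.H37.DP

open Set Filter Topology

/-- limit of a bounded real sequence along a fixed non-principal ultrafilter -/
noncomputable def ulim (a : ℕ → ℝ) : ℝ := limUnder (↑(hyperfilter ℕ) : Filter ℕ) a

/-- the grid point to the left of `y` -/
noncomputable def idx (n : ℕ) (y : ℝ) : ZMod (n + 3) :=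
  ((⌊y * ((n : ℝ) + 3)⌋ : ℤ) : ZMod (n + 3))

/-- the limit function of a family of grid functions -/
noncomputable def lf (f : Fam) (y t : ℝ) : ℝ := ulim (fun n => f n t (idx n y))

/-- The jet of a solution of `v_tt = - lam (1/(1+v_yy))_yy` on `ℝ × [0,1]`:
`F k = ∂_y^k v`, `H k = ∂_y^k v_t`, `Z k = ∂_y^k (1/(1+v_yy))`. -/
structure Jet (lam : ℝ) (F H Z : ℕ → ℝ → ℝ → ℝ) : Prop where
  Fy : ∀ k y, ∀ t ∈ Icc (0 : ℝ) 1, HasDerivAt (fun y => F k y t) (F (k + 1) y t) y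
  Ft : ∀ k y, ∀ t ∈ Icc (0 : ℝ) 1,
    HasDerivWithinAt (fun t => F k y t) (H k y t) (Icc 0 1) t
  Hy : ∀ k y, ∀ t ∈ Icc (0 : ℝ) 1, HasDerivAt (fun y => H k y t) (H (k + 1) y t) y
  Ht : ∀ k y, ∀ t ∈ Icc (0 : ℝ) 1,
    HasDerivWithinAt (fun t => H k y t) (- lam * Z (k + 2) y t) (Icc 0 1) t
  Zy : ∀ k y, ∀ t ∈ Icc (0 : ℝ) 1, HasDerivAt (fun y => Z k y t) (Z (k + 1) y t) y
  Z0 : ∀ y, ∀ t ∈ Icc (0 : ℝ) 1, Z 0 y t = (1 + F 2 y t)⁻¹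
  pos : ∃ c : ℝ, 0 < c ∧ ∀ y, ∀ t ∈ Icc (0 : ℝ) 1, c ≤ 1 + F 2 y t
  perF : ∀ k y t, F k (y + 1) t = F k y t
  perH : ∀ k y t, H k (y + 1) t = H k y t
  cF : ∀ k, ContinuousOn (fun p : ℝ × ℝ => F k p.1 p.2) (univ ×ˢ Icc 0 1)
  cH : ∀ k, ContinuousOn (fun p : ℝ × ℝ => H k p.1 p.2) (univ ×ˢ Icc 0 1)
  cZ : ∀ k, ContinuousOn (fun p : ℝ × ℝ => Z k p.1 p.2) (univ ×ˢ Icc 0 1)

end Pool.Agent.H37.DP
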