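import Mathlib

/-!
MODULE UE: smoothness on the closed strip `S = ℝ × [0,1]` from partial derivatives.

PROOF.  `HasFDerivWithinAt f (fy p • fst + ft p • snd) S p`: for `q ∈ S` near `p`,
`f q - f p = (f (q.1, q.2) - f (p.1, q.2)) + (f (p.1, q.2) - f (p.1, p.2))`; the first bracket is
`(q.1 - p.1) fy (ξ, q.2)` (mean value theorem in `y`) and `fy` is continuous on `S` at `p`; the
second one is `(q.2 - p.2) ft p + o(|q.2 - p.2|)`.
Then `contDiffOn_succ_iff_hasFDerivWithinAt`-type lemma (`S` is convex with nonempty interior,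
so it has unique derivatives: `UniqueDiffOn.prod uniqueDiffOn_univ (uniqueDiffOn_Icc zero_lt_one)`).
-/

namespace Pool.Agent.H37.DP

open Set Filter Topology
open scoped ContDiff

private theorem ue_first {f fy : ℝ × ℝ → ℝ}
    (hy : ∀ p ∈ (univ : Set ℝ) ×ˢ Icc (0 : ℝ) 1, HasDerivAt (fun y => f (y, p.2)) (fy p) p.1)
    (cy : ContinuousOn fy (univ ×ˢ Icc 0 1)) {p : ℝ × ℝ}
    (hp : p ∈ (univ : Set ℝ) ×ˢ Icc (0 : ℝ) 1) :
    HasFDerivWithinAt (fun q : ℝ × ℝ => f q - f (p.1, q.2))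
      (fy p • ContinuousLinearMap.fst ℝ ℝ ℝ) (univ ×ˢ Icc 0 1) p := by
  rw [hasFDerivWithinAt_iff_isLittleO, Asymptotics.isLittleO_iff]
  intro ε hε
  have h1 := Metric.continuousWithinAt_iff.1 (cy p hp) ε hε
  obtain ⟨δ, hδ, h2⟩ := h1
  have h3 : ∀ᶠ q in 𝓝[(univ : Set ℝ) ×ˢ Icc (0 : ℝ) 1] p,
      q ∈ Metric.ball p δ ∩ ((univ : Set ℝ) ×ˢ Icc (0 : ℝ) 1) := by
    rw [inter_comm]
    exact inter_mem_nhdsWithin _ (Metric.ball_mem_nhds p hδ)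
  filter_upwards [h3] with q hq
  obtain ⟨hqb, hqS⟩ := hq
  have hq2 : q.2 ∈ Icc (0 : ℝ) 1 := hqS.2
  rw [Metric.mem_ball, Prod.dist_eq, max_lt_iff] at hqb
  -- the function h(y) = f (y, q.2) - fy p * y on the ball
  have hder : ∀ y ∈ Metric.ball p.1 δ,
      HasDerivWithinAt (fun y => f (y, q.2) - fy p * y) (fy (y, q.2) - fy p)
        (Metric.ball p.1 δ) y := by
    intro y _
    have ha : HasDerivAt (fun y => f (y, q.2)) (fy (y, q.2)) y := hy (y, q.2) ⟨mem_univ _, hq2⟩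
    have hb : HasDerivAt (fun y : ℝ => fy p * y) (fy p) y := by
      simpa using (hasDerivAt_id y).const_mul (fy p)
    exact (ha.sub hb).hasDerivWithinAt
  have hbound : ∀ y ∈ Metric.ball p.1 δ, ‖fy (y, q.2) - fy p‖ ≤ ε := by
    intro y hy'
    have h4 := h2 (show (y, q.2) ∈ (univ : Set ℝ) ×ˢ Icc (0 : ℝ) 1 from ⟨mem_univ _, hq2⟩) (by
      rw [Prod.dist_eq, max_lt_iff]
      exact ⟨hy', hqb.2⟩)
    rw [Real.dist_eq] at h4
    rw [Real.norm_eq_abs]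
    exact h4.le
  have h5 := Convex.norm_image_sub_le_of_norm_hasDerivWithin_le hder hbound
    (convex_ball p.1 δ) (Metric.mem_ball_self hδ) (show q.1 ∈ Metric.ball p.1 δ from hqb.1)
  have h6 : (f q - f (p.1, q.2)) - (f p - f (p.1, p.2)) -
      (fy p • ContinuousLinearMap.fst ℝ ℝ ℝ) (q - p) =
      (f (q.1, q.2) - fy p * q.1) - (f (p.1, q.2) - fy p * p.1) := by
    have e1 : f p - f (p.1, p.2) = 0 := sub_self _
    rw [e1]
    simp only [smul_apply, ContinuousLinearMap.coe_fst', Prod.fst_sub,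
      smul_eq_mul]
    ring
  rw [h6]
  refine h5.trans ?_
  apply mul_le_mul_of_nonneg_left _ hε.le
  exact norm_fst_le (q - p)

theorem hasFDerivWithinAt_of_partials {f fy ft : ℝ × ℝ → ℝ}
    (hy : ∀ p ∈ (univ : Set ℝ) ×ˢ Icc (0 : ℝ) 1, HasDerivAt (fun y => f (y, p.2)) (fy p) p.1)
    (ht : ∀ p ∈ (univ : Set ℝ) ×ˢ Icc (0 : ℝ) 1,
      HasDerivWithinAt (fun t => f (p.1, t)) (ft p) (Icc 0 1) p.2)
    (cy : ContinuousOn fy (univ ×ˢ Icc 0 1)) {p : ℝ × ℝ}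
    (hp : p ∈ (univ : Set ℝ) ×ˢ Icc (0 : ℝ) 1) :
    HasFDerivWithinAt f (fy p • ContinuousLinearMap.fst ℝ ℝ ℝ +
      ft p • ContinuousLinearMap.snd ℝ ℝ ℝ) (univ ×ˢ Icc 0 1) p := by
  have h1 := ue_first hy cy hp
  have h2 : HasFDerivWithinAt (fun q : ℝ × ℝ => f (p.1, q.2))
      (ft p • ContinuousLinearMap.snd ℝ ℝ ℝ) (univ ×ˢ Icc 0 1) p := by
    have h3 : HasDerivWithinAt (fun t => f (p.1, t)) (ft p) (Icc 0 1) (Prod.snd p) := ht p hp
    have h4 : HasFDerivWithinAt (Prod.snd : ℝ × ℝ → ℝ) (ContinuousLinearMap.snd ℝ ℝ ℝ)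
        (univ ×ˢ Icc 0 1) p := hasFDerivWithinAt_snd
    have h5 := h3.comp_hasFDerivWithinAt p h4 (fun q hq => hq.2)
    exact h5
  have h6 := h1.add h2
  have h7 : ((fun q : ℝ × ℝ => f q - f (p.1, q.2)) + fun q : ℝ × ℝ => f (p.1, q.2)) = f := by
    funext q
    simp
  rw [h7] at h6
  exact h6

theorem contDiffOn_succ_of_partials (n : ℕ) {f fy ft : ℝ × ℝ → ℝ}
    (hy : ∀ p ∈ (univ : Set ℝ) ×ˢ Icc (0 : ℝ) 1, HasDerivAt (fun y => f (y, p.2)) (fy p) p.1)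
    (ht : ∀ p ∈ (univ : Set ℝ) ×ˢ Icc (0 : ℝ) 1,
      HasDerivWithinAt (fun t => f (p.1, t)) (ft p) (Icc 0 1) p.2)
    (cy : ContDiffOn ℝ n fy (univ ×ˢ Icc 0 1)) (ct : ContDiffOn ℝ n ft (univ ×ˢ Icc 0 1)) :
    ContDiffOn ℝ (n + 1) f (univ ×ˢ Icc 0 1) := by
  have hs : UniqueDiffOn ℝ ((univ : Set ℝ) ×ˢ Icc (0 : ℝ) 1) :=
    uniqueDiffOn_univ.prod (uniqueDiffOn_Icc zero_lt_one)
  rw [contDiffOn_succ_iff_hasFDerivWithinAt_of_uniqueDiffOn hs]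
  refine ⟨fun h => absurd h (by simp), fun p => fy p • ContinuousLinearMap.fst ℝ ℝ ℝ +
      ft p • ContinuousLinearMap.snd ℝ ℝ ℝ, ?_, ?_⟩
  · exact (cy.smul contDiffOn_const).add (ct.smul contDiffOn_const)
  · intro p hp
    exact hasFDerivWithinAt_of_partials hy ht cy.continuousOn hp

end Pool.Agent.H37.DP
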