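import Pool.Agent.H37.DP.UDefs
import Pool.Agent.H37.DP.UE

/-!
MODULE UF: the jet functions are smooth on `S = ℝ × [0,1]`.

PROOF.  Let `A` be the set of functions on `ℝ × ℝ` obtained as polynomials in the `F j` and
`Z 0` (e.g. `Algebra.adjoin ℝ`, or an inductive predicate closed under constants, sums, products).
(i) For every `u ∈ A` there is `u' ∈ A` with `HasDerivAt (fun y => u (y,t)) (u' (y,t)) y` for
`t ∈ [0,1]`: for `F j` it is `F (j+1)`, for `Z 0 = 1/(1+F 2)` it is `- F 3 (Z 0)²`; sums, products.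
(ii) For every `k` there is `u ∈ A` with `Z k = u` on `S`: induction with `Zy` and uniqueness of
derivatives (`Z (k+1) = ∂_y Z k = ∂_y u` on `S`; the set of `y` is all of `ℝ`).
(iii) For every natural `n`: all `F k`, `H k` are `C^n` on `S`.  `n = 0`: `cF`, `cH`.
`n → n+1`: `Z 0 = (1 + F 2)⁻¹` is `C^n` (positivity `pos`), hence all `Z k` by (ii), and
`contDiffOn_succ_of_partials` with (`Fy`, `Ft`) resp. (`Hy`, `Ht`).
Finally `C^∞` = all `C^n` (`contDiffOn_infty`).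
-/

namespace Pool.Agent.H37.DP

open Set Filter Topology
open scoped ContDiff

private inductive UFA (F : ℕ → ℝ → ℝ → ℝ) (z : ℝ → ℝ → ℝ) : (ℝ → ℝ → ℝ) → Prop
  | const (c : ℝ) : UFA F z (fun _ _ => c)
  | F (j : ℕ) : UFA F z (F j)
  | Z : UFA F z z
  | add {u w : ℝ → ℝ → ℝ} : UFA F z u → UFA F z w → UFA F z (fun y t => u y t + w y t)
  | mul {u w : ℝ → ℝ → ℝ} : UFA F z u → UFA F z w → UFA F z (fun y t => u y t * w y t)

private lemma uf_deriv {lam : ℝ} {F H Z : ℕ → ℝ → ℝ → ℝ} (h : Jet lam F H Z)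
    {u : ℝ → ℝ → ℝ} (hu : UFA F (Z 0) u) :
    ∃ u' : ℝ → ℝ → ℝ, UFA F (Z 0) u' ∧
      ∀ y, ∀ t ∈ Icc (0 : ℝ) 1, HasDerivAt (fun y => u y t) (u' y t) y := by
  induction hu with
  | const c => exact ⟨fun _ _ => 0, .const 0, fun y t _ => hasDerivAt_const y c⟩
  | F j => exact ⟨F (j + 1), .F (j + 1), fun y t ht => h.Fy j y t ht⟩
  | Z =>
    refine ⟨fun y t => (-1 * F 3 y t) * (Z 0 y t * Z 0 y t),
      .mul (.mul (.const (-1)) (.F 3)) (.mul .Z .Z), fun y t ht => ?_⟩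
    obtain ⟨c, hc, hpos⟩ := h.pos
    have hne : 1 + F 2 y t ≠ 0 := by have := hpos y t ht; intro h0; linarith
    have h1 : HasDerivAt (fun y => 1 + F 2 y t) (F 3 y t) y := (h.Fy 2 y t ht).const_add 1
    have h2 := h1.inv hne
    have h3 : (fun y => Z 0 y t) = (fun y => 1 + F 2 y t)⁻¹ := by
      funext y'
      exact h.Z0 y' t ht
    have h4 : (-1 * F 3 y t) * (Z 0 y t * Z 0 y t) = -F 3 y t / (1 + F 2 y t) ^ 2 := by
      rw [h.Z0 y t ht]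
      field_simp
    show HasDerivAt (fun y => Z 0 y t) ((-1 * F 3 y t) * (Z 0 y t * Z 0 y t)) y
    rw [h3, h4]
    exact h2
  | add _ _ ih1 ih2 =>
    obtain ⟨u1, hu1, hd1⟩ := ih1
    obtain ⟨w1, hw1, hd2⟩ := ih2
    exact ⟨_, .add hu1 hw1, fun y t ht => (hd1 y t ht).add (hd2 y t ht)⟩
  | mul h1 h2 ih1 ih2 =>
    obtain ⟨u1, hu1, hd1⟩ := ih1
    obtain ⟨w1, hw1, hd2⟩ := ih2
    exact ⟨_, .add (.mul hu1 h2) (.mul h1 hw1), fun y t ht => (hd1 y t ht).mul (hd2 y t ht)⟩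

private lemma uf_Z {lam : ℝ} {F H Z : ℕ → ℝ → ℝ → ℝ} (h : Jet lam F H Z) (k : ℕ) :
    ∃ u : ℝ → ℝ → ℝ, UFA F (Z 0) u ∧ ∀ y, ∀ t ∈ Icc (0 : ℝ) 1, Z k y t = u y t := by
  induction k with
  | zero => exact ⟨Z 0, .Z, fun _ _ _ => rfl⟩
  | succ k ih =>
    obtain ⟨u, hu, he⟩ := ih
    obtain ⟨u', hu', hd⟩ := uf_deriv h hu
    refine ⟨u', hu', fun y t ht => ?_⟩
    have h1 := h.Zy k y t ht
    have h2 : (fun y => Z k y t) = fun y => u y t := by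
      funext y'
      exact he y' t ht
    rw [h2] at h1
    exact h1.unique (hd y t ht)

private lemma uf_smooth {F : ℕ → ℝ → ℝ → ℝ} {z : ℝ → ℝ → ℝ} {n : ℕ}
    (hF : ∀ k, ContDiffOn ℝ n (fun p : ℝ × ℝ => F k p.1 p.2) (univ ×ˢ Icc 0 1))
    (hz : ContDiffOn ℝ n (fun p : ℝ × ℝ => z p.1 p.2) (univ ×ˢ Icc 0 1))
    {u : ℝ → ℝ → ℝ} (hu : UFA F z u) :
    ContDiffOn ℝ n (fun p : ℝ × ℝ => u p.1 p.2) (univ ×ˢ Icc 0 1) := by
  induction hu with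
  | const c => exact contDiffOn_const
  | F j => exact hF j
  | Z => exact hz
  | add _ _ ih1 ih2 => exact ih1.add ih2
  | mul _ _ ih1 ih2 => exact ih1.mul ih2

private lemma uf_Zk {lam : ℝ} {F H Z : ℕ → ℝ → ℝ → ℝ} (h : Jet lam F H Z) {n : ℕ}
    (hF : ∀ k, ContDiffOn ℝ n (fun p : ℝ × ℝ => F k p.1 p.2) (univ ×ˢ Icc 0 1)) (k : ℕ) :
    ContDiffOn ℝ n (fun p : ℝ × ℝ => Z k p.1 p.2) (univ ×ˢ Icc 0 1) := by
  obtain ⟨c, hc, hpos⟩ := h.pos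
  have hz : ContDiffOn ℝ n (fun p : ℝ × ℝ => Z 0 p.1 p.2) (univ ×ˢ Icc 0 1) := by
    have h1 : ContDiffOn ℝ n (fun p : ℝ × ℝ => (1 + F 2 p.1 p.2)⁻¹) (univ ×ˢ Icc 0 1) := by
      refine ContDiffOn.inv (contDiffOn_const.add (hF 2)) ?_
      rintro ⟨y, t⟩ ⟨-, ht⟩
      have := hpos y t ht
      intro h0
      have h1 : 1 + F 2 y t = 0 := h0
      linarith
    refine h1.congr ?_
    rintro ⟨y, t⟩ ⟨-, ht⟩
    exact h.Z0 y t ht
  obtain ⟨u, hu, he⟩ := uf_Z h k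
  refine (uf_smooth hF hz hu).congr ?_
  rintro ⟨y, t⟩ ⟨-, ht⟩
  exact he y t ht

private lemma uf_FH {lam : ℝ} {F H Z : ℕ → ℝ → ℝ → ℝ} (h : Jet lam F H Z) (n : ℕ) :
    ∀ k, ContDiffOn ℝ n (fun p : ℝ × ℝ => F k p.1 p.2) (univ ×ˢ Icc 0 1) ∧
      ContDiffOn ℝ n (fun p : ℝ × ℝ => H k p.1 p.2) (univ ×ˢ Icc 0 1) := by
  induction n with
  | zero =>
    intro k
    refine ⟨?_, ?_⟩
    · rw [Nat.cast_zero, contDiffOn_zero]; exact h.cF k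
    · rw [Nat.cast_zero, contDiffOn_zero]; exact h.cH k
  | succ n ih =>
    intro k
    have hZ := uf_Zk h (fun k => (ih k).1)
    refine ⟨?_, ?_⟩
    · rw [Nat.cast_succ]
      refine contDiffOn_succ_of_partials n (fy := fun p => F (k + 1) p.1 p.2)
        (ft := fun p => H k p.1 p.2) ?_ ?_ (ih (k + 1)).1 (ih k).2
      · rintro ⟨y, t⟩ ⟨-, ht⟩
        exact h.Fy k y t ht
      · rintro ⟨y, t⟩ ⟨-, ht⟩
        exact h.Ft k y t ht
    · rw [Nat.cast_succ]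
      refine contDiffOn_succ_of_partials n (fy := fun p => H (k + 1) p.1 p.2)
        (ft := fun p => -lam * Z (k + 2) p.1 p.2) ?_ ?_ (ih (k + 1)).2
        (contDiffOn_const.mul (hZ (k + 2)))
      · rintro ⟨y, t⟩ ⟨-, ht⟩
        exact h.Hy k y t ht
      · rintro ⟨y, t⟩ ⟨-, ht⟩
        exact h.Ht k y t ht

theorem Jet.smooth {lam : ℝ} {F H Z : ℕ → ℝ → ℝ → ℝ} (h : Jet lam F H Z) (k : ℕ) :
    ContDiffOn ℝ ∞ (fun p : ℝ × ℝ => F k p.1 p.2) (univ ×ˢ Icc 0 1) ∧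
      ContDiffOn ℝ ∞ (fun p : ℝ × ℝ => H k p.1 p.2) (univ ×ˢ Icc 0 1) ∧
      ContDiffOn ℝ ∞ (fun p : ℝ × ℝ => Z k p.1 p.2) (univ ×ˢ Icc 0 1) := by
  refine ⟨contDiffOn_infty.2 fun n => (uf_FH h n k).1,
    contDiffOn_infty.2 fun n => (uf_FH h n k).2,
    contDiffOn_infty.2 fun n => uf_Zk h (fun k => (uf_FH h n k).1) k⟩

end Pool.Agent.H37.DP
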